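import Mathlib

/-!
# LG-C01: assignment of the edges of a forest to endpoints

`F = FreeGroup β` acts freely on `𝒳`.  Choose a representative `r(x)` of each orbit, with
`r = x₀` on the orbit of `x₀` (`MulAction.orbitRel`, `Quotient.out`, modified on one class); let
`g x` be the unique element with `g x • r(x) = x`; so `g (h • x) = h * g x`, `g x₀ = 1`.
For an edge `p = (y, x)` (joining `x` and `b_y • x`): `a p = b_y • x` if the reduced word of
`b_y * g x` starts with `(y, true)`, else `a p = x`; in the second case the reduced word of `g x`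
starts with `(y, false)` (if the reduced word of `g x` does not start with `(y, false)` then the
reduced word of `b_y * g x` is `(y, true) :: toWord (g x)`; `FreeGroup.toWord_mul`/`reduce.cons`).
So `g (a p) ≠ 1` always, hence `a p ≠ x₀`; and the first letter of `g (a p)` determines `p`:
`(y, true)`: `p = (y, b_y⁻¹ • a p)`, `(y, false)`: `p = (y, a p)`.
-/

set_option linter.unusedSectionVars false

namespace LT

private theorem c01t_cons {β : Type*} [DecidableEq β] (y : β) {x : FreeGroup β}
    (hx : ∀ z ∈ x.toWord.head?, y = z.1 → true = z.2) :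
    (FreeGroup.of y * x).toWord = (y, true) :: x.toWord := by
  have h : FreeGroup.of y = FreeGroup.mk [(y, true)] := rfl
  rw [h, FreeGroup.toWord_mul, FreeGroup.toWord_mk, FreeGroup.reduce_singleton]
  exact FreeGroup.IsReduced.reduce_eq
    (List.isChain_cons.mpr ⟨hx, FreeGroup.isReduced_toWord⟩)

private theorem c01t_exists {G : Type*} [Group G] {𝒳 : Type*} [MulAction G 𝒳]
    (hfree : ∀ (x : 𝒳) (g : G), g • x = x → g = 1) (x₀ : 𝒳) :
    ∃ g : 𝒳 → G, g x₀ = 1 ∧ ∀ h x, g (h • x) = h * g x := by
  classical
  let q : 𝒳 → Quotient (MulAction.orbitRel G 𝒳) := fun x => Quotient.mk _ x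
  let r : 𝒳 → 𝒳 := fun x => if q x = q x₀ then x₀ else Quotient.out (q x)
  have hr : ∀ x, ∃ g : G, g • r x = x := by
    intro x
    by_cases h : q x = q x₀
    · have h1 : r x = x₀ := if_pos h
      rw [h1]
      exact Quotient.exact h
    · have h1 : r x = Quotient.out (q x) := if_neg h
      rw [h1]
      exact Quotient.exact (Quotient.out_eq (q x)).symm
  have hq : ∀ (h : G) (x : 𝒳), q (h • x) = q x := fun h x =>
    Quotient.sound ⟨h, rfl⟩
  have hrr : ∀ (h : G) (x : 𝒳), r (h • x) = r x := by
    intro h x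
    change (if q (h • x) = q x₀ then x₀ else Quotient.out (q (h • x))) =
      if q x = q x₀ then x₀ else Quotient.out (q x)
    rw [hq]
  choose g hg using hr
  have hu : ∀ (x : 𝒳) (a b : G), a • r x = b • r x → a = b := by
    intro x a b hab
    have h1 : (b⁻¹ * a) • r x = r x := by
      rw [mul_smul, hab, inv_smul_smul]
    exact (inv_mul_eq_one.mp (hfree _ _ h1)).symm
  refine ⟨g, ?_, ?_⟩
  · have h1 : r x₀ = x₀ := if_pos rfl
    have h2 := hg x₀
    rw [h1] at h2
    exact hfree _ _ h2
  · intro h x
    apply hu x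
    have h1 := hg (h • x)
    rw [hrr] at h1
    rw [h1, mul_smul, hg]

theorem tree_assign {β : Type*} [DecidableEq β] {𝒳 : Type*} [MulAction (FreeGroup β) 𝒳]
    (hfree : ∀ (x : 𝒳) (g : FreeGroup β), g • x = x → g = 1) (x₀ : 𝒳) :
    ∃ a : β × 𝒳 → 𝒳, Function.Injective a ∧ (∀ p, a p ≠ x₀) ∧
      ∀ p, a p = p.2 ∨ a p = FreeGroup.of p.1 • p.2 := by
  classical
  obtain ⟨g, hg0, hg⟩ := c01t_exists hfree x₀
  let a : β × 𝒳 → 𝒳 := fun p =>
    if (FreeGroup.of p.1 * g p.2).toWord.head? = some (p.1, true) then FreeGroup.of p.1 • p.2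
    else p.2
  have key : ∀ p, (a p = FreeGroup.of p.1 • p.2 ∧ (g (a p)).toWord.head? = some (p.1, true)) ∨
      (a p = p.2 ∧ (g (a p)).toWord.head? = some (p.1, false)) := by
    intro p
    by_cases h : (FreeGroup.of p.1 * g p.2).toWord.head? = some (p.1, true)
    · left
      have h1 : a p = FreeGroup.of p.1 • p.2 := if_pos h
      refine ⟨h1, ?_⟩
      rw [h1, hg, h]
    · right
      have h1 : a p = p.2 := if_neg h
      refine ⟨h1, ?_⟩
      rw [h1]
      by_contra h2
      apply h
      rw [c01t_cons]
      · rfl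
      · intro z hz hz1
        by_contra h3
        apply h2
        have h4 : z.2 = false := by
          cases h5 : z.2
          · rfl
          · exact absurd h5.symm h3
        have h6 : z = (p.1, false) := Prod.ext hz1.symm h4
        rw [← h6]
        exact hz
  refine ⟨a, ?_, ?_, ?_⟩
  · intro p p' h
    rcases key p with ⟨h1, h2⟩ | ⟨h1, h2⟩ <;> rcases key p' with ⟨h1', h2'⟩ | ⟨h1', h2'⟩
    · rw [h, h2'] at h2
      have h3 := Option.some.inj h2
      have h4 : p'.1 = p.1 := (Prod.mk.inj h3).1
      rw [h1, h1', h4] at h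
      exact Prod.ext h4.symm (smul_left_cancel _ h)
    · rw [h, h2'] at h2
      have h3 := congrArg Prod.snd (Option.some.inj h2)
      simp at h3
    · rw [h, h2'] at h2
      have h3 := congrArg Prod.snd (Option.some.inj h2)
      simp at h3
    · rw [h, h2'] at h2
      have h3 := Option.some.inj h2
      have h4 : p'.1 = p.1 := (Prod.mk.inj h3).1
      rw [h1, h1'] at h
      exact Prod.ext h4.symm h
  · intro p hp
    rcases key p with ⟨h1, h2⟩ | ⟨h1, h2⟩
    · rw [hp, hg0, FreeGroup.toWord_one] at h2
      simp at h2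
    · rw [hp, hg0, FreeGroup.toWord_one] at h2
      simp at h2
  · intro p
    rcases key p with ⟨h1, h2⟩ | ⟨h1, h2⟩
    · exact Or.inr h1
    · exact Or.inl h1

end LT
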