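import Pool.Agent.H29.LG.G10

/-!
# LG-G14: the combinatorial lower bound for `log θ(A) - ∑_y log θ(G_y)`

Let `n = card ι`, `K = 4 (n+1) log 2`, `w = exp (-K) = gw A m₀` the largest weight of a nonzero
vector, `a₀ = θ(A) - 1 = ∑_{m ≠ 0} gw A m`.
(1) `∑_y (θ(G_y) - 1) + w ≤ a₀`: the weights `gw (G_y) χ ≤ gw A (a (y, χ))` and `a` is injective with
    values in the nonzero vectors different from `m₀`.
(2) `a₀ ≤ exp (-3K/4) θ(A/4)`: `gw A m = gw (A/4) m * exp (-(3/4) π qf A m)` and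
    `π qf A m ≥ K` for `m ≠ 0`.  With `th_quarter`: `a₀ ≤ ε (1 + a₀)`, `ε = 2^n exp (-3K/4) =
    2^n 2^{-3(n+1)} = 2^{-2n-3} ≤ 1/2`, so `a₀ ≤ 2 ε = 2^{-2n-2}` and
    `a₀² /2 ≤ 2^{-4n-5} = w/2` (`w = 2^{-4(n+1)}`).
(3) `log (1 + a₀) ≥ a₀ - a₀²/2` and `log θ(G_y) ≤ θ(G_y) - 1`, so the difference is
    `≥ a₀ - a₀²/2 - (a₀ - w) ≥ w/2 = 2^{-4n-5}`.
-/

set_option linter.unusedSectionVars false

namespace LT

open scoped Matrix

variable {β : Type*} [Fintype β] {κ : β → Type*} [∀ y, Fintype (κ y)] [∀ y, DecidableEq (κ y)]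
variable {ι : Type*} [Fintype ι] [DecidableEq ι]

private theorem g14_gw_nonneg {μ : Type*} [Fintype μ] (A : Matrix μ μ ℝ) (x : μ → ℝ) :
    0 ≤ gw A x := (Real.exp_pos _).le

private theorem g14_gw_zero {μ : Type*} [Fintype μ] (A : Matrix μ μ ℝ) :
    gw A (cz (0 : μ → ℤ)) = 1 := by
  have h : cz (0 : μ → ℤ) = 0 := by
    funext i
    simp [cz]
  rw [h]
  simp [gw, qf]

private theorem g14_th_eq {μ : Type*} [Fintype μ] [DecidableEq μ] {A : Matrix μ μ ℝ}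
    (hA : A.PosDef) :
    th A = 1 + ∑' χ : {χ : μ → ℤ // χ ≠ 0}, gw A (cz χ.1) := by
  have h := (summable_gw hA).tsum_subtype_add_tsum_subtype_compl ({0} : Set (μ → ℤ))
  have h2 : ∑' x : ({0} : Set (μ → ℤ)), gw A (cz (x : μ → ℤ)) = 1 := by
    rw [tsum_singleton (0 : μ → ℤ) (fun m => gw A (cz m)), g14_gw_zero]
  rw [h2] at h
  exact h.symm

private theorem g14_gw_le {μ ν : Type*} [Fintype μ] [Fintype ν] {A : Matrix μ μ ℝ}
    {B : Matrix ν ν ℝ} {x : μ → ℝ} {y : ν → ℝ} (h : qf A x ≤ qf B y) : gw B y ≤ gw A x := by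
  unfold gw
  refine Real.exp_le_exp.2 ?_
  have := mul_le_mul_of_nonneg_left h Real.pi_pos.le
  linarith

/-- step (1) -/
private theorem g14_step1 {A : Matrix ι ι ℝ} (hA : A.PosDef) {G : ∀ y, Matrix (κ y) (κ y) ℝ}
    (hG : ∀ y, (G y).PosDef) {m₀ : ι → ℤ} (hm₀ : m₀ ≠ 0)
    {a : (Σ y, {χ : κ y → ℤ // χ ≠ 0}) → (ι → ℤ)} (ha : Function.Injective a)
    (ha0 : ∀ e, a e ≠ 0 ∧ a e ≠ m₀) (hle : ∀ e, qf A (cz (a e)) ≤ qf (G e.1) (cz e.2.1)) :
    ∑ y, (th (G y) - 1) + gw A (cz m₀) ≤ th A - 1 := by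
  classical
  have hsA := summable_gw hA
  have hsE : Summable fun e : (Σ y, {χ : κ y → ℤ // χ ≠ 0}) => gw (G e.1) (cz e.2.1) :=
    Summable.of_nonneg_of_le (fun e => g14_gw_nonneg _ _) (fun e => g14_gw_le (hle e))
      (hsA.comp_injective ha)
  -- the sum over the messages
  have h1 : ∑ y, (th (G y) - 1)
      = ∑' e : (Σ y, {χ : κ y → ℤ // χ ≠ 0}), gw (G e.1) (cz e.2.1) := by
    rw [hsE.tsum_sigma, tsum_fintype]
    refine Finset.sum_congr rfl fun y _ => ?_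
    rw [g14_th_eq (hG y)]
    simp
  -- remove `0` and `m₀`
  set f : (ι → ℤ) → ℝ := fun m => if m = 0 then 0 else gw A (cz m) with hf
  have hf0 : ∀ m, 0 ≤ f m := by
    intro m
    simp only [hf]
    split_ifs
    · exact le_rfl
    · exact g14_gw_nonneg _ _
  have hfle : ∀ m, f m ≤ gw A (cz m) := by
    intro m
    simp only [hf]
    split_ifs
    · exact g14_gw_nonneg _ _
    · exact le_rfl
  have hfs : Summable f := Summable.of_nonneg_of_le hf0 hfle hsA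
  have h2 : th A = 1 + ∑' m, f m := by
    unfold th
    rw [hsA.tsum_eq_add_tsum_ite (0 : ι → ℤ), g14_gw_zero]
  set g : (ι → ℤ) → ℝ := fun m => if m = m₀ then 0 else f m with hg
  have hg0 : ∀ m, 0 ≤ g m := by
    intro m
    simp only [hg]
    split_ifs
    · exact le_rfl
    · exact hf0 m
  have hgle : ∀ m, g m ≤ f m := by
    intro m
    simp only [hg]
    split_ifs
    · exact hf0 m
    · exact le_rfl
  have hgs : Summable g := Summable.of_nonneg_of_le hg0 hgle hfs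
  have h3 : ∑' m, f m = gw A (cz m₀) + ∑' m, g m := by
    rw [hfs.tsum_eq_add_tsum_ite m₀]
    simp only [hf, if_neg hm₀]
    rfl
  have h4 : ∀ e, gw (G e.1) (cz e.2.1) ≤ g (a e) := by
    intro e
    have h5 : g (a e) = gw A (cz (a e)) := by
      simp only [hg, hf, if_neg (ha0 e).1, if_neg (ha0 e).2]
    rw [h5]
    exact g14_gw_le (hle e)
  have h6 : ∑' e : (Σ y, {χ : κ y → ℤ // χ ≠ 0}), gw (G e.1) (cz e.2.1) ≤ ∑' m, g m :=
    le_trans (hsE.tsum_le_tsum h4 (hgs.comp_injective ha))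
      (tsum_comp_le_tsum_of_inj hgs hg0 ha)
  rw [h1, h2, h3]
  linarith

/-- step (2) -/
private theorem g14_step2 {A : Matrix ι ι ℝ} (hA : A.PosDef) {K : ℝ}
    (hK : ∀ m : ι → ℤ, m ≠ 0 → K ≤ Real.pi * qf A (cz m)) :
    th A - 1 ≤ Real.exp (-(3 / 4 * K)) * (2 ^ Fintype.card ι * th A) := by
  have hq : ((1 / 4 : ℝ) • A).PosDef := hA.smul (by norm_num)
  have hsq := summable_gw hq
  have h1 := g14_th_eq hA
  have h2 : ∑' χ : {χ : ι → ℤ // χ ≠ 0}, gw A (cz χ.1)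
      ≤ ∑' χ : {χ : ι → ℤ // χ ≠ 0}, Real.exp (-(3 / 4 * K)) * gw ((1 / 4 : ℝ) • A) (cz χ.1) := by
    refine Summable.tsum_le_tsum (fun χ => ?_)
      ((summable_gw hA).comp_injective Subtype.val_injective)
      ((hsq.comp_injective Subtype.val_injective).mul_left _)
    have h3 := hK χ.1 χ.2
    unfold gw
    rw [← Real.exp_add, qf_smul]
    refine Real.exp_le_exp.2 ?_
    linarith
  have h4 : ∑' χ : {χ : ι → ℤ // χ ≠ 0}, gw ((1 / 4 : ℝ) • A) (cz χ.1)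
      ≤ th ((1 / 4 : ℝ) • A) := by
    have h5 := g14_th_eq hq
    linarith
  rw [tsum_mul_left] at h2
  have h6 := th_quarter hA
  have he := (Real.exp_pos (-(3 / 4 * K))).le
  have h7 := mul_le_mul_of_nonneg_left (h4.trans h6) he
  linarith

private theorem g14_exp_nat (k : ℕ) : Real.exp (-((k : ℝ) * Real.log 2)) = (1 / 2 : ℝ) ^ k := by
  have h : -((k : ℝ) * Real.log 2) = (k : ℝ) * Real.log (1 / 2) := by
    rw [one_div, Real.log_inv]
    ring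
  rw [h, Real.exp_nat_mul, Real.exp_log (by norm_num)]

theorem lam_lower {A : Matrix ι ι ℝ} (hA : A.PosDef) {G : ∀ y, Matrix (κ y) (κ y) ℝ}
    (hG : ∀ y, (G y).PosDef) {m₀ : ι → ℤ} (hm₀ : m₀ ≠ 0)
    (hmin : ∀ m : ι → ℤ, m ≠ 0 → qf A (cz m₀) ≤ qf A (cz m))
    {a : (Σ y, {χ : κ y → ℤ // χ ≠ 0}) → (ι → ℤ)} (ha : Function.Injective a)
    (ha0 : ∀ e, a e ≠ 0 ∧ a e ≠ m₀) (hle : ∀ e, qf A (cz (a e)) ≤ qf (G e.1) (cz e.2.1))
    (hK : Real.pi * qf A (cz m₀) = 4 * (Fintype.card ι + 1) * Real.log 2) :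
    (1 / 2 : ℝ) ^ (4 * Fintype.card ι + 5) ≤
      Real.log (th A) - ∑ y, Real.log (th (G y)) := by
  set n := Fintype.card ι with hn
  have hw : gw A (cz m₀) = (1 / 2 : ℝ) ^ (4 * n + 4) := by
    unfold gw
    rw [hK, ← g14_exp_nat]
    congr 2
    push_cast
    ring
  have h1 := g14_step1 hA hG hm₀ ha ha0 hle
  have h2 := g14_step2 hA (K := 4 * (n + 1) * Real.log 2) (by
    intro m hm
    rw [← hK]
    exact mul_le_mul_of_nonneg_left (hmin m hm) Real.pi_pos.le)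
  have h3 : Real.exp (-(3 / 4 * (4 * ((n : ℝ) + 1) * Real.log 2))) = (1 / 2 : ℝ) ^ (3 * n + 3) := by
    rw [← g14_exp_nat]
    congr 2
    push_cast
    ring
  rw [h3] at h2
  set a₀ := th A - 1 with ha₀
  have ha0nn : 0 ≤ a₀ := by
    have := one_le_th hA
    linarith
  have hth : th A = 1 + a₀ := by rw [ha₀]; ring
  have h4 : (1 / 2 : ℝ) ^ (3 * n + 3) * (2 ^ n * th A) = (1 / 2 : ℝ) ^ (2 * n + 3) * (1 + a₀) := by
    rw [hth, ← mul_assoc]
    congr 1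
    have h5 : (1 / 2 : ℝ) ^ (3 * n + 3) = (1 / 2 : ℝ) ^ (2 * n + 3) * (1 / 2) ^ n := by
      rw [← pow_add]
      congr 1
      ring
    rw [h5, mul_assoc, ← mul_pow]
    norm_num
  rw [h4] at h2
  have hε : (1 / 2 : ℝ) ^ (2 * n + 3) ≤ 1 / 2 := by
    have h6 : (1 / 2 : ℝ) ^ (2 * n + 3) ≤ (1 / 2 : ℝ) ^ 1 :=
      pow_le_pow_of_le_one (by norm_num) (by norm_num) (by omega)
    simpa using h6
  have h7 : a₀ ≤ (1 / 2 : ℝ) ^ (2 * n + 2) := by
    have h8 : (1 / 2 : ℝ) ^ (2 * n + 2) = 2 * (1 / 2 : ℝ) ^ (2 * n + 3) := by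
      rw [pow_succ (1 / 2 : ℝ) (2 * n + 2)]
      ring
    rw [h8]
    nlinarith
  have h9 : a₀ ^ 2 ≤ (1 / 2 : ℝ) ^ (4 * n + 4) := by
    have h10 : (1 / 2 : ℝ) ^ (4 * n + 4) = ((1 / 2 : ℝ) ^ (2 * n + 2)) ^ 2 := by
      rw [← pow_mul]
      congr 1
      ring
    rw [h10]
    exact pow_le_pow_left₀ ha0nn h7 2
  have h11 : a₀ - a₀ ^ 2 / 2 ≤ Real.log (1 + a₀) := by
    refine le_trans ?_ (Real.le_log_one_add_of_nonneg ha0nn)
    rw [le_div_iff₀ (by linarith)]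
    nlinarith [pow_nonneg ha0nn 3]
  have h12 : ∑ y, Real.log (th (G y)) ≤ ∑ y, (th (G y) - 1) :=
    Finset.sum_le_sum fun y _ => Real.log_le_sub_one_of_pos (th_pos (hG y))
  have h13 : (1 / 2 : ℝ) ^ (4 * n + 5) = (1 / 2 : ℝ) ^ (4 * n + 4) / 2 := by
    rw [pow_succ (1 / 2 : ℝ) (4 * n + 4)]
    ring
  rw [hth, h13]
  rw [hw] at h1
  linarith

/-- the minimum of a positive definite form on nonzero integer vectors is attained -/
theorem exists_min_vector [Nonempty ι] {A : Matrix ι ι ℝ} (hA : A.PosDef) :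
    ∃ m₀ : ι → ℤ, m₀ ≠ 0 ∧ ∀ m : ι → ℤ, m ≠ 0 → qf A (cz m₀) ≤ qf A (cz m) := by
  classical
  set m₁ : ι → ℤ := fun _ => 1 with hm₁
  have h1 : m₁ ≠ 0 := by
    intro h
    have h2 := congrFun h (Classical.arbitrary ι)
    simp [hm₁] at h2
  set S : Set (ι → ℤ) := {m | m ≠ 0 ∧ qf A (cz m) ≤ qf A (cz m₁)} with hS
  have hfin : S.Finite := by
    have h3 := (summable_gw hA).tendsto_cofinite_zero
    have h4 : ∀ᶠ m in Filter.cofinite, gw A (cz m) < gw A (cz m₁) :=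
      h3.eventually_lt_const (Real.exp_pos _)
    rw [Filter.eventually_cofinite] at h4
    refine h4.subset ?_
    rintro m ⟨_, hm⟩
    simp only [Set.mem_ofPred_eq, not_lt]
    exact g14_gw_le hm
  obtain ⟨m₀, hm₀, hmin⟩ := Set.exists_min_image S (fun m => qf A (cz m)) hfin ⟨m₁, h1, le_rfl⟩
  refine ⟨m₀, hm₀.1, fun m hm => ?_⟩
  by_cases h : qf A (cz m) ≤ qf A (cz m₁)
  · exact hmin m ⟨hm, h⟩
  · exact le_trans hm₀.2 (not_le.1 h).le

end LT
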