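import Pool.Agent.H29.LG.G13
import Pool.Agent.H29.LG.G14

/-!
# LG-G15: the lower bound for `E0`

Let `n = card ι ≥ 1`, `S = ∑_y (T_yᵀ T_y + O_yᵀ O_y) ≤ K • 1`.  Since `p_y, q_y ≤ 1`, `Qr T O p q ≤ S`,
so `R⁻¹ = η + Q ≤ (1 + K) • 1` and `qf R x ≥ ∑ x_i² / (1 + K)`; also `R⁻¹ ≥ η`, so `tr R ≤ n/η`.
`exists_min_vector` for `R` gives `m₀`, `qf R m₀ ≥ 1/(1+K)`; let
`t = 4 (n+1) log 2 / (π qf R m₀) ≤ 4 (n+1) (1+K)`.  Take `a` from `Comb` for `m₀`.
`lam_lower` for `A = t R`, `G = t G_y`: `a e = Tᵀ χ` gives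
`qf R (Tᵀ χ) = qf (T R Tᵀ) χ ≤ qf G_y χ` (`hT`), same for `O`.
So `(1/2)^(4n+5) ≤ Λ(t) ≤ E0/2 + π n (η tr R) + (η tr R)/2 * max 0 (log (t tr R))` and
`log (t tr R) ≤ log (4 n (n+1) (1+K)) + log (1/η)`.
-/

set_option linter.unusedSectionVars false

namespace LT

open scoped Matrix

variable {β : Type*} [Fintype β] {κ : β → Type*} [∀ y, Fintype (κ y)] [∀ y, DecidableEq (κ y)]
variable {ι : Type*} [Fintype ι] [DecidableEq ι]

/-- the edges (pairs `(y, χ)`, `χ ≠ 0`, joining `T_yᵀ χ` and `O_yᵀ χ`) can be assigned injectively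
to one of their endpoints, avoiding any given nonzero vector `m₀` -/
def Comb (T O : ∀ y, Matrix (κ y) ι ℤ) : Prop :=
  ∀ m₀ : ι → ℤ, m₀ ≠ 0 → ∃ a : (Σ y, {χ : κ y → ℤ // χ ≠ 0}) → (ι → ℤ),
    Function.Injective a ∧ (∀ e, a e ≠ 0 ∧ a e ≠ m₀) ∧
      ∀ e, a e = (T e.1)ᵀ *ᵥ e.2.1 ∨ a e = (O e.1)ᵀ *ᵥ e.2.1

private theorem g15_cz_T {κ' : Type*} [Fintype κ'] (S : Matrix κ' ι ℤ) (χ : κ' → ℤ) :
    cz (Sᵀ *ᵥ χ) = (rz S)ᵀ *ᵥ cz χ := by
  funext i
  simp only [cz, rz, Matrix.mulVec, dotProduct, Matrix.transpose_apply, Matrix.map_apply,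
    Int.cast_sum, Int.cast_mul]

private theorem g15_qf_one_le {κ' : Type*} [Fintype κ'] [DecidableEq κ'] {P : Matrix κ' κ' ℝ}
    (h : (1 - P).PosSemidef) (B : Matrix κ' ι ℝ) (x : ι → ℝ) :
    qf (Bᵀ * P * B) x ≤ qf (Bᵀ * (1 : Matrix κ' κ' ℝ) * B) x := by
  rw [qf_conj, qf_conj]
  exact qf_mono h _

private theorem g15_R_sym {R : Matrix ι ι ℝ} (hR : R.PosDef) (x z : ι → ℝ) :
    x ⬝ᵥ (R *ᵥ z) = z ⬝ᵥ (R *ᵥ x) := by
  have h1 : Rᵀ = R := by
    have h2 := hR.isHermitian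
    rwa [Matrix.IsHermitian, Matrix.conjTranspose_eq_transpose_of_trivial] at h2
  rw [Matrix.dotProduct_mulVec, ← Matrix.mulVec_transpose, h1, dotProduct_comm]

/-- `qf R x = qf B (R x)` and the mixed products for `R * B = 1` -/
private theorem g15_inv {R B : Matrix ι ι ℝ} (hRB : R * B = 1) (x : ι → ℝ) :
    B *ᵥ (R *ᵥ x) = x := by
  have h : B * R = 1 := mul_eq_one_comm.mp hRB
  rw [Matrix.mulVec_mulVec, h, Matrix.one_mulVec]

private theorem g15_lower {R B : Matrix ι ι ℝ} (hRB : R * B = 1) (hB : B.PosDef) {c : ℝ}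
    (hc : 0 < c) (hle : ∀ x, qf B x ≤ c * ∑ i, x i ^ 2) (x : ι → ℝ) :
    (∑ i, x i ^ 2) / c ≤ qf R x := by
  set z := R *ᵥ x with hz
  have hBz : B *ᵥ z = x := g15_inv hRB x
  have h1 : 0 ≤ qf B (z - (1 / c) • x) := qf_nonneg hB.posSemidef _
  have h2 : qf B (z - (1 / c) • x) = qf R x - 2 * (1 / c) * ∑ i, x i ^ 2 +
      (1 / c) ^ 2 * qf B x := by
    have e1 : qf R x = z ⬝ᵥ x := by
      unfold qf
      rw [← hz, dotProduct_comm]
    have e2 : ∑ i, x i ^ 2 = x ⬝ᵥ x := by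
      simp only [dotProduct, pow_two]
    have e3 : z ⬝ᵥ (B *ᵥ x) = x ⬝ᵥ x := by
      rw [g15_R_sym hB, hBz]
    rw [e1, e2]
    unfold qf
    rw [Matrix.mulVec_sub, Matrix.mulVec_smul, sub_dotProduct, dotProduct_sub, dotProduct_sub,
      smul_dotProduct, smul_dotProduct, dotProduct_smul, dotProduct_smul, hBz, e3]
    simp only [smul_eq_mul]
    ring
  have h3 := hle x
  have h4 : (1 / c) ^ 2 * qf B x ≤ (1 / c) ^ 2 * (c * ∑ i, x i ^ 2) :=
    mul_le_mul_of_nonneg_left h3 (by positivity)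
  have h5 : (1 / c) ^ 2 * (c * ∑ i, x i ^ 2) = (∑ i, x i ^ 2) / c := by
    field_simp
  have h6 : 2 * (1 / c) * ∑ i, x i ^ 2 = 2 * ((∑ i, x i ^ 2) / c) := by ring
  rw [h2] at h1
  linarith

private theorem g15_upper {R B : Matrix ι ι ℝ} (hRB : R * B = 1) {η : ℝ}
    (hle : ∀ x, η * ∑ i, x i ^ 2 ≤ qf B x) (hη : 0 < η) (x : ι → ℝ) :
    qf R x ≤ (∑ i, x i ^ 2) / η := by
  set z := R *ᵥ x with hz
  have hBz : B *ᵥ z = x := g15_inv hRB x
  have e1 : qf R x = x ⬝ᵥ z := by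
    unfold qf
    rw [← hz]
  have e2 : qf B z = x ⬝ᵥ z := by
    unfold qf
    rw [hBz, dotProduct_comm]
  have h1 := hle z
  rw [e2] at h1
  have h2 : 0 ≤ ∑ i, (x i - η * z i) ^ 2 := Finset.sum_nonneg fun i _ => sq_nonneg _
  have h3 : ∑ i, (x i - η * z i) ^ 2 = ∑ i, x i ^ 2 - 2 * η * (x ⬝ᵥ z) +
      η ^ 2 * ∑ i, z i ^ 2 := by
    simp only [dotProduct, Finset.mul_sum, ← Finset.sum_sub_distrib, ← Finset.sum_add_distrib]
    exact Finset.sum_congr rfl fun i _ => by ring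
  have h4 : η * (η * ∑ i, z i ^ 2) ≤ η * (x ⬝ᵥ z) := mul_le_mul_of_nonneg_left h1 hη.le
  rw [e1, le_div_iff₀ hη]
  nlinarith

private theorem g15_sq {m : ι → ℤ} (hm : m ≠ 0) : 1 ≤ ∑ i, cz m i ^ 2 := by
  obtain ⟨i, hi⟩ := Function.ne_iff.mp hm
  have h1 : (1 : ℝ) ≤ cz m i ^ 2 := by
    have h2 : (1 : ℤ) ≤ m i ^ 2 := by
      have h3 : 0 < m i ^ 2 := by
        have : m i ≠ 0 := hi
        positivity
      omega
    unfold cz
    exact_mod_cast h2
  exact h1.trans (Finset.single_le_sum (f := fun i => cz m i ^ 2) (fun j _ => sq_nonneg _)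
    (Finset.mem_univ i))

theorem theta_bound [Nonempty ι] (T O : ∀ y, Matrix (κ y) ι ℤ)
    (hcard : ∑ y, Fintype.card (κ y) = Fintype.card ι)
    (gT : ∀ y, (rz (T y) * (rz (T y))ᵀ).PosDef) (gO : ∀ y, (rz (O y) * (rz (O y))ᵀ).PosDef)
    (hc : Comb T O) :
    ∃ C : ℝ, 0 ≤ C ∧ ∀ η : ℝ, 0 < η → η ≤ 1 → ∀ M : Msg T O η,
      (1 / 2 : ℝ) ^ (4 * Fintype.card ι + 4) -
        C * (η * M.R.trace) * (1 + Real.log (1 / η)) ≤ M.E0 := by
  obtain ⟨K, hK0, hK⟩ := exists_abs_qf_le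
    (∑ y, ((rz (T y))ᵀ * (1 : Matrix (κ y) (κ y) ℝ) * rz (T y) +
      (rz (O y))ᵀ * (1 : Matrix (κ y) (κ y) ℝ) * rz (O y)))
  obtain ⟨n, hn⟩ : ∃ n : ℝ, n = Fintype.card ι := ⟨_, rfl⟩
  have hn1 : 1 ≤ n := by
    rw [hn]
    exact_mod_cast Fintype.card_pos
  have hL1 : 1 ≤ 4 * n * (n + 1) * (1 + K) := by nlinarith [mul_nonneg (by linarith : 0 ≤ n) hK0]
  have hL0 : 0 ≤ Real.log (4 * n * (n + 1) * (1 + K)) := Real.log_nonneg hL1
  refine ⟨2 * Real.pi * n + Real.log (4 * n * (n + 1) * (1 + K)) + 1, by positivity, ?_⟩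
  intro η hη hη1 M
  -- bounds for the inverse of `R`
  have hQle : ∀ x, qf (Qr T O M.p M.q) x ≤ K * ∑ i, x i ^ 2 := by
    intro x
    refine le_trans ?_ ((le_abs_self _).trans (hK x))
    unfold Qr
    rw [qf_sum, qf_sum]
    refine Finset.sum_le_sum fun y _ => ?_
    rw [qf_add, qf_add]
    exact add_le_add (g15_qf_one_le (M.p_le y) _ x) (g15_qf_one_le (M.q_le y) _ x)
  have hQ0 : ∀ x, 0 ≤ qf (Qr T O M.p M.q) x := by
    intro x
    unfold Qr
    rw [qf_sum]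
    refine Finset.sum_nonneg fun y _ => ?_
    rw [qf_add, qf_conj, qf_conj]
    exact add_nonneg (qf_nonneg (M.p_pos y).posSemidef _) (qf_nonneg (M.q_pos y).posSemidef _)
  have hB : (η • (1 : Matrix ι ι ℝ) + Qr T O M.p M.q).PosDef := by
    have h1 : η • (1 : Matrix ι ι ℝ) + Qr T O M.p M.q = M.R⁻¹ :=
      (Matrix.inv_eq_right_inv M.RQ).symm
    rw [h1]
    exact M.R_pos.inv
  have hBle : ∀ x, qf (η • (1 : Matrix ι ι ℝ) + Qr T O M.p M.q) x ≤
      (1 + K) * ∑ i, x i ^ 2 := by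
    intro x
    rw [qf_add, qf_smul, qf_one]
    have h1 : 0 ≤ ∑ i, x i ^ 2 := Finset.sum_nonneg fun i _ => sq_nonneg _
    have h2 := hQle x
    nlinarith [mul_le_mul_of_nonneg_right hη1 h1]
  have hBge : ∀ x, η * ∑ i, x i ^ 2 ≤ qf (η • (1 : Matrix ι ι ℝ) + Qr T O M.p M.q) x := by
    intro x
    rw [qf_add, qf_smul, qf_one]
    have h2 := hQ0 x
    linarith
  have hK1 : 0 < 1 + K := by linarith
  have hRge := g15_lower M.RQ hB hK1 hBle
  have hRle := g15_upper M.RQ hBge hη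
  have htr0 : 0 < M.R.trace := M.R_pos.trace_pos
  have htr : M.R.trace ≤ n / η := by
    have h1 : ∀ i, M.R i i ≤ 1 / η := by
      intro i
      have h2 := hRle (Pi.single i 1)
      have h3 : qf M.R (Pi.single i 1) = M.R i i := by
        unfold qf
        rw [Matrix.mulVec_single_one, single_one_dotProduct, Matrix.col_apply]
      have h4 : ∑ j, (Pi.single i (1 : ℝ) : ι → ℝ) j ^ 2 = 1 := by
        rw [Finset.sum_eq_single i]
        · simp
        · intro j _ hj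
          simp [hj]
        · simp
      rw [h3, h4] at h2
      exact h2
    calc M.R.trace = ∑ i, M.R i i := rfl
      _ ≤ ∑ _i : ι, 1 / η := Finset.sum_le_sum fun i _ => h1 i
      _ = n / η := by
        rw [Finset.sum_const, Finset.card_univ, nsmul_eq_mul, hn]
        ring
  -- the shortest vector
  obtain ⟨m₀, hm₀, hmin⟩ := exists_min_vector M.R_pos
  have hq : 1 / (1 + K) ≤ qf M.R (cz m₀) := by
    refine le_trans ?_ (hRge (cz m₀))
    exact div_le_div_of_nonneg_right (g15_sq hm₀) hK1.le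
  have hq0 : 0 < qf M.R (cz m₀) := lt_of_lt_of_le (by positivity) hq
  have hlog2 : 0 < Real.log 2 := Real.log_pos (by norm_num)
  obtain ⟨t, ht⟩ : ∃ t : ℝ, t = 4 * (n + 1) * Real.log 2 / (Real.pi * qf M.R (cz m₀)) := ⟨_, rfl⟩
  have ht0 : 0 < t := by
    rw [ht]
    positivity
  have htle : t ≤ 4 * (n + 1) * (1 + K) := by
    rw [ht, div_le_iff₀ (by positivity)]
    have h1 : Real.log 2 ≤ 1 := by
      have := Real.log_two_lt_d9
      linarith
    have h2 : 1 ≤ Real.pi * ((1 + K) * qf M.R (cz m₀)) := by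
      have h3 : 1 ≤ (1 + K) * qf M.R (cz m₀) := by
        rw [div_le_iff₀ hK1] at hq
        linarith
      have h4 := Real.pi_gt_three
      nlinarith
    have h5 : 4 * (n + 1) * Real.log 2 ≤ 4 * (n + 1) * 1 :=
      mul_le_mul_of_nonneg_left h1 (by linarith)
    have h6 : 4 * (n + 1) * 1 ≤ 4 * (n + 1) * (Real.pi * ((1 + K) * qf M.R (cz m₀))) :=
      mul_le_mul_of_nonneg_left h2 (by linarith)
    calc 4 * (n + 1) * Real.log 2 ≤ 4 * (n + 1) * (Real.pi * ((1 + K) * qf M.R (cz m₀))) :=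
          h5.trans h6
      _ = 4 * (n + 1) * (1 + K) * (Real.pi * qf M.R (cz m₀)) := by ring
  obtain ⟨a, ha, ha0, hae⟩ := hc m₀ hm₀
  have hlow := lam_lower (M.R_pos.smul ht0) (G := fun y => t • M.G y)
    (fun y => (M.G_pos y).smul ht0) hm₀ (by
      intro m hm
      rw [qf_smul, qf_smul]
      exact mul_le_mul_of_nonneg_left (hmin m hm) ht0.le) ha ha0 (by
      intro e
      rw [qf_smul, qf_smul]
      refine mul_le_mul_of_nonneg_left ?_ ht0.le
      rcases hae e with h1 | h1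
      · rw [h1, g15_cz_T, ← qf_conj, Matrix.transpose_transpose]
        exact qf_mono (M.hT e.1) _
      · rw [h1, g15_cz_T, ← qf_conj, Matrix.transpose_transpose]
        exact qf_mono (M.hO e.1) _) (by
      rw [qf_smul, ht, hn]
      field_simp)
  have hup := M.Lam_le hη hcard gT gO ht0
  have hlow' : (1 / 2 : ℝ) ^ (4 * Fintype.card ι + 5) ≤ M.Lam t := hlow
  rw [← hn] at hup
  have hX : 0 < η * M.R.trace := mul_pos hη htr0
  have hl0 : 0 ≤ Real.log (1 / η) := Real.log_nonneg (by rw [le_div_iff₀ hη]; linarith)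
  have hmax : max 0 (Real.log (t * M.R.trace)) ≤
      Real.log (4 * n * (n + 1) * (1 + K)) + Real.log (1 / η) := by
    refine max_le (by linarith) ?_
    rw [← Real.log_mul (by positivity) (by positivity)]
    refine Real.log_le_log (by positivity) ?_
    calc t * M.R.trace ≤ 4 * (n + 1) * (1 + K) * (n / η) :=
          mul_le_mul htle htr htr0.le (by positivity)
      _ = 4 * n * (n + 1) * (1 + K) * (1 / η) := by ring
  have hpow : (1 / 2 : ℝ) ^ (4 * Fintype.card ι + 4) =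
      2 * (1 / 2 : ℝ) ^ (4 * Fintype.card ι + 5) := by
    rw [pow_succ (1 / 2 : ℝ) (4 * Fintype.card ι + 4)]
    ring
  have h7 : η * M.R.trace / 2 * max 0 (Real.log (t * M.R.trace)) ≤
      η * M.R.trace / 2 * (Real.log (4 * n * (n + 1) * (1 + K)) + Real.log (1 / η)) :=
    mul_le_mul_of_nonneg_left hmax (by positivity)
  have hpi := Real.pi_pos
  have h8 : 0 ≤ (2 * Real.pi * n + Real.log (4 * n * (n + 1) * (1 + K))) *
      (η * M.R.trace) * Real.log (1 / η) := by positivity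
  rw [hpow]
  nlinarith

end LT
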