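import Pool.Agent.H29.LG.G09

/-!
# LG-G10: `√(det A) θ(A)` is monotone in `A`; behaviour as `A → 0`

* `D_mono`: with `B = A' - A` and `P = A + s B`: the derivative of `log det (A + s B)` is
  `tr (P⁻¹ B)` (`Matrix.det_one_add_smul`), the derivative of `log θ(A + s B)` is `-π mq P B`
  (`hasDerivAt_th`), and `def_nonneg` with `P⁻¹ B P⁻¹` gives `mq P B ≤ tr (P⁻¹ B)/(2π)`.
  So the sum has nonnegative derivative on `[0,1]`.
* `D_tendsto`: with `δ • 1 ≤ A ≤ K • 1` and `D_mono`: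
  `n log (√(tδ) th1 (tδ)) ≤ log θ(tA) + 1/2 log det(tA) ≤ n log (√(tK) th1 (tK))`, and
  `√s th1 s = th1 (1/s) → 1` as `s → 0` (`th1_inv`, `th1_tendsto`).
* `th_quarter`: `D_mono` for `(1/4) A ≤ A`: `θ(A/4) √(det A / 4^n) ≤ θ(A) √(det A)`.
-/

set_option linter.unusedSectionVars false

namespace LT

open scoped Matrix

variable {ι : Type*} [Fintype ι] [DecidableEq ι]

private theorem g10_hasDerivAt_det {A B : Matrix ι ι ℝ} {s : ℝ} (h : (A + s • B).PosDef) :
    HasDerivAt (fun r => (A + r • B).det)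
      ((A + s • B).det * ((A + s • B)⁻¹ * B).trace) s := by
  set P := A + s • B with hP
  have hdet : IsUnit P.det := h.det_pos.ne'.isUnit
  set q : Polynomial ℝ := (Matrix.det (1 + (Polynomial.X : Polynomial ℝ) •
    (P⁻¹ * B).map Polynomial.C)).divX.divX with hq
  have key : (fun r => (A + r • B).det) = fun r => P.det * (1 + (P⁻¹ * B).trace * (r - s)
      + q.eval (r - s) * (r - s) ^ 2) := by
    funext r
    have h1 : A + r • B = P * (1 + (r - s) • (P⁻¹ * B)) := by
      rw [mul_add, mul_one, Matrix.mul_smul, ← mul_assoc, Matrix.mul_nonsing_inv _ hdet, one_mul,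
        hP, sub_smul]
      abel
    rw [h1, Matrix.det_mul, Matrix.det_one_add_smul]
  rw [key]
  have h0 : HasDerivAt (fun r : ℝ => r - s) 1 s := (hasDerivAt_id s).sub_const s
  have h1 : HasDerivAt (fun r : ℝ => (P⁻¹ * B).trace * (r - s)) ((P⁻¹ * B).trace * 1) s :=
    h0.const_mul _
  have h2 : HasDerivAt (fun r : ℝ => q.eval (r - s)) (q.derivative.eval (s - s) * 1) s :=
    HasDerivAt.comp (h := fun r : ℝ => r - s) s (q.hasDerivAt (s - s)) h0
  have h3 : HasDerivAt (fun r : ℝ => (r - s) ^ 2) (((2 : ℕ) : ℝ) * (s - s) ^ (2 - 1) * 1) s :=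
    h0.pow 2
  have h4 := (((h1.const_add 1).add (h2.mul h3)).const_mul P.det)
  refine h4.congr_deriv ?_
  simp

theorem D_mono {A A' : Matrix ι ι ℝ} (hA : A.PosDef) (h : (A' - A).PosSemidef) :
    Real.log (th A) + Real.log A.det / 2 ≤ Real.log (th A') + Real.log A'.det / 2 := by
  set B := A' - A with hB
  have hpd : ∀ s : ℝ, 0 ≤ s → (A + s • B).PosDef := fun s hs =>
    hA.add_posSemidef (h.smul hs)
  have hder : ∀ s : ℝ, 0 ≤ s → HasDerivAt
      (fun r => Real.log (th (A + r • B)) + Real.log (A + r • B).det / 2)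
      (-(Real.pi * ∑' m : ι → ℤ, qf B (cz m) * gw (A + s • B) (cz m)) / th (A + s • B)
        + (A + s • B).det * ((A + s • B)⁻¹ * B).trace / (A + s • B).det / 2) s := by
    intro s hs
    have hp := hpd s hs
    exact ((hasDerivAt_th hp).log (th_pos hp).ne').add
      (((g10_hasDerivAt_det hp).log hp.det_pos.ne').div_const 2)
  have hnn : ∀ s : ℝ, 0 ≤ s →
      0 ≤ -(Real.pi * ∑' m : ι → ℤ, qf B (cz m) * gw (A + s • B) (cz m)) / th (A + s • B)
        + (A + s • B).det * ((A + s • B)⁻¹ * B).trace / (A + s • B).det / 2 := by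
    intro s hs
    have hp := hpd s hs
    set P := A + s • B with hP
    have hdet : IsUnit P.det := hp.det_pos.ne'.isUnit
    have hpsd : (P⁻¹ * B * P⁻¹).PosSemidef := by
      have h1 := h.mul_mul_conjTranspose_same P⁻¹
      have h2 : (P⁻¹)ᴴ = P⁻¹ := hp.isHermitian.inv
      rwa [h2] at h1
    have h3 := def_nonneg hp hpsd
    have h4 : P * (P⁻¹ * B * P⁻¹) * P = B := by
      rw [← mul_assoc, ← mul_assoc, Matrix.mul_nonsing_inv _ hdet, one_mul, mul_assoc,
        Matrix.nonsing_inv_mul _ hdet, mul_one]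
    have h5 : P⁻¹ * B * P⁻¹ * P = P⁻¹ * B := by
      rw [mul_assoc, Matrix.nonsing_inv_mul _ hdet, mul_one]
    rw [h4, h5] at h3
    unfold mq at h3
    have h6 : P.det * (P⁻¹ * B).trace / P.det = (P⁻¹ * B).trace :=
      mul_div_cancel_left₀ _ hp.det_pos.ne'
    rw [h6]
    have hpi := Real.pi_pos
    have h7 := mul_le_mul_of_nonneg_left h3 hpi.le
    have h8 : Real.pi * ((P⁻¹ * B).trace / (2 * Real.pi)) = (P⁻¹ * B).trace / 2 := by
      field_simp
    rw [h8] at h7
    rw [neg_div, mul_div_assoc]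
    linarith
  have hmono : MonotoneOn (fun r => Real.log (th (A + r • B)) + Real.log (A + r • B).det / 2)
      (Set.Icc (0 : ℝ) 1) := by
    refine monotoneOn_of_deriv_nonneg (convex_Icc 0 1) ?_ ?_ ?_
    · intro s hs
      exact (hder s hs.1).continuousAt.continuousWithinAt
    · intro s hs
      rw [interior_Icc] at hs
      exact (hder s hs.1.le).differentiableAt.differentiableWithinAt
    · intro s hs
      rw [interior_Icc] at hs
      rw [(hder s hs.1.le).deriv]
      exact hnn s hs.1.le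
  have h9 := hmono (Set.left_mem_Icc.2 zero_le_one) (Set.right_mem_Icc.2 zero_le_one) zero_le_one
  have h10 : A + (1 : ℝ) • B = A' := by rw [one_smul, hB]; abel
  have h11 : A + (0 : ℝ) • B = A := by rw [zero_smul, add_zero]
  dsimp only at h9
  rwa [h10, h11] at h9

private theorem g10_D_scalar {s : ℝ} (hs : 0 < s) :
    Real.log (th (s • (1 : Matrix ι ι ℝ))) + Real.log (s • (1 : Matrix ι ι ℝ)).det / 2
      = (Fintype.card ι : ℝ) * Real.log (th1 (1 / s)) := by
  have h1 : th1 s ≠ 0 := (lt_of_lt_of_le one_pos (one_le_th1 hs)).ne'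
  rw [th_scalar hs, Matrix.det_smul, Matrix.det_one, mul_one, Real.log_pow, Real.log_pow,
    ← th1_inv hs, Real.log_mul (Real.sqrt_pos.2 hs).ne' h1, Real.log_sqrt hs.le]
  ring

private theorem g10_psd_low {A : Matrix ι ι ℝ} (hA : A.PosDef) {δ : ℝ}
    (h : ∀ x : ι → ℝ, δ * ∑ i, x i ^ 2 ≤ qf A x) {t : ℝ} (ht : 0 < t) :
    (t • A - (t * δ) • (1 : Matrix ι ι ℝ)).PosSemidef := by
  have hH : (t • A - (t * δ) • (1 : Matrix ι ι ℝ)).IsHermitian := by
    have h1 : Aᴴ = A := hA.isHermitian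
    unfold Matrix.IsHermitian
    rw [Matrix.conjTranspose_sub, Matrix.conjTranspose_smul, Matrix.conjTranspose_smul, h1,
      Matrix.conjTranspose_one, star_trivial, star_trivial]
  refine Matrix.PosSemidef.of_dotProduct_mulVec_nonneg hH fun x => ?_
  rw [star_trivial]
  have h2 : x ⬝ᵥ ((t • A - (t * δ) • (1 : Matrix ι ι ℝ)) *ᵥ x)
      = qf (t • A - (t * δ) • (1 : Matrix ι ι ℝ)) x := rfl
  rw [h2, qf_sub, qf_smul, qf_smul, qf_one]
  have h3 := mul_le_mul_of_nonneg_left (h x) ht.le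
  rw [← mul_assoc] at h3
  linarith

private theorem g10_psd_up {A : Matrix ι ι ℝ} (hA : A.PosDef) {K : ℝ}
    (h : ∀ x : ι → ℝ, |qf A x| ≤ K * ∑ i, x i ^ 2) {t : ℝ} (ht : 0 < t) :
    ((t * (K + 1)) • (1 : Matrix ι ι ℝ) - t • A).PosSemidef := by
  have hH : ((t * (K + 1)) • (1 : Matrix ι ι ℝ) - t • A).IsHermitian := by
    have h1 : Aᴴ = A := hA.isHermitian
    unfold Matrix.IsHermitian
    rw [Matrix.conjTranspose_sub, Matrix.conjTranspose_smul, Matrix.conjTranspose_smul, h1,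
      Matrix.conjTranspose_one, star_trivial, star_trivial]
  refine Matrix.PosSemidef.of_dotProduct_mulVec_nonneg hH fun x => ?_
  rw [star_trivial]
  have h2 : x ⬝ᵥ (((t * (K + 1)) • (1 : Matrix ι ι ℝ) - t • A) *ᵥ x)
      = qf ((t * (K + 1)) • (1 : Matrix ι ι ℝ) - t • A) x := rfl
  rw [h2, qf_sub, qf_smul, qf_smul, qf_one]
  have h3 := mul_le_mul_of_nonneg_left (le_trans (le_abs_self _) (h x)) ht.le
  have h4 : 0 ≤ ∑ i, x i ^ 2 := Finset.sum_nonneg fun i _ => sq_nonneg _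
  have h5 : 0 ≤ t * ∑ i, x i ^ 2 := mul_nonneg ht.le h4
  nlinarith

private theorem g10_tendsto_scalar {c : ℝ} (hc : 0 < c) (n : ℝ) :
    Filter.Tendsto (fun t : ℝ => n * Real.log (th1 (1 / (t * c))))
      (nhdsWithin 0 (Set.Ioi 0)) (nhds 0) := by
  have h1 : Filter.Tendsto (fun t : ℝ => 1 / (t * c)) (nhdsWithin 0 (Set.Ioi 0)) Filter.atTop := by
    have h2 : Filter.Tendsto (fun t : ℝ => t⁻¹ * c⁻¹) (nhdsWithin 0 (Set.Ioi 0)) Filter.atTop :=
      tendsto_inv_nhdsGT_zero.atTop_mul_const (inv_pos.2 hc)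
    refine h2.congr fun t => ?_
    rw [one_div, mul_inv]
  have h3 : Filter.Tendsto (fun t : ℝ => th1 (1 / (t * c))) (nhdsWithin 0 (Set.Ioi 0)) (nhds 1) :=
    th1_tendsto.comp h1
  have h4 : Filter.Tendsto (fun t : ℝ => Real.log (th1 (1 / (t * c)))) (nhdsWithin 0 (Set.Ioi 0))
      (nhds (Real.log 1)) := h3.log one_ne_zero
  rw [Real.log_one] at h4
  have h5 := h4.const_mul n
  rwa [mul_zero] at h5

theorem D_tendsto {A : Matrix ι ι ℝ} (hA : A.PosDef) :
    Filter.Tendsto (fun t : ℝ => Real.log (th (t • A)) + Real.log (t • A).det / 2)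
      (nhdsWithin 0 (Set.Ioi 0)) (nhds 0) := by
  obtain ⟨δ, hδ, hlow⟩ := exists_qf_ge hA
  obtain ⟨K, hK, hup⟩ := exists_abs_qf_le A
  have hK1 : 0 < K + 1 := by linarith
  refine tendsto_of_tendsto_of_tendsto_of_le_of_le'
    (g10_tendsto_scalar hδ (Fintype.card ι : ℝ)) (g10_tendsto_scalar hK1 (Fintype.card ι : ℝ)) ?_ ?_
  · filter_upwards [self_mem_nhdsWithin] with t ht
    have ht' : 0 < t := ht
    rw [← g10_D_scalar (ι := ι) (mul_pos ht' hδ)]
    refine D_mono ?_ (g10_psd_low hA hlow ht')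
    exact Matrix.PosDef.one.smul (mul_pos ht' hδ)
  · filter_upwards [self_mem_nhdsWithin] with t ht
    have ht' : 0 < t := ht
    rw [← g10_D_scalar (ι := ι) (mul_pos ht' hK1)]
    exact D_mono (hA.smul ht') (g10_psd_up hA hup ht')

theorem th_quarter {A : Matrix ι ι ℝ} (hA : A.PosDef) :
    th ((1 / 4 : ℝ) • A) ≤ 2 ^ Fintype.card ι * th A := by
  have hq : ((1 / 4 : ℝ) • A).PosDef := hA.smul (by norm_num)
  have h1 : (A - (1 / 4 : ℝ) • A).PosSemidef := by
    have h2 : A - (1 / 4 : ℝ) • A = (3 / 4 : ℝ) • A := by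
      rw [← one_smul ℝ A, smul_smul, ← sub_smul, smul_smul]
      norm_num
    rw [h2]
    exact hA.posSemidef.smul (by norm_num)
  have h3 := D_mono hq h1
  have hdet := hA.det_pos
  have h4 : Real.log ((1 / 4 : ℝ) • A).det
      = -(2 * (Fintype.card ι : ℝ) * Real.log 2) + Real.log A.det := by
    rw [Matrix.det_smul, Real.log_mul (pow_pos (by norm_num) _).ne' hdet.ne', Real.log_pow]
    have h5 : Real.log (1 / 4 : ℝ) = -(2 * Real.log 2) := by
      rw [show (1 / 4 : ℝ) = (2 ^ 2)⁻¹ by norm_num, Real.log_inv, Real.log_pow]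
      norm_num
    rw [h5]
    ring
  rw [h4] at h3
  have h6 : Real.log (th ((1 / 4 : ℝ) • A)) ≤ Real.log (2 ^ Fintype.card ι * th A) := by
    rw [Real.log_mul (pow_pos (by norm_num) _).ne' (th_pos hA).ne', Real.log_pow]
    linarith
  exact (Real.log_le_log_iff (th_pos hq) (mul_pos (pow_pos (by norm_num) _) (th_pos hA))).1 h6

end LT
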