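import Pool.Agent.H29.LG.G07
import Pool.Agent.H29.LG.G10

/-!
# LG-G11: message data (definitions)

`T y`, `O y` (`y ∈ β`) are integer matrices with rows `κ y` and columns `ι` (heads and tails of the
edges labelled `y`).  A `Msg T O η` is a solution of the message inequalities at `η`.
-/

set_option linter.unusedSectionVars false

namespace LT

open scoped Matrix

variable {β : Type*} [Fintype β] {κ : β → Type*} [∀ y, Fintype (κ y)] [∀ y, DecidableEq (κ y)]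
variable {ι : Type*} [Fintype ι] [DecidableEq ι]

/-- `∑_y (T_yᵀ p_y T_y + O_yᵀ q_y O_y)` -/
noncomputable def Qr (T O : ∀ y, Matrix (κ y) ι ℤ) (p q : ∀ y, Matrix (κ y) (κ y) ℝ) :
    Matrix ι ι ℝ :=
  ∑ y, ((rz (T y))ᵀ * p y * rz (T y) + (rz (O y))ᵀ * q y * rz (O y))

/-- messages at `η`: `R = (η + Q(p,q))⁻¹`, `T_y R T_yᵀ ≤ (p_y + q_y)⁻¹`, `O_y R O_yᵀ ≤ (p_y + q_y)⁻¹`,
`0 < p_y, q_y ≤ 1` -/
structure Msg (T O : ∀ y, Matrix (κ y) ι ℤ) (η : ℝ) where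
  p : ∀ y, Matrix (κ y) (κ y) ℝ
  q : ∀ y, Matrix (κ y) (κ y) ℝ
  R : Matrix ι ι ℝ
  p_pos : ∀ y, (p y).PosDef
  q_pos : ∀ y, (q y).PosDef
  p_le : ∀ y, (1 - p y).PosSemidef
  q_le : ∀ y, (1 - q y).PosSemidef
  R_pos : R.PosDef
  RQ : R * (η • (1 : Matrix ι ι ℝ) + Qr T O p q) = 1
  hT : ∀ y, ((p y + q y)⁻¹ - rz (T y) * R * (rz (T y))ᵀ).PosSemidef
  hO : ∀ y, ((p y + q y)⁻¹ - rz (O y) * R * (rz (O y))ᵀ).PosSemidef

namespace Msg

variable {T O : ∀ y, Matrix (κ y) ι ℤ} {η : ℝ}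

/-- `G_y = (p_y + q_y)⁻¹` -/
noncomputable def G (M : Msg T O η) (y : β) : Matrix (κ y) (κ y) ℝ := (M.p y + M.q y)⁻¹

/-- `Λ(t) = log θ(t R) - ∑_y log θ(t G_y)` -/
noncomputable def Lam (M : Msg T O η) (t : ℝ) : ℝ :=
  Real.log (th (t • M.R)) - ∑ y, Real.log (th (t • M.G y))

/-- `log det (η + Q) - ∑_y log det (p_y + q_y)` -/
noncomputable def E0 (M : Msg T O η) : ℝ :=
  Real.log (η • (1 : Matrix ι ι ℝ) + Qr T O M.p M.q).det - ∑ y, Real.log (M.p y + M.q y).det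

theorem G_pos (M : Msg T O η) (y : β) : (M.G y).PosDef :=
  ((M.p_pos y).add (M.q_pos y)).inv

end Msg

end LT
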