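import Pool.Agent.H29.LT.M06

/-!
# LG-M03: real block diagonal matrices inside `Matrix ι ι ℂ`

`bdC e X` is the block diagonal matrix with blocks `X y` (real), reindexed by
`e : (Σ y, κ y) ≃ ι` and viewed in `ℂ`.  All lemmas: `Matrix.blockDiagonal'_add/_sub/_one/_mul`,
`Matrix.submatrix_*`, `Matrix.map_*`.

* `bdC_inv`: `Matrix.inv_eq_right_inv` and `bdC_mul`, `bdC_one`.
* `bdC_psd`: a quadratic form `star z ⬝ᵥ bdC e X *ᵥ z = ∑ y, star z_y ⬝ᵥ (X y).map ofReal *ᵥ z_y`;
  a real symmetric matrix is psd over `ℝ` iff its complexification is (real and imaginary parts).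
* `bdC_pd`: psd and invertible (`Matrix.PosSemidef.posDef_iff_isUnit` or the same quadratic form).
* `bdC_det`: `Matrix.det_blockDiagonal'`, `Matrix.det_submatrix_equiv_self`, `RingHom.map_det`.
* `bdC_closed`: the range is the set of matrices `Z` with `Z i j = 0` unless `(e.symm i).1 =
  (e.symm j).1`, and `(Z i j).im = 0`; closed conditions on entries.
-/

set_option linter.unusedSectionVars false

namespace LT

open scoped Matrix ComplexOrder

variable {β : Type*} [Fintype β] [DecidableEq β]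
variable {κ : β → Type*} [∀ y, Fintype (κ y)] [∀ y, DecidableEq (κ y)]
variable {ι : Type*} [Fintype ι] [DecidableEq ι]

/-- the block diagonal matrix with real blocks `X y`, in `Matrix ι ι ℂ` -/
noncomputable def bdC (e : (Σ y, κ y) ≃ ι) (X : ∀ y, Matrix (κ y) (κ y) ℝ) : Matrix ι ι ℂ :=
  ((Matrix.blockDiagonal' X).map Complex.ofReal).submatrix e.symm e.symm

variable (e : (Σ y, κ y) ≃ ι)

private lemma lgm3_quad {n : Type*} [Fintype n] (X : Matrix n n ℝ) (hX : ∀ i j, X i j = X j i)
    (z : n → ℂ) : star z ⬝ᵥ (X.map Complex.ofReal *ᵥ z) =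
      (((fun i => (z i).re) ⬝ᵥ (X *ᵥ fun i => (z i).re)
        + (fun i => (z i).im) ⬝ᵥ (X *ᵥ fun i => (z i).im) : ℝ) : ℂ) := by
  have h0 : star z ⬝ᵥ (X.map Complex.ofReal *ᵥ z)
      = ∑ i, ∑ j, (X i j : ℂ) * (star (z i) * z j) := by
    simp only [dotProduct, Matrix.mulVec, Finset.mul_sum, Pi.star_apply, Matrix.map_apply]
    refine Finset.sum_congr rfl fun i _ => Finset.sum_congr rfl fun j _ => ?_
    ring
  have h1 : ∀ w : n → ℝ, w ⬝ᵥ (X *ᵥ w) = ∑ i, ∑ j, X i j * (w i * w j) := by
    intro w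
    simp only [dotProduct, Matrix.mulVec, Finset.mul_sum]
    refine Finset.sum_congr rfl fun i _ => Finset.sum_congr rfl fun j _ => ?_
    ring
  rw [h0, h1, h1]
  apply Complex.ext
  · rw [Complex.ofReal_re, Complex.re_sum, ← Finset.sum_add_distrib]
    refine Finset.sum_congr rfl fun i _ => ?_
    rw [Complex.re_sum, ← Finset.sum_add_distrib]
    refine Finset.sum_congr rfl fun j _ => ?_
    simp
    ring
  · rw [Complex.ofReal_im, Complex.im_sum]
    have h2 : ∀ i j, ((X i j : ℂ) * (star (z i) * z j)).im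
        = X i j * ((z i).re * (z j).im) - X j i * ((z j).re * (z i).im) := by
      intro i j
      rw [hX j i]
      simp
      ring
    have h3 : ∑ i, (∑ j, (X i j : ℂ) * (star (z i) * z j)).im
        = ∑ i, ∑ j, X i j * ((z i).re * (z j).im) - ∑ i, ∑ j, X j i * ((z j).re * (z i).im) := by
      rw [← Finset.sum_sub_distrib]
      refine Finset.sum_congr rfl fun i _ => ?_
      rw [Complex.im_sum, ← Finset.sum_sub_distrib]
      exact Finset.sum_congr rfl fun j _ => h2 i j
    rw [h3, Finset.sum_comm (f := fun i j => X j i * ((z j).re * (z i).im)), sub_self]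

private lemma lgm3_herm {n : Type*} {X : Matrix n n ℝ} :
    (X.map Complex.ofReal).IsHermitian ↔ X.IsHermitian := by
  constructor
  · intro h
    ext i j
    have h1 := congrFun (congrFun h i) j
    simp only [Matrix.conjTranspose_apply, Matrix.map_apply, RCLike.star_def,
      Complex.conj_ofReal, Complex.ofReal_inj] at h1
    simpa using h1
  · intro h
    ext i j
    have h1 := congrFun (congrFun h i) j
    simp only [Matrix.conjTranspose_apply, star_trivial] at h1
    simp [h1]

private lemma lgm3_symm {n : Type*} {X : Matrix n n ℝ} (h : X.IsHermitian) (i j : n) :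
    X i j = X j i := by
  have h1 := congrFun (congrFun h i) j
  simp only [Matrix.conjTranspose_apply, star_trivial] at h1
  exact h1.symm

private lemma lgm3_psd {n : Type*} [Fintype n] {X : Matrix n n ℝ} :
    (X.map Complex.ofReal).PosSemidef ↔ X.PosSemidef := by
  rw [Matrix.posSemidef_iff_dotProduct_mulVec, Matrix.posSemidef_iff_dotProduct_mulVec]
  constructor
  · rintro ⟨h1, h2⟩
    have h3 := lgm3_herm.mp h1
    refine ⟨h3, fun x => ?_⟩
    have h4 := h2 (fun i => (x i : ℂ))
    rw [lgm3_quad X (lgm3_symm h3)] at h4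
    simp only [Complex.ofReal_re, Complex.ofReal_im] at h4
    have h5 : (fun _ : n => (0 : ℝ)) = 0 := rfl
    rw [h5, zero_dotProduct, add_zero] at h4
    rw [star_trivial]
    exact Complex.zero_le_real.mp h4
  · rintro ⟨h1, h2⟩
    refine ⟨lgm3_herm.mpr h1, fun z => ?_⟩
    rw [lgm3_quad X (lgm3_symm h1)]
    apply Complex.zero_le_real.mpr
    have h3 := h2 (fun i => (z i).re)
    have h4 := h2 (fun i => (z i).im)
    rw [star_trivial] at h3 h4
    exact add_nonneg h3 h4

private lemma lgm3_pd {n : Type*} [Fintype n] {X : Matrix n n ℝ} :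
    (X.map Complex.ofReal).PosDef ↔ X.PosDef := by
  rw [Matrix.posDef_iff_dotProduct_mulVec, Matrix.posDef_iff_dotProduct_mulVec]
  constructor
  · rintro ⟨h1, h2⟩
    have h3 := lgm3_herm.mp h1
    refine ⟨h3, fun x hx => ?_⟩
    have hx' : (fun i => (x i : ℂ)) ≠ 0 := by
      intro h
      apply hx
      funext i
      have := congrFun h i
      simpa using this
    have h4 := h2 hx'
    rw [lgm3_quad X (lgm3_symm h3)] at h4
    simp only [Complex.ofReal_re, Complex.ofReal_im] at h4
    have h5 : (fun _ : n => (0 : ℝ)) = 0 := rfl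
    rw [h5, zero_dotProduct, add_zero] at h4
    rw [star_trivial]
    exact Complex.zero_lt_real.mp h4
  · rintro ⟨h1, h2⟩
    refine ⟨lgm3_herm.mpr h1, fun z hz => ?_⟩
    rw [lgm3_quad X (lgm3_symm h1)]
    apply Complex.zero_lt_real.mpr
    have hnn : ∀ w : n → ℝ, 0 ≤ w ⬝ᵥ (X *ᵥ w) := by
      intro w
      by_cases hw : w = 0
      · rw [hw, zero_dotProduct]
      · have := h2 hw
        rw [star_trivial] at this
        exact this.le
    by_cases hr : (fun i => (z i).re) = 0
    · have hi : (fun i => (z i).im) ≠ 0 := by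
        intro hi
        apply hz
        funext i
        exact Complex.ext (congrFun hr i) (congrFun hi i)
      have := h2 hi
      rw [star_trivial] at this
      exact add_pos_of_nonneg_of_pos (hnn _) this
    · have := h2 hr
      rw [star_trivial] at this
      exact add_pos_of_pos_of_nonneg this (hnn _)

theorem bdC_add (X Y : ∀ y, Matrix (κ y) (κ y) ℝ) :
    bdC e (fun y => X y + Y y) = bdC e X + bdC e Y := by
  have h : (fun y => X y + Y y) = X + Y := rfl
  unfold bdC
  rw [h, Matrix.blockDiagonal'_add]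
  ext i j
  simp

theorem bdC_sub (X Y : ∀ y, Matrix (κ y) (κ y) ℝ) :
    bdC e (fun y => X y - Y y) = bdC e X - bdC e Y := by
  have h : (fun y => X y - Y y) = X - Y := rfl
  unfold bdC
  rw [h, Matrix.blockDiagonal'_sub]
  ext i j
  simp

theorem bdC_one : bdC e (fun _ => 1) = 1 := by
  have h : (fun y => (1 : Matrix (κ y) (κ y) ℝ)) = 1 := rfl
  unfold bdC
  rw [h, Matrix.blockDiagonal'_one, Matrix.map_one _ Complex.ofReal_zero Complex.ofReal_one,
    Matrix.submatrix_one_equiv]

theorem bdC_mul (X Y : ∀ y, Matrix (κ y) (κ y) ℝ) :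
    bdC e (fun y => X y * Y y) = bdC e X * bdC e Y := by
  unfold bdC
  rw [Matrix.blockDiagonal'_mul, Matrix.submatrix_mul_equiv]
  congr 1
  exact Matrix.map_mul (f := Complex.ofRealHom)

private lemma lgm3_sub (X : ∀ y, Matrix (κ y) (κ y) ℝ) (y : β) :
    (bdC e X).submatrix (fun j : κ y => e ⟨y, j⟩) (fun j : κ y => e ⟨y, j⟩)
      = (X y).map Complex.ofReal := by
  ext i j
  simp [bdC, Matrix.blockDiagonal'_apply_eq]

private lemma lgm3_conjT (X : ∀ y, Matrix (κ y) (κ y) ℝ) :
    (bdC e X)ᴴ = bdC e (fun y => (X y)ᴴ) := by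
  unfold bdC
  ext i j
  have h : (fun y => (X y)ᴴ) = fun y => (X y)ᵀ := by
    funext y
    exact Matrix.conjTranspose_eq_transpose_of_trivial _
  rw [h]
  simp only [Matrix.conjTranspose_apply, Matrix.submatrix_apply, Matrix.map_apply,
    RCLike.star_def, Complex.conj_ofReal, Complex.ofReal_inj]
  rw [← Matrix.blockDiagonal'_transpose, Matrix.transpose_apply]

theorem bdC_inj {X Y : ∀ y, Matrix (κ y) (κ y) ℝ} (h : bdC e X = bdC e Y) : X = Y := by
  funext y
  have h1 := lgm3_sub e X y
  rw [h, lgm3_sub e Y y] at h1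
  ext i j
  have h2 := congrFun (congrFun h1 i) j
  simp only [Matrix.map_apply, Complex.ofReal_inj] at h2
  exact h2.symm

theorem bdC_inv {X : ∀ y, Matrix (κ y) (κ y) ℝ} (h : ∀ y, (X y).PosDef) :
    (bdC e X)⁻¹ = bdC e (fun y => (X y)⁻¹) := by
  apply Matrix.inv_eq_right_inv
  rw [← bdC_mul, ← bdC_one e]
  congr 1
  funext y
  exact Matrix.mul_nonsing_inv _ ((Matrix.isUnit_iff_isUnit_det _).mp (h y).isUnit)

private lemma lgm3_quadbd (X : ∀ y, Matrix (κ y) (κ y) ℝ) (z : ι → ℂ) :
    star z ⬝ᵥ (bdC e X *ᵥ z) = ∑ y, star (fun j : κ y => z (e ⟨y, j⟩)) ⬝ᵥ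
      ((X y).map Complex.ofReal *ᵥ (fun j : κ y => z (e ⟨y, j⟩))) := by
  have h1 : star z ⬝ᵥ (bdC e X *ᵥ z) = ∑ i, ∑ j, star (z i) * (bdC e X i j * z j) := by
    simp only [dotProduct, Matrix.mulVec, Finset.mul_sum, Pi.star_apply]
  rw [h1, ← e.sum_comp, Fintype.sum_sigma]
  refine Finset.sum_congr rfl fun y _ => ?_
  simp only [dotProduct, Matrix.mulVec, Finset.mul_sum, Pi.star_apply]
  refine Finset.sum_congr rfl fun i _ => ?_
  rw [← e.sum_comp, Fintype.sum_sigma, Finset.sum_eq_single y]
  · refine Finset.sum_congr rfl fun j _ => ?_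
    simp [bdC, Matrix.blockDiagonal'_apply_eq]
  · intro y' _ hy
    refine Finset.sum_eq_zero fun j _ => ?_
    simp [bdC, Matrix.blockDiagonal'_apply_ne X i j (Ne.symm hy)]
  · intro h
    exact absurd (Finset.mem_univ y) h

private lemma lgm3_bdherm {X : ∀ y, Matrix (κ y) (κ y) ℝ} (h : ∀ y, (X y).IsHermitian) :
    (bdC e X).IsHermitian := by
  unfold Matrix.IsHermitian
  rw [lgm3_conjT]
  congr 1
  funext y
  exact h y

theorem bdC_psd {X : ∀ y, Matrix (κ y) (κ y) ℝ} :
    (bdC e X).PosSemidef ↔ ∀ y, (X y).PosSemidef := by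
  constructor
  · intro h y
    have h1 := h.submatrix (fun j : κ y => e ⟨y, j⟩)
    rw [lgm3_sub] at h1
    exact lgm3_psd.mp h1
  · intro h
    rw [Matrix.posSemidef_iff_dotProduct_mulVec]
    refine ⟨lgm3_bdherm e fun y => (h y).isHermitian, fun z => ?_⟩
    rw [lgm3_quadbd]
    refine Finset.sum_nonneg fun y _ => ?_
    exact (Matrix.posSemidef_iff_dotProduct_mulVec.mp (lgm3_psd.mpr (h y))).2 _

theorem bdC_pd {X : ∀ y, Matrix (κ y) (κ y) ℝ} :
    (bdC e X).PosDef ↔ ∀ y, (X y).PosDef := by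
  constructor
  · intro h y
    have h1 := h.submatrix (e := fun j : κ y => e ⟨y, j⟩) (fun i j hij => by
      have := e.injective hij
      simpa using this)
    rw [lgm3_sub] at h1
    exact lgm3_pd.mp h1
  · intro h
    rw [Matrix.posDef_iff_dotProduct_mulVec]
    refine ⟨lgm3_bdherm e fun y => (h y).isHermitian, fun z hz => ?_⟩
    rw [lgm3_quadbd]
    have hz' : ∃ y, (fun j : κ y => z (e ⟨y, j⟩)) ≠ 0 := by
      by_contra hcon
      push Not at hcon
      apply hz
      funext i
      have := congrFun (hcon (e.symm i).1) (e.symm i).2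
      simpa using this
    obtain ⟨y, hy⟩ := hz'
    refine Finset.sum_pos' (fun y _ => ?_) ⟨y, Finset.mem_univ _, ?_⟩
    · exact (Matrix.posSemidef_iff_dotProduct_mulVec.mp (lgm3_psd.mpr (h y).posSemidef)).2 _
    · exact (Matrix.posDef_iff_dotProduct_mulVec.mp (lgm3_pd.mpr (h y))).2 hy

private lemma lgm3_det (X : ∀ y, Matrix (κ y) (κ y) ℝ) :
    (Matrix.blockDiagonal' X).det = ∏ y, (X y).det := by
  let _ : LinearOrder β := LinearOrder.lift' (Fintype.equivFin β) (Equiv.injective _)
  have h : (Matrix.blockDiagonal' X).BlockTriangular (fun p : Σ y, κ y => p.1) := by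
    rintro ⟨y, a⟩ ⟨y', b⟩ hlt
    have hne : y ≠ y' := by
      rintro rfl
      exact lt_irrefl _ hlt
    exact Matrix.blockDiagonal'_apply_ne X a b hne
  rw [h.det_fintype]
  refine Finset.prod_congr rfl fun y _ => ?_
  let f : κ y ≃ {p : Σ y, κ y // p.1 = y} :=
    { toFun := fun a => ⟨⟨y, a⟩, rfl⟩
      invFun := fun p => p.2 ▸ p.1.2
      left_inv := fun a => rfl
      right_inv := by
        rintro ⟨⟨y', a⟩, h'⟩
        dsimp only at h'
        subst h'
        rfl }
  rw [← Matrix.det_submatrix_equiv_self f]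
  congr 1
  ext i j
  simp [Matrix.toSquareBlock_def, f, Matrix.blockDiagonal'_apply_eq]

theorem bdC_det (X : ∀ y, Matrix (κ y) (κ y) ℝ) :
    (bdC e X).det = ((∏ y, (X y).det : ℝ) : ℂ) := by
  unfold bdC
  rw [Matrix.det_submatrix_equiv_self]
  have h1 : ((Matrix.blockDiagonal' X).map Complex.ofReal).det
      = Complex.ofRealHom ((Matrix.blockDiagonal' X).det) := by
    rw [RingHom.map_det]
    rfl
  rw [h1, lgm3_det]
  rfl

theorem bdC_closed : IsClosed (Set.range (bdC e)) := by
  have h : Set.range (bdC e) = (⋂ i, ⋂ j, {Z : Matrix ι ι ℂ | (e.symm i).1 ≠ (e.symm j).1 →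
      Z i j = 0}) ∩ (⋂ i, ⋂ j, {Z : Matrix ι ι ℂ | (Z i j).im = 0}) := by
    ext Z
    simp only [Set.mem_range, Set.mem_inter_iff, Set.mem_iInter, Set.mem_ofPred_eq]
    constructor
    · rintro ⟨X, rfl⟩
      constructor
      · intro i j hij
        simp [bdC, Matrix.blockDiagonal'_apply, hij]
      · intro i j
        simp [bdC]
    · rintro ⟨h1, h2⟩
      refine ⟨fun y i j => (Z (e ⟨y, i⟩) (e ⟨y, j⟩)).re, ?_⟩
      ext i j
      obtain ⟨⟨y, a⟩, rfl⟩ := e.surjective i
      obtain ⟨⟨y', b⟩, rfl⟩ := e.surjective j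
      by_cases hy : y = y'
      · subst hy
        simp only [bdC, Matrix.submatrix_apply, Equiv.symm_apply_apply, Matrix.map_apply,
          Matrix.blockDiagonal'_apply_eq]
        apply Complex.ext
        · simp
        · rw [h2]; simp
      · rw [h1 _ _ (by simpa using hy)]
        simp [bdC, Matrix.blockDiagonal'_apply_ne _ a b hy]
  rw [h]
  refine IsClosed.inter (isClosed_iInter fun i => isClosed_iInter fun j => ?_)
    (isClosed_iInter fun i => isClosed_iInter fun j => ?_)
  · by_cases hij : (e.symm i).1 ≠ (e.symm j).1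
    · have h3 : {Z : Matrix ι ι ℂ | (e.symm i).1 ≠ (e.symm j).1 → Z i j = 0}
          = {Z : Matrix ι ι ℂ | Z i j = 0} := by
        ext Z; simp [hij]
      rw [h3]
      exact isClosed_eq (continuous_id.matrix_elem i j) continuous_const
    · have h3 : {Z : Matrix ι ι ℂ | (e.symm i).1 ≠ (e.symm j).1 → Z i j = 0} = Set.univ := by
        ext Z; simp [hij]
      rw [h3]
      exact isClosed_univ
  · exact isClosed_eq (Complex.continuous_im.comp (continuous_id.matrix_elem i j))
      continuous_const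

/-- real symmetric matrices and their complexifications -/
theorem map_ofReal_pd {X : Matrix ι ι ℝ} (h : X.PosDef) : (X.map Complex.ofReal).PosDef :=
  lgm3_pd.mpr h

end LT
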