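import Pool.Agent.H29.LT.C05
import Pool.Agent.H29.LT.Q00
import Pool.Agent.H29.LG.G11
import Pool.Agent.H29.LG.M03

/-!
# LG-M02: the pencil of the `T y`, `O y` and its model with a free unitary

`penc T O` has rows `(y, h)`: `b_y T_y(h, ·) - O_y(h, ·)`.  In `F2 β` (free on `w_y`, `z_y`, `u`;
`m2z y = z_y`, `m2w y = w_y`, `m2u = u`) we embed `b_y ↦ z_y u w_y` (`m2phi`).  Left multiplication by
the unitary diagonal matrix of the `z_y⁻¹` turns the pencil into `a₀ + u a₁`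
with `a₀ = -z⁻¹ O`, `a₁ = w T`.

* `m2phi_inj`: left inverse `FreeGroup.lift` of `z_y ↦ b_y`, `u ↦ 1`, `w_y ↦ 1`.
* `m2_gram`: `lamM (mapM ..) = D * fm ..` with `D = Matrix.diagonal (fun i => lamG (m2z (e.symm i).1))`,
  `Dᴴ * D = 1` (`lamG_star_mul`).
* `m2_UF`: `exists_UF (β ⊕ β)`, entries are supported on `AS`; `co_lamG`, `N.co_smul`.
* `m2_Qm`: entry `(v, w)` of `a₀ᴴ * scal (bdC e q) * a₀` is
  `∑_{i j} O_iv O_jw (bdC e q) i j • star (lamG z_i⁻¹) * lamG z_j⁻¹`, nonzero only if `y_i = y_j`, and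
  then the group elements cancel.
* `m2_E₀`, `m2_E₁`: `trN (lamG g) = if g = 1 then 1 else 0`, `z_y⁻¹ z_y' = 1 ↔ y = y'`.
-/

set_option linter.unusedSectionVars false

namespace LT

open scoped Matrix ComplexOrder

section m2x

variable {𝔄 : Type*} [CStarAlgebra 𝔄]
variable {ι : Type*} [Fintype ι] [DecidableEq ι]

private theorem m2x_scal_mul {ι κ μ : Type*} [Fintype κ] (Z : Matrix ι κ ℂ) (W : Matrix κ μ ℂ) :
    scal 𝔄 (Z * W) = scal 𝔄 Z * scal 𝔄 W := by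
  unfold scal
  exact Matrix.map_mul

private theorem m2x_scal_conj {ι κ : Type*} (Z : Matrix ι κ ℂ) :
    (scal 𝔄 Z)ᴴ = scal 𝔄 Zᴴ := by
  ext i j
  change star (algebraMap ℂ 𝔄 (Z j i)) = algebraMap ℂ 𝔄 (star (Z j i))
  rw [algebraMap_star_comm]

private theorem m2x_scal_add {ι κ : Type*} (Z W : Matrix ι κ ℂ) :
    scal 𝔄 (Z + W) = scal 𝔄 Z + scal 𝔄 W := by
  ext i j
  exact map_add (algebraMap ℂ 𝔄) _ _

private theorem m2x_fac (c : Matrix ι ι ℂ) (d : ι → 𝔄) (i v : ι) :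
    (Matrix.diagonal d * scal 𝔄 c) i v = c i v • d i := by
  rw [Matrix.diagonal_mul]
  change d i * algebraMap ℂ 𝔄 (c i v) = _
  rw [← Algebra.commutes, ← Algebra.smul_def]

private theorem m2x_mid (d : ι → 𝔄) (P : Matrix ι ι ℂ)
    (h : ∀ i j, P i j = 0 ∨ star (d i) * d j = 1) :
    (Matrix.diagonal d)ᴴ * scal 𝔄 P * Matrix.diagonal d = scal 𝔄 P := by
  ext i j
  rw [Matrix.diagonal_conjTranspose, Matrix.mul_diagonal, Matrix.diagonal_mul]
  change star (d i) * algebraMap ℂ 𝔄 (P i j) * d j = algebraMap ℂ 𝔄 (P i j)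
  rcases h i j with h1 | h1
  · rw [h1, map_zero, mul_zero, zero_mul]
  · rw [← Algebra.commutes, mul_assoc, h1, mul_one]

private theorem m2x_Q (d : ι → 𝔄) (c P : Matrix ι ι ℂ)
    (h : ∀ i j, P i j = 0 ∨ star (d i) * d j = 1) :
    (Matrix.diagonal d * scal 𝔄 c)ᴴ * scal 𝔄 P * (Matrix.diagonal d * scal 𝔄 c) =
      scal 𝔄 (cᴴ * P * c) := by
  have h1 : (Matrix.diagonal d * scal 𝔄 c)ᴴ * scal 𝔄 P * (Matrix.diagonal d * scal 𝔄 c) =
      (scal 𝔄 c)ᴴ * ((Matrix.diagonal d)ᴴ * scal 𝔄 P * Matrix.diagonal d) * scal 𝔄 c := by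
    rw [Matrix.conjTranspose_mul]
    simp only [Matrix.mul_assoc]
  rw [h1, m2x_mid d P h, m2x_scal_conj, m2x_scal_mul, m2x_scal_mul]

private theorem m2x_E (τ : Tr 𝔄) (d : ι → 𝔄) (c X : Matrix ι ι ℂ) (i j : ι) :
    E τ (Matrix.diagonal d * scal 𝔄 c * scal 𝔄 X * (Matrix.diagonal d * scal 𝔄 c)ᴴ) i j =
      (c * X * cᴴ) i j * τ.f (d i * star (d j)) := by
  have h1 : Matrix.diagonal d * scal 𝔄 c * scal 𝔄 X * (Matrix.diagonal d * scal 𝔄 c)ᴴ =
      Matrix.diagonal d * scal 𝔄 (c * X * cᴴ) * Matrix.diagonal (star d) := by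
    rw [Matrix.conjTranspose_mul, m2x_scal_conj, m2x_scal_mul, m2x_scal_mul,
      Matrix.diagonal_conjTranspose]
    simp only [Matrix.mul_assoc]
  rw [h1]
  change τ.f ((Matrix.diagonal d * scal 𝔄 (c * X * cᴴ) * Matrix.diagonal (star d)) i j) = _
  rw [Matrix.mul_diagonal, Matrix.diagonal_mul]
  change τ.f (d i * algebraMap ℂ 𝔄 ((c * X * cᴴ) i j) * star (d j)) = _
  rw [← Algebra.commutes, mul_assoc, ← Algebra.smul_def, map_smul, smul_eq_mul]

private theorem m2x_gram (d : ι → 𝔄) (h : ∀ i, star (d i) * d i = 1) (F M : Matrix ι ι 𝔄)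
    (hM : M = Matrix.diagonal d * F) : Mᴴ * M = Fᴴ * F := by
  have h1 : (Matrix.diagonal d)ᴴ * Matrix.diagonal d = 1 := by
    rw [Matrix.diagonal_conjTranspose, Matrix.diagonal_mul_diagonal]
    have h2 : (fun i => star d i * d i) = fun _ => 1 := by
      funext i
      exact h i
    rw [h2]
    exact Matrix.diagonal_one
  rw [hM, Matrix.conjTranspose_mul, Matrix.mul_assoc, ← Matrix.mul_assoc _ (Matrix.diagonal d) F,
    h1, Matrix.one_mul]

private theorem m2x_fm (u : 𝔄) (a₀ a₁ : Matrix ι ι 𝔄) (i j : ι) :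
    fm u a₀ a₁ i j = a₀ i j + u * a₁ i j := by
  unfold fm sc
  rw [Matrix.add_apply, Matrix.diagonal_mul]

private theorem m2x_gram_fm (d : ι → 𝔄) (h : ∀ i, star (d i) * d i = 1) (u : 𝔄)
    (a₀ a₁ M : Matrix ι ι 𝔄) (hM : ∀ i v, M i v = d i * (a₀ i v + u * a₁ i v)) :
    Mᴴ * M = (fm u a₀ a₁)ᴴ * fm u a₀ a₁ := by
  refine m2x_gram d h _ _ ?_
  ext i v
  rw [Matrix.diagonal_mul, m2x_fm, hM]

private theorem m2x_eI (η : ℝ) (Z : Matrix ι ι ℝ) :
    scal 𝔄 ((η • (1 : Matrix ι ι ℝ) + Z).map Complex.ofReal) =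
      eI 𝔄 ι η + scal 𝔄 (Z.map Complex.ofReal) := by
  ext i j
  unfold eI
  rw [Matrix.add_apply, Algebra.algebraMap_eq_smul_one, Matrix.smul_apply]
  change algebraMap ℂ 𝔄 (((η • (1 : Matrix ι ι ℝ) i j + Z i j : ℝ) : ℂ)) =
    η • (1 : Matrix ι ι 𝔄) i j + algebraMap ℂ 𝔄 ((Z i j : ℝ) : ℂ)
  rw [Complex.ofReal_add, map_add]
  congr 1
  rw [Matrix.one_apply, Matrix.one_apply, smul_eq_mul]
  split_ifs
  · rw [mul_one, Algebra.algebraMap_eq_smul_one]
    exact (Complex.coe_smul η (1 : 𝔄))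
  · rw [mul_zero, Complex.ofReal_zero, map_zero, smul_zero]

end m2x

section m2r

variable {β : Type*} [Fintype β] [DecidableEq β]
variable {κ : β → Type*} [∀ y, Fintype (κ y)] [∀ y, DecidableEq (κ y)]
variable {ι : Type*} [Fintype ι] [DecidableEq ι]

/-- the stacked matrix, complex -/
private noncomputable def m2rS (e : (Σ y, κ y) ≃ ι) (T : ∀ y, Matrix (κ y) ι ℤ) : Matrix ι ι ℂ :=
  fun i v => ((T (e.symm i).1 (e.symm i).2 v : ℤ) : ℂ)

private theorem m2r_bdC_ne (e : (Σ y, κ y) ≃ ι) (X : ∀ y, Matrix (κ y) (κ y) ℝ) (i j : ι)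
    (h : (e.symm i).1 ≠ (e.symm j).1) : bdC e X i j = 0 := by
  change ((Matrix.blockDiagonal' X (e.symm i) (e.symm j) : ℝ) : ℂ) = 0
  rw [Matrix.blockDiagonal'_apply, dif_neg h, Complex.ofReal_zero]

private theorem m2r_bdC_mk (e : (Σ y, κ y) ≃ ι) (X : ∀ y, Matrix (κ y) (κ y) ℝ) (y : β)
    (h k : κ y) : bdC e X (e ⟨y, h⟩) (e ⟨y, k⟩) = ((X y h k : ℝ) : ℂ) := by
  change ((Matrix.blockDiagonal' X (e.symm (e ⟨y, h⟩)) (e.symm (e ⟨y, k⟩)) : ℝ) : ℂ) = _
  rw [e.symm_apply_apply, e.symm_apply_apply, Matrix.blockDiagonal'_apply_eq]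

private theorem m2r_quad (e : (Σ y, κ y) ≃ ι) (T : ∀ y, Matrix (κ y) ι ℤ)
    (p : ∀ y, Matrix (κ y) (κ y) ℝ) :
    (m2rS e T)ᴴ * bdC e p * m2rS e T =
      (∑ y, (rz (T y))ᵀ * p y * rz (T y)).map Complex.ofReal := by
  ext1 v w
  rw [Matrix.mul_apply, Matrix.map_apply, Matrix.sum_apply, Complex.ofReal_sum]
  rw [← e.sum_comp, Fintype.sum_sigma]
  refine Finset.sum_congr rfl fun y _ => ?_
  rw [Matrix.mul_apply, Complex.ofReal_sum]
  refine Finset.sum_congr rfl fun k _ => ?_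
  rw [Complex.ofReal_mul]
  have h1 : m2rS e T (e ⟨y, k⟩) w = ((rz (T y) k w : ℝ) : ℂ) := by
    unfold m2rS rz
    rw [e.symm_apply_apply, Matrix.map_apply, Complex.ofReal_intCast]
  rw [h1]
  congr 1
  rw [Matrix.mul_apply, Matrix.mul_apply, Complex.ofReal_sum, ← e.sum_comp, Fintype.sum_sigma]
  rw [Finset.sum_eq_single y]
  · refine Finset.sum_congr rfl fun h _ => ?_
    rw [m2r_bdC_mk, Complex.ofReal_mul]
    congr 1
    rw [Matrix.conjTranspose_apply, Matrix.transpose_apply]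
    unfold m2rS rz
    rw [e.symm_apply_apply, Matrix.map_apply, Complex.ofReal_intCast]
    exact star_intCast _
  · intro y' _ hy'
    refine Finset.sum_eq_zero fun h _ => ?_
    rw [m2r_bdC_ne, mul_zero]
    rw [e.symm_apply_apply, e.symm_apply_apply]
    exact hy'
  · intro h
    exact absurd (Finset.mem_univ _) h

private theorem m2r_sand (e : (Σ y, κ y) ≃ ι) (T : ∀ y, Matrix (κ y) ι ℤ) (X : Matrix ι ι ℝ)
    (y : β) (h k : κ y) :
    (m2rS e T * X.map Complex.ofReal * (m2rS e T)ᴴ) (e ⟨y, h⟩) (e ⟨y, k⟩) =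
      (((rz (T y) * X * (rz (T y))ᵀ) h k : ℝ) : ℂ) := by
  have h1 : ∀ (k : κ y) (w : ι), m2rS e T (e ⟨y, k⟩) w = ((rz (T y) k w : ℝ) : ℂ) := by
    intro k w
    unfold m2rS rz
    rw [e.symm_apply_apply, Matrix.map_apply, Complex.ofReal_intCast]
  rw [Matrix.mul_apply, Matrix.mul_apply, Complex.ofReal_sum]
  refine Finset.sum_congr rfl fun w _ => ?_
  rw [Matrix.mul_apply, Matrix.mul_apply, Complex.ofReal_mul, Complex.ofReal_sum]
  congr 1
  · refine Finset.sum_congr rfl fun v _ => ?_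
    rw [h1, Matrix.map_apply, Complex.ofReal_mul]
  · rw [Matrix.conjTranspose_apply, Matrix.transpose_apply, h1]
    exact Complex.conj_ofReal _

end m2r

variable {β : Type*} [Fintype β] [DecidableEq β]
variable {κ : β → Type*} [∀ y, Fintype (κ y)] [∀ y, DecidableEq (κ y)]
variable {ι : Type*} [Fintype ι] [DecidableEq ι]

/-- rows `(y, h)`: `b_y T_y(h, ·) - O_y(h, ·)` -/
noncomputable def penc (T O : ∀ y, Matrix (κ y) ι ℤ) :
    Matrix (Σ y, κ y) ι (MonoidAlgebra ℂ (FreeGroup β)) := fun r v =>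
  MonoidAlgebra.single (FreeGroup.of r.1) ((T r.1 r.2 v : ℤ) : ℂ) -
    MonoidAlgebra.single 1 ((O r.1 r.2 v : ℤ) : ℂ)

/-- the free group on `z_y`, `w_y`, `u` -/
abbrev F2 (β : Type*) : Type _ := FreeGroup (Option (β ⊕ β))

/-- `z_y` -/
def m2z (y : β) : F2 β := FreeGroup.of (some (Sum.inl y))

/-- `w_y` -/
def m2w (y : β) : F2 β := FreeGroup.of (some (Sum.inr y))

/-- `b_y ↦ z_y u w_y` -/
def m2phi : FreeGroup β →* F2 β := FreeGroup.lift fun y => m2z y * FreeGroup.of none * m2w y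

theorem m2phi_inj : Function.Injective (m2phi : FreeGroup β →* F2 β) := by
  have h : ((FreeGroup.lift (fun o : Option (β ⊕ β) => match o with
      | some (Sum.inl y) => FreeGroup.of y
      | _ => 1)).comp m2phi : FreeGroup β →* FreeGroup β) = MonoidHom.id _ := by
    ext y
    rw [MonoidHom.comp_apply, MonoidHom.id_apply]
    unfold m2phi m2z m2w
    rw [FreeGroup.lift_apply_of, map_mul, map_mul, FreeGroup.lift_apply_of, FreeGroup.lift_apply_of,
      FreeGroup.lift_apply_of, mul_one, mul_one]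
  intro a b hab
  have h1 := congrArg (FreeGroup.lift (fun o : Option (β ⊕ β) => match o with
      | some (Sum.inl y) => FreeGroup.of y
      | _ => 1)) hab
  rw [← MonoidHom.comp_apply, ← MonoidHom.comp_apply, h] at h1
  exact h1

/-- `a₀ = -z⁻¹ O` -/
noncomputable def m2a0 (e : (Σ y, κ y) ≃ ι) (O : ∀ y, Matrix (κ y) ι ℤ) :
    Matrix ι ι (N (F2 β)) := fun i v =>
  (-((O (e.symm i).1 (e.symm i).2 v : ℤ) : ℂ)) • lamG (m2z (e.symm i).1)⁻¹

/-- `a₁ = w T` -/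
noncomputable def m2a1 (e : (Σ y, κ y) ≃ ι) (T : ∀ y, Matrix (κ y) ι ℤ) :
    Matrix ι ι (N (F2 β)) := fun i v =>
  (((T (e.symm i).1 (e.symm i).2 v : ℤ) : ℂ)) • lamG (m2w (e.symm i).1)

variable (e : (Σ y, κ y) ≃ ι) (T O : ∀ y, Matrix (κ y) ι ℤ)

private theorem m2_lam (y : β) (c d : ℂ) :
    lam (MonoidAlgebra.mapDomain m2phi (MonoidAlgebra.single (FreeGroup.of y) c -
      MonoidAlgebra.single 1 d)) =
      c • (lamG (m2z y * FreeGroup.of none * m2w y) : N (F2 β)) - d • (1 : N (F2 β)) := by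
  have h : m2phi (FreeGroup.of y) = m2z y * FreeGroup.of none * m2w y := by
    unfold m2phi
    exact FreeGroup.lift_apply_of
  have h0 : MonoidAlgebra.mapDomain (m2phi : FreeGroup β → F2 β)
      (MonoidAlgebra.single (FreeGroup.of y) c - MonoidAlgebra.single 1 d) =
      MonoidAlgebra.single (m2phi (FreeGroup.of y)) c - MonoidAlgebra.single (m2phi 1) d := by
    have h1 : ∀ z : MonoidAlgebra ℂ (FreeGroup β),
        MonoidAlgebra.mapDomain m2phi z = MonoidAlgebra.mapDomainRingHom ℂ m2phi z := fun z => rfl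
    rw [h1, map_sub, ← h1, ← h1, MonoidAlgebra.mapDomain_single, MonoidAlgebra.mapDomain_single]
  rw [h0, map_sub, lam_single, lam_single, map_one, map_one, h]

private theorem m2_rhs (y : β) (c d : ℂ) :
    (lamG (m2z y) : N (F2 β)) * ((-d) • lamG (m2z y)⁻¹ + lamG (FreeGroup.of none) *
      (c • lamG (m2w y))) =
      c • (lamG (m2z y * FreeGroup.of none * m2w y) : N (F2 β)) - d • (1 : N (F2 β)) := by
  have h1 : (lamG (m2z y) : N (F2 β)) * lamG (m2z y)⁻¹ = 1 := by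
    rw [← map_mul, mul_inv_cancel, map_one]
  have h2 : (lamG (m2z y) : N (F2 β)) * (lamG (FreeGroup.of none) * lamG (m2w y)) =
      lamG (m2z y * FreeGroup.of none * m2w y) := by
    rw [map_mul, map_mul, mul_assoc]
  rw [mul_add, mul_smul_comm, mul_smul_comm, mul_smul_comm, h1, h2, neg_smul]
  abel

theorem m2_gram :
    (lamM (mapM m2phi ((penc T O).submatrix e.symm id)))ᴴ *
        lamM (mapM m2phi ((penc T O).submatrix e.symm id)) =
      (fm (lamG (FreeGroup.of none)) (m2a0 e O) (m2a1 e T))ᴴ *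
        fm (lamG (FreeGroup.of none)) (m2a0 e O) (m2a1 e T) := by
  refine m2x_gram_fm (fun i => (lamG (m2z (e.symm i).1) : N (F2 β))) (fun i => lamG_star_mul _)
    _ _ _ _ ?_
  intro i v
  have h1 := m2_lam (e.symm i).1 ((T (e.symm i).1 (e.symm i).2 v : ℤ) : ℂ)
    ((O (e.symm i).1 (e.symm i).2 v : ℤ) : ℂ)
  have h2 := m2_rhs (e.symm i).1 ((T (e.symm i).1 (e.symm i).2 v : ℤ) : ℂ)
    ((O (e.symm i).1 (e.symm i).2 v : ℤ) : ℂ)
  exact h1.trans h2.symm

theorem m2_UF : ∃ U : UFree (trN (F2 β)), U.u = lamG (FreeGroup.of none) ∧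
    EntIn (U.A : Set (N (F2 β))) (m2a0 e O) ∧ EntIn (U.A : Set (N (F2 β))) (m2a1 e T) := by
  obtain ⟨U, hU, hA⟩ := exists_UF (β ⊕ β)
  have hg : ∀ (c : ℂ) (g : F2 β), g ∈ AS (β ⊕ β) → c • (lamG g : N (F2 β)) ∈ U.A := by
    intro c g hg
    rw [hA]
    intro h hh
    rw [N.co_smul, co_lamG, if_neg, mul_zero]
    intro h1
    exact hh (h1 ▸ hg)
  have hs : ∀ z : β ⊕ β, (FreeGroup.of (some z) : F2 β) ∈ AS (β ⊕ β) := fun z =>
    ⟨FreeGroup.of z, FreeGroup.map.of⟩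
  refine ⟨U, hU, ?_, ?_⟩
  · intro i j
    exact hg _ _ ((AS (β ⊕ β)).inv_mem (hs _))
  · intro i j
    exact hg _ _ (hs _)

private theorem m2_a0_fac : m2a0 e O =
    Matrix.diagonal (fun i => (lamG (m2z (e.symm i).1)⁻¹ : N (F2 β))) *
      scal (N (F2 β)) (-(m2rS e O)) := by
  ext i v
  rw [m2x_fac]
  rfl

private theorem m2_a1_fac : m2a1 e T =
    Matrix.diagonal (fun i => (lamG (m2w (e.symm i).1) : N (F2 β))) *
      scal (N (F2 β)) (m2rS e T) := by
  ext i v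
  rw [m2x_fac]
  rfl

theorem m2_Qm (η : ℝ) (p q : ∀ y, Matrix (κ y) (κ y) ℝ) :
    Qm (m2a0 e O) (m2a1 e T) η (bdC e q) (bdC e p) =
      scal (N (F2 β)) ((η • (1 : Matrix ι ι ℝ) + Qr T O p q).map Complex.ofReal) := by
  have h0 : ∀ i j, bdC e q i j = 0 ∨ star (lamG (m2z (e.symm i).1)⁻¹ : N (F2 β)) *
      lamG (m2z (e.symm j).1)⁻¹ = 1 := by
    intro i j
    by_cases h : (e.symm i).1 = (e.symm j).1
    · right
      rw [h]
      exact lamG_star_mul _
    · left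
      exact m2r_bdC_ne e q i j h
  have h1 : ∀ i j, bdC e p i j = 0 ∨ star (lamG (m2w (e.symm i).1) : N (F2 β)) *
      lamG (m2w (e.symm j).1) = 1 := by
    intro i j
    by_cases h : (e.symm i).1 = (e.symm j).1
    · right
      rw [h]
      exact lamG_star_mul _
    · left
      exact m2r_bdC_ne e p i j h
  have h2 : (-(m2rS e O))ᴴ * bdC e q * (-(m2rS e O)) + (m2rS e T)ᴴ * bdC e p * m2rS e T =
      (Qr T O p q).map Complex.ofReal := by
    rw [Matrix.conjTranspose_neg, Matrix.neg_mul, Matrix.neg_mul, Matrix.mul_neg, neg_neg,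
      m2r_quad, m2r_quad, add_comm]
    unfold Qr
    rw [Finset.sum_add_distrib]
    ext i j
    exact (Complex.ofReal_add _ _).symm
  unfold Qm
  rw [m2_a0_fac, m2_a1_fac, m2x_Q _ _ _ h0, m2x_Q _ _ _ h1, m2x_eI, ← h2, add_assoc]
  congr 1
  exact (m2x_scal_add _ _).symm

private theorem m2_E_aux (T : ∀ y, Matrix (κ y) ι ℤ) (X : Matrix ι ι ℝ) (g : β → F2 β)
    (hg : Function.Injective g) (c : Matrix ι ι ℂ)
    (hc : c * X.map Complex.ofReal * cᴴ = m2rS e T * X.map Complex.ofReal * (m2rS e T)ᴴ) :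
    E (trN (F2 β)) (Matrix.diagonal (fun i => (lamG (g (e.symm i).1) : N (F2 β))) *
      scal (N (F2 β)) c * scal (N (F2 β)) (X.map Complex.ofReal) *
      (Matrix.diagonal (fun i => (lamG (g (e.symm i).1) : N (F2 β))) *
      scal (N (F2 β)) c)ᴴ) =
      bdC e (fun y => rz (T y) * X * (rz (T y))ᵀ) := by
  ext i j
  rw [m2x_E, hc, lamG_star, ← map_mul, trN_apply, co_lamG]
  obtain ⟨⟨y, h⟩, rfl⟩ := e.surjective i
  obtain ⟨⟨y', k⟩, rfl⟩ := e.surjective j
  by_cases hy : y = y'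
  · subst hy
    rw [m2r_sand, m2r_bdC_mk, e.symm_apply_apply, e.symm_apply_apply, if_pos, mul_one]
    exact (mul_inv_cancel _).symm
  · rw [m2r_bdC_ne, if_neg, mul_zero]
    · rw [e.symm_apply_apply, e.symm_apply_apply]
      intro h1
      exact hy (hg (mul_inv_eq_one.mp h1.symm))
    · rw [e.symm_apply_apply, e.symm_apply_apply]
      exact hy

theorem m2_E₀ (X : Matrix ι ι ℝ) :
    E (trN (F2 β)) (m2a0 e O * scal (N (F2 β)) (X.map Complex.ofReal) * (m2a0 e O)ᴴ) =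
      bdC e (fun y => rz (O y) * X * (rz (O y))ᵀ) := by
  rw [m2_a0_fac]
  refine m2_E_aux e O X (fun y => (m2z y)⁻¹) ?_ _ ?_
  · intro y y' h
    exact Sum.inl_injective (Option.some_injective _ (FreeGroup.of_injective (inv_injective h)))
  · rw [Matrix.conjTranspose_neg, Matrix.neg_mul, Matrix.neg_mul, Matrix.mul_neg, neg_neg]

theorem m2_E₁ (X : Matrix ι ι ℝ) :
    E (trN (F2 β)) (m2a1 e T * scal (N (F2 β)) (X.map Complex.ofReal) * (m2a1 e T)ᴴ) =
      bdC e (fun y => rz (T y) * X * (rz (T y))ᵀ) := by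
  rw [m2_a1_fac]
  refine m2_E_aux e T X (fun y => m2w y) ?_ _ rfl
  intro y y' h
  exact Sum.inr_injective (Option.some_injective _ (FreeGroup.of_injective h))

end LT
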