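import Pool.Agent.H29.LG.J00
import Pool.Agent.H29.LG.M02

/-!
# LG-J01: the Schreier graph data, definitions and cocycles

A finite piece `V` of the Schreier graph of `C = range (lift c)` (`𝒮 = F/C`, `s₀` the base point),
containing the paths of the words `c_k`; one base edge `h₀ y → b_y • h₀ y` for each letter `y`;
`x s` moves `s₀` to `s`, along a path inside `V` if `s ∈ V`.

* `GD.al`: the cocycle which records the edges inside `V` other than the base edges.
* `GD.om w s`: the element of `FreeGroup β` with `lift c (om w s) = (x (w • s))⁻¹ * w * x s`.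
* `GD.gam w s = x (w • s) * (Fox derivatives of om w s, evaluated at c)`, a cocycle:
  `om (v w) s = om v (w • s) * om w s` (injectivity of `lift c`), `fox_mul`, and
  `x (v w s) * lift c (om v (w s)) = v * x (w s)`.
-/

set_option linter.unusedSectionVars false

namespace LT

open scoped Matrix

variable {β : Type*} [Fintype β] [DecidableEq β]

/-- Schreier graph data -/
structure GD (c : β → FreeGroup β) (𝒮 : Type*) [DecidableEq 𝒮] [MulAction (FreeGroup β) 𝒮] where
  hc : Function.Injective (FreeGroup.lift c)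
  s₀ : 𝒮
  V : Finset 𝒮
  hs₀ : s₀ ∈ V
  h₀ : β → 𝒮
  hh₀ : ∀ y, h₀ y ∈ V
  hh₁ : ∀ y, FreeGroup.of y • h₀ y ∈ V
  x : 𝒮 → FreeGroup β
  hx : ∀ s, x s • s₀ = s
  hx₀ : x s₀ = 1
  lx : 𝒮 → List (β × Bool)
  hlx : ∀ v ∈ V, x v = FreeGroup.mk (lx v) ∧ PathIn (V : Set 𝒮) s₀ (lx v)
  stab : ∀ g : FreeGroup β, g • s₀ = s₀ ↔ g ∈ (FreeGroup.lift c).range
  hpath : ∀ k, PathIn (V : Set 𝒮) s₀ (c k).toWord

namespace GD

variable {c : β → FreeGroup β} {𝒮 : Type*} [DecidableEq 𝒮] [MulAction (FreeGroup β) 𝒮]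
variable (D : GD c 𝒮)

/-- the columns: vertices other than the base point -/
abbrev ι : Type _ := ↥(D.V.erase D.s₀)

/-- the rows with label `y`: edges other than the base edge -/
abbrev κ (y : β) : Type _ :=
  ↥((D.V.filter fun h => FreeGroup.of y • h ∈ D.V).erase (D.h₀ y))

/-- starting points -/
def T (y : β) : Matrix (D.κ y) D.ι ℤ := fun h v =>
  (if (h : 𝒮) = v then 1 else 0) - (if D.h₀ y = v then 1 else 0)

/-- end points -/
def O (y : β) : Matrix (D.κ y) D.ι ℤ := fun h v =>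
  (if FreeGroup.of y • (h : 𝒮) = v then 1 else 0) -
    (if FreeGroup.of y • D.h₀ y = v then 1 else 0)

/-- the pencil -/
noncomputable def f : Matrix (Σ y, D.κ y) D.ι (FR β) := penc D.T D.O

/-- the basis vector of a vertex (`0` for the base point) -/
noncomputable def dl (s : 𝒮) : D.ι → FR β := fun v => if s = v then 1 else 0

/-- the edge `(y, s)` as a basis vector (`0` if it is a base edge or not inside `V`) -/
noncomputable def ed (y : β) (s : 𝒮) : (Σ y, D.κ y) → FR β := fun j =>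
  if y = j.1 ∧ s = (j.2 : 𝒮) then 1 else 0

/-- the cocycle recording the edges -/
noncomputable def al : FreeGroup β → 𝒮 → (Σ y, D.κ y) → FR β :=
  Classical.choose (exists_coc D.ed)

theorem al_coc : IsCoc D.al := (Classical.choose_spec (exists_coc D.ed)).1

theorem al_of (y : β) (s : 𝒮) : D.al (FreeGroup.of y) s = D.ed y s :=
  (Classical.choose_spec (exists_coc D.ed)).2 y s

theorem exists_om (w : FreeGroup β) (s : 𝒮) :
    ∃ o : FreeGroup β, FreeGroup.lift c o = (D.x (w • s))⁻¹ * w * D.x s := by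
  have h : ((D.x (w • s))⁻¹ * w * D.x s) • D.s₀ = D.s₀ := by
    rw [mul_smul, mul_smul, D.hx, inv_smul_eq_iff, D.hx]
  exact (D.stab _).mp h

/-- `lift c (om w s) = (x (w • s))⁻¹ * w * x s` -/
noncomputable def om (w : FreeGroup β) (s : 𝒮) : FreeGroup β := Classical.choose (D.exists_om w s)

theorem om_spec (w : FreeGroup β) (s : 𝒮) :
    FreeGroup.lift c (D.om w s) = (D.x (w • s))⁻¹ * w * D.x s :=
  Classical.choose_spec (D.exists_om w s)

theorem om_mul (v w : FreeGroup β) (s : 𝒮) : D.om (v * w) s = D.om v (w • s) * D.om w s := by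
  apply D.hc
  rw [map_mul, om_spec, om_spec, om_spec, mul_smul]
  group

/-- the Fox derivatives evaluated at `c` -/
noncomputable def dc (c : β → FreeGroup β) (w : FreeGroup β) : β → FR β := fun k =>
  MonoidAlgebra.mapDomain (FreeGroup.lift c) (fox k w)

/-- `x (w • s) * dc (om w s)` -/
noncomputable def gam (w : FreeGroup β) (s : 𝒮) : β → FR β := lm (D.x (w • s)) (dc c (D.om w s))

theorem j01_dc_mul (v w : FreeGroup β) :
    dc c (v * w) = dc c v + lm (FreeGroup.lift c v) (dc c w) := by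
  funext k
  have h : ∀ z : FR β, MonoidAlgebra.mapDomain (FreeGroup.lift c) z =
      MonoidAlgebra.mapDomainRingHom ℂ (FreeGroup.lift c) z := fun z => rfl
  simp only [dc, lm, Pi.add_apply, fox_mul]
  rw [h, h, h, map_add, map_mul, ← h (MonoidAlgebra.single v 1), MonoidAlgebra.mapDomain_single]

theorem gam_coc : IsCoc D.gam := by
  intro v w s
  unfold gam
  rw [om_mul, j01_dc_mul, lm_add, lm_lm, lm_lm, om_spec, mul_smul]
  congr 2
  group

/-- the Jacobian -/
noncomputable def J (_ : GD c 𝒮) : Matrix β β (FR β) := fun k b => fox b (c k)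

/-- `X_y = δ(b_y h₀) - b_y δ(h₀)` -/
noncomputable def X : Matrix β D.ι (FR β) := fun y =>
  D.dl (FreeGroup.of y • D.h₀ y) - lm (FreeGroup.of y) (D.dl (D.h₀ y))

/-- `Y_v = fox (x_v)` -/
noncomputable def Y : Matrix D.ι β (FR β) := fun v b => fox b (D.x v)

/-- `A_k = α(c_k, s₀)` -/
noncomputable def A : Matrix β (Σ y, D.κ y) (FR β) := fun k => D.al (c k) D.s₀

/-- `H'_v = α(x_v, s₀)` -/
noncomputable def H' : Matrix D.ι (Σ y, D.κ y) (FR β) := fun v => D.al (D.x v) D.s₀

/-- `H_y = -γ(b_y, h₀ y)` -/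
noncomputable def H : Matrix β β (FR β) := fun y => -D.gam (FreeGroup.of y) (D.h₀ y)

/-- `A'_{(y,h)} = γ(b_y, h) - γ(b_y, h₀ y)` -/
noncomputable def A' : Matrix (Σ y, D.κ y) β (FR β) := fun j =>
  D.gam (FreeGroup.of j.1) (j.2 : 𝒮) - D.gam (FreeGroup.of j.1) (D.h₀ j.1)

/-- the rows of the pencil -/
theorem f_row (y : β) (h : D.κ y) : D.f ⟨y, h⟩ =
    lm (FreeGroup.of y) (D.dl (h : 𝒮) - D.dl (D.h₀ y)) -
      (D.dl (FreeGroup.of y • (h : 𝒮)) - D.dl (FreeGroup.of y • D.h₀ y)) := by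
  funext v
  have key : ∀ (g : FreeGroup β) (P Q : Prop) [Decidable P] [Decidable Q],
      (MonoidAlgebra.single g ((((if P then 1 else 0) - (if Q then 1 else 0) : ℤ)) : ℂ) : FR β) =
        MonoidAlgebra.single g 1 * ((if P then 1 else 0) - (if Q then 1 else 0)) := by
    intro g P Q _ _
    by_cases hP : P <;> by_cases hQ : Q
    · simp [hP, hQ]
    · simp [hP, hQ]
    · simp [hP, hQ]
    · simp [hP, hQ]
  show MonoidAlgebra.single (FreeGroup.of y) ((D.T y h v : ℤ) : ℂ) -
    MonoidAlgebra.single 1 ((D.O y h v : ℤ) : ℂ) = _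
  simp only [T, O, lm, Pi.sub_apply, dl]
  rw [key, key, ← MonoidAlgebra.one_def, one_mul]

/-- an edge inside `V`, as a row vector times a matrix: base edges give `0` -/
theorem ed_vecMul {ν : Type*} (y : β) {s : 𝒮} (hs : s ∈ D.V) (hs' : FreeGroup.of y • s ∈ D.V)
    (Z : Matrix (Σ y, D.κ y) ν (FR β)) (g : 𝒮 → ν → FR β) (h0 : g (D.h₀ y) = 0)
    (hZ : ∀ h : D.κ y, Z ⟨y, h⟩ = g h) : D.ed y s ᵥ* Z = g s := by
  funext n
  show ∑ j, D.ed y s j * Z j n = g s n
  by_cases h : s = D.h₀ y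
  · rw [h, h0]
    refine Finset.sum_eq_zero fun j _ => ?_
    have hj : D.ed y (D.h₀ y) j = 0 := by
      unfold ed
      refine if_neg ?_
      rintro ⟨h1, h2⟩
      obtain ⟨y', k⟩ := j
      subst h1
      exact (Finset.mem_erase.mp k.2).1 h2.symm
    rw [hj, zero_mul]
  · have hmem : s ∈ (D.V.filter fun h => FreeGroup.of y • h ∈ D.V).erase (D.h₀ y) :=
      Finset.mem_erase.mpr ⟨h, Finset.mem_filter.mpr ⟨hs, hs'⟩⟩
    rw [Finset.sum_eq_single (⟨y, ⟨s, hmem⟩⟩ : Σ y, D.κ y)]
    · have hj : D.ed y s (⟨y, ⟨s, hmem⟩⟩ : Σ y, D.κ y) = 1 := by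
        unfold ed
        exact if_pos ⟨rfl, rfl⟩
      rw [hj, one_mul, hZ]
    · intro j _ hj
      have hj' : D.ed y s j = 0 := by
        unfold ed
        refine if_neg ?_
        rintro ⟨h1, h2⟩
        apply hj
        obtain ⟨y', k⟩ := j
        dsimp only at h1 h2
        subst h1
        have : k = ⟨s, hmem⟩ := Subtype.ext h2.symm
        rw [this]
      rw [hj', zero_mul]
    · intro hn
      exact absurd (Finset.mem_univ _) hn

theorem dl_s₀ : D.dl D.s₀ = 0 := by
  funext v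
  unfold dl
  exact if_neg fun h => (Finset.mem_erase.mp v.2).1 h.symm

theorem j01_ite (P : Prop) [Decidable P] :
    (if P then (1 : FR β) else 0) ∈ intR (FreeGroup β) := by
  split_ifs
  · exact one_mem _
  · exact zero_mem _

theorem j01_dl (s : 𝒮) (v : D.ι) : D.dl s v ∈ intR (FreeGroup β) := j01_ite _

theorem j01_al (w : FreeGroup β) (s : 𝒮) (j : Σ y, D.κ y) :
    D.al w s j ∈ intR (FreeGroup β) := by
  refine IsCoc.int D.al_coc ?_ w s j
  intro y s j
  rw [al_of]
  exact j01_ite _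

theorem j01_gam (w : FreeGroup β) (s : 𝒮) (b : β) : D.gam w s b ∈ intR (FreeGroup β) :=
  mul_mem (single_one_mem_intR _) (mapDomain_mem_intR _ (fox_mem_intR _ _))

theorem intM_f : IntM D.f := fun _ _ =>
  sub_mem (single_mem_intR _ _) (single_mem_intR _ _)

theorem intM_J : IntM D.J := fun _ _ => fox_mem_intR _ _

theorem intM_X : IntM D.X := fun _ _ =>
  sub_mem (D.j01_dl _ _) (mul_mem (single_one_mem_intR _) (D.j01_dl _ _))

theorem intM_Y : IntM D.Y := fun _ _ => fox_mem_intR _ _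

theorem intM_A : IntM D.A := fun _ _ => D.j01_al _ _ _

theorem intM_H' : IntM D.H' := fun _ _ => D.j01_al _ _ _

theorem intM_H : IntM D.H := fun _ _ => neg_mem (D.j01_gam _ _ _)

theorem intM_A' : IntM D.A' := fun _ _ => sub_mem (D.j01_gam _ _ _) (D.j01_gam _ _ _)

end GD

end LT
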