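import Pool.Agent.H29.LG.C01
import Pool.Agent.H29.LG.G15
import Pool.Agent.H29.LG.J01

/-!
# LG-C02: the combinatorial condition

`𝒳 = {m : 𝒮 →₀ ℤ // m ≠ 0 ∧ (sum of the values) = 0}` with the action `g • m = m.mapDomain (g • ·)`.
`hat m` (`m : D.ι → ℤ`): the function on `𝒮` with values `m v` on `V ∖ {s₀}` and `-∑ m v` at `s₀`; a
bijection between `ι → ℤ` and the functions supported in `V` with sum `0`; `hat m ≠ 0` if `m ≠ 0`.
For `χ : κ y → ℤ` let `χ̂ = ∑_h χ h (δ_h - δ_{h₀ y})`, nonzero if `χ ≠ 0`;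
`hat ((T y)ᵀ *ᵥ χ) = χ̂` and `hat ((O y)ᵀ *ᵥ χ) = b_y • χ̂`.
Given `m₀ ≠ 0` apply `tree_assign` with `x₀ = hat m₀`; for `e = (y, χ)` the element
`a (y, χ̂) ∈ {χ̂, b_y • χ̂}` is `hat` of `(T y)ᵀ *ᵥ χ` or `(O y)ᵀ *ᵥ χ`; take this as the value.
Injectivity: `(y, χ) ↦ (y, χ̂)` is injective.
-/

set_option linter.unusedSectionVars false

namespace LT

open scoped Matrix

variable {β : Type*} [Fintype β] [DecidableEq β]

namespace GD

variable {c : β → FreeGroup β} {𝒮 : Type*} [DecidableEq 𝒮] [MulAction (FreeGroup β) 𝒮]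
variable (D : GD c 𝒮)

/-- `∑_v m_v (δ_v - δ_{s₀})` -/
private noncomputable def c02hat (m : D.ι → ℤ) : 𝒮 →₀ ℤ :=
  ∑ v, m v • (Finsupp.single (v : 𝒮) (1 : ℤ) - Finsupp.single D.s₀ 1)

/-- `∑_h χ_h (δ_h - δ_{h₀ y})` -/
private noncomputable def c02chi (y : β) (χ : D.κ y → ℤ) : 𝒮 →₀ ℤ :=
  ∑ h, χ h • (Finsupp.single (h : 𝒮) (1 : ℤ) - Finsupp.single (D.h₀ y) 1)

/-- values of a sum of differences of basis vectors -/
private theorem c02_val {V : Finset 𝒮} {s : 𝒮} (m : ↥(V.erase s) → ℤ) (v : ↥(V.erase s)) :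
    (∑ w : ↥(V.erase s), m w • (Finsupp.single (w : 𝒮) (1 : ℤ) - Finsupp.single s 1) :
      𝒮 →₀ ℤ) (v : 𝒮) = m v := by
  have hv : (v : 𝒮) ≠ s := (Finset.mem_erase.1 v.2).1
  rw [Finsupp.finsetSum_apply, Finset.sum_eq_single v]
  · rw [Finsupp.smul_apply, Finsupp.sub_apply, Finsupp.single_eq_same,
      Finsupp.single_eq_of_ne hv]
    simp
  · intro w _ hw
    have hw' : (v : 𝒮) ≠ (w : 𝒮) := fun h => hw (Subtype.ext h.symm)
    rw [Finsupp.smul_apply, Finsupp.sub_apply, Finsupp.single_eq_of_ne hw',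
      Finsupp.single_eq_of_ne hv]
    simp
  · intro h
    exact absurd (Finset.mem_univ v) h

private theorem c02_inj {V : Finset 𝒮} {s : 𝒮} {m m' : ↥(V.erase s) → ℤ}
    (h : (∑ w : ↥(V.erase s), m w • (Finsupp.single (w : 𝒮) (1 : ℤ) - Finsupp.single s 1) :
      𝒮 →₀ ℤ) =
      ∑ w : ↥(V.erase s), m' w • (Finsupp.single (w : 𝒮) (1 : ℤ) - Finsupp.single s 1)) :
    m = m' := by
  funext v
  rw [← c02_val m v, h, c02_val m' v]

/-- the sum of the values as a homomorphism -/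
private noncomputable def c02sum (𝒮 : Type*) : (𝒮 →₀ ℤ) →+ ℤ :=
  Finsupp.liftAddHom fun _ => AddMonoidHom.id ℤ

private theorem c02sum_eq (m : 𝒮 →₀ ℤ) : c02sum 𝒮 m = m.sum fun _ n => n := rfl

private theorem c02sum_single (s : 𝒮) (n : ℤ) : c02sum 𝒮 (Finsupp.single s n) = n := by
  rw [c02sum_eq, Finsupp.sum_single_index rfl]

private theorem c02_sum0 {V : Finset 𝒮} {s : 𝒮} (m : ↥(V.erase s) → ℤ) :
    (∑ w : ↥(V.erase s), m w • (Finsupp.single (w : 𝒮) (1 : ℤ) - Finsupp.single s 1)).sum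
      (fun _ n => n) = 0 := by
  rw [← c02sum_eq, map_sum]
  refine Finset.sum_eq_zero fun w _ => ?_
  rw [map_zsmul, map_sub, c02sum_single, c02sum_single, sub_self, smul_zero]

private theorem c02_sum_map (g : FreeGroup β) (m : 𝒮 →₀ ℤ) :
    (m.mapDomain fun s => g • s).sum (fun _ n => n) = m.sum fun _ n => n :=
  Finsupp.sum_mapDomain_index (fun _ => rfl) (fun _ _ _ => rfl)

/-- the basis vector of a vertex -/
private theorem c02_ind {s : 𝒮} (hs : s ∈ D.V) :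
    ∑ v : D.ι, (if s = (v : 𝒮) then (1 : ℤ) else 0) •
      (Finsupp.single (v : 𝒮) (1 : ℤ) - Finsupp.single D.s₀ 1) =
        Finsupp.single s 1 - Finsupp.single D.s₀ 1 := by
  by_cases h : s = D.s₀
  · rw [h, sub_self]
    refine Finset.sum_eq_zero fun v _ => ?_
    rw [if_neg (fun h1 : D.s₀ = (v : 𝒮) => (Finset.mem_erase.1 v.2).1 h1.symm), zero_smul]
  · rw [Finset.sum_eq_single (⟨s, Finset.mem_erase.2 ⟨h, hs⟩⟩ : D.ι)]
    · rw [if_pos rfl, one_smul]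
    · intro v _ hv
      rw [if_neg (fun h1 : s = (v : 𝒮) => hv (Subtype.ext h1.symm)), zero_smul]
    · intro h1
      exact absurd (Finset.mem_univ _) h1

/-- `hat` of a combination of differences of vertices -/
private theorem c02_comb (y : β) (χ : D.κ y → ℤ) (u : D.κ y → 𝒮) (u₀ : 𝒮) (hu : ∀ h, u h ∈ D.V)
    (hu₀ : u₀ ∈ D.V) (m : D.ι → ℤ)
    (hm : ∀ v : D.ι, m v = ∑ h, ((if u h = (v : 𝒮) then (1 : ℤ) else 0) -
      (if u₀ = (v : 𝒮) then 1 else 0)) * χ h) :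
    D.c02hat m = ∑ h, χ h • (Finsupp.single (u h) (1 : ℤ) - Finsupp.single u₀ 1) := by
  unfold c02hat
  have h1 : ∀ v : D.ι, m v • (Finsupp.single (v : 𝒮) (1 : ℤ) - Finsupp.single D.s₀ 1) =
      ∑ h, χ h • ((if u h = (v : 𝒮) then (1 : ℤ) else 0) •
        (Finsupp.single (v : 𝒮) (1 : ℤ) - Finsupp.single D.s₀ 1) -
        (if u₀ = (v : 𝒮) then (1 : ℤ) else 0) •
        (Finsupp.single (v : 𝒮) (1 : ℤ) - Finsupp.single D.s₀ 1)) := by
    intro v
    rw [hm, Finset.sum_smul]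
    refine Finset.sum_congr rfl fun h _ => ?_
    rw [← sub_smul, smul_smul, mul_comm]
  rw [Finset.sum_congr rfl fun v _ => h1 v, Finset.sum_comm]
  refine Finset.sum_congr rfl fun h _ => ?_
  rw [← Finset.smul_sum, Finset.sum_sub_distrib, D.c02_ind (hu h), D.c02_ind hu₀]
  congr 1
  abel

private theorem c02_memV (y : β) (h : D.κ y) : (h : 𝒮) ∈ D.V :=
  (Finset.mem_filter.1 (Finset.mem_erase.1 h.2).2).1

private theorem c02_memV' (y : β) (h : D.κ y) : FreeGroup.of y • (h : 𝒮) ∈ D.V :=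
  (Finset.mem_filter.1 (Finset.mem_erase.1 h.2).2).2

private theorem c02_T (y : β) (χ : D.κ y → ℤ) : D.c02hat ((D.T y)ᵀ *ᵥ χ) = D.c02chi y χ :=
  D.c02_comb y χ (fun h => (h : 𝒮)) (D.h₀ y) (D.c02_memV y) (D.hh₀ y) _ fun _ => rfl

private theorem c02_O (y : β) (χ : D.κ y → ℤ) : D.c02hat ((D.O y)ᵀ *ᵥ χ) =
    (D.c02chi y χ).mapDomain (fun s => FreeGroup.of y • s) := by
  rw [D.c02_comb y χ (fun h => FreeGroup.of y • (h : 𝒮)) (FreeGroup.of y • D.h₀ y)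
    (D.c02_memV' y) (D.hh₁ y) ((D.O y)ᵀ *ᵥ χ) fun _ => rfl]
  unfold c02chi
  have h1 : ∀ m : 𝒮 →₀ ℤ, m.mapDomain (fun s => FreeGroup.of y • s) =
      Finsupp.mapDomain.addMonoidHom (fun s : 𝒮 => FreeGroup.of y • s) m := fun _ => rfl
  rw [h1, map_sum]
  refine Finset.sum_congr rfl fun h _ => ?_
  rw [map_zsmul, map_sub, ← h1, ← h1, Finsupp.mapDomain_single, Finsupp.mapDomain_single]

theorem comb_of_free
    (hfree : ∀ m : 𝒮 →₀ ℤ, m ≠ 0 → (m.sum fun _ n => n) = 0 →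
      ∀ g : FreeGroup β, m.mapDomain (fun s => g • s) = m → g = 1) : Comb D.T D.O := by
  classical
  intro m₀ hm₀
  have hne : ∀ (g : FreeGroup β) (m : 𝒮 →₀ ℤ), m ≠ 0 → m.mapDomain (fun s => g • s) ≠ 0 := by
    intro g m hm h
    refine hm (Finsupp.mapDomain_injective (MulAction.injective g) ?_)
    rw [Finsupp.mapDomain_zero]
    exact h
  let _ : MulAction (FreeGroup β) {m : 𝒮 →₀ ℤ // m ≠ 0 ∧ (m.sum fun _ n => n) = 0} :=
    { smul := fun g m => ⟨m.1.mapDomain fun s => g • s, hne g m.1 m.2.1,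
        (c02_sum_map g m.1).trans m.2.2⟩
      one_smul := by
        intro m
        apply Subtype.ext
        show m.1.mapDomain (fun s => (1 : FreeGroup β) • s) = m.1
        have h1 : (fun s : 𝒮 => (1 : FreeGroup β) • s) = id := by
          funext s
          exact one_smul _ s
        rw [h1, Finsupp.mapDomain_id]
      mul_smul := by
        intro g g' m
        apply Subtype.ext
        show m.1.mapDomain (fun s => (g * g') • s) =
          (m.1.mapDomain fun s => g' • s).mapDomain fun s => g • s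
        rw [← Finsupp.mapDomain_comp]
        have h1 : (fun s : 𝒮 => (g * g') • s) = (fun s => g • s) ∘ fun s => g' • s := by
          funext s
          exact mul_smul g g' s
        rw [h1] }
  have hx₀ : D.c02hat m₀ ≠ 0 := by
    intro h
    apply hm₀
    refine c02_inj (V := D.V) (s := D.s₀) ?_
    refine h.trans ?_
    simp
  obtain ⟨a, ha1, ha2, ha3⟩ := tree_assign (β := β)
    (𝒳 := {m : 𝒮 →₀ ℤ // m ≠ 0 ∧ (m.sum fun _ n => n) = 0})
    (fun x g hg => hfree x.1 x.2.1 x.2.2 g (congrArg Subtype.val hg))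
    ⟨D.c02hat m₀, hx₀, c02_sum0 m₀⟩
  have hχ : ∀ e : Σ y, {χ : D.κ y → ℤ // χ ≠ 0}, D.c02chi e.1 e.2.1 ≠ 0 := by
    intro e h
    refine e.2.2 (c02_inj (V := D.V.filter fun h => FreeGroup.of e.1 • h ∈ D.V)
      (s := D.h₀ e.1) ?_)
    refine h.trans ?_
    simp
  obtain ⟨p, hp⟩ : ∃ p : (Σ y, {χ : D.κ y → ℤ // χ ≠ 0}) →
      β × {m : 𝒮 →₀ ℤ // m ≠ 0 ∧ (m.sum fun _ n => n) = 0},
      p = fun e => (e.1, ⟨D.c02chi e.1 e.2.1, hχ e, c02_sum0 e.2.1⟩) := ⟨_, rfl⟩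
  have hp1 : ∀ e, (p e).1 = e.1 := fun e => by rw [hp]
  have hp2 : ∀ e, (p e).2.1 = D.c02chi e.1 e.2.1 := fun e => by rw [hp]
  have key : ∀ e : Σ y, {χ : D.κ y → ℤ // χ ≠ 0}, ∃ m : D.ι → ℤ,
      (m = (D.T e.1)ᵀ *ᵥ e.2.1 ∨ m = (D.O e.1)ᵀ *ᵥ e.2.1) ∧ D.c02hat m = (a (p e)).1 := by
    intro e
    rcases ha3 (p e) with h | h
    · refine ⟨_, Or.inl rfl, ?_⟩
      rw [h, hp2, c02_T]
    · refine ⟨_, Or.inr rfl, ?_⟩
      rw [h, c02_O]
      show _ = (p e).2.1.mapDomain fun s => FreeGroup.of (p e).1 • s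
      rw [hp2, hp1]
  choose b hb1 hb2 using key
  refine ⟨b, ?_, fun e => ⟨?_, ?_⟩, hb1⟩
  · intro e e' he
    have h1 : (a (p e)).1 = (a (p e')).1 := by rw [← hb2, ← hb2, he]
    have h2 := ha1 (Subtype.ext h1)
    have h3 : e.1 = e'.1 := by rw [← hp1 e, ← hp1 e', h2]
    have h4 : D.c02chi e.1 e.2.1 = D.c02chi e'.1 e'.2.1 := by rw [← hp2 e, ← hp2 e', h2]
    obtain ⟨y, χ, hχ'⟩ := e
    obtain ⟨y', χ', hχ''⟩ := e'
    have h3' : y = y' := h3
    subst h3'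
    have h5 : χ = χ' := c02_inj h4
    subst h5
    rfl
  · intro h
    refine (a (p e)).2.1 ?_
    rw [← hb2, h]
    unfold c02hat
    simp
  · intro h
    refine ha2 (p e) (Subtype.ext ?_)
    rw [← hb2, h]

end GD

end LT
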