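import Pool.Agent.H29.LG.J01

/-!
# LG-C03: malnormality implies freeness; Gram matrices

`free_of_malnormal`: the finite support of `m` is preserved by `g` and has at least two elements
`s ≠ s'` (nonzero, sum `0`).  Some power `g ^ k`, `k ≥ 1`, fixes `s` and `s'` (a permutation of a finite
set).  With `x = D.x s`, `x' = D.x s'`: `x⁻¹ g^k x ∈ C`, `x'⁻¹ g^k x' ∈ C`, `γ = x'⁻¹ x ∉ C` (as
`s ≠ s'`) and `γ (x⁻¹ g^k x) γ⁻¹ = x'⁻¹ g^k x'`, so `x⁻¹ g^k x = 1`, `g^k = 1`, `g = 1`
(free groups are torsion free, e.g. `FreeGroup.infinite_order` / `IsMulTorsionFree`).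

`gram_T`: `xᵀ T Tᵀ x = ‖Tᵀ x‖²` and `Tᵀ x = 0 → x = 0`: `(Tᵀ x)_v = x_v` for `v ≠ h₀` in the rows;
if `s₀` is a row (then `h₀ ≠ s₀`) its coefficient is minus the value at `h₀`.  Similarly
`gram_O`, with the end points (`b_y •` is injective).
-/

set_option linter.unusedSectionVars false

namespace LT

open scoped Matrix

variable {β : Type*} [Fintype β] [DecidableEq β]

section

variable {𝒮 : Type*} [DecidableEq 𝒮] [MulAction (FreeGroup β) 𝒮]

/-- a power of `g` fixes a point whose orbit stays in a finite set -/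
private theorem c03_pow (m : 𝒮 →₀ ℤ) (g : FreeGroup β)
    (hcl : ∀ s ∈ m.support, g • s ∈ m.support) {s : 𝒮} (hs : s ∈ m.support) :
    ∃ k : ℕ, 0 < k ∧ g ^ k • s = s := by
  have hmem : ∀ n : ℕ, g ^ n • s ∈ m.support := by
    intro n
    induction n with
    | zero => simpa using hs
    | succ n ih =>
      rw [pow_succ', mul_smul]
      exact hcl _ ih
  obtain ⟨i, j, hij, he⟩ := Finite.exists_ne_map_eq_of_infinite
    (fun n : ℕ => (⟨g ^ n • s, hmem n⟩ : ↥m.support))
  have he' : g ^ i • s = g ^ j • s := congrArg Subtype.val he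
  rcases lt_or_gt_of_ne hij with h | h
  · refine ⟨j - i, by omega, ?_⟩
    have h1 : g ^ j = g ^ i * g ^ (j - i) := by
      rw [← pow_add]
      congr 1
      omega
    rw [h1, mul_smul] at he'
    exact ((MulAction.injective (g ^ i)) he').symm
  · refine ⟨i - j, by omega, ?_⟩
    have h1 : g ^ i = g ^ j * g ^ (i - j) := by
      rw [← pow_add]
      congr 1
      omega
    rw [h1, mul_smul] at he'
    exact (MulAction.injective (g ^ j)) he'

/-- an incidence matrix of a star has a positive definite Gram matrix -/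
private theorem c03_gram {κ : Type*} [Fintype κ] [DecidableEq κ] (V : Finset 𝒮) (s₀ : 𝒮)
    (e : κ → 𝒮) (e₀ : 𝒮) (he : Function.Injective e) (he₀ : ∀ h, e h ≠ e₀) (heV : ∀ h, e h ∈ V)
    (heV₀ : e₀ ∈ V) (M : Matrix κ ↥(V.erase s₀) ℤ)
    (hM : ∀ h v, M h v = (if e h = v then 1 else 0) - (if e₀ = v then 1 else 0)) :
    (rz M * (rz M)ᵀ).PosDef := by
  rw [← Matrix.conjTranspose_eq_transpose_of_trivial]
  refine Matrix.PosDef.mul_conjTranspose_self _ ?_
  intro x y hxy
  rw [← sub_eq_zero]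
  set z := x - y with hz
  have h0 : Matrix.vecMul z (rz M) = 0 := by
    rw [hz, Matrix.sub_vecMul]
    exact sub_eq_zero.mpr hxy
  have hv : ∀ v : ↥(V.erase s₀),
      ∑ h, z h * (((if e h = v then 1 else 0) - (if e₀ = v then 1 else 0) : ℝ)) = 0 := by
    intro v
    have h1 := congrFun h0 v
    simp only [Matrix.vecMul, dotProduct, rz, Matrix.map_apply, hM, Pi.zero_apply] at h1
    push_cast at h1
    exact h1
  have key : ∀ h, e h ≠ s₀ → z h = 0 := by
    intro h hh
    have h1 := hv ⟨e h, Finset.mem_erase.mpr ⟨hh, heV h⟩⟩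
    simp only [(he₀ h).symm, if_false, sub_zero] at h1
    rw [Finset.sum_eq_single h] at h1
    · simpa using h1
    · intro b _ hb
      have hb' : e b ≠ e h := fun h2 => hb (he h2)
      simp [hb']
    · intro h2
      exact absurd (Finset.mem_univ h) h2
  funext h
  by_cases hh : e h = s₀
  · have h1 : e₀ ≠ s₀ := fun h2 => he₀ h (hh.trans h2.symm)
    have h2 := hv ⟨e₀, Finset.mem_erase.mpr ⟨h1, heV₀⟩⟩
    simp only [if_true] at h2
    rw [Finset.sum_eq_single h] at h2
    · have h3 : e h ≠ e₀ := he₀ h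
      simp only [h3, if_false, zero_sub, mul_neg, mul_one, neg_eq_zero] at h2
      exact h2
    · intro b _ hb
      have hb' : e b ≠ s₀ := fun h3 => hb (he (h3.trans hh.symm))
      rw [key b hb', zero_mul]
    · intro h3
      exact absurd (Finset.mem_univ h) h3
  · exact key h hh

end

namespace GD

variable {c : β → FreeGroup β} {𝒮 : Type*} [DecidableEq 𝒮] [MulAction (FreeGroup β) 𝒮]
variable (D : GD c 𝒮)

include D in
theorem free_of_malnormal
    (hmal : ∀ γ : FreeGroup β, γ ∉ (FreeGroup.lift c).range → ∀ k ∈ (FreeGroup.lift c).range,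
      γ * k * γ⁻¹ ∈ (FreeGroup.lift c).range → k = 1)
    (m : 𝒮 →₀ ℤ) (hm : m ≠ 0) (h0 : (m.sum fun _ n => n) = 0) (g : FreeGroup β)
    (hg : m.mapDomain (fun s => g • s) = m) : g = 1 := by
  have hinj : Function.Injective (fun s : 𝒮 => g • s) := MulAction.injective g
  have hval : ∀ s, m (g • s) = m s := by
    intro s
    have h1 := Finsupp.mapDomain_apply hinj m s
    rw [hg] at h1
    exact h1
  have hcl : ∀ s ∈ m.support, g • s ∈ m.support := by
    intro s hs
    rw [Finsupp.mem_support_iff] at hs ⊢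
    rw [hval]
    exact hs
  obtain ⟨s, hs⟩ : m.support.Nonempty := by
    rwa [Finsupp.support_nonempty_iff]
  obtain ⟨s', hs', hne⟩ : ∃ s' ∈ m.support, s' ≠ s := by
    by_contra hcon
    push Not at hcon
    have h1 : m.support = {s} := by
      ext t
      rw [Finset.mem_singleton]
      exact ⟨fun h => hcon t h, fun h => h ▸ hs⟩
    rw [Finsupp.sum, h1, Finset.sum_singleton] at h0
    exact (Finsupp.mem_support_iff.mp hs) h0
  obtain ⟨k, hk, hks⟩ := c03_pow m g hcl hs
  obtain ⟨k', hk', hks'⟩ := c03_pow m g hcl hs'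
  have hN : 0 < k * k' := Nat.mul_pos hk hk'
  have fix : ∀ (t : 𝒮) (a b : ℕ), g ^ a • t = t → g ^ (a * b) • t = t := by
    intro t a b hab
    induction b with
    | zero => simp
    | succ b ih => rw [Nat.mul_succ, pow_add, mul_smul, hab, ih]
  have f1 : g ^ (k * k') • s = s := fix s k k' hks
  have f2 : g ^ (k * k') • s' = s' := by
    rw [mul_comm]
    exact fix s' k' k hks'
  set G := g ^ (k * k') with hG
  have conj_mem : ∀ t : 𝒮, G • t = t → (D.x t)⁻¹ * G * D.x t ∈ (FreeGroup.lift c).range := by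
    intro t ht
    rw [← D.stab, mul_smul, mul_smul, D.hx, ht, inv_smul_eq_iff, D.hx]
  have c1 := conj_mem s f1
  have c2 := conj_mem s' f2
  have hγ : (D.x s')⁻¹ * D.x s ∉ (FreeGroup.lift c).range := by
    rw [← D.stab, mul_smul, D.hx, inv_smul_eq_iff, D.hx]
    exact fun h => hne h.symm
  have h1 : (D.x s)⁻¹ * G * D.x s = 1 := by
    refine hmal _ hγ _ c1 ?_
    have h2 : (D.x s')⁻¹ * D.x s * ((D.x s)⁻¹ * G * D.x s) * ((D.x s')⁻¹ * D.x s)⁻¹ =
        (D.x s')⁻¹ * G * D.x s' := by group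
    rw [h2]
    exact c2
  have h3 : G = 1 := by
    have h4 : G = D.x s * ((D.x s)⁻¹ * G * D.x s) * (D.x s)⁻¹ := by group
    rw [h4, h1]
    group
  rw [hG] at h3
  have h5 := IsMulTorsionFree.pow_left_injective (M := FreeGroup β) (n := k * k')
    (Nat.pos_iff_ne_zero.mp hN)
  exact h5 (by simpa using h3)

theorem gram_T (y : β) : (rz (D.T y) * (rz (D.T y))ᵀ).PosDef := by
  refine c03_gram D.V D.s₀ (fun h : D.κ y => (h : 𝒮)) (D.h₀ y) Subtype.val_injective ?_ ?_
    (D.hh₀ y) (D.T y) (fun h v => rfl)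
  · intro h
    exact (Finset.mem_erase.mp h.2).1
  · intro h
    exact (Finset.mem_filter.mp (Finset.mem_erase.mp h.2).2).1

theorem gram_O (y : β) : (rz (D.O y) * (rz (D.O y))ᵀ).PosDef := by
  have hinj : Function.Injective (fun s : 𝒮 => FreeGroup.of y • s) := MulAction.injective _
  refine c03_gram D.V D.s₀ (fun h : D.κ y => FreeGroup.of y • (h : 𝒮))
    (FreeGroup.of y • D.h₀ y) (hinj.comp Subtype.val_injective) ?_ ?_ (D.hh₁ y) (D.O y)
    (fun h v => rfl)
  · intro h he
    exact (Finset.mem_erase.mp h.2).1 (hinj he)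
  · intro h
    exact (Finset.mem_filter.mp (Finset.mem_erase.mp h.2).2).2

end GD

end LT
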