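import Pool.Agent.H29.LG.J01

/-!
# LG-F01: existence of the Schreier graph data

`𝒮 = F ⧸ C`, `C = range (lift c)`, left action, `s₀ = 1 C`, `V = {s₀} ∪ {mk l • s₀ : l a suffix of some
(c k).toWord}`.  `stab`: `QuotientGroup.eq`.  For `y : β`, `hy` gives `k` with `fox y (c k) ≠ 0`, so
`(c k).toWord` contains the letter `(y, b)` (else `foxL y l = 0`); the corresponding step of the path
gives an edge with label `y` inside `V` (`b = true`: from `mk l • s₀` to `b_y • mk l • s₀`; `b = false`: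
from `b_y⁻¹ • mk l • s₀` to `mk l • s₀`); take its starting point as `h₀ y`.
`x s`: for `s ∈ V`, `s ≠ s₀`, `x s = mk l` for a suffix `l` with `mk l • s₀ = s`; `x s₀ = 1`; for other
`s` any representative (`Quotient.out`, `MulAction.exists_smul_eq`).

`nonempty_ι`: if `V = {s₀}` then `h₀ y = s₀` and `b_y • s₀ = s₀` for all `y`, so all generators are in
`C = ⊤`.
-/

set_option linter.unusedSectionVars false

namespace LT

open scoped Matrix

variable {β : Type*} [Fintype β] [DecidableEq β]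

private theorem f01_foxL_zero (y : β) (l : List (β × Bool)) (h : ∀ b, (y, b) ∉ l) :
    foxL y l = 0 := by
  induction l with
  | nil => simp [foxL]
  | cons p l ih =>
    obtain ⟨i, b⟩ := p
    have hi : i ≠ y := by
      rintro rfl
      exact h b List.mem_cons_self
    have hl : ∀ b, (y, b) ∉ l := fun b hb => h b (List.mem_cons_of_mem _ hb)
    cases b
    · rw [foxL, ih hl, if_neg hi, sub_zero, mul_zero]
    · rw [foxL, ih hl, if_neg hi, mul_zero, add_zero]

private theorem f01_path {𝒮 : Type*} [MulAction (FreeGroup β) 𝒮] {V : Set 𝒮} {s : 𝒮}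
    (l : List (β × Bool)) (h : ∀ l', l' <:+ l → FreeGroup.mk l' • s ∈ V) : PathIn V s l := by
  induction l with
  | nil =>
    have h1 := h [] List.suffix_rfl
    have h2 : FreeGroup.mk ([] : List (β × Bool)) = 1 := rfl
    rw [h2, one_smul] at h1
    exact h1
  | cons p l ih =>
    exact ⟨ih fun l' hl' => h l' (hl'.trans (List.suffix_cons p l)), h _ List.suffix_rfl⟩

theorem exists_GD_letter (c : β → FreeGroup β) (hc : Function.Injective (FreeGroup.lift c))
    (hy : ∀ y, ∃ k b, (y, b) ∈ (c k).toWord)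
    [DecidableEq (FreeGroup β ⧸ (FreeGroup.lift c).range)] :
    Nonempty (GD c (FreeGroup β ⧸ (FreeGroup.lift c).range)) := by
  classical
  obtain ⟨s₀, hs₀⟩ : ∃ s₀ : FreeGroup β ⧸ (FreeGroup.lift c).range,
    s₀ = ((1 : FreeGroup β) : FreeGroup β ⧸ (FreeGroup.lift c).range) := ⟨_, rfl⟩
  have hmk1 : FreeGroup.mk ([] : List (β × Bool)) = 1 := rfl
  obtain ⟨V, hV⟩ : ∃ V : Finset (FreeGroup β ⧸ (FreeGroup.lift c).range),
    ∀ s, s ∈ V ↔ s = s₀ ∨ ∃ (k : β) (l : List (β × Bool)), l <:+ (c k).toWord ∧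
      FreeGroup.mk l • s₀ = s := by
    refine ⟨{s₀} ∪ Finset.univ.biUnion fun k : β =>
      ((c k).toWord.tails.map fun l => FreeGroup.mk l • s₀).toFinset, ?_⟩
    intro s
    rw [Finset.mem_union, Finset.mem_singleton, Finset.mem_biUnion]
    constructor
    · rintro (h | ⟨k, -, h⟩)
      · exact Or.inl h
      · rw [List.mem_toFinset, List.mem_map] at h
        obtain ⟨l, hl, rfl⟩ := h
        exact Or.inr ⟨k, l, (List.mem_tails _ _).1 hl, rfl⟩
    · rintro (h | ⟨k, l, hl, rfl⟩)
      · exact Or.inl h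
      · refine Or.inr ⟨k, Finset.mem_univ _, ?_⟩
        rw [List.mem_toFinset, List.mem_map]
        exact ⟨l, (List.mem_tails _ _).2 hl, rfl⟩
  have hV0 : s₀ ∈ V := (hV s₀).2 (Or.inl rfl)
  have hVs : ∀ (k : β) (l : List (β × Bool)), l <:+ (c k).toWord →
      FreeGroup.mk l • s₀ ∈ V := fun k l hl =>
    (hV _).2 (Or.inr ⟨k, l, hl, rfl⟩)
  have hpath : ∀ (k : β) (l : List (β × Bool)), l <:+ (c k).toWord →
      PathIn (V : Set _) s₀ l := fun k l hl =>
    f01_path l fun l' hl' => hVs k l' (hl'.trans hl)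
  have hstab : ∀ g : FreeGroup β, g • s₀ = s₀ ↔ g ∈ (FreeGroup.lift c).range := by
    intro g
    have h1 : g • s₀ = ((g * 1 : FreeGroup β) : FreeGroup β ⧸ (FreeGroup.lift c).range) := by
      rw [hs₀]
      rfl
    rw [h1, hs₀, QuotientGroup.eq, mul_one, mul_one, inv_mem_iff]
  have hedge : ∀ y : β, ∃ s, s ∈ V ∧ FreeGroup.of y • s ∈ V := by
    intro y
    obtain ⟨k, b, hb⟩ := hy y
    obtain ⟨l₁, l₂, hl⟩ := List.append_of_mem hb
    have h2 : ((y, b) :: l₂) <:+ (c k).toWord := ⟨l₁, hl.symm⟩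
    have h3 : l₂ <:+ (c k).toWord := (List.suffix_cons _ _).trans h2
    cases b
    · refine ⟨FreeGroup.mk ((y, false) :: l₂) • s₀, hVs k _ h2, ?_⟩
      rw [fx_mk_false, mul_smul, smul_inv_smul]
      exact hVs k _ h3
    · refine ⟨FreeGroup.mk l₂ • s₀, hVs k _ h3, ?_⟩
      rw [← mul_smul, ← fx_mk_true]
      exact hVs k _ h2
  choose h₀ hh₀ hh₁ using hedge
  have hx : ∀ s : FreeGroup β ⧸ (FreeGroup.lift c).range, ∃ l : List (β × Bool),
      FreeGroup.mk l • s₀ = s ∧ (s ∈ V → PathIn (V : Set _) s₀ l) ∧ (s = s₀ → l = []) := by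
    intro s
    by_cases h1 : s = s₀
    · refine ⟨[], ?_, fun _ => hV0, fun _ => rfl⟩
      rw [hmk1, one_smul, h1]
    · by_cases h2 : s ∈ V
      · rcases (hV s).1 h2 with h3 | ⟨k, l, hl, h3⟩
        · exact absurd h3 h1
        · exact ⟨l, h3, fun _ => hpath k l hl, fun h => absurd h h1⟩
      · obtain ⟨g, hg⟩ := MulAction.exists_smul_eq (FreeGroup β) s₀ s
        refine ⟨g.toWord, ?_, fun h => absurd h h2, fun h => absurd h h1⟩
        rw [FreeGroup.mk_toWord, hg]
  choose lx hlx₁ hlx₂ hlx₃ using hx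
  exact ⟨{
    hc := hc
    s₀ := s₀
    V := V
    hs₀ := hV0
    h₀ := h₀
    hh₀ := hh₀
    hh₁ := hh₁
    x := fun s => FreeGroup.mk (lx s)
    hx := hlx₁
    hx₀ := by
      rw [hlx₃ s₀ rfl]
      exact hmk1
    lx := lx
    hlx := fun v hv => ⟨rfl, hlx₂ v hv⟩
    stab := hstab
    hpath := fun k => hpath k _ List.suffix_rfl }⟩

theorem exists_GD (c : β → FreeGroup β) (hc : Function.Injective (FreeGroup.lift c))
    (hy : ∀ y, ∃ k, fox y (c k) ≠ 0)
    [DecidableEq (FreeGroup β ⧸ (FreeGroup.lift c).range)] :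
    Nonempty (GD c (FreeGroup β ⧸ (FreeGroup.lift c).range)) := by
  refine exists_GD_letter c hc fun y => ?_
  obtain ⟨k, hk⟩ := hy y
  by_contra hcon
  exact hk (f01_foxL_zero y _ fun b hb => hcon ⟨k, b, hb⟩)

/-- compressed families use all letters -/
theorem Compr.letter {c : β → FreeGroup β} (h : ∀ S : Finset (FreeGroup β),
    (FreeGroup.lift c).range ≤ Subgroup.closure (S : Set (FreeGroup β)) →
      Fintype.card β ≤ S.card) (y : β) : ∃ k b, (y, b) ∈ (c k).toWord := by
  by_contra hcon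
  have hcon' : ∀ k b, (y, b) ∉ (c k).toWord := fun k b hb => hcon ⟨k, b, hb⟩
  have key : ∀ l : List (β × Bool), (∀ b, (y, b) ∉ l) → FreeGroup.mk l ∈
      Subgroup.closure (((Finset.univ.erase y).image FreeGroup.of : Finset (FreeGroup β)) :
        Set (FreeGroup β)) := by
    intro l
    induction l with
    | nil =>
      intro _
      exact one_mem _
    | cons p l ih =>
      intro hl
      obtain ⟨i, b⟩ := p
      have hi : i ≠ y := by
        rintro rfl
        exact hl b List.mem_cons_self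
      have h1 := ih fun b hb => hl b (List.mem_cons_of_mem _ hb)
      have h2 : FreeGroup.of i ∈ Subgroup.closure
          (((Finset.univ.erase y).image FreeGroup.of : Finset (FreeGroup β)) :
            Set (FreeGroup β)) := by
        apply Subgroup.subset_closure
        rw [Finset.mem_coe, Finset.mem_image]
        exact ⟨i, Finset.mem_erase.2 ⟨hi, Finset.mem_univ _⟩, rfl⟩
      cases b
      · rw [fx_mk_false]
        exact mul_mem (inv_mem h2) h1
      · rw [fx_mk_true]
        exact mul_mem h2 h1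
  have h1 := h ((Finset.univ.erase y).image FreeGroup.of) (by
    rintro _ ⟨w, rfl⟩
    induction w using FreeGroup.induction_on with
    | C1 => rw [map_one]; exact one_mem _
    | of k =>
      have := key _ (hcon' k)
      rw [FreeGroup.mk_toWord] at this
      rw [FreeGroup.lift_apply_of]
      exact this
    | inv_of k ih => rw [map_inv]; exact inv_mem ih
    | mul a b ha hb => rw [map_mul]; exact mul_mem ha hb)
  have h2 : ((Finset.univ.erase y).image (FreeGroup.of : β → FreeGroup β)).card ≤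
      Fintype.card β - 1 := by
    refine Finset.card_image_le.trans ?_
    rw [Finset.card_erase_of_mem (Finset.mem_univ y), Finset.card_univ]
  have h3 : 0 < Fintype.card β := Fintype.card_pos_iff.2 ⟨y⟩
  omega

theorem GD.nonempty_ι {c : β → FreeGroup β} {𝒮 : Type*} [DecidableEq 𝒮]
    [MulAction (FreeGroup β) 𝒮] (D : GD c 𝒮) (hne : (FreeGroup.lift c).range ≠ ⊤) :
    Nonempty D.ι := by
  by_contra hcon
  have h1 : ∀ s ∈ D.V, s = D.s₀ := by
    intro s hs
    by_contra h
    exact hcon ⟨⟨s, Finset.mem_erase.2 ⟨h, hs⟩⟩⟩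
  apply hne
  rw [eq_top_iff, ← FreeGroup.closure_range_of, Subgroup.closure_le]
  rintro g ⟨y, rfl⟩
  have h2 : FreeGroup.of y • D.s₀ = D.s₀ := by
    have h3 := h1 _ (D.hh₁ y)
    rwa [h1 _ (D.hh₀ y)] at h3
  exact (D.stab _).1 h2

end LT
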