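import Pool.Agent.H29.LG.J01

/-!
# LG-J03: `f Y = A' J` and `X Y = 1 + H J`

`dc_J`: `chain_rule` for `F w = fox (lift c w)`, `F (of k) = fox (c k) = J_k`.
`gam_J`: `fox (x (w s) * lift c (om w s)) = fox (w * x s)` (`om_spec`), expand both sides by
`fox_mul`.
`dl_Y`: `dl s ᵥ* Y = fox (x s)` for `s ∈ V` (`hx₀`, `fox_one` for the base point).
Rows: `f_row`, `dl_Y`, `gam_J` for `b_y` at `h` and at `h₀ y`, `fox_of` (the `fox (b_y)` cancel in
`f Y` and give `1` in `X Y`).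
-/

set_option linter.unusedSectionVars false

namespace LT

open scoped Matrix

variable {β : Type*} [Fintype β] [DecidableEq β]

namespace GD

variable {c : β → FreeGroup β} {𝒮 : Type*} [DecidableEq 𝒮] [MulAction (FreeGroup β) 𝒮]
variable (D : GD c 𝒮)

theorem dc_J (w : FreeGroup β) : dc c w ᵥ* D.J = fun b => fox b (FreeGroup.lift c w) := by
  funext b
  have h := chain_rule c (fun (w : FreeGroup β) (b : β) => fox b (FreeGroup.lift c w))
    (fun v w => by
      funext b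
      show fox b (FreeGroup.lift c (v * w)) = fox b (FreeGroup.lift c v) +
        MonoidAlgebra.single (FreeGroup.lift c v) 1 * fox b (FreeGroup.lift c w)
      rw [map_mul, fox_mul]) w b
  rw [h]
  show ∑ k, _ = _
  refine Finset.sum_congr rfl fun k _ => ?_
  show MonoidAlgebra.mapDomain (FreeGroup.lift c) (fox k w) * fox b (c k) = _
  rw [FreeGroup.lift_apply_of]

theorem gam_J (w : FreeGroup β) (s : 𝒮) : D.gam w s ᵥ* D.J =
    (fun b => fox b w) + lm w (fun b => fox b (D.x s)) - fun b => fox b (D.x (w • s)) := by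
  unfold gam
  rw [← lm_vecMul, dc_J]
  funext b
  have h1 : D.x (w • s) * FreeGroup.lift c (D.om w s) = w * D.x s := by
    rw [D.om_spec]
    group
  have h2 := fox_mul b (D.x (w • s)) (FreeGroup.lift c (D.om w s))
  rw [h1, fox_mul] at h2
  show MonoidAlgebra.single (D.x (w • s)) 1 * fox b (FreeGroup.lift c (D.om w s)) =
    fox b w + MonoidAlgebra.single w 1 * fox b (D.x s) - fox b (D.x (w • s))
  rw [h2]
  abel

theorem dl_Y {s : 𝒮} (hs : s ∈ D.V) : D.dl s ᵥ* D.Y = fun b => fox b (D.x s) := by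
  funext b
  show ∑ v : D.ι, (if s = (v : 𝒮) then (1 : FR β) else 0) * fox b (D.x v) = _
  by_cases h : s = D.s₀
  · rw [Finset.sum_eq_zero, h, D.hx₀, fox_one]
    intro v _
    have hv : (v : 𝒮) ≠ D.s₀ := (Finset.mem_erase.mp v.2).1
    rw [if_neg (fun h' => hv (by rw [← h', h])), zero_mul]
  · rw [Finset.sum_eq_single (⟨s, Finset.mem_erase.mpr ⟨h, hs⟩⟩ : D.ι)]
    · rw [if_pos rfl, one_mul]
    · intro v _ hv
      rw [if_neg (fun h' => hv (Subtype.ext h'.symm)), zero_mul]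
    · intro h'
      exact absurd (Finset.mem_univ _) h'

theorem fY : D.f * D.Y = D.A' * D.J := by
  funext j
  obtain ⟨y, h⟩ := j
  rw [Matrix.mul_apply_eq_vecMul, Matrix.mul_apply_eq_vecMul, f_row]
  have hm := Finset.mem_filter.mp (Finset.mem_erase.mp h.2).2
  show _ = (D.gam (FreeGroup.of y) (h : 𝒮) - D.gam (FreeGroup.of y) (D.h₀ y)) ᵥ* D.J
  rw [Matrix.sub_vecMul, Matrix.sub_vecMul, Matrix.sub_vecMul, ← lm_vecMul, Matrix.sub_vecMul,
    D.dl_Y hm.1, D.dl_Y hm.2, D.dl_Y (D.hh₀ y), D.dl_Y (D.hh₁ y), gam_J, gam_J, lm_sub]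
  abel

theorem XY : D.X * D.Y = 1 + D.H * D.J := by
  funext y
  rw [Matrix.mul_apply_eq_vecMul]
  show (D.dl (FreeGroup.of y • D.h₀ y) - lm (FreeGroup.of y) (D.dl (D.h₀ y))) ᵥ* D.Y =
    (1 : Matrix β β (FR β)) y + (D.H * D.J) y
  rw [Matrix.mul_apply_eq_vecMul]
  show _ = (1 : Matrix β β (FR β)) y + (-D.gam (FreeGroup.of y) (D.h₀ y)) ᵥ* D.J
  rw [Matrix.sub_vecMul, ← lm_vecMul, D.dl_Y (D.hh₀ y), D.dl_Y (D.hh₁ y), Matrix.neg_vecMul, gam_J]
  have h1 : (fun b => fox b (FreeGroup.of y)) = (1 : Matrix β β (FR β)) y := by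
    funext b
    rw [fox_of, Matrix.one_apply]
  rw [h1]
  abel

end GD

end LT
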