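import Pool.Agent.H29.LG.J01

/-!
# LG-J04: `A A' = 1 + J H` and `Y H = H' A'`

`claim2`: `IsCoc.eq_of_path` for `Γ w s = al w s ᵥ* A'` and `Γ' w s = gam w s + (fox w) ᵥ* H`.  On an
edge `s → b_y • s` inside `V` (`al_of`, `ed_vecMul` with `g s = gam b_y s - gam b_y (h₀ y)`), and
`(fox b_y) ᵥ* H = H_y = -gam b_y (h₀ y)`.
`c_k`: `c_k • s₀ = s₀`, `x s₀ = 1`, so `lift c (om (c_k) s₀) = c_k = lift c (of k)`,
`om (c_k) s₀ = of k` (`hc`), `dc c (of k) = e_k`.
`x_v`: `x_v • s₀ = v`, `lift c (om (x_v) s₀) = 1`, `om = 1`, `dc c 1 = 0`.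
-/

set_option linter.unusedSectionVars false

namespace LT

open scoped Matrix

variable {β : Type*} [Fintype β] [DecidableEq β]

namespace GD

variable {c : β → FreeGroup β} {𝒮 : Type*} [DecidableEq 𝒮] [MulAction (FreeGroup β) 𝒮]
variable (D : GD c 𝒮)

theorem j04_fox_vecMul (y : β) :
    (fun b => fox b (FreeGroup.of y)) ᵥ* D.H = -D.gam (FreeGroup.of y) (D.h₀ y) := by
  funext n
  change ∑ b, fox b (FreeGroup.of y) * D.H b n = (-D.gam (FreeGroup.of y) (D.h₀ y)) n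
  rw [Finset.sum_eq_single y]
  · rw [fox_of, if_pos rfl, one_mul]
    rfl
  · intro b _ hb
    rw [fox_of, if_neg (Ne.symm hb), zero_mul]
  · intro h
    exact absurd (Finset.mem_univ y) h

theorem claim2 {l : List (β × Bool)} (hl : PathIn (D.V : Set 𝒮) D.s₀ l) :
    D.al (FreeGroup.mk l) D.s₀ ᵥ* D.A' =
      D.gam (FreeGroup.mk l) D.s₀ + (fun b => fox b (FreeGroup.mk l)) ᵥ* D.H := by
  have h1 : IsCoc (fun (w : FreeGroup β) (s : 𝒮) => D.al w s ᵥ* D.A') := D.al_coc.vecMul D.A'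
  have h2 : IsCoc (fun (w : FreeGroup β) (s : 𝒮) => D.gam w s + (fun b => fox b w) ᵥ* D.H) :=
    D.gam_coc.add ((isCoc_fox (𝒮 := 𝒮)).vecMul D.H)
  refine IsCoc.eq_of_path h1 h2 (V := (D.V : Set 𝒮)) ?_ hl
  intro y s hs hs'
  rw [al_of, j04_fox_vecMul]
  rw [D.ed_vecMul y hs hs' D.A'
    (fun s => D.gam (FreeGroup.of y) s - D.gam (FreeGroup.of y) (D.h₀ y)) (sub_self _)
    (fun h => rfl)]
  exact sub_eq_add_neg _ _

theorem j04_gam_c (k : β) : D.gam (c k) D.s₀ = (1 : Matrix β β (FR β)) k := by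
  have h1 : c k • D.s₀ = D.s₀ :=
    (D.stab (c k)).mpr ⟨FreeGroup.of k, FreeGroup.lift_apply_of⟩
  have h2 : D.om (c k) D.s₀ = FreeGroup.of k := by
    apply D.hc
    rw [om_spec, h1, D.hx₀, inv_one, one_mul, mul_one, FreeGroup.lift_apply_of]
  unfold gam
  rw [h1, h2, D.hx₀, lm_one]
  funext b
  unfold dc
  rw [fox_of, Matrix.one_apply]
  split_ifs with h
  · exact map_one (MonoidAlgebra.mapDomainRingHom ℂ (FreeGroup.lift c))
  · exact map_zero (MonoidAlgebra.mapDomainRingHom ℂ (FreeGroup.lift c))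

theorem j04_gam_x (s : 𝒮) : D.gam (D.x s) D.s₀ = 0 := by
  have h2 : D.om (D.x s) D.s₀ = 1 := by
    apply D.hc
    rw [om_spec, D.hx, D.hx₀, mul_one, inv_mul_cancel, map_one]
  unfold gam
  rw [h2, D.hx]
  have h3 : dc c (1 : FreeGroup β) = 0 := by
    funext b
    unfold dc
    rw [fox_one]
    exact map_zero (MonoidAlgebra.mapDomainRingHom ℂ (FreeGroup.lift c))
  rw [h3, lm_zero]

theorem AA' : D.A * D.A' = 1 + D.J * D.H := by
  funext k
  rw [Matrix.mul_apply_eq_vecMul]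
  have h := D.claim2 (D.hpath k)
  rw [FreeGroup.mk_toWord, j04_gam_c] at h
  have h4 : (1 + D.J * D.H) k = (1 : Matrix β β (FR β)) k + (D.J * D.H) k := rfl
  rw [h4, Matrix.mul_apply_eq_vecMul]
  exact h

theorem YH : D.Y * D.H = D.H' * D.A' := by
  funext v
  rw [Matrix.mul_apply_eq_vecMul, Matrix.mul_apply_eq_vecMul]
  obtain ⟨h1, h2⟩ := D.hlx v (Finset.mem_erase.mp v.2).2
  have h := D.claim2 h2
  rw [← h1, j04_gam_x, zero_add] at h
  exact h.symm

end GD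

end LT
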