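import Pool.Agent.H29.LG.J01

/-!
# LG-J05: `A' A = 1 + f H'` and `H A = X H'`

`dc_A`: `chain_rule` for `F w = al (lift c w) s₀` (`lift c w • s₀ = s₀` by `stab`).
`gam_A`: `al (x (w s) * lift c (om w s)) s₀ = al (w * x s) s₀` (`om_spec`), expand both sides
(`al_coc`, `hx`).
`dl_H'`: `dl s ᵥ* H' = al (x s) s₀` for `s ∈ V` (`hx₀`, `IsCoc.one`).
Rows: `f_row`, `dl_H'`, `gam_A` for `b_y` at `h` and `h₀ y`; `al_of`, `ed y h = e_(y,h)`,
`ed y (h₀ y) = 0`.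
-/

set_option linter.unusedSectionVars false

namespace LT

open scoped Matrix

variable {β : Type*} [Fintype β] [DecidableEq β]

namespace GD

variable {c : β → FreeGroup β} {𝒮 : Type*} [DecidableEq 𝒮] [MulAction (FreeGroup β) 𝒮]
variable (D : GD c 𝒮)

private theorem j05_fix (D : GD c 𝒮) (w : FreeGroup β) : FreeGroup.lift c w • D.s₀ = D.s₀ :=
  (D.stab _).2 ⟨w, rfl⟩

theorem dc_A (w : FreeGroup β) : dc c w ᵥ* D.A = D.al (FreeGroup.lift c w) D.s₀ := by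
  funext j
  have h := chain_rule c (fun w => D.al (FreeGroup.lift c w) D.s₀) (fun v w => by
    show D.al (FreeGroup.lift c (v * w)) D.s₀ = _
    rw [map_mul, D.al_coc, j05_fix]) w j
  refine Eq.trans ?_ h.symm
  simp only [Matrix.vecMul, dotProduct, dc, A, FreeGroup.lift_apply_of]

theorem gam_A (w : FreeGroup β) (s : 𝒮) : D.gam w s ᵥ* D.A =
    D.al w s + lm w (D.al (D.x s) D.s₀) - D.al (D.x (w • s)) D.s₀ := by
  unfold gam
  rw [← lm_vecMul, dc_A]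
  have h1 : D.x (w • s) * FreeGroup.lift c (D.om w s) = w * D.x s := by
    rw [D.om_spec]
    group
  have h2 := D.al_coc (D.x (w • s)) (FreeGroup.lift c (D.om w s)) D.s₀
  rw [h1, D.al_coc, D.hx, j05_fix] at h2
  rw [h2]
  abel

theorem dl_H' {s : 𝒮} (hs : s ∈ D.V) : D.dl s ᵥ* D.H' = D.al (D.x s) D.s₀ := by
  by_cases h : s = D.s₀
  · subst h
    rw [D.dl_s₀, D.hx₀, D.al_coc.one, Matrix.zero_vecMul]
  · funext j
    have hs' : s ∈ D.V.erase D.s₀ := Finset.mem_erase.2 ⟨h, hs⟩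
    show ∑ v, D.dl s v * D.H' v j = D.al (D.x s) D.s₀ j
    rw [Finset.sum_eq_single (⟨s, hs'⟩ : D.ι)]
    · simp [dl, H']
    · intro v _ hv
      have h1 : ¬ s = (v : 𝒮) := fun h2 => hv (Subtype.ext h2.symm)
      simp [dl, h1]
    · intro h1
      exact absurd (Finset.mem_univ _) h1

private theorem j05_ed (y : β) (h : D.κ y) :
    D.ed y (h : 𝒮) = (1 : Matrix (Σ y, D.κ y) (Σ y, D.κ y) (FR β)) ⟨y, h⟩ := by
  funext j
  obtain ⟨y', h'⟩ := j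
  unfold ed
  rw [Matrix.one_apply]
  refine if_congr ?_ rfl rfl
  constructor
  · rintro ⟨h1, h2⟩
    have h1' : y = y' := h1
    subst h1'
    exact congrArg (fun z => (⟨y, z⟩ : Σ y, D.κ y)) (Subtype.ext h2)
  · intro h1
    rw [Sigma.mk.injEq] at h1
    obtain ⟨h1, h2⟩ := h1
    subst h1
    rw [heq_eq_eq] at h2
    exact ⟨rfl, congrArg Subtype.val h2⟩

private theorem j05_ed0 (y : β) : D.ed y (D.h₀ y) = 0 := by
  funext j
  obtain ⟨y', h'⟩ := j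
  unfold ed
  rw [if_neg]
  · rfl
  · rintro ⟨h1, h2⟩
    have h1' : y = y' := h1
    subst h1'
    exact (Finset.mem_erase.1 h'.2).1 h2.symm

theorem A'A : D.A' * D.A = 1 + D.f * D.H' := by
  refine funext fun j => ?_
  obtain ⟨y, h⟩ := j
  have hh := Finset.mem_filter.1 (Finset.mem_of_mem_erase h.2)
  have e1 : (D.A' * D.A) ⟨y, h⟩ = D.A' ⟨y, h⟩ ᵥ* D.A := Matrix.mul_apply_eq_vecMul _ _ _
  have e2 : (1 + D.f * D.H' : Matrix (Σ y, D.κ y) (Σ y, D.κ y) (FR β)) ⟨y, h⟩ =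
      (1 : Matrix (Σ y, D.κ y) (Σ y, D.κ y) (FR β)) ⟨y, h⟩ + D.f ⟨y, h⟩ ᵥ* D.H' := by
    rw [← Matrix.mul_apply_eq_vecMul]
    rfl
  have e3 : D.A' ⟨y, h⟩ = D.gam (FreeGroup.of y) (h : 𝒮) - D.gam (FreeGroup.of y) (D.h₀ y) := rfl
  rw [e1, e2, e3, Matrix.sub_vecMul, gam_A, gam_A, f_row, Matrix.sub_vecMul, Matrix.sub_vecMul,
    ← lm_vecMul, Matrix.sub_vecMul, D.dl_H' hh.1, D.dl_H' (D.hh₀ y), D.dl_H' hh.2,
    D.dl_H' (D.hh₁ y), lm_sub, D.al_of, D.al_of, j05_ed, j05_ed0]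
  abel

theorem HA : D.H * D.A = D.X * D.H' := by
  refine funext fun y => ?_
  have e1 : (D.H * D.A) y = D.H y ᵥ* D.A := Matrix.mul_apply_eq_vecMul _ _ _
  have e2 : (D.X * D.H') y = D.X y ᵥ* D.H' := Matrix.mul_apply_eq_vecMul _ _ _
  have e3 : D.H y = -D.gam (FreeGroup.of y) (D.h₀ y) := rfl
  have e4 : D.X y = D.dl (FreeGroup.of y • D.h₀ y) - lm (FreeGroup.of y) (D.dl (D.h₀ y)) := rfl
  rw [e1, e2, e3, e4, Matrix.neg_vecMul, gam_A, Matrix.sub_vecMul, ← lm_vecMul,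
    D.dl_H' (D.hh₀ y), D.dl_H' (D.hh₁ y), D.al_of, j05_ed0]
  abel

end GD

end LT
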