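import Pool.Agent.H29.LT.T06

/-!
# LG-K01: free groups are residually finite

`rf_one`: `w.toWord = l`, `n = l.length`; points `i : Fin (n + 1)`, the suffix `l.drop i` of `l`
should send the point `n` to `i`: the letter `l[i] = (y, true)` must send `i + 1` to `i`, the letter
`l[i] = (y, false)` must send `i + 1` to `i` by the inverse of the permutation of `y`, i.e. the
permutation of `y` sends `i` to `i + 1`.  Since `l` is reduced, for each `y` this is a partial
injection (`exists_perm_extend`, file `LT/T06.lean`).  Then `w` sends `n` to `0 ≠ n`.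
`rf_finset`: product of the finitely many finite groups (induction on `S`, `Q × Q'`).
-/

set_option linter.unusedSectionVars false

namespace LT

variable {β : Type*} [DecidableEq β]

/-- the letter `y` moves the point `i` to the point `k` along the word `L` -/
def k01T (L : List (β × Bool)) (y : β) (i k : ℕ) : Prop :=
  (i = k + 1 ∧ L[k]? = some (y, true)) ∨ (k = i + 1 ∧ L[i]? = some (y, false))

theorem k01_no {L : List (β × Bool)} (hL : FreeGroup.IsReduced L) {y : β} {i : ℕ} {b c : Bool}
    (h1 : L[i]? = some (y, b)) (h2 : L[i + 1]? = some (y, c)) : b = c := by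
  obtain ⟨h3, h4⟩ := List.getElem?_eq_some_iff.1 h1
  obtain ⟨h5, h6⟩ := List.getElem?_eq_some_iff.1 h2
  have h7 := List.isChain_iff_getElem.1 hL i h5
  rw [h4, h6] at h7
  exact h7 rfl

theorem k01_fun {L : List (β × Bool)} (hL : FreeGroup.IsReduced L) {y : β} {i k k' : ℕ}
    (h1 : k01T L y i k) (h2 : k01T L y i k') : k = k' := by
  rcases h1 with ⟨h1, h1'⟩ | ⟨h1, h1'⟩ <;> rcases h2 with ⟨h2, h2'⟩ | ⟨h2, h2'⟩
  · omega
  · rw [h1] at h2'
    have := k01_no hL h1' h2'
    exact absurd this (by decide)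
  · rw [h2] at h1'
    have := k01_no hL h2' h1'
    exact absurd this (by decide)
  · omega

theorem k01_inj {L : List (β × Bool)} (hL : FreeGroup.IsReduced L) {y : β} {i i' k : ℕ}
    (h1 : k01T L y i k) (h2 : k01T L y i' k) : i = i' := by
  rcases h1 with ⟨h1, h1'⟩ | ⟨h1, h1'⟩ <;> rcases h2 with ⟨h2, h2'⟩ | ⟨h2, h2'⟩
  · omega
  · rw [h2] at h1'
    have := k01_no hL h2' h1'
    exact absurd this (by decide)
  · rw [h1] at h2'
    have := k01_no hL h1' h2'
    exact absurd this (by decide)
  · omega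

theorem k01_perm {L : List (β × Bool)} (hL : FreeGroup.IsReduced L) (y : β) :
    ∃ σ : Equiv.Perm (Fin (L.length + 1)), ∀ i k : Fin (L.length + 1),
      k01T L y i.1 k.1 → σ i = k := by
  classical
  let D : Set (Fin (L.length + 1)) := {i | ∃ k : Fin (L.length + 1), k01T L y i.1 k.1}
  let θ : Fin (L.length + 1) → Fin (L.length + 1) := fun i =>
    if h : ∃ k : Fin (L.length + 1), k01T L y i.1 k.1 then h.choose else i
  have hθ : ∀ i ∈ D, k01T L y i.1 (θ i).1 := by
    intro i hi
    have h1 : θ i = (show ∃ k : Fin (L.length + 1), k01T L y i.1 k.1 from hi).choose := dif_pos hi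
    rw [h1]
    exact (show ∃ k : Fin (L.length + 1), k01T L y i.1 k.1 from hi).choose_spec
  obtain ⟨σ, hσ⟩ := exists_perm_extend D (Set.toFinite D) θ (by
    intro a ha b hb hab
    have h1 := hθ a ha
    have h2 := hθ b hb
    rw [hab] at h1
    exact Fin.ext (k01_inj hL h1 h2))
  refine ⟨σ, fun i k hik => ?_⟩
  have hi : i ∈ D := ⟨k, hik⟩
  rw [hσ i hi]
  exact Fin.ext (k01_fun hL (hθ i hi) hik)

theorem rf_one {w : FreeGroup β} (hw : w ≠ 1) :
    ∃ (n : ℕ) (φ : FreeGroup β →* Equiv.Perm (Fin n)), φ w ≠ 1 := by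
  obtain ⟨L, hLw⟩ : ∃ L : List (β × Bool), L = w.toWord := ⟨_, rfl⟩
  have hL : FreeGroup.IsReduced L := by
    rw [hLw]; exact FreeGroup.isReduced_toWord
  choose σ hσ using fun y => k01_perm hL y
  refine ⟨L.length + 1, FreeGroup.lift σ, ?_⟩
  have key : ∀ m : ℕ, ∀ j : Fin (L.length + 1), j.1 + m = L.length →
      (FreeGroup.lift σ) (FreeGroup.mk (L.drop j.1)) (Fin.last L.length) = j := by
    intro m
    induction m with
    | zero =>
      intro j hj
      have h1 : L.drop j.1 = [] := List.drop_eq_nil_of_le (by omega)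
      rw [h1]
      have h2 : (FreeGroup.mk ([] : List (β × Bool))) = 1 := rfl
      rw [h2, map_one]
      apply Fin.ext
      rw [Equiv.Perm.one_apply, Fin.val_last]
      omega
    | succ m ih =>
      intro j hj
      have hjn : j.1 < L.length := by omega
      have hj1 : j.1 + 1 < L.length + 1 := by omega
      have h1 : L.drop j.1 = [L[j.1]] ++ L.drop (j.1 + 1) := by
        rw [List.drop_eq_getElem_cons hjn]; rfl
      have h2 := ih ⟨j.1 + 1, hj1⟩ (by show j.1 + 1 + m = _; omega)
      rw [h1, ← FreeGroup.mul_mk, map_mul, Equiv.Perm.mul_apply, h2]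
      obtain ⟨y, b, hyb⟩ : ∃ y b, L[j.1] = (y, b) := ⟨_, _, rfl⟩
      have h3 : L[j.1]? = some (y, b) := by
        rw [List.getElem?_eq_getElem hjn, hyb]
      rw [hyb]
      cases b with
      | true =>
        have h4 : (FreeGroup.lift σ) (FreeGroup.mk [(y, true)]) = σ y :=
          FreeGroup.lift_apply_of
        rw [h4]
        exact hσ y _ _ (Or.inl ⟨rfl, h3⟩)
      | false =>
        have h4 : (FreeGroup.lift σ) (FreeGroup.mk [(y, false)]) = (σ y)⁻¹ := by
          have h5 : (FreeGroup.mk [(y, false)]) = (FreeGroup.of y)⁻¹ := rfl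
          rw [h5, map_inv, FreeGroup.lift_apply_of]
        rw [h4, Equiv.Perm.inv_eq_iff_eq]
        exact (hσ y _ _ (Or.inr ⟨rfl, h3⟩)).symm
  intro h1
  have h2 := key L.length 0 (by simp)
  have h3 : FreeGroup.mk (L.drop (0 : Fin (L.length + 1)).1) = w := by
    show FreeGroup.mk (L.drop 0) = w
    rw [List.drop_zero, hLw, FreeGroup.mk_toWord]
  rw [h3, h1, Equiv.Perm.one_apply] at h2
  have h4 : L.length = 0 := congrArg Fin.val h2
  have h5 : L = [] := List.eq_nil_of_length_eq_zero h4
  apply hw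
  rw [← FreeGroup.toWord_eq_nil_iff, ← hLw, h5]

theorem rf_finset (S : Finset (FreeGroup β)) (hS : ∀ g ∈ S, g ≠ 1) :
    ∃ (Q : Type) (_ : Group Q) (_ : Fintype Q) (_ : DecidableEq Q) (φ : FreeGroup β →* Q),
      ∀ g ∈ S, φ g ≠ 1 := by
  classical
  induction S using Finset.induction_on with
  | empty =>
    exact ⟨Unit, inferInstance, inferInstance, inferInstance, 1, fun g hg =>
      absurd hg (Finset.notMem_empty g)⟩
  | insert a S ha ih =>
    obtain ⟨Q, i1, i2, i3, φ, hφ⟩ := ih (fun g hg => hS g (Finset.mem_insert_of_mem hg))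
    obtain ⟨n, ψ, hψ⟩ := rf_one (hS a (Finset.mem_insert_self a S))
    refine ⟨Q × Equiv.Perm (Fin n), inferInstance, inferInstance, inferInstance, φ.prod ψ, ?_⟩
    intro g hg h1
    rw [MonoidHom.prod_apply] at h1
    have h2 : φ g = 1 := congrArg Prod.fst h1
    have h3 : ψ g = 1 := congrArg Prod.snd h1
    rcases Finset.mem_insert.1 hg with h4 | h4
    · rw [h4] at h3
      exact hψ h3
    · exact hφ g h4 h2

end LT
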