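import Pool.Agent.H29.LT.A02

/-!
# LG-K02: `L` depends continuously on the moments

`L_series` for `H` and `H'`: `mass log c - L = ∑_k Re τ ((1 - c⁻¹ H)^(k+1)) / (k+1)`.  The terms with
`k + 1 ≤ n` agree (binomial expansion of the moments; `k = 0` moment is the mass), the others are
at most `mass (1 - ε/c)^(k+1)` in absolute value since `0 ≤ 1 - c⁻¹ H ≤ 1 - ε/c`
(`0 ≤ X ≤ r` implies `0 ≤ X^k ≤ r^k`, functional calculus).  If `ε > c` then both algebras have mass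
`0` (or are trivial) and everything is `0`.
-/

set_option linter.unusedSectionVars false

namespace LT

variable {𝔄 : Type*} [CStarAlgebra 𝔄] [PartialOrder 𝔄] [StarOrderedRing 𝔄]
variable {𝔅 : Type*} [CStarAlgebra 𝔅] [PartialOrder 𝔅] [StarOrderedRing 𝔅]

theorem k02_moments (τ : Tr 𝔄) (τ' : Tr 𝔅) (hm : τ.mass = τ'.mass) {H : 𝔄} {H' : 𝔅} (c : ℝ) (n : ℕ)
    (hk : ∀ k : ℕ, 1 ≤ k → k ≤ n → (τ.f (H ^ k)).re = (τ'.f (H' ^ k)).re) {k : ℕ} (hkn : k ≤ n) :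
    (τ.f ((1 - c⁻¹ • H) ^ k)).re = (τ'.f ((1 - c⁻¹ • H') ^ k)).re := by
  have e : 1 - c⁻¹ • H = (-c⁻¹) • H + algebraMap ℝ 𝔄 1 := by
    rw [neg_smul, map_one]
    abel
  have e' : 1 - c⁻¹ • H' = (-c⁻¹) • H' + algebraMap ℝ 𝔅 1 := by
    rw [neg_smul, map_one]
    abel
  rw [e, e', a02_binom, a02_binom]
  refine Finset.sum_congr rfl fun m hmem => ?_
  rw [Finset.mem_range] at hmem
  rcases Nat.eq_zero_or_pos m with h0 | h0
  · subst h0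
    rw [pow_zero H, pow_zero H']
    unfold Tr.mass at hm
    rw [hm]
  · rw [hk m h0 (by omega)]

theorem k02_bound (τ : Tr 𝔄) {H : 𝔄} {ε c : ℝ} (hc : 0 < c) (h1 : algebraMap ℝ 𝔄 ε ≤ H)
    (h2 : H ≤ algebraMap ℝ 𝔄 c) (k : ℕ) :
    0 ≤ (τ.f ((1 - c⁻¹ • H) ^ k)).re ∧
      (τ.f ((1 - c⁻¹ • H) ^ k)).re ≤ τ.mass * (1 - ε / c) ^ k := by
  have hsa : IsSelfAdjoint H := by
    have h3 : IsSelfAdjoint (H - algebraMap ℝ 𝔄 ε) := IsSelfAdjoint.of_nonneg (sub_nonneg.2 h1)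
    have h4 : IsSelfAdjoint (algebraMap ℝ 𝔄 ε) := IsSelfAdjoint.algebraMap 𝔄 (.all ε)
    have h5 := h3.add h4
    rwa [sub_add_cancel] at h5
  have hlo : ∀ t ∈ spectrum ℝ H, ε ≤ t := (algebraMap_le_iff_le_spectrum hsa).1 h1
  have hhi : ∀ t ∈ spectrum ℝ H, t ≤ c := (le_algebraMap_iff_spectrum_le hsa).1 h2
  have hx : ∀ t ∈ spectrum ℝ H, 0 ≤ 1 - c⁻¹ * t ∧ 1 - c⁻¹ * t ≤ 1 - ε / c := by
    intro t ht
    have e1 := hlo t ht
    have e2 := hhi t ht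
    have hc' : 0 < c⁻¹ := inv_pos.2 hc
    constructor
    · have : c⁻¹ * t ≤ c⁻¹ * c := mul_le_mul_of_nonneg_left e2 hc'.le
      rw [inv_mul_cancel₀ hc.ne'] at this
      linarith
    · have : c⁻¹ * ε ≤ c⁻¹ * t := mul_le_mul_of_nonneg_left e1 hc'.le
      rw [div_eq_inv_mul]
      linarith
  rw [a02_pow hsa]
  constructor
  · exact a02_nonneg τ (cfc_nonneg fun t ht => pow_nonneg (hx t ht).1 _)
  · have h6 : cfc (fun t : ℝ => (1 - c⁻¹ * t) ^ k) H ≤ algebraMap ℝ 𝔄 ((1 - ε / c) ^ k) := by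
      refine cfc_le_algebraMap _ _ _ fun t ht => ?_
      exact pow_le_pow_left₀ (hx t ht).1 (hx t ht).2 k
    have h7 := a02_nonneg τ (sub_nonneg.2 h6)
    rw [map_sub, Complex.sub_re, a02_alg] at h7
    linarith

theorem L_approx (τ : Tr 𝔄) (τ' : Tr 𝔅) (hm : τ.mass = τ'.mass) {H : 𝔄} {H' : 𝔅} {ε c : ℝ}
    (hε : 0 < ε) (hc : ε ≤ c) (h1 : algebraMap ℝ 𝔄 ε ≤ H) (h2 : H ≤ algebraMap ℝ 𝔄 c)
    (h1' : algebraMap ℝ 𝔅 ε ≤ H') (h2' : H' ≤ algebraMap ℝ 𝔅 c) (n : ℕ)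
    (hk : ∀ k : ℕ, 1 ≤ k → k ≤ n → (τ.f (H ^ k)).re = (τ'.f (H' ^ k)).re) :
    |L τ H - L τ' H'| ≤ 2 * τ.mass * (c / ε) * (1 - ε / c) ^ n := by
  have hc0 : 0 < c := lt_of_lt_of_le hε hc
  have hmass : 0 ≤ τ.mass := by
    have h := k02_bound τ hc0 h1 h2 0
    simpa using h.1.trans h.2
  obtain ⟨q, hq⟩ : ∃ q : ℝ, q = 1 - ε / c := ⟨_, rfl⟩
  have hq0 : 0 ≤ q := by
    rw [hq, sub_nonneg]
    exact (div_le_one hc0).2 hc
  have hq1 : q < 1 := by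
    rw [hq]
    have : 0 < ε / c := div_pos hε hc0
    linarith
  have hs := (L_series τ' hε h1' h2' hc0).sub (L_series τ hε h1 h2 hc0)
  obtain ⟨d, hd⟩ : ∃ d : ℕ → ℝ, d = fun k : ℕ =>
    (τ'.f ((1 - c⁻¹ • H') ^ (k + 1))).re / ((k : ℝ) + 1) -
      (τ.f ((1 - c⁻¹ • H) ^ (k + 1))).re / ((k : ℝ) + 1) := ⟨_, rfl⟩
  have hs' : HasSum d (L τ H - L τ' H') := by
    have e : τ'.mass * Real.log c - L τ' H' - (τ.mass * Real.log c - L τ H) =
        L τ H - L τ' H' := by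
      rw [hm]
      ring
    rw [e] at hs
    rw [hd]
    exact hs
  have hzero : ∀ k ∈ Finset.range n, d k = 0 := by
    intro k hkm
    rw [Finset.mem_range] at hkm
    have h := k02_moments τ τ' hm c n hk (k := k + 1) (by omega)
    simp only [hd]
    rw [h, sub_self]
  have hbd : ∀ k : ℕ, ‖d (k + n)‖ ≤ τ.mass * q ^ (n + 1) * q ^ k := by
    intro k
    have ha := k02_bound τ hc0 h1 h2 (k + n + 1)
    have hb := k02_bound τ' hc0 h1' h2' (k + n + 1)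
    rw [← hm] at hb
    rw [← hq] at ha hb
    have hk1 : (1 : ℝ) ≤ ((k + n : ℕ) : ℝ) + 1 := by
      have : (0 : ℝ) ≤ ((k + n : ℕ) : ℝ) := Nat.cast_nonneg _
      linarith
    have hk0 : (0 : ℝ) < ((k + n : ℕ) : ℝ) + 1 := by linarith
    have hpw : τ.mass * q ^ (n + 1) * q ^ k = τ.mass * q ^ (k + n + 1) := by ring
    rw [hpw, Real.norm_eq_abs]
    simp only [hd]
    rw [← sub_div, abs_div, abs_of_pos hk0, div_le_iff₀ hk0]
    have h8 : |(τ'.f ((1 - c⁻¹ • H') ^ (k + n + 1))).re -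
        (τ.f ((1 - c⁻¹ • H) ^ (k + n + 1))).re| ≤ τ.mass * q ^ (k + n + 1) := by
      rw [abs_le]
      constructor <;> linarith [ha.1, ha.2, hb.1, hb.2]
    have h9 : 0 ≤ τ.mass * q ^ (k + n + 1) := mul_nonneg hmass (pow_nonneg hq0 _)
    refine h8.trans ?_
    exact le_mul_of_one_le_right h9 hk1
  have hgeo : HasSum (fun k : ℕ => τ.mass * q ^ (n + 1) * q ^ k)
      (τ.mass * q ^ (n + 1) * (1 - q)⁻¹) :=
    (hasSum_geometric_of_lt_one hq0 hq1).mul_left _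
  have hsum := hs'.summable.sum_add_tsum_nat_add n
  rw [Finset.sum_eq_zero hzero, zero_add, hs'.tsum_eq] at hsum
  rw [← hsum, ← Real.norm_eq_abs]
  refine (tsum_of_norm_bounded hgeo hbd).trans ?_
  have h1q : (1 - q)⁻¹ = c / ε := by
    rw [hq, sub_sub_cancel, inv_div]
  rw [h1q, ← hq]
  have h10 : 0 ≤ c / ε := (div_pos hc0 hε).le
  have h11 : 0 ≤ q ^ n := pow_nonneg hq0 n
  have h12 : q ^ (n + 1) ≤ q ^ n := pow_le_pow_of_le_one hq0 hq1.le (Nat.le_succ n)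
  calc τ.mass * q ^ (n + 1) * (c / ε) ≤ τ.mass * q ^ n * (c / ε) :=
        mul_le_mul_of_nonneg_right (mul_le_mul_of_nonneg_left h12 hmass) h10
    _ ≤ 2 * (τ.mass * q ^ n * (c / ε)) := by
        have : 0 ≤ τ.mass * q ^ n * (c / ε) := mul_nonneg (mul_nonneg hmass h11) h10
        linarith
    _ = 2 * τ.mass * (c / ε) * q ^ n := by ring

end LT
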