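import Mathlib

/-!
# LG-K03: the Schur test

`|(A z)_i|² ≤ (∑_j |A_ij|) (∑_j |A_ij| |z_j|²) ≤ R ∑_j |A_ij| |z_j|²` (Cauchy-Schwarz), sum over `i`.
`schur_lower`: `‖z‖² = ‖B (A z)‖² ≤ R² ‖A z‖²` (`B * A = 1` follows from `A * B = 1`).
-/

set_option linter.unusedSectionVars false

namespace LT

open scoped Matrix ComplexOrder

variable {m : Type*} [Fintype m] [DecidableEq m]

private lemma k03_sq (v : m → ℂ) : star v ⬝ᵥ v = ((∑ i, ‖v i‖ ^ 2 : ℝ) : ℂ) := by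
  rw [dotProduct, Complex.ofReal_sum]
  refine Finset.sum_congr rfl fun i _ => ?_
  rw [Pi.star_apply, Complex.star_def, ← Complex.normSq_eq_conj_mul_self, Complex.normSq_eq_norm_sq]

private lemma k03_schur (A : Matrix m m ℂ) {R : ℝ} (h1 : ∀ i, ∑ j, ‖A i j‖ ≤ R)
    (h2 : ∀ j, ∑ i, ‖A i j‖ ≤ R) (z : m → ℂ) :
    ∑ i, ‖(A *ᵥ z) i‖ ^ 2 ≤ R ^ 2 * ∑ j, ‖z j‖ ^ 2 := by
  rcases isEmpty_or_nonempty m with h | ⟨⟨i0⟩⟩
  · simp
  have hR : 0 ≤ R := le_trans (Finset.sum_nonneg fun _ _ => norm_nonneg _) (h1 i0)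
  have h3 : ∀ i, ‖(A *ᵥ z) i‖ ^ 2 ≤ R * ∑ j, ‖A i j‖ * ‖z j‖ ^ 2 := by
    intro i
    have h4 : ‖(A *ᵥ z) i‖ ≤ ∑ j, ‖A i j‖ * ‖z j‖ := by
      rw [Matrix.mulVec, dotProduct]
      refine le_trans (norm_sum_le _ _) (le_of_eq ?_)
      exact Finset.sum_congr rfl fun j _ => norm_mul _ _
    have h5 : (∑ j, ‖A i j‖ * ‖z j‖) ^ 2 ≤ (∑ j, ‖A i j‖) * ∑ j, ‖A i j‖ * ‖z j‖ ^ 2 :=
      Finset.sum_sq_le_sum_mul_sum_of_sq_le_mul _ (fun _ _ => norm_nonneg _)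
        (fun _ _ => by positivity) (fun _ _ => le_of_eq (by ring))
    refine le_trans (pow_le_pow_left₀ (norm_nonneg _) h4 2) (le_trans h5 ?_)
    exact mul_le_mul_of_nonneg_right (h1 i) (Finset.sum_nonneg fun _ _ => by positivity)
  refine le_trans (Finset.sum_le_sum fun i _ => h3 i) ?_
  rw [← Finset.mul_sum, Finset.sum_comm, pow_two, mul_assoc]
  refine mul_le_mul_of_nonneg_left ?_ hR
  rw [Finset.mul_sum]
  refine Finset.sum_le_sum fun j _ => ?_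
  rw [← Finset.sum_mul]
  exact mul_le_mul_of_nonneg_right (h2 j) (by positivity)

private lemma k03_quad (A : Matrix m m ℂ) (z : m → ℂ) :
    star z ⬝ᵥ ((Aᴴ * A) *ᵥ z) = ((∑ i, ‖(A *ᵥ z) i‖ ^ 2 : ℝ) : ℂ) := by
  rw [← k03_sq, ← Matrix.mulVec_mulVec, Matrix.dotProduct_mulVec, Matrix.star_mulVec]

private lemma k03_one (z : m → ℂ) (r : ℝ) :
    star z ⬝ᵥ (((r : ℂ) • (1 : Matrix m m ℂ)) *ᵥ z) = ((r * ∑ i, ‖z i‖ ^ 2 : ℝ) : ℂ) := by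
  rw [Matrix.smul_mulVec, Matrix.one_mulVec, dotProduct_smul, k03_sq, smul_eq_mul,
    Complex.ofReal_mul]

private lemma k03_herm (r : ℝ) : ((r : ℂ) • (1 : Matrix m m ℂ)).IsHermitian := by
  rw [Matrix.IsHermitian, Matrix.conjTranspose_smul, Matrix.conjTranspose_one, Complex.star_def,
    Complex.conj_ofReal]

theorem schur_upper (A : Matrix m m ℂ) {R : ℝ} (h1 : ∀ i, ∑ j, ‖A i j‖ ≤ R)
    (h2 : ∀ j, ∑ i, ‖A i j‖ ≤ R) :
    (((R ^ 2 : ℝ) : ℂ) • (1 : Matrix m m ℂ) - Aᴴ * A).PosSemidef := by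
  refine Matrix.PosSemidef.of_dotProduct_mulVec_nonneg
    ((k03_herm _).sub (Matrix.isHermitian_conjTranspose_mul_self A)) fun z => ?_
  rw [Matrix.sub_mulVec, dotProduct_sub, k03_one, k03_quad, ← Complex.ofReal_sub]
  exact Complex.zero_le_real.mpr (sub_nonneg.mpr (k03_schur A h1 h2 z))

theorem schur_lower {A B : Matrix m m ℂ} (hAB : A * B = 1) {R : ℝ} (hR : 0 < R)
    (h1 : ∀ i, ∑ j, ‖B i j‖ ≤ R) (h2 : ∀ j, ∑ i, ‖B i j‖ ≤ R) :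
    (Aᴴ * A - (((R ^ 2)⁻¹ : ℝ) : ℂ) • (1 : Matrix m m ℂ)).PosSemidef := by
  refine Matrix.PosSemidef.of_dotProduct_mulVec_nonneg
    ((Matrix.isHermitian_conjTranspose_mul_self A).sub (k03_herm _)) fun z => ?_
  rw [Matrix.sub_mulVec, dotProduct_sub, k03_one, k03_quad, ← Complex.ofReal_sub]
  refine Complex.zero_le_real.mpr (sub_nonneg.mpr ?_)
  have hBA : B * A = 1 := mul_eq_one_comm.mp hAB
  have h3 := k03_schur B h1 h2 (A *ᵥ z)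
  rw [Matrix.mulVec_mulVec, hBA, Matrix.one_mulVec] at h3
  have h4 : 0 < R ^ 2 := by positivity
  rw [inv_mul_le_iff₀ h4]
  exact h3

end LT
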