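import Pool.Agent.H29.LG.K00

/-!
# LG-K04: the regular representation of a finite group

`regM x` is the matrix of left multiplication by `x` on `(ℂ[Q])^ι`.

* `regM_mul`: coefficients of a product in the group algebra,
  `(x * y).coeff g = ∑ h, x.coeff (g * h⁻¹) * y.coeff h`.
* `regM_adj`: `starMA_coeff`.
* `regM_rows`, `regM_cols`: `∑_h ‖(mapDomain φ x).coeff h‖ ≤ ∑_g ‖x.coeff g‖`.
* `det_regM`: `regM x` and `regM y` are integer matrices with product `1`, so both determinants are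
  integers with product `1`.
-/

set_option linter.unusedSectionVars false

namespace LT

open scoped Matrix

variable {ι : Type*} [Fintype ι] [DecidableEq ι]
variable {Q : Type*} [Group Q] [Fintype Q] [DecidableEq Q]
variable {G : Type*} [Group G]

/-- left multiplication by `x` on `(ℂ[Q])^ι` -/
noncomputable def regM (x : Matrix ι ι (MonoidAlgebra ℂ Q)) : Matrix (ι × Q) (ι × Q) ℂ :=
  fun a b => (x a.1 b.1).coeff (a.2 * b.2⁻¹)

private theorem k04_coeff_sum {α : Type*} (s : Finset α) (f : α → MonoidAlgebra ℂ Q) (g : Q) :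
    (∑ j ∈ s, f j).coeff g = ∑ j ∈ s, (f j).coeff g := by
  classical
  induction s using Finset.induction_on with
  | empty => simp
  | insert a s ha ih =>
    rw [Finset.sum_insert ha, Finset.sum_insert ha, MonoidAlgebra.coeff_add, Finsupp.add_apply, ih]

private theorem k04_coeff_mul (x y : MonoidAlgebra ℂ Q) (g : Q) :
    (x * y).coeff g = ∑ h, x.coeff (g * h⁻¹) * y.coeff h := by
  rw [MonoidAlgebra.coeff_mul_apply_right, Finsupp.sum_fintype]
  intro h
  rw [mul_zero]

theorem regM_mul (x y : Matrix ι ι (MonoidAlgebra ℂ Q)) : regM (x * y) = regM x * regM y := by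
  funext a b
  rw [Matrix.mul_apply, Fintype.sum_prod_type]
  show ((x * y) a.1 b.1).coeff (a.2 * b.2⁻¹) = _
  rw [Matrix.mul_apply, k04_coeff_sum]
  refine Finset.sum_congr rfl fun j _ => ?_
  rw [k04_coeff_mul]
  refine (Fintype.sum_equiv (Equiv.mulRight b.2⁻¹) _ _ fun c => ?_).symm
  show (x a.1 j).coeff (a.2 * c⁻¹) * (y j b.1).coeff (c * b.2⁻¹) =
    (x a.1 j).coeff (a.2 * b.2⁻¹ * (c * b.2⁻¹)⁻¹) * (y j b.1).coeff (c * b.2⁻¹)
  congr 2
  group

theorem regM_one : regM (1 : Matrix ι ι (MonoidAlgebra ℂ Q)) = 1 := by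
  funext a b
  show ((1 : Matrix ι ι (MonoidAlgebra ℂ Q)) a.1 b.1).coeff (a.2 * b.2⁻¹) = _
  by_cases h : a.1 = b.1
  · rw [h, Matrix.one_apply_eq, MonoidAlgebra.one_def, MonoidAlgebra.coeff_single,
      Finsupp.single_apply]
    by_cases h2 : a.2 = b.2
    · have h3 : a = b := Prod.ext h h2
      rw [h3, Matrix.one_apply_eq, if_pos (mul_inv_cancel _).symm]
    · have h3 : a ≠ b := fun h' => h2 (by rw [h'])
      rw [Matrix.one_apply_ne h3, if_neg]
      intro h'
      exact h2 (mul_inv_eq_one.mp h'.symm)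
  · have h3 : a ≠ b := fun h' => h (by rw [h'])
    rw [Matrix.one_apply_ne h, Matrix.one_apply_ne h3]
    simp

theorem regM_pow (x : Matrix ι ι (MonoidAlgebra ℂ Q)) (k : ℕ) : regM (x ^ k) = regM x ^ k := by
  induction k with
  | zero => rw [pow_zero, pow_zero, regM_one]
  | succ k ih => rw [pow_succ, pow_succ, regM_mul, ih]

theorem regM_adj (x : Matrix ι ι (MonoidAlgebra ℂ Q)) : regM (adjM x) = (regM x)ᴴ := by
  funext a b
  rw [Matrix.conjTranspose_apply]
  show (starMA (x b.1 a.1)).coeff (a.2 * b.2⁻¹) = star ((x b.1 a.1).coeff (b.2 * a.2⁻¹))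
  rw [starMA_coeff, mul_inv_rev, inv_inv]

theorem trace_regM (x : Matrix ι ι (MonoidAlgebra ℂ Q)) :
    (regM x).trace = Fintype.card Q * ∑ i, (x i i).coeff 1 := by
  unfold Matrix.trace
  rw [Fintype.sum_prod_type, Finset.mul_sum]
  refine Finset.sum_congr rfl fun i _ => ?_
  have h : ∀ q : Q, (regM x).diag (i, q) = (x i i).coeff 1 := by
    intro q
    show (x i i).coeff (q * q⁻¹) = _
    rw [mul_inv_cancel]
  simp only [h]
  rw [Finset.sum_const, Finset.card_univ, nsmul_eq_mul]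

/-- sum of the `ℓ¹` norms of the entries -/
noncomputable def l1M (x : Matrix ι ι (MonoidAlgebra ℂ G)) : ℝ :=
  ∑ i, ∑ j, ∑ g ∈ (x i j).coeff.support, ‖(x i j).coeff g‖

private theorem k04_map (φ : G →* Q) (y : MonoidAlgebra ℂ G) :
    ∑ h, ‖(MonoidAlgebra.mapDomain φ y).coeff h‖ ≤ ∑ g ∈ y.coeff.support, ‖y.coeff g‖ := by
  have h1 : ∀ h : Q, (MonoidAlgebra.mapDomain φ y).coeff h =
      ∑ g ∈ y.coeff.support, if φ g = h then y.coeff g else 0 := by
    intro h
    show (Finsupp.mapDomain φ y.coeff) h = _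
    unfold Finsupp.mapDomain Finsupp.sum
    rw [Finsupp.finset_sum_apply]
    exact Finset.sum_congr rfl fun g _ => Finsupp.single_apply
  calc ∑ h, ‖(MonoidAlgebra.mapDomain φ y).coeff h‖
      ≤ ∑ h : Q, ∑ g ∈ y.coeff.support, ‖if φ g = h then y.coeff g else 0‖ := by
        refine Finset.sum_le_sum fun h _ => ?_
        rw [h1]
        exact norm_sum_le _ _
    _ = ∑ g ∈ y.coeff.support, ∑ h : Q, ‖if φ g = h then y.coeff g else 0‖ := Finset.sum_comm
    _ = ∑ g ∈ y.coeff.support, ‖y.coeff g‖ := by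
        refine Finset.sum_congr rfl fun g _ => ?_
        rw [Finset.sum_eq_single (φ g)]
        · rw [if_pos rfl]
        · intro h _ hne
          rw [if_neg (Ne.symm hne), norm_zero]
        · intro h
          exact absurd (Finset.mem_univ _) h

private theorem k04_nonneg (x : Matrix ι ι (MonoidAlgebra ℂ G)) (i j : ι) :
    0 ≤ ∑ g ∈ (x i j).coeff.support, ‖(x i j).coeff g‖ :=
  Finset.sum_nonneg fun _ _ => norm_nonneg _

theorem regM_rows (φ : G →* Q) (x : Matrix ι ι (MonoidAlgebra ℂ G)) (a : ι × Q) :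
    ∑ b, ‖regM (mapM φ x) a b‖ ≤ l1M x := by
  rw [Fintype.sum_prod_type]
  have h1 : ∀ j : ι, ∑ q : Q, ‖regM (mapM φ x) a (j, q)‖ ≤
      ∑ g ∈ (x a.1 j).coeff.support, ‖(x a.1 j).coeff g‖ := by
    intro j
    refine le_trans (le_of_eq ?_) (k04_map φ (x a.1 j))
    refine Fintype.sum_equiv ((Equiv.inv Q).trans (Equiv.mulLeft a.2)) _ _ fun q => ?_
    rfl
  calc ∑ j, ∑ q : Q, ‖regM (mapM φ x) a (j, q)‖
      ≤ ∑ j, ∑ g ∈ (x a.1 j).coeff.support, ‖(x a.1 j).coeff g‖ :=
        Finset.sum_le_sum fun j _ => h1 j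
    _ ≤ l1M x := by
        unfold l1M
        exact Finset.single_le_sum (f := fun i => ∑ j, ∑ g ∈ (x i j).coeff.support,
          ‖(x i j).coeff g‖) (fun i _ => Finset.sum_nonneg fun j _ => k04_nonneg x i j)
          (Finset.mem_univ a.1)

theorem regM_cols (φ : G →* Q) (x : Matrix ι ι (MonoidAlgebra ℂ G)) (b : ι × Q) :
    ∑ a, ‖regM (mapM φ x) a b‖ ≤ l1M x := by
  rw [Fintype.sum_prod_type]
  have h1 : ∀ i : ι, ∑ q : Q, ‖regM (mapM φ x) (i, q) b‖ ≤
      ∑ g ∈ (x i b.1).coeff.support, ‖(x i b.1).coeff g‖ := by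
    intro i
    refine le_trans (le_of_eq ?_) (k04_map φ (x i b.1))
    refine Fintype.sum_equiv (Equiv.mulRight b.2⁻¹) _ _ fun q => ?_
    rfl
  calc ∑ i, ∑ q : Q, ‖regM (mapM φ x) (i, q) b‖
      ≤ ∑ i, ∑ g ∈ (x i b.1).coeff.support, ‖(x i b.1).coeff g‖ :=
        Finset.sum_le_sum fun i _ => h1 i
    _ ≤ l1M x := by
        unfold l1M
        refine Finset.sum_le_sum fun i _ => ?_
        exact Finset.single_le_sum (f := fun j => ∑ g ∈ (x i j).coeff.support,
          ‖(x i j).coeff g‖) (fun j _ => k04_nonneg x i j) (Finset.mem_univ b.1)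

theorem det_regM {x y : Matrix ι ι (MonoidAlgebra ℂ Q)} (hx : IntM x) (hy : IntM y)
    (hxy : x * y = 1) : ‖(regM x).det‖ = 1 := by
  have key : ∀ {z : Matrix ι ι (MonoidAlgebra ℂ Q)}, IntM z →
      ∃ n : ℤ, (regM z).det = (n : ℂ) := by
    intro z hz
    have h1 : ∀ a b : ι × Q, ∃ n : ℤ, regM z a b = (n : ℂ) :=
      fun a b => intR_coeff (hz a.1 b.1) (a.2 * b.2⁻¹)
    choose Z hZ using h1
    refine ⟨(Matrix.of Z).det, ?_⟩
    have h2 : regM z = (Int.castRingHom ℂ).mapMatrix (Matrix.of Z) := by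
      funext a b
      exact hZ a b
    rw [h2, ← RingHom.map_det]
    rfl
  obtain ⟨n, hn⟩ := key hx
  obtain ⟨m, hm⟩ := key hy
  have h1 : (regM x).det * (regM y).det = 1 := by
    rw [← Matrix.det_mul, ← regM_mul, hxy, regM_one, Matrix.det_one]
  rw [hn, hm] at h1
  have h2 : n * m = 1 := by exact_mod_cast h1
  have h3 : IsUnit n := IsUnit.of_mul_eq_one m h2
  rw [hn]
  rcases Int.isUnit_iff.mp h3 with h | h
  · rw [h]; simp
  · rw [h]; simp

end LT
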