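import Pool.Agent.H29.LT.C02
import Pool.Agent.H29.LT.M02
import Pool.Agent.H29.LG.K01
import Pool.Agent.H29.LG.K02
import Pool.Agent.H29.LG.K03
import Pool.Agent.H29.LG.K04

/-!
# LG-K05: invertible matrices over `ℤ[F]` have Fuglede-Kadison determinant `1`

Only `DM (trN G) (lamM x) = 0` has to be shown, `2 DM = L (toC H)`, `H = (lamM x)ᴴ * lamM x`, strictly
positive; choose `0 < ε ≤ c` with `ε ≤ H ≤ c` and also `ε ≤ (R ^ 2)⁻¹`, `R ^ 2 ≤ c`,
`R = l1M x + l1M y + 1`.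
Given `n`: let `S` be the set of all nontrivial elements in the supports of the diagonal entries of
`(adjM x * x) ^ k`, `k ≤ n`; `rf_finset` gives `φ : F → Q` with `φ g ≠ 1` on `S`.  Let
`x' = mapM φ x`, `A = regM x'`, `B = regM (mapM φ y)` (`A * B = 1`), `H' = Aᴴ * A`.
`τ' : Tr ℂ` is `(card Q)⁻¹` times the identity; `(τ'.mat (ι × Q)).f (toC M) = (card Q)⁻¹ trace M`,
its mass is `card ι`.
Bounds: `schur_upper`, `schur_lower` with `regM_rows`, `regM_cols`.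
Moments: `τ' (H'^k) = (card Q)⁻¹ trace (regM ((adjM x' * x')^k)) = ∑_i ((adjM x' * x')^k i i).coeff 1`
`= ∑_i ((adjM x * x)^k i i).coeff 1` by the choice of `φ` (`mapDomain φ z` has coefficient
`∑_{φ g = 1} z.coeff g` at `1`), and this is the moment of `H` (`c02_gram`, `tr_lamM`).
`L τ'.mat (toC H') = (card Q)⁻¹ log (det H').re = 0` (`LM_scal` with `𝔄 = ℂ`, `scal ℂ Z = Z`;
`det H' = |det A|² = 1` by `det_regM`).
By `L_approx`: `|L (toC H)| ≤ 2 card ι (c/ε) (1 - ε/c)^n` for all `n`, so `L (toC H) = 0`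
(`0 ≤ 1 - ε/c < 1`).
-/

set_option linter.unusedSectionVars false

namespace LT

open scoped Matrix ComplexOrder

variable {β : Type*} [DecidableEq β] {ι : Type*} [Fintype ι] [DecidableEq ι]

/-- `1/q` times the identity, as a trace on `ℂ` -/
noncomputable def k05_tr (q : ℕ) : Tr ℂ where
  f := ((q : ℂ)⁻¹) • ContinuousLinearMap.id ℂ ℂ
  comm x y := by rw [mul_comm]
  star_map x := by
    change (q : ℂ)⁻¹ * star x = star ((q : ℂ)⁻¹ * x)
    rw [star_mul', star_inv₀]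
    congr 2
    exact (Complex.conj_natCast q).symm
  nonneg x := by
    change 0 ≤ ((q : ℂ)⁻¹ * (star x * x)).re
    have h1 : star x * x = ((‖x‖ ^ 2 : ℝ) : ℂ) := by
      have := Complex.conj_mul' x
      rw [Complex.star_def, this]
      norm_cast
    have h2 : (q : ℂ)⁻¹ = (((q : ℝ)⁻¹ : ℝ) : ℂ) := by push_cast; rfl
    rw [h1, h2, ← Complex.ofReal_mul, Complex.ofReal_re]
    positivity

theorem k05_tr_apply (q : ℕ) (x : ℂ) : (k05_tr q).f x = (q : ℂ)⁻¹ * x := rfl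

theorem k05_mass (q : ℕ) : (k05_tr q).mass = (q : ℝ)⁻¹ := by
  unfold Tr.mass
  rw [k05_tr_apply, mul_one]
  have h2 : (q : ℂ)⁻¹ = (((q : ℝ)⁻¹ : ℝ) : ℂ) := by push_cast; rfl
  rw [h2, Complex.ofReal_re]

theorem k05_scal {m : Type*} (Z : Matrix m m ℂ) : scal ℂ Z = Z := by
  unfold scal
  ext i j
  rfl

open scoped MatrixOrder Matrix.Norms.L2Operator in
theorem k05_sqrt {m : Type*} [Fintype m] [DecidableEq m] {M : Matrix m m ℂ}
    (h : M.PosSemidef) : ∃ B : Matrix m m ℂ, M = Bᴴ * B := by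
  obtain ⟨B, hB⟩ := CStarAlgebra.nonneg_iff_eq_star_mul_self.mp h.nonneg
  exact ⟨B, hB⟩

theorem k05_psd {m : Type*} [Fintype m] [DecidableEq m] {M : Matrix m m ℂ} (h : M.PosSemidef) :
    (0 : CStarMatrix m m ℂ) ≤ toC M := by
  obtain ⟨B, hB⟩ := k05_sqrt h
  rw [hB]
  exact star_mul_self_nonneg (toC B)

theorem k05_smul {m : Type*} [Fintype m] [DecidableEq m] (r : ℝ) :
    toC ((r : ℂ) • (1 : Matrix m m ℂ)) = algebraMap ℝ (CStarMatrix m m ℂ) r := by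
  rw [Algebra.algebraMap_eq_smul_one]
  ext i j
  change (r : ℂ) • (1 : Matrix m m ℂ) i j = r • (1 : Matrix m m ℂ) i j
  rw [Complex.coe_smul]

theorem k05_coeff {G Q : Type*} [Group G] [Group Q] [DecidableEq Q] (φ : G →* Q)
    (z : MonoidAlgebra ℂ G) (h : ∀ g ∈ z.coeff.support, g ≠ 1 → φ g ≠ 1) :
    (MonoidAlgebra.mapDomain φ z).coeff 1 = z.coeff 1 := by
  classical
  show (Finsupp.mapDomain φ z.coeff) 1 = _
  unfold Finsupp.mapDomain Finsupp.sum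
  rw [Finsupp.finsetSum_apply]
  by_cases h1 : (1 : G) ∈ z.coeff.support
  · rw [Finset.sum_eq_single (1 : G)]
    · change (Finsupp.single (φ 1) (z.coeff 1)) 1 = _
      rw [φ.map_one, Finsupp.single_eq_same]
    · intro g hg hne
      exact Finsupp.single_eq_of_ne (Ne.symm (h g hg hne))
    · intro h2
      exact absurd h1 h2
  · rw [Finsupp.notMem_support_iff.1 h1]
    refine Finset.sum_eq_zero fun g hg => ?_
    have hne : g ≠ 1 := fun e => h1 (e ▸ hg)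
    exact Finsupp.single_eq_of_ne (Ne.symm (h g hg hne))

section generic

variable {𝔄 : Type*} [CStarAlgebra 𝔄] [PartialOrder 𝔄] [StarOrderedRing 𝔄]
variable {𝔅 : Type*} [CStarAlgebra 𝔅] [PartialOrder 𝔅] [StarOrderedRing 𝔅]
variable {κ : Type*} [Fintype κ] [DecidableEq κ]

theorem k05g_approx (τ : Tr 𝔄) (τ' : Tr 𝔅) (hm : (τ.mat ι).mass = (τ'.mat κ).mass)
    {X : Matrix ι ι 𝔄} {Y : Matrix κ κ 𝔅} {ε c : ℝ}
    (hε : 0 < ε) (hc : ε ≤ c) (h1 : LeM (eI 𝔄 ι ε) (Xᴴ * X)) (h2 : LeM (Xᴴ * X) (eI 𝔄 ι c))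
    (h1' : LeM (eI 𝔅 κ ε) (Yᴴ * Y)) (h2' : LeM (Yᴴ * Y) (eI 𝔅 κ c)) (n : ℕ)
    (hk : ∀ k : ℕ, 1 ≤ k → k ≤ n → (τ.mat ι).f (toC ((Xᴴ * X) ^ k)) =
      (τ'.mat κ).f (toC ((Yᴴ * Y) ^ k))) :
    |LM τ (Xᴴ * X) - LM τ' (Yᴴ * Y)| ≤
      2 * (τ.mat ι).mass * (c / ε) * (1 - ε / c) ^ n := by
  refine L_approx (τ.mat ι) (τ'.mat κ) hm (H := toC (Xᴴ * X)) (H' := toC (Yᴴ * Y)) hε hc
    h1 h2 h1' h2' n fun k hk1 hkn => ?_
  rw [← c02_toC_pow, ← c02_toC_pow, hk k hk1 hkn]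

theorem k05g_unit {X : Matrix ι ι 𝔄} (hX : IsUnit X) : SPM (Xᴴ * X) := M2_spos (M2_unit hX)

theorem k05g_mono {a b : ℝ} (h : a ≤ b) : LeM (eI 𝔄 ι a) (eI 𝔄 ι b) :=
  algebraMap_mono (CStarMatrix ι ι 𝔄) h

theorem k05g_D (τ : Tr 𝔄) (X : Matrix ι ι 𝔄) : DM τ X = LM τ (Xᴴ * X) / 2 := rfl

end generic

theorem k05_l1_nonneg {G : Type*} [Group G] (x : Matrix ι ι (MonoidAlgebra ℂ G)) :
    0 ≤ l1M x :=
  Finset.sum_nonneg fun _ _ => Finset.sum_nonneg fun _ _ => Finset.sum_nonneg fun _ _ =>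
    norm_nonneg _

theorem k05_mapM_one {G K : Type*} [Group G] [Group K] (φ : G →* K) :
    mapM φ (1 : Matrix ι ι (MonoidAlgebra ℂ G)) = 1 := by
  unfold mapM
  refine Matrix.map_one _ (MonoidAlgebra.mapDomain_zero _) ?_
  exact map_one (MonoidAlgebra.mapDomainRingHom ℂ φ)

/-- the finite set of nontrivial group elements that must survive -/
noncomputable def k05_S (z : Matrix ι ι (MonoidAlgebra ℂ (FreeGroup β))) (n : ℕ) :
    Finset (FreeGroup β) :=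
  ((Finset.range (n + 1)).biUnion fun k => Finset.univ.biUnion fun i : ι =>
    ((z ^ k) i i).coeff.support).erase 1

theorem k05_mem {z : Matrix ι ι (MonoidAlgebra ℂ (FreeGroup β))} {n k : ℕ} (hk : k ≤ n) (i : ι)
    {g : FreeGroup β} (hg : g ∈ ((z ^ k) i i).coeff.support) (h1 : g ≠ 1) : g ∈ k05_S z n := by
  unfold k05_S
  rw [Finset.mem_erase]
  refine ⟨h1, ?_⟩
  rw [Finset.mem_biUnion]
  refine ⟨k, Finset.mem_range.2 (by omega), ?_⟩
  rw [Finset.mem_biUnion]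
  exact ⟨i, Finset.mem_univ i, hg⟩

section fin

variable {Q : Type*} [Group Q] [Fintype Q] [DecidableEq Q]

theorem k05_card : (Fintype.card Q : ℂ) ≠ 0 := by
  rw [Nat.cast_ne_zero]
  exact Fintype.card_ne_zero

theorem k05_massQ : ((k05_tr (Fintype.card Q)).mat (ι × Q)).mass = Fintype.card ι := by
  rw [c02g_mass, k05_mass, Fintype.card_prod, Nat.cast_mul, mul_assoc, mul_inv_cancel₀, mul_one]
  rw [Nat.cast_ne_zero]
  exact Fintype.card_ne_zero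

theorem k05_trace (z : Matrix ι ι (MonoidAlgebra ℂ Q)) :
    ((k05_tr (Fintype.card Q)).mat (ι × Q)).f (toC (regM z)) = ∑ i, (z i i).coeff 1 := by
  rw [Tr.mat_apply]
  have h1 : ∑ a : ι × Q, (k05_tr (Fintype.card Q)).f (toC (regM z) a a) =
      (Fintype.card Q : ℂ)⁻¹ * (regM z).trace := by
    unfold Matrix.trace
    rw [Finset.mul_sum]
    rfl
  rw [h1, trace_regM, ← mul_assoc, inv_mul_cancel₀ k05_card, one_mul]

theorem k05_gram (x : Matrix ι ι (MonoidAlgebra ℂ Q)) (k : ℕ) :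
    ((regM x)ᴴ * regM x) ^ k = regM ((adjM x * x) ^ k) := by
  rw [regM_pow, regM_mul, regM_adj]

theorem k05_L (A : Matrix (ι × Q) (ι × Q) ℂ) (hA : ‖A.det‖ = 1) :
    LM (k05_tr (Fintype.card Q)) (Aᴴ * A) = 0 := by
  have h0 : A.det ≠ 0 := by
    intro h
    rw [h, norm_zero] at hA
    exact zero_ne_one hA
  have h1 := DM_scal (k05_tr (Fintype.card Q)) (𝔄 := ℂ) h0
  rw [hA, Real.log_one, mul_zero, k05_scal] at h1
  rw [k05g_D] at h1
  linarith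

theorem k05_step {x y : Matrix ι ι (MonoidAlgebra ℂ (FreeGroup β))} (hx : IntM x)
    (hy : IntM y) (hxy : x * y = 1) {ε c : ℝ} (hε : 0 < ε) (hc : ε ≤ c)
    (h1 : LeM (eI (N (FreeGroup β)) ι ε) ((lamM x)ᴴ * lamM x))
    (h2 : LeM ((lamM x)ᴴ * lamM x) (eI (N (FreeGroup β)) ι c))
    {R : ℝ} (hR : 0 < R) (hRx : l1M x ≤ R) (hRy : l1M y ≤ R) (hRε : ε ≤ (R ^ 2)⁻¹)
    (hRc : R ^ 2 ≤ c) (n : ℕ) (φ : FreeGroup β →* Q)
    (hφ : ∀ g ∈ k05_S (adjM x * x) n, φ g ≠ 1) :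
    |LM (trN (FreeGroup β)) ((lamM x)ᴴ * lamM x)| ≤
      2 * (Fintype.card ι) * (c / ε) * (1 - ε / c) ^ n := by
  obtain ⟨A, hA⟩ : ∃ A, A = regM (mapM φ x) := ⟨_, rfl⟩
  obtain ⟨B, hB⟩ : ∃ B, B = regM (mapM φ y) := ⟨_, rfl⟩
  have hxy' : mapM φ x * mapM φ y = 1 := by rw [← mapM_mul, hxy, k05_mapM_one]
  have hAB : A * B = 1 := by rw [hA, hB, ← regM_mul, hxy', regM_one]
  have hdet : ‖A.det‖ = 1 := by
    rw [hA]
    exact det_regM (hx.mapM φ) (hy.mapM φ) hxy'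
  have hu := schur_upper A (R := R) (fun i => by rw [hA]; exact (regM_rows φ x i).trans hRx)
    (fun j => by rw [hA]; exact (regM_cols φ x j).trans hRx)
  have hl := schur_lower hAB hR (fun i => by rw [hB]; exact (regM_rows φ y i).trans hRy)
    (fun j => by rw [hB]; exact (regM_cols φ y j).trans hRy)
  have hu' : LeM (Aᴴ * A) (eI ℂ (ι × Q) c) := by
    have h3 := k05_psd hu
    rw [toC_sub, k05_smul, sub_nonneg] at h3
    exact LeM.trans h3 (k05g_mono hRc)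
  have hl' : LeM (eI ℂ (ι × Q) ε) (Aᴴ * A) := by
    have h3 := k05_psd hl
    rw [toC_sub, k05_smul, sub_nonneg] at h3
    exact LeM.trans (k05g_mono hRε) h3
  have hmass : ((trN (FreeGroup β)).mat ι).mass = Fintype.card ι := by
    rw [c02g_mass, trN_mass, mul_one]
  have key := k05g_approx (trN (FreeGroup β)) (k05_tr (Fintype.card Q))
    (by rw [hmass, k05_massQ]) hε hc h1 h2 hl' hu' n ?_
  · rw [k05_L A hdet, sub_zero, hmass] at key
    exact key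
  · intro k hk1 hkn
    obtain ⟨m, rfl⟩ : ∃ m, k = m + 1 := ⟨k - 1, by omega⟩
    rw [c02_gram, tr_lamM, hA, k05_gram, k05_trace, adjM_mapM, ← mapM_mul, ← c02_mapM_pow]
    refine Finset.sum_congr rfl fun i _ => ?_
    symm
    refine k05_coeff φ _ fun g hg hne => ?_
    exact hφ g (k05_mem hkn i hg hne)

end fin

theorem Uni_of_int {x y : Matrix ι ι (MonoidAlgebra ℂ (FreeGroup β))} (hx : IntM x)
    (hy : IntM y) (hxy : x * y = 1) (hyx : y * x = 1) : Uni x := by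
  have hu : IsUnit x := ⟨⟨x, y, hxy, hyx⟩, rfl⟩
  refine ⟨hu, ?_⟩
  have hu' : IsUnit (lamM x) := c02_isUnit hu
  have hsp : SPM ((lamM x)ᴴ * lamM x) := k05g_unit hu'
  obtain ⟨ε₀, hε₀, hle₀⟩ := hsp.exists_eps
  obtain ⟨M, hM, hleM⟩ := exists_le_eI hsp.toPM
  obtain ⟨R, hR⟩ : ∃ R, R = l1M x + l1M y + 1 := ⟨_, rfl⟩
  have hx0 := k05_l1_nonneg x
  have hy0 := k05_l1_nonneg y
  have hR1 : 1 ≤ R := by rw [hR]; linarith
  have hR0 : 0 < R := by linarith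
  have hRR : 1 ≤ R ^ 2 := one_le_pow₀ hR1
  have hRi : (R ^ 2)⁻¹ ≤ 1 := inv_le_one_of_one_le₀ hRR
  obtain ⟨ε, hε⟩ : ∃ ε, ε = min ε₀ (R ^ 2)⁻¹ := ⟨_, rfl⟩
  obtain ⟨c, hc⟩ : ∃ c, c = max M (R ^ 2) := ⟨_, rfl⟩
  have e1 : ε ≤ ε₀ := by rw [hε]; exact min_le_left _ _
  have e2 : ε ≤ (R ^ 2)⁻¹ := by rw [hε]; exact min_le_right _ _
  have e3 : 0 < ε := by rw [hε]; exact lt_min hε₀ (by positivity)
  have c1 : M ≤ c := by rw [hc]; exact le_max_left _ _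
  have c2 : R ^ 2 ≤ c := by rw [hc]; exact le_max_right _ _
  have hec : ε ≤ c := by linarith
  have hc0 : 0 < c := by linarith
  have h1 : LeM (eI (N (FreeGroup β)) ι ε) ((lamM x)ᴴ * lamM x) :=
    (k05g_mono e1).trans hle₀
  have h2 : LeM ((lamM x)ᴴ * lamM x) (eI (N (FreeGroup β)) ι c) :=
    hleM.trans (k05g_mono c1)
  have key : ∀ n : ℕ, |LM (trN (FreeGroup β)) ((lamM x)ᴴ * lamM x)| ≤
      2 * (Fintype.card ι) * (c / ε) * (1 - ε / c) ^ n := by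
    intro n
    obtain ⟨Q, _, _, _, φ, hφ⟩ := rf_finset (k05_S (adjM x * x) n)
      (fun g hg => Finset.ne_of_mem_erase hg)
    exact k05_step hx hy hxy e3 hec h1 h2 hR0 (by rw [hR]; linarith) (by rw [hR]; linarith)
      e2 c2 n φ hφ
  have hq0 : 0 ≤ 1 - ε / c := by
    rw [sub_nonneg]
    exact (div_le_one hc0).2 hec
  have hq1 : 1 - ε / c < 1 := by
    have : 0 < ε / c := div_pos e3 hc0
    linarith
  have hlim : Filter.Tendsto (fun n : ℕ => 2 * (Fintype.card ι : ℝ) * (c / ε) * (1 - ε / c) ^ n)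
      Filter.atTop (nhds 0) := by
    have := (tendsto_pow_atTop_nhds_zero_of_lt_one hq0 hq1).const_mul
      (2 * (Fintype.card ι : ℝ) * (c / ε))
    rwa [mul_zero] at this
  have h3 := ge_of_tendsto' hlim key
  have h4 : LM (trN (FreeGroup β)) ((lamM x)ᴴ * lamM x) = 0 :=
    abs_eq_zero.1 (le_antisymm h3 (abs_nonneg _))
  rw [k05g_D, h4, zero_div]

end LT
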