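import Pool.Agent.H29.LG.J02
import Pool.Agent.H29.LG.J03
import Pool.Agent.H29.LG.J04
import Pool.Agent.H29.LG.J05
import Pool.Agent.H29.LG.K05

/-!
# LG-J06: the Jacobian and the pencil are equivalent

`P' = (J, A; -Y, -H')` (rows `β ⊕ ι`, columns `β ⊕ Σκ`), `P = (-H, -X; A', f)` (rows `β ⊕ Σκ`,
columns `β ⊕ ι`), `P' P = 1`, `P P' = 1` by the eight identities
`J X = A f`, `Y X = 1 + H' f`, `f Y = A' J`, `X Y = 1 + H J`, `A A' = 1 + J H`, `Y H = H' A'`,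
`A' A = 1 + f H'`, `H A = X H'`.
`Q = (1, -X; 0, 1) (1, 0; Y, 1)` and `P' (1, 0; 0, f) Q = (J, 0; 0, 1)`.

`card_eq`: map `P`, `P'` to `ℂ` by the augmentation (`MonoidAlgebra.lift` of the trivial
character) and use `Matrix.square_of_invertible` (invariant basis number).
`LB_of_pencil`: reindex the rows by `e`: `P'' = P'.submatrix id (Sum.map id e.symm)` is invertible
with integral entries, `Uni` by `Uni_of_int`; `Q` is `Uni` by `Uni_unip₁₂`, `Uni_unip₂₁`, `Uni.mul`;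
`LB_one_fromBlocks`, `LB.mul_uni`, `LB_fromBlocks_one`.
`isUnit_pencil`: apply `ρ` entrywise; `P''.map ρ`, `Q.map ρ` are invertible, so
`fromBlocks 1 0 0 (f'.map ρ)` is a unit, hence `f'.map ρ` is one (look at the blocks of the
inverse).
-/

set_option linter.unusedSectionVars false

namespace LT

open scoped Matrix

variable {β : Type*} [Fintype β] [DecidableEq β]

namespace GD

variable {c : β → FreeGroup β} {𝒮 : Type*} [DecidableEq 𝒮] [MulAction (FreeGroup β) 𝒮]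
variable (D : GD c 𝒮)

/-- `(J, A; -Y, -H')` -/
noncomputable def P' : Matrix (β ⊕ D.ι) (β ⊕ (Σ y, D.κ y)) (FR β) :=
  Matrix.fromBlocks D.J D.A (-D.Y) (-D.H')

/-- `(-H, -X; A', f)` -/
noncomputable def P : Matrix (β ⊕ (Σ y, D.κ y)) (β ⊕ D.ι) (FR β) :=
  Matrix.fromBlocks (-D.H) (-D.X) D.A' D.f

/-- `(1, -X; 0, 1) (1, 0; Y, 1)` -/
noncomputable def Q : Matrix (β ⊕ D.ι) (β ⊕ D.ι) (FR β) :=
  Matrix.fromBlocks 1 (-D.X) 0 1 * Matrix.fromBlocks 1 0 D.Y 1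

theorem P'P : D.P' * D.P = 1 := by
  unfold P' P
  rw [Matrix.fromBlocks_multiply, ← Matrix.fromBlocks_one]
  simp only [Matrix.mul_neg, Matrix.neg_mul, neg_neg]
  congr 1
  · rw [D.AA']
    abel
  · rw [D.JX]
    abel
  · rw [D.YH]
    abel
  · rw [D.YX]
    abel

theorem PP' : D.P * D.P' = 1 := by
  unfold P' P
  rw [Matrix.fromBlocks_multiply, ← Matrix.fromBlocks_one]
  simp only [Matrix.mul_neg, Matrix.neg_mul, neg_neg]
  congr 1
  · rw [D.XY]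
    abel
  · rw [D.HA]
    abel
  · rw [D.fY]
    abel
  · rw [D.A'A]
    abel

private theorem j06_fQ : D.P' * (Matrix.fromBlocks 1 0 0 D.f :
    Matrix (β ⊕ (Σ y, D.κ y)) (β ⊕ D.ι) (FR β)) * D.Q = Matrix.fromBlocks D.J 0 0 1 := by
  unfold P' Q
  rw [← Matrix.mul_assoc, Matrix.fromBlocks_multiply, Matrix.fromBlocks_multiply,
    Matrix.fromBlocks_multiply]
  simp only [Matrix.mul_neg, Matrix.neg_mul, Matrix.mul_one, Matrix.mul_zero, add_zero,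
    zero_add]
  rw [D.JX, D.YX]
  have h1 : -(D.A * D.f) + D.A * D.f = 0 := neg_add_cancel _
  have h2 : 1 + D.H' * D.f + -(D.H' * D.f) = 1 := add_neg_cancel_right _ _
  simp only [neg_neg]
  rw [h1, h2, Matrix.zero_mul, Matrix.one_mul, add_zero, neg_add_cancel]

theorem P'fQ : D.P' * Matrix.fromBlocks 1 0 0 D.f * D.Q = Matrix.fromBlocks D.J 0 0 1 :=
  D.j06_fQ

/-- the augmentation -/
private noncomputable def j06_aug (β : Type*) : FR β →+* ℂ :=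
  (MonoidAlgebra.lift ℂ ℂ (FreeGroup β) (1 : FreeGroup β →* ℂ)).toRingHom

theorem card_eq : Fintype.card (Σ y, D.κ y) = Fintype.card D.ι := by
  have h1 : (D.P'.map (j06_aug β)) * (D.P.map (j06_aug β)) = 1 := by
    rw [← Matrix.map_mul, D.P'P]
    exact Matrix.map_one _ (map_zero _) (map_one _)
  have h2 : (D.P.map (j06_aug β)) * (D.P'.map (j06_aug β)) = 1 := by
    rw [← Matrix.map_mul, D.PP']
    exact Matrix.map_one _ (map_zero _) (map_one _)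
  have h3 := Matrix.square_of_invertible _ _ h1 h2
  rw [Fintype.card_sum, Fintype.card_sum] at h3
  omega

/-- the equivalence of the columns -/
private def j06_σ (e : (Σ y, D.κ y) ≃ D.ι) : β ⊕ D.ι ≃ β ⊕ (Σ y, D.κ y) :=
  Equiv.sumCongr (Equiv.refl β) e.symm

private theorem j06_1 (e : (Σ y, D.κ y) ≃ D.ι) :
    D.P'.submatrix id (D.j06_σ e) * D.P.submatrix (D.j06_σ e) id = 1 := by
  rw [Matrix.submatrix_mul_equiv, D.P'P]
  exact Matrix.submatrix_one_equiv (Equiv.refl _)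

private theorem j06_2 (e : (Σ y, D.κ y) ≃ D.ι) :
    D.P.submatrix (D.j06_σ e) id * D.P'.submatrix id (D.j06_σ e) = 1 := by
  have h := Matrix.submatrix_mul_equiv D.P D.P' (D.j06_σ e) (Equiv.refl _) (D.j06_σ e)
  rw [D.PP', Matrix.submatrix_one_equiv] at h
  exact h

private theorem j06_3 (e : (Σ y, D.κ y) ≃ D.ι) :
    D.P'.submatrix id (D.j06_σ e) * (Matrix.fromBlocks 1 0 0 (D.f.submatrix e.symm id) :
      Matrix (β ⊕ D.ι) (β ⊕ D.ι) (FR β)) * D.Q = Matrix.fromBlocks D.J 0 0 1 := by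
  rw [← D.j06_fQ]
  congr 1
  have h := Matrix.submatrix_mul_equiv D.P' (Matrix.fromBlocks 1 0 0 D.f :
    Matrix (β ⊕ (Σ y, D.κ y)) (β ⊕ D.ι) (FR β)) id (D.j06_σ e) id
  rw [Matrix.submatrix_id_id] at h
  rw [← h]
  congr 1
  ext (i | i) (j | j) <;> rfl

private theorem j06_Q1 : D.Q * ((Matrix.fromBlocks 1 0 (-D.Y) 1 :
    Matrix (β ⊕ D.ι) (β ⊕ D.ι) (FR β)) * Matrix.fromBlocks 1 D.X 0 1) = 1 := by
  unfold Q
  rw [Matrix.mul_assoc, ← Matrix.mul_assoc (Matrix.fromBlocks 1 0 D.Y 1), c02_e21, Matrix.one_mul]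
  have h := c02_e12 (-D.X)
  rw [neg_neg] at h
  exact h

private theorem j06_Q2 : ((Matrix.fromBlocks 1 0 (-D.Y) 1 :
    Matrix (β ⊕ D.ι) (β ⊕ D.ι) (FR β)) * Matrix.fromBlocks 1 D.X 0 1) * D.Q = 1 := by
  unfold Q
  rw [Matrix.mul_assoc, ← Matrix.mul_assoc (Matrix.fromBlocks 1 D.X 0 1), c02_e12, Matrix.one_mul]
  have h := c02_e21 (-D.Y)
  rw [neg_neg] at h
  exact h

theorem LB_of_pencil (e : (Σ y, D.κ y) ≃ D.ι) {r : ℝ}
    (h : LB (D.f.submatrix e.symm id) r) : LB D.J r := by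
  have hP' : IntM D.P' := IntM.fromBlocks D.intM_J D.intM_A D.intM_Y.neg D.intM_H'.neg
  have hP : IntM D.P := IntM.fromBlocks D.intM_H.neg D.intM_X.neg D.intM_A' D.intM_f
  have h1 : Uni (D.P'.submatrix id (D.j06_σ e)) :=
    Uni_of_int (hP'.submatrix _ _) (hP.submatrix (D.j06_σ e) id) (D.j06_1 e) (D.j06_2 e)
  have h2 : Uni D.Q := (Uni_unip₁₂ (-D.X)).mul (Uni_unip₂₁ D.Y)
  have h3 := (LB_one_fromBlocks (ι := β) |>.2 h).mul_uni h1 h2
  rw [D.j06_3 e] at h3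
  exact LB_fromBlocks_one.1 h3

private theorem j06_unit {m n S : Type*} [Fintype m] [Fintype n] [DecidableEq m] [DecidableEq n]
    [Ring S] {F : Matrix n n S}
    (h : IsUnit (Matrix.fromBlocks 1 0 0 F : Matrix (m ⊕ n) (m ⊕ n) S)) : IsUnit F := by
  obtain ⟨⟨u, v, huv, hvu⟩, hu⟩ := h
  have hu' : u = Matrix.fromBlocks 1 0 0 F := hu
  subst hu'
  rw [← Matrix.fromBlocks_toBlocks v, Matrix.fromBlocks_multiply, ← Matrix.fromBlocks_one,
    Matrix.fromBlocks_inj] at huv hvu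
  have h1 := huv.2.2.2
  have h2 := hvu.2.2.2
  rw [Matrix.zero_mul, zero_add] at h1
  rw [Matrix.mul_zero, zero_add] at h2
  exact ⟨⟨F, v.toBlocks₂₂, h1, h2⟩, rfl⟩

theorem isUnit_pencil (e : (Σ y, D.κ y) ≃ D.ι) {S : Type*} [Ring S] (ρ : FR β →+* S)
    (h : IsUnit (D.J.map ρ)) : IsUnit ((D.f.submatrix e.symm id).map ρ) := by
  have hJ : IsUnit (Matrix.fromBlocks (D.J.map ρ) 0 0 1 : Matrix (β ⊕ D.ι) (β ⊕ D.ι) S) := by
    obtain ⟨⟨u, v, huv, hvu⟩, hu⟩ := h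
    have hu' : u = D.J.map ρ := hu
    rw [← hu']
    refine ⟨⟨Matrix.fromBlocks u 0 0 1, Matrix.fromBlocks v 0 0 1, ?_, ?_⟩, rfl⟩
    · rw [Matrix.fromBlocks_multiply, ← Matrix.fromBlocks_one, huv]
      simp
    · rw [Matrix.fromBlocks_multiply, ← Matrix.fromBlocks_one, hvu]
      simp
  have hP : IsUnit (ρ.mapMatrix (D.P'.submatrix id (D.j06_σ e))) :=
    IsUnit.map ρ.mapMatrix ⟨⟨_, _, D.j06_1 e, D.j06_2 e⟩, rfl⟩
  have hQ : IsUnit (ρ.mapMatrix D.Q) :=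
    IsUnit.map ρ.mapMatrix ⟨⟨_, _, D.j06_Q1, D.j06_Q2⟩, rfl⟩
  have h3 := congrArg ρ.mapMatrix (D.j06_3 e)
  rw [map_mul, map_mul] at h3
  have h4 : ρ.mapMatrix (Matrix.fromBlocks D.J 0 0 1 : Matrix (β ⊕ D.ι) (β ⊕ D.ι) (FR β)) =
      Matrix.fromBlocks (D.J.map ρ) 0 0 1 := by
    rw [RingHom.mapMatrix_apply, Matrix.fromBlocks_map]
    simp
  have h5 : ρ.mapMatrix (Matrix.fromBlocks 1 0 0 (D.f.submatrix e.symm id) :
      Matrix (β ⊕ D.ι) (β ⊕ D.ι) (FR β)) =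
      Matrix.fromBlocks 1 0 0 ((D.f.submatrix e.symm id).map ρ) := by
    rw [RingHom.mapMatrix_apply, Matrix.fromBlocks_map]
    simp
  rw [h4, h5] at h3
  rw [← h3] at hJ
  have h6 := (IsUnit.mul_right_iff hQ).1 hJ
  have h7 := (IsUnit.mul_left_iff hP).1 h6
  exact j06_unit h7

end GD

end LT
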