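import Pool.Agent.H29.LG.M02

/-!
# LG-R01: a nonsingular unitary representation bounds the capacity from below

Flatten `Matrix ι ι (Matrix (Fin d) (Fin d) ℂ)` to `Matrix (ι × Fin d) (ι × Fin d) ℂ`
(`Matrix.compRingEquiv`), so `F = flattened ((penc T O).submatrix e.symm id).map ρ` is invertible.
`F = x - y`, `x = (T_iv π(b_i))`, `y = (O_iv 1)`.  For positive definite blocks `Z`, let
`Z' = bdC e Z ⊗ 1` (`Matrix.kroneckerMap`); `(x - y)ᴴ Z' (x - y) ≤ 2 (xᴴ Z' x + yᴴ Z' y)` (the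
difference is `(x + y)ᴴ Z' (x + y)`) and `xᴴ Z' x + yᴴ Z' y = (Qr T O Z Z) ⊗ 1` (the unitaries
`π(b_y)` cancel inside the block `y`).  Determinants (monotone on positive definite matrices;
`Matrix.det_kronecker`): `|det F|² (∏ det Z_y)^d ≤ 2^(n d) (det Qr T O Z Z)^d`, and `Qr T O Z Z` is
positive definite as a consequence.  Take logs and divide by `d`:
`M₀ = (2 log |det F|) / d - n log 2`.
-/

set_option linter.unusedSectionVars false

namespace LT

open scoped Matrix ComplexOrder Kronecker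

variable {β : Type*} [Fintype β] [DecidableEq β]
variable {κ : β → Type*} [∀ y, Fintype (κ y)] [∀ y, DecidableEq (κ y)]
variable {ι : Type*} [Fintype ι] [DecidableEq ι]

/-- block diagonal matrix of the `U y` -/
noncomputable def r01U (e : (Σ y, κ y) ≃ ι) {d : ℕ} (U : β → Matrix (Fin d) (Fin d) ℂ) :
    Matrix (ι × Fin d) (ι × Fin d) ℂ :=
  fun a b => if a.1 = b.1 then U (e.symm a.1).1 a.2 b.2 else 0

/-- the rows of the `S y`, indexed by `ι` -/
noncomputable def r01S (e : (Σ y, κ y) ≃ ι) (S : ∀ y, Matrix (κ y) ι ℤ) : Matrix ι ι ℂ :=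
  fun i v => ((S (e.symm i).1 (e.symm i).2 v : ℤ) : ℂ)

theorem r01_bdC_ne (e : (Σ y, κ y) ≃ ι) (Z : ∀ y, Matrix (κ y) (κ y) ℝ) {i j : ι}
    (h : (e.symm i).1 ≠ (e.symm j).1) : bdC e Z i j = 0 := by
  unfold bdC
  rw [Matrix.submatrix_apply, Matrix.map_apply]
  rw [Matrix.blockDiagonal'_apply, dif_neg h, Complex.ofReal_zero]

theorem r01_U (e : (Σ y, κ y) ≃ ι) {d : ℕ} (U : β → Matrix (Fin d) (Fin d) ℂ)
    (hU : ∀ y, (U y)ᴴ * U y = 1) (Z : ∀ y, Matrix (κ y) (κ y) ℝ) :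
    (r01U e U)ᴴ * (bdC e Z ⊗ₖ (1 : Matrix (Fin d) (Fin d) ℂ)) * r01U e U =
      bdC e Z ⊗ₖ (1 : Matrix (Fin d) (Fin d) ℂ) := by
  ext ⟨i, k⟩ ⟨j, l⟩
  have h1 : ((r01U e U)ᴴ * (bdC e Z ⊗ₖ (1 : Matrix (Fin d) (Fin d) ℂ)) * r01U e U) (i, k) (j, l) =
      bdC e Z i j * ((U (e.symm i).1)ᴴ * U (e.symm j).1) k l := by
    rw [Matrix.mul_apply, Fintype.sum_prod_type, Finset.sum_eq_single j]
    · rw [Matrix.mul_apply, Finset.mul_sum]
      refine Finset.sum_congr rfl fun m _ => ?_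
      rw [Matrix.mul_apply, Fintype.sum_prod_type, Finset.sum_eq_single i]
      · rw [Finset.sum_eq_single m]
        · simp [r01U, Matrix.kroneckerMap_apply, Matrix.conjTranspose_apply]
          ring
        · intro m' _ hm'
          simp [Matrix.kroneckerMap_apply, Matrix.one_apply_ne hm']
        · intro h
          exact absurd (Finset.mem_univ m) h
      · intro i' _ hi'
        refine Finset.sum_eq_zero fun m' _ => ?_
        simp [r01U, Matrix.conjTranspose_apply, hi']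
      · intro h
        exact absurd (Finset.mem_univ i) h
    · intro j' _ hj'
      refine Finset.sum_eq_zero fun m' _ => ?_
      simp [r01U, hj']
    · intro h
      exact absurd (Finset.mem_univ j) h
  rw [h1, Matrix.kroneckerMap_apply]
  by_cases h : (e.symm i).1 = (e.symm j).1
  · rw [h, hU]
  · rw [r01_bdC_ne e Z h, zero_mul, zero_mul]

theorem r01_S (e : (Σ y, κ y) ≃ ι) (S : ∀ y, Matrix (κ y) ι ℤ)
    (Z : ∀ y, Matrix (κ y) (κ y) ℝ) :
    (r01S e S)ᴴ * bdC e Z * r01S e S =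
      (∑ y, (rz (S y))ᵀ * Z y * rz (S y)).map Complex.ofReal := by
  set S' : Matrix (Σ y, κ y) ι ℂ := fun s v => ((S s.1 s.2 v : ℤ) : ℂ) with hS'
  have h1 : r01S e S = S'.submatrix e.symm id := rfl
  have h2 : (r01S e S)ᴴ * bdC e Z * r01S e S =
      S'ᴴ * ((Matrix.blockDiagonal' Z).map Complex.ofReal) * S' := by
    rw [h1, bdC, Matrix.conjTranspose_submatrix, Matrix.submatrix_mul_equiv,
      Matrix.submatrix_mul_equiv, Matrix.submatrix_id_id]
  rw [h2]
  ext v w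
  rw [Matrix.map_apply, Matrix.sum_apply, Matrix.mul_apply, Fintype.sum_sigma]
  push_cast
  refine Finset.sum_congr rfl fun y _ => ?_
  rw [Matrix.mul_apply]
  push_cast
  refine Finset.sum_congr rfl fun h _ => ?_
  congr 1
  · rw [Matrix.mul_apply, Matrix.mul_apply, Fintype.sum_sigma, Finset.sum_eq_single y]
    · push_cast
      refine Finset.sum_congr rfl fun h' _ => ?_
      rw [Matrix.conjTranspose_apply, Matrix.map_apply, Matrix.blockDiagonal'_apply_eq]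
      simp [hS', rz]
    · intro y' _ hy'
      refine Finset.sum_eq_zero fun h' _ => ?_
      simp [Matrix.blockDiagonal'_apply_ne _ _ _ hy']
    · intro hh
      exact absurd (Finset.mem_univ y) hh

theorem r01_x (e : (Σ y, κ y) ≃ ι) (S : ∀ y, Matrix (κ y) ι ℤ) {d : ℕ}
    (U : β → Matrix (Fin d) (Fin d) ℂ)
    (hU : ∀ y, (U y)ᴴ * U y = 1) (Z : ∀ y, Matrix (κ y) (κ y) ℝ) :
    (r01U e U * (r01S e S ⊗ₖ (1 : Matrix (Fin d) (Fin d) ℂ)))ᴴ *
        (bdC e Z ⊗ₖ (1 : Matrix (Fin d) (Fin d) ℂ)) *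
        (r01U e U * (r01S e S ⊗ₖ (1 : Matrix (Fin d) (Fin d) ℂ))) =
      ((∑ y, (rz (S y))ᵀ * Z y * rz (S y)).map Complex.ofReal) ⊗ₖ
        (1 : Matrix (Fin d) (Fin d) ℂ) := by
  have h1 : (r01U e U * (r01S e S ⊗ₖ (1 : Matrix (Fin d) (Fin d) ℂ)))ᴴ *
        (bdC e Z ⊗ₖ (1 : Matrix (Fin d) (Fin d) ℂ)) *
        (r01U e U * (r01S e S ⊗ₖ (1 : Matrix (Fin d) (Fin d) ℂ))) =
      (r01S e S ⊗ₖ (1 : Matrix (Fin d) (Fin d) ℂ))ᴴ *
        ((r01U e U)ᴴ * (bdC e Z ⊗ₖ (1 : Matrix (Fin d) (Fin d) ℂ)) * r01U e U) *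
        (r01S e S ⊗ₖ (1 : Matrix (Fin d) (Fin d) ℂ)) := by
    rw [Matrix.conjTranspose_mul]
    simp only [Matrix.mul_assoc]
  rw [h1, r01_U e U hU Z, Matrix.conjTranspose_kronecker, Matrix.conjTranspose_one,
    ← Matrix.mul_kronecker_mul, ← Matrix.mul_kronecker_mul, r01_S]
  simp

theorem r01_F (e : (Σ y, κ y) ≃ ι) (T O : ∀ y, Matrix (κ y) ι ℤ) {d : ℕ}
    (π : FreeGroup β →* Matrix (Fin d) (Fin d) ℂ) :
    Matrix.comp ι ι (Fin d) (Fin d) ℂ (((penc T O).submatrix e.symm id).map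
      (MonoidAlgebra.lift ℂ (Matrix (Fin d) (Fin d) ℂ) (FreeGroup β) π)) =
    r01U e (fun y => π (FreeGroup.of y)) * (r01S e T ⊗ₖ (1 : Matrix (Fin d) (Fin d) ℂ)) -
      r01U e (fun _ => 1) * (r01S e O ⊗ₖ (1 : Matrix (Fin d) (Fin d) ℂ)) := by
  ext ⟨i, k⟩ ⟨v, l⟩
  have h1 : ∀ (U : β → Matrix (Fin d) (Fin d) ℂ) (S : ∀ y, Matrix (κ y) ι ℤ),
      (r01U e U * (r01S e S ⊗ₖ (1 : Matrix (Fin d) (Fin d) ℂ))) (i, k) (v, l) =
      ((S (e.symm i).1 (e.symm i).2 v : ℤ) : ℂ) * U (e.symm i).1 k l := by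
    intro U S
    rw [Matrix.mul_apply, Fintype.sum_prod_type, Finset.sum_eq_single i]
    · rw [Finset.sum_eq_single l]
      · simp [r01U, r01S, Matrix.kroneckerMap_apply]
        ring
      · intro m' _ hm'
        simp [Matrix.kroneckerMap_apply, Matrix.one_apply_ne hm']
      · intro h
        exact absurd (Finset.mem_univ l) h
    · intro i' _ hi'
      refine Finset.sum_eq_zero fun m' _ => ?_
      simp [r01U, (Ne.symm hi')]
    · intro h
      exact absurd (Finset.mem_univ i) h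
  rw [Matrix.sub_apply, h1, h1, Matrix.comp_apply, Matrix.map_apply, Matrix.submatrix_apply, penc,
    map_sub, Matrix.sub_apply]
  simp [MonoidAlgebra.lift_single]

theorem r01_real {A : Matrix ι ι ℝ} (h : (A.map Complex.ofReal).PosDef) : A.PosDef := by
  have hH : A.IsHermitian := by
    ext i j
    have h1 := congrFun (congrFun h.isHermitian i) j
    simp only [Matrix.conjTranspose_apply, Matrix.map_apply] at h1
    have h2 : ((A j i : ℝ) : ℂ) = ((A i j : ℝ) : ℂ) := by simpa using h1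
    simpa using Complex.ofReal_injective h2
  refine Matrix.PosDef.of_dotProduct_mulVec_pos hH fun x hx => ?_
  have hx' : (fun i => (x i : ℂ)) ≠ 0 := by
    intro h0
    apply hx
    ext i
    have := congrFun h0 i
    simpa using this
  have h3 := h.dotProduct_mulVec_pos hx'
  have h4 : star (fun i => (x i : ℂ)) ⬝ᵥ (A.map Complex.ofReal *ᵥ fun i => (x i : ℂ)) =
      ((star x ⬝ᵥ (A *ᵥ x) : ℝ) : ℂ) := by
    simp [dotProduct, Matrix.mulVec]
  rw [h4] at h3
  exact_mod_cast h3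

theorem rep_bound (e : (Σ y, κ y) ≃ ι) (T O : ∀ y, Matrix (κ y) ι ℤ) {d : ℕ} (hd : 0 < d)
    (π : FreeGroup β →* Matrix (Fin d) (Fin d) ℂ) (hπ : ∀ g, (π g)ᴴ * π g = 1)
    (hf : IsUnit (((penc T O).submatrix e.symm id).map
      (MonoidAlgebra.lift ℂ (Matrix (Fin d) (Fin d) ℂ) (FreeGroup β) π))) :
    ∃ M₀ : ℝ, ∀ Z : ∀ y, Matrix (κ y) (κ y) ℝ, (∀ y, (Z y).PosDef) → (Qr T O Z Z).PosDef ∧
      M₀ + ∑ y, Real.log (Z y).det ≤ Real.log (Qr T O Z Z).det := by
  classical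
  have : Nonempty (Fin d) := ⟨⟨0, hd⟩⟩
  set F := Matrix.comp ι ι (Fin d) (Fin d) ℂ (((penc T O).submatrix e.symm id).map
      (MonoidAlgebra.lift ℂ (Matrix (Fin d) (Fin d) ℂ) (FreeGroup β) π)) with hFdef
  have hFu : IsUnit F := by
    rw [hFdef]
    exact (Matrix.isUnit_comp_iff _ _ _).2 hf
  set x := r01U e (fun y => π (FreeGroup.of y)) * (r01S e T ⊗ₖ (1 : Matrix (Fin d) (Fin d) ℂ))
    with hx
  set y' := r01U e (fun _ => (1 : Matrix (Fin d) (Fin d) ℂ)) *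
    (r01S e O ⊗ₖ (1 : Matrix (Fin d) (Fin d) ℂ)) with hy
  have hF : F = x - y' := r01_F e T O π
  have hFd : F.det ≠ 0 := by
    have := (Matrix.isUnit_iff_isUnit_det F).1 hFu
    exact this.ne_zero
  have hd' : (0 : ℝ) < d := by exact_mod_cast hd
  refine ⟨2 * Real.log ‖F.det‖ / d - Fintype.card ι * Real.log 2, fun Z hZ => ?_⟩
  have hb : (bdC e Z).PosDef := (bdC_pd e).2 hZ
  set Z' := bdC e Z ⊗ₖ (1 : Matrix (Fin d) (Fin d) ℂ) with hZ'
  have hZ'pd : Z'.PosDef := hb.kronecker Matrix.PosDef.one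
  have hQ : xᴴ * Z' * x + y'ᴴ * Z' * y' =
      ((Qr T O Z Z).map Complex.ofReal) ⊗ₖ (1 : Matrix (Fin d) (Fin d) ℂ) := by
    rw [hx, hy, hZ', r01_x e T _ (fun y => hπ _) Z, r01_x e O _ (fun y => by simp) Z,
      ← Matrix.add_kronecker]
    congr 1
    rw [Qr, Finset.sum_add_distrib]
    ext i j
    simp
  have hFZF : (Fᴴ * Z' * F).PosDef := by
    refine hZ'pd.conjTranspose_mul_mul_same ?_
    exact Matrix.mulVec_injective_of_isUnit hFu
  have hdiff : ((2 : ℂ) • (((Qr T O Z Z).map Complex.ofReal) ⊗ₖ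
      (1 : Matrix (Fin d) (Fin d) ℂ)) - Fᴴ * Z' * F).PosSemidef := by
    have h1 : (2 : ℂ) • (((Qr T O Z Z).map Complex.ofReal) ⊗ₖ
        (1 : Matrix (Fin d) (Fin d) ℂ)) - Fᴴ * Z' * F = (x + y')ᴴ * Z' * (x + y') := by
      rw [← hQ, hF, Matrix.conjTranspose_sub, Matrix.conjTranspose_add, two_smul]
      simp only [Matrix.sub_mul, Matrix.mul_sub, Matrix.add_mul, Matrix.mul_add]
      abel
    rw [h1]
    exact hZ'pd.posSemidef.conjTranspose_mul_mul_same _
  have h2pd := posDef_of_le hFZF hdiff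
  have hQpd' : (((Qr T O Z Z).map Complex.ofReal) ⊗ₖ (1 : Matrix (Fin d) (Fin d) ℂ)).PosDef := by
    have h1 : (((Qr T O Z Z).map Complex.ofReal) ⊗ₖ (1 : Matrix (Fin d) (Fin d) ℂ)) =
        ((1 / 2 : ℝ) : ℂ) • ((2 : ℂ) • (((Qr T O Z Z).map Complex.ofReal) ⊗ₖ
      (1 : Matrix (Fin d) (Fin d) ℂ))) := by
      rw [smul_smul]
      norm_num
    rw [h1]
    refine h2pd.smul ?_
    exact_mod_cast (by norm_num : (0 : ℝ) < 1 / 2)
  have hQpd : (Qr T O Z Z).PosDef := by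
    apply r01_real
    have h1 := hQpd'.submatrix (e := fun i : ι => (i, (⟨0, hd⟩ : Fin d)))
      (fun i j hij => (Prod.mk.inj hij).1)
    have h2 : (((Qr T O Z Z).map Complex.ofReal) ⊗ₖ (1 : Matrix (Fin d) (Fin d) ℂ)).submatrix
        (fun i : ι => (i, (⟨0, hd⟩ : Fin d))) (fun i : ι => (i, (⟨0, hd⟩ : Fin d))) =
        (Qr T O Z Z).map Complex.ofReal := by
      ext i j
      simp [Matrix.kroneckerMap_apply]
    rwa [h2] at h1
  refine ⟨hQpd, ?_⟩
  have hdet := det_le_det hFZF.posSemidef hdiff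
  have hZd : ∀ y, 0 < (Z y).det := fun y => (hZ y).det_pos
  have hP : 0 < ∏ y, (Z y).det := Finset.prod_pos fun y _ => hZd y
  have hQd : 0 < (Qr T O Z Z).det := hQpd.det_pos
  have hFn : 0 < ‖F.det‖ := norm_pos_iff.2 hFd
  have hL : (Fᴴ * Z' * F).det = ((‖F.det‖ ^ 2 * (∏ y, (Z y).det) ^ d : ℝ) : ℂ) := by
    rw [Matrix.det_mul, Matrix.det_mul, Matrix.det_conjTranspose, hZ', Matrix.det_kronecker,
      bdC_det, Matrix.det_one, one_pow, mul_one, Fintype.card_fin]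
    have h1 : star F.det * F.det = ((‖F.det‖ ^ 2 : ℝ) : ℂ) := by
      rw [Complex.star_def, Complex.conj_mul']
      push_cast
      rfl
    push_cast
    push_cast at h1
    rw [← h1]
    ring
  have hR : ((2 : ℂ) • (((Qr T O Z Z).map Complex.ofReal) ⊗ₖ
      (1 : Matrix (Fin d) (Fin d) ℂ))).det =
      (((2 : ℝ) ^ (Fintype.card ι * d) * (Qr T O Z Z).det ^ d : ℝ) : ℂ) := by
    have h1 : ((Qr T O Z Z).map Complex.ofReal).det = (((Qr T O Z Z).det : ℝ) : ℂ) := by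
      exact (RingHom.map_det Complex.ofRealHom (Qr T O Z Z)).symm
    rw [Matrix.det_smul, Matrix.det_kronecker, Matrix.det_one, one_pow, mul_one, h1,
      Fintype.card_prod, Fintype.card_fin]
    push_cast
    rfl
  rw [hL, hR, Complex.ofReal_re, Complex.ofReal_re] at hdet
  have hlog := Real.log_le_log (by positivity) hdet
  rw [Real.log_mul (by positivity) (by positivity), Real.log_mul (by positivity) (by positivity),
    Real.log_pow, Real.log_pow, Real.log_pow, Real.log_pow,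
    Real.log_prod (fun y _ => (hZd y).ne')] at hlog
  push_cast at hlog
  have h5 : 2 * Real.log ‖F.det‖ / d * d = 2 * Real.log ‖F.det‖ := by
    field_simp
  have h6 : (2 * Real.log ‖F.det‖ / d - Fintype.card ι * Real.log 2 +
      ∑ y, Real.log (Z y).det) * d ≤ Real.log (Qr T O Z Z).det * d := by
    nlinarith [h5, hlog]
  exact le_of_mul_le_mul_right h6 hd'

end LT
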