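import Pool.Agent.H29.LG.G11

/-!
# LG-R02: a capacity bound gives a lower bound for `E0` of every message

`Z_y = p_y + q_y`, `K = (1/2) • Qr T O Z Z = Qr T O (Z/2) (Z/2)` (positive definite by `hK`),
`H = η • 1 + Qr T O p q` (positive definite, `H⁻¹ = R = M.R` by `RQ`).  By `log_det_tangent`:
`log det K ≤ log det H + tr (R (K - H))`.
`tr (R (K - H)) = ∑_y [tr (T R Tᵀ (q - p)) + tr (O R Oᵀ (p - q))] / 2 - η tr R`, and
`∑_y [tr (T R Tᵀ p) + tr (O R Oᵀ q)] = tr (R (H - η)) = n - η tr R`, so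
`tr (R (K - H)) = ∑_y [tr (T R Tᵀ q) + tr (O R Oᵀ p)] / 2 - (n - η tr R) / 2 - η tr R`
`≤ ∑_y tr (G_y (p_y + q_y)) / 2 - n / 2 ≤ 0` (`hT`, `hO`, `∑ card κ_y = n`, `tr R ≥ 0`).
So `log det H ≥ log det K = log det (Qr T O Z Z) - n log 2`.

`log_det_tangent`: e.g. `H = B Bᵀ` (or `H^{1/2}`), the eigenvalues `λ` of `B⁻¹ K B⁻ᵀ` satisfy
`log λ ≤ λ - 1`; or apply `L_tangent`/`LM_scal` over `ℂ`.
-/

set_option linter.unusedSectionVars false

namespace LT

open scoped Matrix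

variable {β : Type*} [Fintype β] {κ : β → Type*} [∀ y, Fintype (κ y)] [∀ y, DecidableEq (κ y)]
variable {ι : Type*} [Fintype ι] [DecidableEq ι]

private theorem r02_fac {P : Matrix ι ι ℝ} (hP : P.PosSemidef) : ∃ B : Matrix ι ι ℝ, P = Bᴴ * B := by
  open scoped MatrixOrder in
  exact CStarAlgebra.nonneg_iff_eq_star_mul_self.mp hP.nonneg

private theorem r02_trace {P Q : Matrix ι ι ℝ} (hP : P.PosSemidef) (hQ : Q.PosSemidef) :
    0 ≤ (P * Q).trace := by
  obtain ⟨B, rfl⟩ := r02_fac hQ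
  rw [← mul_assoc, Matrix.trace_mul_comm, ← mul_assoc]
  exact (hP.mul_mul_conjTranspose_same B).trace_nonneg

/-- tangent inequality for `log det` -/
theorem log_det_tangent {H K : Matrix ι ι ℝ} (hH : H.PosDef) (hK : K.PosDef) :
    Real.log K.det ≤ Real.log H.det + (H⁻¹ * (K - H)).trace := by
  obtain ⟨B, hB⟩ := r02_fac hH.inv.posSemidef
  have hdet : H⁻¹.det = B.det * B.det := by
    rw [hB, Matrix.det_mul, Matrix.det_conjTranspose, star_trivial]
  have hdp : 0 < H⁻¹.det := hH.inv.det_pos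
  have hBd : B.det ≠ 0 := by
    intro h
    rw [h] at hdet
    rw [hdet] at hdp
    simp at hdp
  have hBu : IsUnit B := (Matrix.isUnit_iff_isUnit_det B).2 hBd.isUnit
  have hX : (B * K * Bᴴ).PosDef :=
    hK.mul_mul_conjTranspose_same (Matrix.vecMul_injective_iff_isUnit.2 hBu)
  have hXdet : (B * K * Bᴴ).det = K.det * H⁻¹.det := by
    rw [Matrix.det_mul, Matrix.det_mul, Matrix.det_conjTranspose, star_trivial, hdet]
    ring
  have hXtr : (B * K * Bᴴ).trace = (H⁻¹ * K).trace := by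
    rw [Matrix.trace_mul_comm, ← mul_assoc, hB]
  have hHd : H⁻¹.det = (H.det)⁻¹ := by
    rw [Matrix.det_nonsing_inv, Ring.inverse_eq_inv']
  have hlog : Real.log (B * K * Bᴴ).det = Real.log K.det - Real.log H.det := by
    rw [hXdet, hHd, Real.log_mul hK.det_pos.ne' (inv_ne_zero hH.det_pos.ne'), Real.log_inv]
    ring
  have hle : Real.log (B * K * Bᴴ).det ≤ (B * K * Bᴴ).trace - Fintype.card ι := by
    have h1 : (B * K * Bᴴ).det = ∏ i, hX.isHermitian.eigenvalues i := by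
      rw [hX.isHermitian.det_eq_prod_eigenvalues]
      simp
    have h2 : (B * K * Bᴴ).trace = ∑ i, hX.isHermitian.eigenvalues i := by
      rw [hX.isHermitian.trace_eq_sum_eigenvalues]
      simp
    rw [h1, h2, Real.log_prod (fun i _ => (hX.eigenvalues_pos i).ne')]
    have h3 : (Fintype.card ι : ℝ) = ∑ _i : ι, (1 : ℝ) := by simp
    rw [h3, ← Finset.sum_sub_distrib]
    exact Finset.sum_le_sum fun i _ => Real.log_le_sub_one_of_pos (hX.eigenvalues_pos i)
  have hHu : IsUnit H.det := hH.det_pos.ne'.isUnit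
  rw [mul_sub, Matrix.trace_sub, Matrix.nonsing_inv_mul _ hHu, Matrix.trace_one, ← hXtr]
  linarith

/-- one message -/
theorem E0_ge_one (T O : ∀ y, Matrix (κ y) ι ℤ)
    (hcard : ∑ y, Fintype.card (κ y) = Fintype.card ι) {M₀ η : ℝ} (hη : 0 < η) (M : Msg T O η)
    (hKp : (Qr T O (fun y => M.p y + M.q y) (fun y => M.p y + M.q y)).PosDef)
    (h1 : M₀ + ∑ y, Real.log (M.p y + M.q y).det ≤
      Real.log (Qr T O (fun y => M.p y + M.q y) (fun y => M.p y + M.q y)).det) :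
    M₀ - Fintype.card ι * Real.log 2 ≤ M.E0 := by
  have hZ : ∀ y, (M.p y + M.q y).PosDef := fun y => (M.p_pos y).add (M.q_pos y)
  obtain ⟨K, hKd⟩ : ∃ K, K = Qr T O (fun y => M.p y + M.q y) (fun y => M.p y + M.q y) := ⟨_, rfl⟩
  obtain ⟨H, hHd⟩ : ∃ H, H = η • (1 : Matrix ι ι ℝ) + Qr T O M.p M.q := ⟨_, rfl⟩
  have hRH : M.R * H = 1 := by
    rw [hHd]
    exact M.RQ
  have hHR : H * M.R = 1 := mul_eq_one_comm.1 hRH
  have hH : H = M.R⁻¹ := (Matrix.inv_eq_right_inv hRH).symm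
  have hHp : H.PosDef := by
    rw [hH]
    exact M.R_pos.inv
  have hHinv : H⁻¹ = M.R := Matrix.inv_eq_right_inv hHR
  rw [← hKd] at h1 hKp
  have hK2 : ((1 / 2 : ℝ) • K).PosDef := hKp.smul (by norm_num)
  have h2 := log_det_tangent hHp hK2
  rw [hHinv, mul_sub, Matrix.trace_sub, hRH, Matrix.trace_one, Matrix.det_smul,
    Real.log_mul (pow_pos (by norm_num) _).ne' hKp.det_pos.ne', Real.log_pow] at h2
  have h3 : Real.log (1 / 2 : ℝ) = -Real.log 2 := by
    rw [one_div, Real.log_inv]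
  rw [h3] at h2
  have h4 : (M.R * ((1 / 2 : ℝ) • K)).trace ≤ Fintype.card ι := by
    have hterm : ∀ (y : β) (A : Matrix (κ y) ι ℝ),
        ((M.p y + M.q y)⁻¹ - A * M.R * Aᵀ).PosSemidef →
        (M.R * (Aᵀ * (M.p y + M.q y) * A)).trace ≤ Fintype.card (κ y) := by
      intro y A hA
      have h5 := r02_trace hA (hZ y).posSemidef
      have h6 : IsUnit (M.p y + M.q y).det := (hZ y).det_pos.ne'.isUnit
      rw [sub_mul, Matrix.trace_sub, Matrix.nonsing_inv_mul _ h6, Matrix.trace_one] at h5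
      have h7 : (A * M.R * Aᵀ * (M.p y + M.q y)).trace =
          (M.R * (Aᵀ * (M.p y + M.q y) * A)).trace := by
        rw [Matrix.mul_assoc, Matrix.mul_assoc, Matrix.trace_mul_comm, Matrix.mul_assoc]
      rw [← h7]
      linarith
    have h8 : M.R * ((1 / 2 : ℝ) • K) = (1 / 2 : ℝ) • ∑ y,
        (M.R * ((rz (T y))ᵀ * (M.p y + M.q y) * rz (T y)) +
          M.R * ((rz (O y))ᵀ * (M.p y + M.q y) * rz (O y))) := by
      rw [Matrix.mul_smul, hKd]
      unfold Qr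
      rw [Finset.mul_sum]
      simp_rw [mul_add]
    rw [h8, Matrix.trace_smul, Matrix.trace_sum]
    have h9 : ∑ y, (M.R * ((rz (T y))ᵀ * (M.p y + M.q y) * rz (T y)) +
          M.R * ((rz (O y))ᵀ * (M.p y + M.q y) * rz (O y))).trace ≤
        ∑ y, ((Fintype.card (κ y) : ℝ) + (Fintype.card (κ y) : ℝ)) := by
      refine Finset.sum_le_sum fun y _ => ?_
      rw [Matrix.trace_add]
      exact add_le_add (hterm y _ (M.hT y)) (hterm y _ (M.hO y))
    have h10 : ∑ y, ((Fintype.card (κ y) : ℝ) + (Fintype.card (κ y) : ℝ)) =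
        2 * Fintype.card ι := by
      rw [← hcard]
      push_cast
      rw [Finset.sum_add_distrib]
      ring
    rw [h10] at h9
    rw [smul_eq_mul]
    linarith
  unfold Msg.E0
  rw [← hHd]
  linarith

theorem E0_ge (T O : ∀ y, Matrix (κ y) ι ℤ)
    (hcard : ∑ y, Fintype.card (κ y) = Fintype.card ι) {M₀ : ℝ}
    (hK : ∀ Z : ∀ y, Matrix (κ y) (κ y) ℝ, (∀ y, (Z y).PosDef) → (Qr T O Z Z).PosDef)
    (hB : ∀ Z : ∀ y, Matrix (κ y) (κ y) ℝ, (∀ y, (Z y).PosDef) →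
      M₀ + ∑ y, Real.log (Z y).det ≤ Real.log (Qr T O Z Z).det)
    {η : ℝ} (hη : 0 < η) (M : Msg T O η) :
    M₀ - Fintype.card ι * Real.log 2 ≤ M.E0 := by
  have hZ : ∀ y, (M.p y + M.q y).PosDef := fun y => (M.p_pos y).add (M.q_pos y)
  exact E0_ge_one T O hcard hη M (hK _ hZ) (hB _ hZ)

end LT
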