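import Pool.Agent.H29.LT.Q05
import Pool.Agent.H29.LT.Q06
import Pool.Agent.H29.LG.M01
import Pool.Agent.H29.LG.M02

/-!
# LG-M04: existence of messages

`τ = trN (F2 β)`, `a₀ = m2a0 e O`, `a₁ = m2a1 e T`, `U` from `m2_UF`.  Apply `exists_Sol_inv` with
`S = Set.range (bdC e)`: `hE₀`, `hE₁` from `m2_E₀`, `m2_E₁` with `X = 1`, `bdC_pd`, `gO`, `gT`.
`hstep` for psd `P = bdC e q`, `Q' = bdC e p` (first argument `P` of `Vf` pairs with `a₀`, i.e. with
`O`): `Qm a₀ a₁ η P Q' = scal (H.map ofReal)`, `H = η • 1 + Qr T O p q` positive definite (`Qr` is psd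
when all `p y`, `q y` are psd), so `Ring.inverse` of it is `scal ((H⁻¹).map ofReal)`
(`q05_ring_inverse`, `scal_mul`), `Vf .. = bdC e (fun y => rz (O y) * H⁻¹ * (rz (O y))ᵀ)` and the same
for `a₁`, `T`; the blocks are positive definite by `gO`, `gT`; `bdC_inv`, `bdC_sub`, `bdC_add`,
`bdC_one`.  For the outer inverse one needs `1 + (V⁻¹ - q)` positive definite blockwise: from
`Vf_mono₀/₁` compared with `(0, 0)` as in `LT/Q04.lean`, (`V(p,q)⁻¹ - p ≥ V(0,0)⁻¹ > 0`), or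
directly: the inverse of a block diagonal matrix with a non invertible block is `0` in Mathlib, so a
case distinction `∀ y, IsUnit ..` also works (`0 = bdC e 0`, `1 = bdC e 1`).
The solution: `l₀ = bdC e q`, `l₁ = bdC e p`.  `q05_l₀`, `q05_l₁` (positive definite),
`hi₀`, `hi₁` and `δ > 0` give `1 - l_i` psd; `q05_V₀`, `q05_V₁` give `hO`, `hT`.
`M.R = (η • 1 + Qr T O p q)⁻¹`.
`E0`: `Sol.LM_formula` with `Sol.D_eq_zero`; `LM_scal` and `norm_det_s_le` (as at the end of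
`Sol.lower`, file `LT/Q05.lean`), `bdC_det`, `Real.log_prod`.
`q06_k`: `Sol.tr_inverse`, `(τ.mat ι).f (toC (scal Z)) = trace Z` (sum of `τ.f (algebraMap ..)`).
Everything for `F = lamM (mapM m2phi ..)` is transported by `m2_gram`.
-/

set_option linter.unusedSectionVars false

namespace LT

open scoped Matrix ComplexOrder

variable {β : Type*} [Fintype β] [DecidableEq β]
variable {κ : β → Type*} [∀ y, Fintype (κ y)] [∀ y, DecidableEq (κ y)]
variable {ι : Type*} [Fintype ι] [DecidableEq ι]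

theorem m4_conj_posDef {κ' : Type*} [Fintype κ'] [DecidableEq κ'] {A : Matrix ι ι ℝ}
    (hA : A.PosDef) {B : Matrix κ' ι ℝ} (hB : (B * Bᵀ).PosDef) : (B * A * Bᵀ).PosDef := by
  have hinj : Function.Injective (Bᵀ).mulVec := by
    intro x y hxy
    have h1 : (B * Bᵀ) *ᵥ (x - y) = 0 := by
      rw [← Matrix.mulVec_mulVec, Matrix.mulVec_sub]
      have : Bᵀ *ᵥ x = Bᵀ *ᵥ y := hxy
      rw [this, sub_self, Matrix.mulVec_zero]
    have h2 : IsUnit (B * Bᵀ) := hB.isUnit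
    have h3 := Matrix.mulVec_injective_iff_isUnit.mpr h2
    have h4 : x - y = 0 := by
      apply h3
      show (B * Bᵀ) *ᵥ (x - y) = (B * Bᵀ) *ᵥ 0
      rw [h1, Matrix.mulVec_zero]
    exact sub_eq_zero.mp h4
  have h := hA.conjTranspose_mul_mul_same hinj
  rw [Matrix.conjTranspose_eq_transpose_of_trivial, Matrix.transpose_transpose] at h
  exact h

theorem m4_Qr_psd (T O : ∀ y, Matrix (κ y) ι ℤ) {p q : ∀ y, Matrix (κ y) (κ y) ℝ}
    (hp : ∀ y, (p y).PosSemidef) (hq : ∀ y, (q y).PosSemidef) :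
    (Qr T O p q).PosSemidef := by
  unfold Qr
  refine Matrix.posSemidef_sum _ fun y _ => ?_
  have h1 := (hp y).conjTranspose_mul_mul_same (rz (T y))
  have h2 := (hq y).conjTranspose_mul_mul_same (rz (O y))
  rw [Matrix.conjTranspose_eq_transpose_of_trivial] at h1 h2
  exact h1.add h2

theorem m4_H_pd (T O : ∀ y, Matrix (κ y) ι ℤ) {η : ℝ} (hη : 0 < η)
    {p q : ∀ y, Matrix (κ y) (κ y) ℝ}
    (hp : ∀ y, (p y).PosSemidef) (hq : ∀ y, (q y).PosSemidef) :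
    (η • (1 : Matrix ι ι ℝ) + Qr T O p q).PosDef :=
  (Matrix.PosDef.one.smul hη).add_posSemidef (m4_Qr_psd T O hp hq)

theorem m4_scal_inv {𝔄 : Type*} [CStarAlgebra 𝔄] [PartialOrder 𝔄] [StarOrderedRing 𝔄]
    {H : Matrix ι ι ℝ} (hH : H.PosDef) :
    scal 𝔄 (H.map Complex.ofReal) * scal 𝔄 ((H⁻¹).map Complex.ofReal) = 1 ∧
      scal 𝔄 ((H⁻¹).map Complex.ofReal) * scal 𝔄 (H.map Complex.ofReal) = 1 := by
  have hu : IsUnit H.det := (Matrix.isUnit_iff_isUnit_det _).1 hH.isUnit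
  have hmap : ∀ A B : Matrix ι ι ℝ, (A * B).map Complex.ofReal =
      A.map Complex.ofReal * B.map Complex.ofReal := by
    intro A B
    ext i j
    simp [Matrix.mul_apply]
  have h1 : (1 : Matrix ι ι ℝ).map Complex.ofReal = 1 :=
    Matrix.map_one _ Complex.ofReal_zero Complex.ofReal_one
  constructor
  · rw [← scal_mul, ← hmap, Matrix.mul_nonsing_inv _ hu, h1, scal_one]
  · rw [← scal_mul, ← hmap, Matrix.nonsing_inv_mul _ hu, h1, scal_one]

theorem m4_E₀ (e : (Σ y, κ y) ≃ ι) (O : ∀ y, Matrix (κ y) ι ℤ)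
    (gO : ∀ y, (rz (O y) * (rz (O y))ᵀ).PosDef) :
    (E (trN (F2 β)) (m2a0 e O * (m2a0 e O)ᴴ)).PosDef := by
  have h := m2_E₀ e O (1 : Matrix ι ι ℝ)
  rw [Matrix.map_one _ Complex.ofReal_zero Complex.ofReal_one, scal_one, Matrix.mul_one] at h
  rw [h, bdC_pd e]
  intro y
  rw [Matrix.mul_one]
  exact gO y

theorem m4_E₁ (e : (Σ y, κ y) ≃ ι) (T : ∀ y, Matrix (κ y) ι ℤ)
    (gT : ∀ y, (rz (T y) * (rz (T y))ᵀ).PosDef) :
    (E (trN (F2 β)) (m2a1 e T * (m2a1 e T)ᴴ)).PosDef := by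
  have h := m2_E₁ e T (1 : Matrix ι ι ℝ)
  rw [Matrix.map_one _ Complex.ofReal_zero Complex.ofReal_one, scal_one, Matrix.mul_one] at h
  rw [h, bdC_pd e]
  intro y
  rw [Matrix.mul_one]
  exact gT y

theorem m4_inverse (e : (Σ y, κ y) ≃ ι) (T O : ∀ y, Matrix (κ y) ι ℤ) {η : ℝ} (hη : 0 < η)
    {p q : ∀ y, Matrix (κ y) (κ y) ℝ}
    (hp : ∀ y, (p y).PosSemidef) (hq : ∀ y, (q y).PosSemidef) :
    Ring.inverse (Qm (m2a0 e O) (m2a1 e T) η (bdC e q) (bdC e p)) =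
      scal (N (F2 β)) (((η • (1 : Matrix ι ι ℝ) + Qr T O p q)⁻¹).map Complex.ofReal) := by
  have h := m4_scal_inv (𝔄 := N (F2 β)) (m4_H_pd T O hη hp hq)
  rw [m2_Qm]
  exact q05_ring_inverse h.1 h.2

theorem m4_Vf₀ (e : (Σ y, κ y) ≃ ι) (T O : ∀ y, Matrix (κ y) ι ℤ) {η : ℝ} (hη : 0 < η)
    {p q : ∀ y, Matrix (κ y) (κ y) ℝ}
    (hp : ∀ y, (p y).PosSemidef) (hq : ∀ y, (q y).PosSemidef) :
    Vf (trN (F2 β)) (m2a0 e O) (m2a0 e O) (m2a1 e T) η (bdC e q) (bdC e p) =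
      bdC e (fun y => rz (O y) * (η • (1 : Matrix ι ι ℝ) + Qr T O p q)⁻¹ * (rz (O y))ᵀ) := by
  unfold Vf
  rw [m4_inverse e T O hη hp hq, m2_E₀]

theorem m4_Vf₁ (e : (Σ y, κ y) ≃ ι) (T O : ∀ y, Matrix (κ y) ι ℤ) {η : ℝ} (hη : 0 < η)
    {p q : ∀ y, Matrix (κ y) (κ y) ℝ}
    (hp : ∀ y, (p y).PosSemidef) (hq : ∀ y, (q y).PosSemidef) :
    Vf (trN (F2 β)) (m2a1 e T) (m2a0 e O) (m2a1 e T) η (bdC e q) (bdC e p) =
      bdC e (fun y => rz (T y) * (η • (1 : Matrix ι ι ℝ) + Qr T O p q)⁻¹ * (rz (T y))ᵀ) := by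
  unfold Vf
  rw [m4_inverse e T O hη hp hq, m2_E₁]

/-- the outer step stays in the range of `bdC` -/
theorem m4_outer (e : (Σ y, κ y) ≃ ι) {V : ∀ y, Matrix (κ y) (κ y) ℝ}
    (hV : ∀ y, (V y).PosDef) {r : ∀ y, Matrix (κ y) (κ y) ℝ}
    (h : ((bdC e V)⁻¹ - bdC e r).PosDef) :
    1 - (1 + ((bdC e V)⁻¹ - bdC e r))⁻¹ ∈ Set.range (bdC e) := by
  rw [bdC_inv e hV, ← bdC_sub e] at h ⊢
  have h1 := (bdC_pd e).1 h
  have h2 : ∀ y, (1 + ((V y)⁻¹ - r y)).PosDef := fun y =>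
    Matrix.PosDef.one.add_posSemidef (h1 y).posSemidef
  refine ⟨fun y => 1 - (1 + ((V y)⁻¹ - r y))⁻¹, ?_⟩
  rw [bdC_sub e, ← bdC_inv e h2, bdC_add e, bdC_one e]

theorem exists_msg (e : (Σ y, κ y) ≃ ι) (T O : ∀ y, Matrix (κ y) ι ℤ)
    (gT : ∀ y, (rz (T y) * (rz (T y))ᵀ).PosDef) (gO : ∀ y, (rz (O y) * (rz (O y))ᵀ).PosDef)
    {η : ℝ} (hη : 0 < η) :
    ∃ M : Msg T O η,
      M.E0 ≤ LG (mapM m2phi ((penc T O).submatrix e.symm id)) η ∧
      q06_k (trN (F2 β)) ((lamM (mapM m2phi ((penc T O).submatrix e.symm id)))ᴴ *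
        lamM (mapM m2phi ((penc T O).submatrix e.symm id))) η = η * M.R.trace := by
  have h1 : (trN (F2 β)).f 1 = 1 := trN_one
  have hE₀ := m4_E₀ e O gO
  have hE₁ := m4_E₁ e T gT
  have hz : (0 : Matrix ι ι ℂ).PosSemidef := Matrix.PosSemidef.zero
  obtain ⟨Z, hZ₀, hZ₁⟩ := exists_Sol_inv (trN (F2 β)) (m2a0 e O) (m2a1 e T) h1 hη hE₀ hE₁
    (Set.range (bdC e)) (bdC_closed e) ⟨fun _ => 1, bdC_one e⟩ (by
      rintro P Q hP hQ ⟨q, rfl⟩ ⟨p, rfl⟩
      have hq := (bdC_psd e).1 hP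
      have hp := (bdC_psd e).1 hQ
      have hH := m4_H_pd T O hη hp hq
      have hV₁ : ∀ y, (rz (T y) * (η • (1 : Matrix ι ι ℝ) + Qr T O p q)⁻¹ *
          (rz (T y))ᵀ).PosDef := fun y => m4_conj_posDef hH.inv (gT y)
      have hV₀ : ∀ y, (rz (O y) * (η • (1 : Matrix ι ι ℝ) + Qr T O p q)⁻¹ *
          (rz (O y))ᵀ).PosDef := fun y => m4_conj_posDef hH.inv (gO y)
      constructor
      · have h2 := Vf_mono₁ (τ := trN (F2 β)) (a₀ := m2a0 e O) (a₁ := m2a1 e T) (η := η) h1 hη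
          hE₁ hz hz (p' := bdC e q) (q' := bdC e p) (by rw [sub_zero]; exact hP)
          (by rw [sub_zero]; exact hQ)
        have h3 := (Vf_posDef (a₀ := m2a0 e O) (a₁ := m2a1 e T) hE₁ hη hz hz).inv
        rw [sub_zero] at h2
        have h4 := h3.add_posSemidef h2
        rw [add_sub_cancel] at h4
        rw [m4_Vf₁ e T O hη hp hq] at h4 ⊢
        exact m4_outer e hV₁ h4
      · have h2 := Vf_mono₀ (τ := trN (F2 β)) (a₀ := m2a0 e O) (a₁ := m2a1 e T) (η := η) h1 hη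
          hE₀ hz hz (p' := bdC e q) (q' := bdC e p) (by rw [sub_zero]; exact hP)
          (by rw [sub_zero]; exact hQ)
        have h3 := (Vf_posDef (a₀ := m2a0 e O) (a₁ := m2a1 e T) hE₀ hη hz hz).inv
        rw [sub_zero] at h2
        have h4 := h3.add_posSemidef h2
        rw [add_sub_cancel] at h4
        rw [m4_Vf₀ e T O hη hp hq] at h4 ⊢
        exact m4_outer e hV₀ h4)
  obtain ⟨q, hq⟩ := hZ₀
  obtain ⟨p, hp⟩ := hZ₁
  have hqd : ∀ y, (q y).PosDef := by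
    rw [← bdC_pd e, hq]
    exact Z.q05_l₀
  have hpd : ∀ y, (p y).PosDef := by
    rw [← bdC_pd e, hp]
    exact Z.q05_l₁
  have hqs : ∀ y, (q y).PosSemidef := fun y => (hqd y).posSemidef
  have hps : ∀ y, (p y).PosSemidef := fun y => (hpd y).posSemidef
  have hH := m4_H_pd T O hη hps hqs
  have hHu : IsUnit (η • (1 : Matrix ι ι ℝ) + Qr T O p q).det :=
    (Matrix.isUnit_iff_isUnit_det _).1 hH.isUnit
  have hQm : Qm (m2a0 e O) (m2a1 e T) η Z.l₀ Z.l₁ =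
      scal (N (F2 β)) ((η • (1 : Matrix ι ι ℝ) + Qr T O p q).map Complex.ofReal) := by
    rw [← hq, ← hp, m2_Qm]
  have hinv := m4_scal_inv (𝔄 := N (F2 β)) hH
  have hZR : Z.R = scal (N (F2 β))
      (((η • (1 : Matrix ι ι ℝ) + Qr T O p q)⁻¹).map Complex.ofReal) := by
    have h2 := Z.RQ
    rw [hQm] at h2
    calc Z.R = Z.R * (scal (N (F2 β)) ((η • (1 : Matrix ι ι ℝ) + Qr T O p q).map Complex.ofReal) *
          scal (N (F2 β)) (((η • (1 : Matrix ι ι ℝ) + Qr T O p q)⁻¹).map Complex.ofReal)) := by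
          rw [hinv.1, Matrix.mul_one]
      _ = _ := by rw [← Matrix.mul_assoc, h2, Matrix.one_mul]
  have hV₀ : Z.V₀ = bdC e (fun y => rz (O y) *
      (η • (1 : Matrix ι ι ℝ) + Qr T O p q)⁻¹ * (rz (O y))ᵀ) := by
    unfold Sol.V₀
    rw [hZR, m2_E₀]
  have hV₁ : Z.V₁ = bdC e (fun y => rz (T y) *
      (η • (1 : Matrix ι ι ℝ) + Qr T O p q)⁻¹ * (rz (T y))ᵀ) := by
    unfold Sol.V₁
    rw [hZR, m2_E₁]
  have hsum : Z.l₀ + Z.l₁ = bdC e (fun y => p y + q y) := by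
    rw [← hq, ← hp, bdC_add e, add_comm]
  have hsumd : ∀ y, (p y + q y).PosDef := fun y => (hpd y).add (hqd y)
  have hsuminv : (Z.l₀ + Z.l₁)⁻¹ = bdC e (fun y => (p y + q y)⁻¹) := by
    rw [hsum, bdC_inv e hsumd]
  let M : Msg T O η :=
    { p := p
      q := q
      R := (η • (1 : Matrix ι ι ℝ) + Qr T O p q)⁻¹
      p_pos := hpd
      q_pos := hqd
      p_le := by
        rw [← bdC_psd e, bdC_sub e, bdC_one e, hp]
        exact (q05_one_sub_posDef Z.δ_pos Z.hi₁).posSemidef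
      q_le := by
        rw [← bdC_psd e, bdC_sub e, bdC_one e, hq]
        exact (q05_one_sub_posDef Z.δ_pos Z.hi₀).posSemidef
      R_pos := hH.inv
      RQ := Matrix.nonsing_inv_mul _ hHu
      hT := by
        rw [← bdC_psd e, bdC_sub e, ← hsuminv, ← hV₁]
        exact Z.q05_V₁
      hO := by
        rw [← bdC_psd e, bdC_sub e, ← hsuminv, ← hV₀]
        exact Z.q05_V₀ }
  obtain ⟨U, hU, hA₀, hA₁⟩ := m2_UF e T O
  have hgram := m2_gram e T O
  refine ⟨M, ?_, ?_⟩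
  · unfold LG
    rw [hgram, ← hU, Z.LM_formula h1 hη U.u1 U.u2 (Z.D_eq_zero U h1 hη hA₀ hA₁), hQm,
      LM_scal _ (map_ofReal_pd hH), trN_mass, one_mul]
    have hdet : ((η • (1 : Matrix ι ι ℝ) + Qr T O p q).map Complex.ofReal).det.re =
        (η • (1 : Matrix ι ι ℝ) + Qr T O p q).det := by
      have h2 : ((η • (1 : Matrix ι ι ℝ) + Qr T O p q).map Complex.ofReal).det =
          (((η • (1 : Matrix ι ι ℝ) + Qr T O p q).det : ℝ) : ℂ) :=
        (RingHom.map_det Complex.ofRealHom _).symm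
      rw [h2, Complex.ofReal_re]
    rw [hdet]
    have hs : ‖Z.s.det‖ ≤ (Z.l₀ + Z.l₁).det.re := by
      refine norm_det_s_le Z.q05_l₀ Z.q05_l₁ ?_ ?_
      · exact (q05_one_sub_posDef Z.δ_pos Z.hi₀).posSemidef
      · exact (q05_one_sub_posDef Z.δ_pos Z.hi₁).posSemidef
    have hs0 : 0 < ‖Z.s.det‖ := by
      rw [norm_pos_iff]
      exact ((Matrix.isUnit_iff_isUnit_det _).1 Z.isUnit_s).ne_zero
    have hl := Real.log_le_log hs0 hs
    rw [hsum, bdC_det e, Complex.ofReal_re, Real.log_prod] at hl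
    · have hE0 : M.E0 = Real.log (η • (1 : Matrix ι ι ℝ) + Qr T O p q).det -
          ∑ y, Real.log (p y + q y).det := rfl
      rw [hE0]
      linarith
    · intro y _
      exact (hsumd y).det_pos.ne'
  · have htr := Z.tr_inverse U h1 hη hA₀ hA₁
    unfold q06_k
    rw [hgram, ← hU, htr, hZR, mat_f_eq_trace, E_scal _ h1]
    have h2 : (((η • (1 : Matrix ι ι ℝ) + Qr T O p q)⁻¹).map Complex.ofReal).trace =
        ((((η • (1 : Matrix ι ι ℝ) + Qr T O p q)⁻¹).trace : ℝ) : ℂ) := by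
      simp [Matrix.trace]
    rw [h2, Complex.ofReal_re]

end LT
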