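import Pool.Agent.H29.LT.C02
import Pool.Agent.H29.LG.M04
import Pool.Agent.H29.LG.G15

/-!
# LG-R03: the lower bound for the pencil

`le_of_dyadic`: suppose `ℓ ε₀ < δ/2`; may take `ε₀ ≤ 1`.  `ℓ η < δ/2` for all `η ≤ ε₀`; for
`η_j = ε₀ 2^{-j}`: `C k(η_j) (1 + log (1/ε₀) + j log 2) > δ/2`, so `C > 0` and
`k(η_j) ≥ δ / (2 C (A + j))`, `A = 1 + log (1/ε₀)`.  `ℓ(η_J) ≤ ℓ(η_0) - (1/2) ∑_{j<J} k(η_j) → -∞`
(harmonic series, `Real.tendsto_sum_range_one_div_nat_succ_atTop` or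
`tendsto_sum_range_one_div_nat_succ_atTop`), contradicting `M₀ ≤ ℓ`.

`pencil_LB`: `ℓ η = LG (mapM m2phi x) η = LG x η` (`LG_mapM`, `m2phi_inj`), `k η = q06_k ..`;
`q06_step` (with `PM ((lamM y)ᴴ * lamM y)`), `LG_mono`, `theta_bound`, `exists_msg`.
-/

set_option linter.unusedSectionVars false

namespace LT

open scoped Matrix ComplexOrder

/-- the logarithm along a dyadic sequence -/
private theorem r03_log {ε₀ : ℝ} (h0 : 0 < ε₀) (h1 : ε₀ ≤ 1) (j : ℕ) :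
    0 < 1 + Real.log (1 / (ε₀ / 2 ^ j)) ∧
      1 + Real.log (1 / (ε₀ / 2 ^ j)) ≤ (1 + Real.log (1 / ε₀)) * ((j : ℝ) + 1) := by
  have h2 : (1 : ℝ) / (ε₀ / 2 ^ j) = (1 / ε₀) * 2 ^ j := by
    field_simp
  have h3 : Real.log (1 / (ε₀ / 2 ^ j)) = Real.log (1 / ε₀) + j * Real.log 2 := by
    rw [h2, Real.log_mul (by positivity) (by positivity), Real.log_pow]
  have h4 : 0 ≤ Real.log (1 / ε₀) := Real.log_nonneg (by rw [le_div_iff₀ h0]; linarith)
  have h5 : 0 < Real.log 2 := Real.log_pos (by norm_num)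
  have h6 : Real.log 2 ≤ 1 := by
    have := Real.log_two_lt_d9
    linarith
  have hj : (0 : ℝ) ≤ j := Nat.cast_nonneg j
  rw [h3]
  constructor
  · have := mul_nonneg hj h5.le
    linarith
  · have h7 : (j : ℝ) * Real.log 2 ≤ j * 1 := mul_le_mul_of_nonneg_left h6 hj
    have h8 : 0 ≤ Real.log (1 / ε₀) * j := mul_nonneg h4 hj
    linarith

theorem le_of_dyadic {l k : ℝ → ℝ} {M₀ C δ : ℝ} (hδ : 0 < δ) (hC : 0 ≤ C)
    (hmono : ∀ ε ε', 0 < ε → ε ≤ ε' → l ε ≤ l ε') (hM : ∀ η, 0 < η → M₀ ≤ l η)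
    (hstep : ∀ η, 0 < η → l (η / 2) ≤ l η - k η / 2)
    (hb : ∀ η, 0 < η → η ≤ 1 → δ - C * k η * (1 + Real.log (1 / η)) ≤ l η)
    {ε : ℝ} (hε : 0 < ε) : δ / 2 ≤ l ε := by
  by_contra hcon
  have hlt : l ε < δ / 2 := not_le.1 hcon
  obtain ⟨ε₀, he⟩ : ∃ ε₀, ε₀ = min ε 1 := ⟨_, rfl⟩
  have h0 : 0 < ε₀ := by
    rw [he]
    exact lt_min hε one_pos
  have h1 : ε₀ ≤ 1 := by
    rw [he]
    exact min_le_right _ _
  have h2 : ε₀ ≤ ε := by
    rw [he]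
    exact min_le_left _ _
  obtain ⟨A, hA⟩ : ∃ A, A = 1 + Real.log (1 / ε₀) := ⟨_, rfl⟩
  have hA1 : 1 ≤ A := by
    have : 0 ≤ Real.log (1 / ε₀) := Real.log_nonneg (by rw [le_div_iff₀ h0]; linarith)
    rw [hA]
    linarith
  have hη0 : ∀ j : ℕ, 0 < ε₀ / 2 ^ j := fun j => by positivity
  have hηle : ∀ j : ℕ, ε₀ / 2 ^ j ≤ ε₀ := fun j =>
    div_le_self h0.le (one_le_pow₀ (by norm_num))
  have hl : ∀ j : ℕ, l (ε₀ / 2 ^ j) < δ / 2 := fun j =>
    lt_of_le_of_lt (hmono _ _ (hη0 j) ((hηle j).trans h2)) hlt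
  -- the size of `k`
  have hk1 : ∀ j : ℕ, δ / 2 < C * k (ε₀ / 2 ^ j) * (1 + Real.log (1 / (ε₀ / 2 ^ j))) := by
    intro j
    have h3 := hb _ (hη0 j) ((hηle j).trans h1)
    have h4 := hl j
    linarith
  have hk2 : ∀ j : ℕ, 0 < C * k (ε₀ / 2 ^ j) := by
    intro j
    have h3 := hk1 j
    have h4 := (r03_log h0 h1 j).1
    by_contra h5
    have h6 := mul_nonpos_of_nonpos_of_nonneg (not_lt.1 h5) h4.le
    linarith
  have hC0 : 0 < C := by
    rcases hC.lt_or_eq with h | h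
    · exact h
    · have h3 := hk2 0
      rw [← h, zero_mul] at h3
      exact absurd h3 (lt_irrefl 0)
  have hk3 : ∀ j : ℕ, δ / (2 * C * A) * (1 / ((j : ℝ) + 1)) ≤ k (ε₀ / 2 ^ j) := by
    intro j
    have h3 := hk1 j
    have h4 := (r03_log h0 h1 j).2
    rw [← hA] at h4
    have h5 := mul_le_mul_of_nonneg_left h4 (hk2 j).le
    have hj : (0 : ℝ) < (j : ℝ) + 1 := by positivity
    rw [div_mul_div_comm, mul_one, div_le_iff₀ (by positivity)]
    nlinarith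
  -- the sum
  have hsum : ∀ J : ℕ, l (ε₀ / 2 ^ J) ≤
      l ε₀ - δ / (4 * C * A) * ∑ i ∈ Finset.range J, 1 / ((i : ℝ) + 1) := by
    intro J
    induction J with
    | zero => simp
    | succ J ih =>
      have h3 := hstep _ (hη0 J)
      have h4 := hk3 J
      have e : ε₀ / 2 ^ (J + 1) = ε₀ / 2 ^ J / 2 := by
        rw [pow_succ]
        field_simp
      have e2 : δ / (4 * C * A) * (1 / ((J : ℝ) + 1)) =
          δ / (2 * C * A) * (1 / ((J : ℝ) + 1)) / 2 := by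
        have hj : (0 : ℝ) < (J : ℝ) + 1 := by positivity
        field_simp
        ring
      rw [e, Finset.sum_range_succ, mul_add, e2]
      linarith
  have hc : 0 < δ / (4 * C * A) := by positivity
  have ht := Real.tendsto_sum_range_one_div_nat_succ_atTop
  obtain ⟨J, hJ⟩ := ((Filter.tendsto_atTop.1 ht)
    ((l ε₀ - M₀ + 1) / (δ / (4 * C * A)))).exists
  have h3 := hsum J
  have h4 := hM _ (hη0 J)
  rw [div_le_iff₀ hc] at hJ
  linarith

variable {β : Type*} [Fintype β] [DecidableEq β]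
variable {κ : β → Type*} [∀ y, Fintype (κ y)] [∀ y, DecidableEq (κ y)]
variable {ι : Type*} [Fintype ι] [DecidableEq ι]

theorem pencil_LB [Nonempty ι] (e : (Σ y, κ y) ≃ ι) (T O : ∀ y, Matrix (κ y) ι ℤ)
    (gT : ∀ y, (rz (T y) * (rz (T y))ᵀ).PosDef) (gO : ∀ y, (rz (O y) * (rz (O y))ᵀ).PosDef)
    (hc : Comb T O) {M₀ : ℝ} (hM : ∀ η : ℝ, 0 < η → ∀ M : Msg T O η, M₀ ≤ M.E0) :
    ∃ c : ℝ, 0 < c ∧ LB ((penc T O).submatrix e.symm id) c := by
  have hcard : ∑ y, Fintype.card (κ y) = Fintype.card ι := by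
    rw [← Fintype.card_sigma]
    exact Fintype.card_congr e
  obtain ⟨C, hC, hth⟩ := theta_bound T O hcard gT gO hc
  obtain ⟨x, hx⟩ : ∃ x, x = (penc T O).submatrix e.symm id := ⟨_, rfl⟩
  have hP : PM ((lamM (mapM m2phi x))ᴴ * lamM (mapM m2phi x)) := PM_conjTranspose_mul_self _
  refine ⟨(1 / 2 : ℝ) ^ (4 * Fintype.card ι + 4) / 2, by positivity, ?_⟩
  rw [← hx]
  intro ε hε
  rw [← LG_mapM m2phi m2phi_inj x hε]
  refine le_of_dyadic (l := fun η => LG (mapM m2phi x) η)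
    (k := fun η => q06_k (trN (F2 β)) ((lamM (mapM m2phi x))ᴴ * lamM (mapM m2phi x)) η)
    (M₀ := M₀) (by positivity) hC (fun ε ε' h h' => LG_mono _ h h') ?_ ?_ ?_ hε
  · intro η hη
    obtain ⟨M, h1, -⟩ := exists_msg e T O gT gO hη
    rw [← hx] at h1
    exact (hM η hη M).trans h1
  · intro η hη
    exact q06_step hP hη
  · intro η hη hη1
    obtain ⟨M, h1, h2⟩ := exists_msg e T O gT gO hη
    rw [← hx] at h1 h2
    have h3 := hth η hη hη1 M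
    rw [← h2] at h3
    exact h3.trans h1

end LT
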