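import Pool.Agent.H29.LG.F01
import Pool.Agent.H29.LG.J06
import Pool.Agent.H29.LG.C02
import Pool.Agent.H29.LG.C03
import Pool.Agent.H29.LG.R01
import Pool.Agent.H29.LG.R02
import Pool.Agent.H29.LG.R03

/-!
# LG-F02: the lower bound for the Jacobian of a malnormal family

Assembly of everything.
-/

set_option linter.unusedSectionVars false

namespace LT

open scoped Matrix ComplexOrder

variable {β : Type*} [Fintype β] [DecidableEq β]

theorem f02_col (c : β → FreeGroup β) {d : ℕ} (hd : 0 < d) (ρ : FR β →+* Matrix (Fin d) (Fin d) ℂ)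
    (hJ : IsUnit (Matrix.map (fun k b => fox b (c k) : Matrix β β (FR β)) ρ)) (y : β) :
    ∃ k, fox y (c k) ≠ 0 := by
  by_contra hcon
  push Not at hcon
  obtain ⟨u, hu⟩ := hJ
  have h1 : (u⁻¹).1 * u.1 = 1 := u.inv_mul
  rw [hu] at h1
  have h2 := congrFun (congrFun h1 y) y
  rw [Matrix.mul_apply, Matrix.one_apply_eq] at h2
  have h3 : ∀ k ∈ Finset.univ, (u⁻¹).1 y k *
      (Matrix.map (fun k b => fox b (c k) : Matrix β β (FR β)) ρ) k y = 0 := by
    intro k _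
    rw [Matrix.map_apply]
    change _ * ρ (fox y (c k)) = 0
    rw [hcon k, map_zero, mul_zero]
  rw [Finset.sum_eq_zero h3] at h2
  have h4 := congrFun (congrFun h2 ⟨0, hd⟩) ⟨0, hd⟩
  rw [Matrix.zero_apply, Matrix.one_apply_eq] at h4
  exact zero_ne_one h4

theorem exists_LB_malnormal (c : β → FreeGroup β) (hc : Function.Injective (FreeGroup.lift c))
    (hne : (FreeGroup.lift c).range ≠ ⊤)
    (hmal : ∀ γ : FreeGroup β, γ ∉ (FreeGroup.lift c).range → ∀ k ∈ (FreeGroup.lift c).range,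
      γ * k * γ⁻¹ ∈ (FreeGroup.lift c).range → k = 1)
    {d : ℕ} (hd : 0 < d) (π : FreeGroup β →* Matrix (Fin d) (Fin d) ℂ)
    (hπ : ∀ g, (π g)ᴴ * π g = 1)
    (hJ : IsUnit (Matrix.map (fun k b => fox b (c k) : Matrix β β (FR β))
      (MonoidAlgebra.lift ℂ (Matrix (Fin d) (Fin d) ℂ) (FreeGroup β) π))) :
    ∃ r : ℝ, 0 < r ∧ LB (fun k b => fox b (c k) : Matrix β β (FR β)) r := by
  classical
  obtain ⟨D⟩ := exists_GD c hc (f02_col c hd
    (MonoidAlgebra.lift ℂ (Matrix (Fin d) (Fin d) ℂ) (FreeGroup β) π).toRingHom hJ)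
  have hn : Nonempty D.ι := D.nonempty_ι hne
  have e : (Σ y, D.κ y) ≃ D.ι := Fintype.equivOfCardEq D.card_eq
  have hcard : ∑ y, Fintype.card (D.κ y) = Fintype.card D.ι := by
    rw [← D.card_eq, Fintype.card_sigma]
  have hf := D.isUnit_pencil e
    (MonoidAlgebra.lift ℂ (Matrix (Fin d) (Fin d) ℂ) (FreeGroup β) π).toRingHom hJ
  obtain ⟨M₀, hM₀⟩ := rep_bound e D.T D.O hd π hπ hf
  have hE : ∀ η : ℝ, 0 < η → ∀ M : Msg D.T D.O η, M₀ - Fintype.card D.ι * Real.log 2 ≤ M.E0 :=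
    fun η hη M => E0_ge D.T D.O hcard (fun Z hZ => (hM₀ Z hZ).1) (fun Z hZ => (hM₀ Z hZ).2) hη M
  have hcomb : Comb D.T D.O := D.comb_of_free fun m hm h0 g hg =>
    D.free_of_malnormal hmal m hm h0 g hg
  obtain ⟨r, hr, hLB⟩ := pencil_LB e D.T D.O D.gram_T D.gram_O hcomb hE
  exact ⟨r, hr, D.LB_of_pencil e hLB⟩

end LT
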