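import Pool.Agent.H29.LG.K05

/-!
# LG-K07: determinants of `Aᴴ A + ε` for integer matrices

`A` with integer entries.  `P(X) = det (X + Aᴴ A)` is a monic polynomial with integer coefficients
(the characteristic polynomial of `-Aᴴ A`), and its coefficients are nonnegative
(`P(X) = ∏ (X + λ_i)`, `λ_i ≥ 0` the eigenvalues).  Let `r` be its order of vanishing at `0`, so
`P(ε) = ∑_{k ≥ r} a_k ε^k` with integers `a_k ≥ 0`, `a_r ≥ 1`.  Hence `P(ε) ≥ ε^r` for `ε > 0` and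
`2^r P(η/2) ≤ P(η)`.  `LM (k05_tr q) (Aᴴ A + ε) = q⁻¹ log P(ε)` (`LM_scal`, `k05_scal`, `k05_mass`).
`d = r / q`.
-/

set_option linter.unusedSectionVars false

namespace LT

open scoped Matrix ComplexOrder

variable {m : Type*} [Fintype m] [DecidableEq m]

theorem k07_nonneg {ι : Type*} (s : Finset ι) (l : ι → ℝ) (h : ∀ i, 0 ≤ l i) :
    ∀ k, 0 ≤ (∏ i ∈ s, (Polynomial.X + Polynomial.C (l i))).coeff k := by
  classical
  induction s using Finset.induction_on with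
  | empty => intro k; rw [Finset.prod_empty, Polynomial.coeff_one]; split_ifs <;> norm_num
  | insert a s ha ih =>
    intro k
    rw [Finset.prod_insert ha, Polynomial.coeff_mul]
    refine Finset.sum_nonneg fun x _ => mul_nonneg ?_ (ih _)
    rw [Polynomial.coeff_add, Polynomial.coeff_X, Polynomial.coeff_C]
    refine add_nonneg ?_ ?_
    · split_ifs <;> norm_num
    · split_ifs
      · exact h a
      · exact le_rfl

theorem k07_det {G : Matrix m m ℂ} (hG : G.PosSemidef) (ε : ℝ) :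
    (G + (ε : ℂ) • (1 : Matrix m m ℂ)).det = ((∏ i, (ε + hG.1.eigenvalues i) : ℝ) : ℂ) := by
  have h1 : (-G).charpoly.eval (ε : ℂ) = (G + (ε : ℂ) • (1 : Matrix m m ℂ)).det := by
    rw [Matrix.eval_charpoly, sub_neg_eq_add, add_comm]
    congr 2
    rw [Matrix.scalar_apply, Matrix.smul_one_eq_diagonal]
  have h2 : G.charpoly.eval (-(ε : ℂ)) = (-(G + (ε : ℂ) • (1 : Matrix m m ℂ))).det := by
    rw [Matrix.eval_charpoly]
    congr 1
    rw [Matrix.scalar_apply, Matrix.smul_one_eq_diagonal]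
    ext i j
    simp [Matrix.diagonal_apply]
    split_ifs <;> ring
  have h3 : (G + (ε : ℂ) • (1 : Matrix m m ℂ)).det =
      (-1) ^ Fintype.card m * (-(G + (ε : ℂ) • (1 : Matrix m m ℂ))).det := by
    rw [Matrix.det_neg, ← mul_assoc, ← mul_pow]
    norm_num
  rw [h3, ← h2, hG.1.charpoly_eq, Polynomial.eval_prod, Fintype.card, ← Finset.prod_const,
    ← Finset.prod_mul_distrib, Complex.ofReal_prod]
  refine Finset.prod_congr rfl fun i _ => ?_
  simp
  ring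

theorem k07_poly (A : Matrix m m ℂ) (hA : ∀ i j, ∃ n : ℤ, A i j = (n : ℂ)) :
    ∃ (r : ℕ) (a : ℕ → ℤ) (N : ℕ), (∀ k, 0 ≤ a k) ∧ 1 ≤ a 0 ∧
      ∀ ε : ℝ, (Aᴴ * A + (ε : ℂ) • (1 : Matrix m m ℂ)).det =
        ((∑ k ∈ Finset.range (N + 1), (a k : ℝ) * ε ^ (k + r) : ℝ) : ℂ) := by
  choose B hB using hA
  have hG : (Aᴴ * A).PosSemidef := Matrix.posSemidef_conjTranspose_mul_self A
  obtain ⟨C, hC⟩ : ∃ C : Matrix m m ℤ, C = (Matrix.of B)ᵀ * Matrix.of B := ⟨_, rfl⟩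
  have hAC : Aᴴ * A = C.map (Int.castRingHom ℂ) := by
    rw [hC]
    ext i j
    simp [Matrix.mul_apply, hB]
  obtain ⟨P, hP⟩ : ∃ P : Polynomial ℤ, P = (-C).charpoly := ⟨_, rfl⟩
  have hPe : ∀ ε : ℝ, (P.map (Int.castRingHom ℂ)).eval (ε : ℂ) =
      (Aᴴ * A + (ε : ℂ) • (1 : Matrix m m ℂ)).det := by
    intro ε
    rw [hP, ← Matrix.charpoly_map, Matrix.eval_charpoly, hAC, add_comm]
    congr 1
    rw [Matrix.scalar_apply, Matrix.smul_one_eq_diagonal]
    ext i j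
    simp
  obtain ⟨Q, hQ⟩ : ∃ Q : Polynomial ℝ, Q = ∏ i, (Polynomial.X + Polynomial.C (hG.1.eigenvalues i)) :=
    ⟨_, rfl⟩
  have hPQ : P.map (Int.castRingHom ℝ) = Q := by
    refine Polynomial.funext fun ε => ?_
    have h1 := hPe ε
    rw [k07_det hG, Polynomial.eval_map, ← Polynomial.eval_map] at h1
    have h2 : (P.map (Int.castRingHom ℂ)) = (P.map (Int.castRingHom ℝ)).map Complex.ofRealHom := by
      rw [Polynomial.map_map]
      congr 1
    rw [h2, show (ε : ℂ) = Complex.ofRealHom ε from rfl, Polynomial.eval_map, Polynomial.eval₂_hom] at h1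
    have h3 := Complex.ofReal_injective h1
    rw [h3, hQ, Polynomial.eval_prod]
    refine Finset.prod_congr rfl fun i _ => ?_
    simp
  have hnn : ∀ k, 0 ≤ P.coeff k := by
    intro k
    have h1 := k07_nonneg Finset.univ hG.1.eigenvalues hG.eigenvalues_nonneg k
    rw [← hQ, ← hPQ, Polynomial.coeff_map] at h1
    have h2 : (0 : ℝ) ≤ (P.coeff k : ℝ) := h1
    exact_mod_cast h2
  have hmon : P.Monic := hP ▸ Matrix.charpoly_monic _
  have hne : P ≠ 0 := hmon.ne_zero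
  refine ⟨P.natTrailingDegree, fun k => P.coeff (k + P.natTrailingDegree),
    P.natDegree - P.natTrailingDegree, fun k => hnn _, ?_, fun ε => ?_⟩
  · have h1 : P.coeff (0 + P.natTrailingDegree) ≠ 0 := by
      rw [zero_add]
      exact Polynomial.trailingCoeff_nonzero_iff_nonzero.2 hne
    have h2 := hnn (0 + P.natTrailingDegree)
    have h3 : P.coeff (0 + P.natTrailingDegree) ≠ 0 := h1
    show 1 ≤ P.coeff (0 + P.natTrailingDegree)
    omega
  · rw [← hPe ε, Polynomial.eval_map, Polynomial.eval₂_eq_sum_range]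
    have h4 := P.natTrailingDegree_le_natDegree
    have h5 : P.natDegree + 1 = P.natTrailingDegree + (P.natDegree - P.natTrailingDegree + 1) := by
      omega
    rw [h5, Finset.sum_range_add]
    have h6 : ∑ x ∈ Finset.range P.natTrailingDegree,
        (Int.castRingHom ℂ) (P.coeff x) * (ε : ℂ) ^ x = 0 := by
      refine Finset.sum_eq_zero fun x hx => ?_
      rw [Polynomial.coeff_eq_zero_of_lt_natTrailingDegree (Finset.mem_range.1 hx), map_zero,
        zero_mul]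
    rw [h6, zero_add, Complex.ofReal_sum]
    refine Finset.sum_congr rfl fun k _ => ?_
    rw [add_comm P.natTrailingDegree k]
    push_cast
    rfl

theorem k07_eI (ε : ℝ) : eI ℂ m ε = (ε : ℂ) • (1 : Matrix m m ℂ) := by
  unfold eI
  rw [Algebra.algebraMap_eq_smul_one]
  ext i j
  simp

theorem k07_LM (A : Matrix m m ℂ) (q : ℕ) {ε : ℝ} (hε : 0 < ε) :
    LM (k05_tr q) (Aᴴ * A + eI ℂ m ε) =
      (q : ℝ)⁻¹ * Real.log (Aᴴ * A + (ε : ℂ) • (1 : Matrix m m ℂ)).det.re := by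
  have hG : (Aᴴ * A).PosSemidef := Matrix.posSemidef_conjTranspose_mul_self A
  have hI : ((ε : ℂ) • (1 : Matrix m m ℂ)).PosDef := by
    refine Matrix.PosDef.smul Matrix.PosDef.one ?_
    exact_mod_cast hε
  have hZ : (Aᴴ * A + (ε : ℂ) • (1 : Matrix m m ℂ)).PosDef := hI.posSemidef_add hG
  have h1 := LM_scal (k05_tr q) (𝔄 := ℂ) hZ
  rw [k05_scal, k05_mass] at h1
  rw [k07_eI, h1]

theorem int_lower (A : Matrix m m ℂ) (hA : ∀ i j, ∃ n : ℤ, A i j = (n : ℂ)) (q : ℕ) :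
    ∃ d : ℝ, 0 ≤ d ∧
      (∀ ε : ℝ, 0 < ε → d * Real.log ε ≤ LM (k05_tr q) (Aᴴ * A + eI ℂ m ε)) ∧
      (∀ η : ℝ, 0 < η → d * Real.log 2 ≤
        LM (k05_tr q) (Aᴴ * A + eI ℂ m η) - LM (k05_tr q) (Aᴴ * A + eI ℂ m (η / 2))) := by
  obtain ⟨r, a, N, ha, ha0, hP⟩ := k07_poly A hA
  have hq : (0 : ℝ) ≤ (q : ℝ)⁻¹ := inv_nonneg.2 (Nat.cast_nonneg q)
  obtain ⟨P, hPd⟩ : ∃ P : ℝ → ℝ, P = fun ε => ∑ k ∈ Finset.range (N + 1), (a k : ℝ) * ε ^ (k + r) :=
    ⟨_, rfl⟩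
  have hLM : ∀ ε : ℝ, 0 < ε → LM (k05_tr q) (Aᴴ * A + eI ℂ m ε) = (q : ℝ)⁻¹ * Real.log (P ε) := by
    intro ε hε
    rw [k07_LM A q hε, hP ε, Complex.ofReal_re, hPd]
  have hlow : ∀ ε : ℝ, 0 < ε → ε ^ r ≤ P ε := by
    intro ε hε
    have h1 : (a 0 : ℝ) * ε ^ (0 + r) ≤ P ε := by
      rw [hPd]
      refine Finset.single_le_sum (f := fun k => (a k : ℝ) * ε ^ (k + r)) (fun k _ => ?_)
        (Finset.mem_range.2 (Nat.succ_pos N))
      have : (0 : ℝ) ≤ (a k : ℝ) := by exact_mod_cast ha k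
      positivity
    have h2 : (1 : ℝ) ≤ (a 0 : ℝ) := by exact_mod_cast ha0
    have h3 : (0 : ℝ) < ε ^ r := pow_pos hε r
    rw [zero_add] at h1
    nlinarith
  have hpos : ∀ ε : ℝ, 0 < ε → 0 < P ε := fun ε hε => lt_of_lt_of_le (pow_pos hε r) (hlow ε hε)
  refine ⟨(q : ℝ)⁻¹ * r, mul_nonneg hq (Nat.cast_nonneg r), fun ε hε => ?_, fun η hη => ?_⟩
  · rw [hLM ε hε, mul_assoc]
    refine mul_le_mul_of_nonneg_left ?_ hq
    rw [← Real.log_pow]
    exact Real.log_le_log (pow_pos hε r) (hlow ε hε)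
  · have hη2 : 0 < η / 2 := half_pos hη
    rw [hLM η hη, hLM (η / 2) hη2, ← mul_sub, mul_assoc]
    refine mul_le_mul_of_nonneg_left ?_ hq
    have h1 : 2 ^ r * P (η / 2) ≤ P η := by
      rw [hPd]
      dsimp only
      rw [Finset.mul_sum]
      refine Finset.sum_le_sum fun k _ => ?_
      have hk : (0 : ℝ) ≤ (a k : ℝ) := by exact_mod_cast ha k
      have e1 : η ^ (k + r) = 2 ^ k * (2 ^ r * (η / 2) ^ (k + r)) := by
        rw [div_pow, pow_add, pow_add]
        field_simp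
      have e2 : (1 : ℝ) ≤ 2 ^ k := one_le_pow₀ (by norm_num)
      have e3 : (0 : ℝ) ≤ 2 ^ r * (η / 2) ^ (k + r) := by positivity
      calc 2 ^ r * ((a k : ℝ) * (η / 2) ^ (k + r))
          = (a k : ℝ) * (1 * (2 ^ r * (η / 2) ^ (k + r))) := by ring
        _ ≤ (a k : ℝ) * (2 ^ k * (2 ^ r * (η / 2) ^ (k + r))) :=
            mul_le_mul_of_nonneg_left (mul_le_mul_of_nonneg_right e2 e3) hk
        _ = (a k : ℝ) * η ^ (k + r) := by rw [e1]
    have h2 : (0 : ℝ) < 2 ^ r := by positivity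
    have h3 := Real.log_le_log (mul_pos h2 (hpos _ hη2)) h1
    rw [Real.log_mul h2.ne' (hpos _ hη2).ne', Real.log_pow] at h3
    linarith

end LT
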