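import Pool.Agent.H29.LG.K06
import Pool.Agent.H29.LG.K07
import Pool.Agent.H29.LT.C06

/-!
# LG-K08: Lück's bound: integral matrices of determinant class have `log det ≥ 0`

Let `ℓ ε = LG x ε`.  Fix `0 < ε ≤ 1`, `0 < η`, `δ > 0`.  `exists_quot_approx` for `{ε, η, η/2}` and
`int_lower` (the entries of `regM (mapM φ x)` are integers, `IntM.mapM`, `intR_coeff`) give
`d log 2 ≤ ℓ η - ℓ (η/2) + 2 δ` and `ℓ ε ≥ d log ε - δ ≥ -|log ε| (ℓ η - ℓ (η/2) + 2 δ)/log 2 - δ`.
Let `δ → 0`: `ℓ ε ≥ -|log ε| (ℓ η - ℓ (η/2)) / log 2` for all `η > 0`.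
`ℓ (2^{-j})` is decreasing in `j` (`LG_mono`) and bounded below by `M₀`, so the differences tend
to `0` (along a sequence): `ℓ ε ≥ 0`.  For `ε ≥ 1` use `LG_mono`.

`LB_mul`: `c06_mul_ge` gives `LG x ε + LG y ε ≤ LG (x * y) (C √ε)`, `ε ≤ 1`; for given `ε'` take `ε` with
`C √ε ≤ ε'` and `LG_mono`.
-/

set_option linter.unusedSectionVars false

namespace LT

open scoped Matrix ComplexOrder

variable {β : Type*} [DecidableEq β] {ι : Type*} [Fintype ι] [DecidableEq ι]

theorem LB_zero_of_int {x : Matrix ι ι (MonoidAlgebra ℂ (FreeGroup β))} (hx : IntM x) {M₀ : ℝ}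
    (h : LB x M₀) : LB x 0 := by
  have hlog2 : 0 < Real.log 2 := Real.log_pos one_lt_two
  have key : ∀ e : ℝ, 0 < e → e ≤ 1 → 0 ≤ LG x e := by
    intro e h0 h1
    have hl : Real.log e ≤ 0 := Real.log_nonpos h0.le h1
    have c1 : ∀ η : ℝ, 0 < η →
        Real.log e * (LG x η - LG x (η / 2)) ≤ LG x e * Real.log 2 := by
      intro η hη
      refine le_of_forall_pos_le_add fun δ' hδ' => ?_
      have hK : 0 < Real.log 2 - 2 * Real.log e := by linarith
      have hE : ∀ t ∈ ({e, η, η / 2} : Finset ℝ), 0 < t := by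
        intro t ht
        rw [Finset.mem_insert, Finset.mem_insert, Finset.mem_singleton] at ht
        rcases ht with rfl | rfl | rfl
        · exact h0
        · exact hη
        · exact half_pos hη
      obtain ⟨Q, _, _, _, φ, hφ⟩ := exists_quot_approx x {e, η, η / 2} hE
        (div_pos hδ' hK)
      obtain ⟨d, _, hd1, hd2⟩ := int_lower (regM (mapM φ x))
        (fun i j => intR_coeff (hx.mapM φ i.1 j.1) _) (Fintype.card Q)
      have a1 := abs_le.1 (hφ e (by simp))
      have a2 := abs_le.1 (hφ η (by simp))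
      have a3 := abs_le.1 (hφ (η / 2) (by simp))
      have b1 := hd1 e h0
      have b2 := hd2 η hη
      have e3 : δ' / (Real.log 2 - 2 * Real.log e) * (Real.log 2 - 2 * Real.log e) = δ' :=
        div_mul_cancel₀ _ hK.ne'
      generalize δ' / (Real.log 2 - 2 * Real.log e) = δ at *
      have ha : d * Real.log e ≤ LG x e + δ := by linarith [a1.1]
      have hb : d * Real.log 2 ≤ LG x η - LG x (η / 2) + 2 * δ := by
        linarith [a2.1, a3.2]
      have e1 := mul_le_mul_of_nonpos_left hb hl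
      have e2 := mul_le_mul_of_nonneg_right ha hlog2.le
      linarith
    by_contra hneg
    push Not at hneg
    have hl' : Real.log e < 0 := by
      rcases hl.lt_or_eq with h2 | h2
      · exact h2
      · have h3 := c1 1 one_pos
        rw [h2, zero_mul] at h3
        exact absurd h3 (not_le.2 (mul_neg_of_neg_of_pos hneg hlog2))
    obtain ⟨κ, hκ⟩ : ∃ κ, κ = LG x e * Real.log 2 / Real.log e := ⟨_, rfl⟩
    have hκ0 : 0 < κ := by
      rw [hκ]
      exact div_pos_of_neg_of_neg (mul_neg_of_neg_of_pos hneg hlog2) hl'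
    have step : ∀ η : ℝ, 0 < η → LG x (η / 2) ≤ LG x η - κ := by
      intro η hη
      have h3 := c1 η hη
      have h4 : κ ≤ LG x η - LG x (η / 2) := by
        rw [hκ, div_le_iff_of_neg hl']
        linarith
      linarith
    have iter : ∀ n : ℕ, LG x ((1 / 2 : ℝ) ^ n) ≤ LG x 1 - n * κ := by
      intro n
      induction n with
      | zero => simp
      | succ n ih =>
        have h3 := step ((1 / 2 : ℝ) ^ n) (by positivity)
        have h4 : (1 / 2 : ℝ) ^ n / 2 = (1 / 2 : ℝ) ^ (n + 1) := by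
          rw [pow_succ]; ring
        rw [h4] at h3
        push_cast
        linarith
    obtain ⟨n, hn⟩ := exists_nat_gt ((LG x 1 - M₀) / κ)
    rw [div_lt_iff₀ hκ0] at hn
    have h5 := h ((1 / 2 : ℝ) ^ n) (by positivity)
    have h6 := iter n
    linarith
  intro ε hε
  exact (key (min ε 1) (lt_min hε one_pos) (min_le_right _ _)).trans
    (LG_mono x (lt_min hε one_pos) (min_le_left _ _))

/-- products -/
theorem LB_mul {G : Type*} [Group G] {x y : Matrix ι ι (MonoidAlgebra ℂ G)} {a b : ℝ}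
    (hx : LB x a) (hy : LB y b) : LB (x * y) (a + b) := by
  intro ε hε
  obtain ⟨C, hC, h⟩ := c06_mul_ge (τ := trN G) (lamM x) (lamM y)
  have h0 : 0 < min 1 ((ε / C) ^ 2) := lt_min one_pos (by positivity)
  have h1 := h _ h0 (min_le_left _ _)
  have h2 : C * Real.sqrt (min 1 ((ε / C) ^ 2)) ≤ ε := by
    have h5 : Real.sqrt (min 1 ((ε / C) ^ 2)) ≤ ε / C := by
      rw [Real.sqrt_le_left (by positivity)]
      exact min_le_right _ _
    calc C * Real.sqrt (min 1 ((ε / C) ^ 2)) ≤ C * (ε / C) :=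
          mul_le_mul_of_nonneg_left h5 hC.le
      _ = ε := by field_simp
  have h3 : LG x (min 1 ((ε / C) ^ 2)) + LG y (min 1 ((ε / C) ^ 2)) ≤
      LG (x * y) (C * Real.sqrt (min 1 ((ε / C) ^ 2))) := by
    unfold LG
    rw [lamM_mul]
    exact h1
  have h4 : 0 < C * Real.sqrt (min 1 ((ε / C) ^ 2)) := mul_pos hC (Real.sqrt_pos.2 h0)
  have h5 := LG_mono (x * y) h4 h2
  have h6 := hx _ h0
  have h7 := hy _ h0
  linarith

end LT
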