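import Pool.Agent.H29.LG.L01

/-!
# LG-L04: a basis of edges of maximal weight

`exists_basis`: among all `b : κ → I` take one with maximal `F b = (∏_j z (b j)) det(A_b)²`,
`A_b = A.submatrix b id`.  The maximum is positive: the rows `a_i` with `z_i > 0` span `κ → ℝ` (else
there is `x ≠ 0` orthogonal to them and `xᵀ Z x = 0`), choose a basis among them.  By Cramer's rule
`a_i = ∑_j c_ij a_{b j}` with `c_ij = det(A_{b[j := i]}) / det(A_b)` (`Matrix.cramer`, `updateRow`),
and maximality gives `z_i c_ij² ≤ z_{b j}`.  By Cauchy-Schwarz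
`xᵀ Z x = ∑_i z_i (∑_j c_ij a_{bj}·x)² ≤ ∑_i card κ ∑_j z_i c_ij² (a_{bj}·x)²`
`≤ (card I * card κ) xᵀ (A_bᵀ diag(z_b) A_b) x`, and `det` is monotone on psd matrices.

`dir_eq`: `qf_dir`.  `dir_basis`: `exists_basis` for `I = κ × Option κ`; `det(A_b)²` is bounded by the
maximum over the finitely many `b`; the last claim: `b` is injective, `Z` is the sum over all
edges, all terms psd.
-/

set_option linter.unusedSectionVars false

namespace LT

open scoped Matrix

variable {κ : Type*} [Fintype κ] [DecidableEq κ]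

theorem l04_det_expand {I : Type*} [Fintype I] [DecidableEq I] (A : Matrix I κ ℝ) (z : I → ℝ) :
    (Aᵀ * Matrix.diagonal z * A).det =
      ∑ b : κ → I, (∏ j, z (b j)) * (∏ j, A (b j) j) * (A.submatrix b id).det := by
  have hM : ∀ a c, (Aᵀ * Matrix.diagonal z * A) a c = ∑ l, A l a * z l * A l c := by
    intro a c
    rw [Matrix.mul_apply]
    refine Finset.sum_congr rfl fun l _ => ?_
    rw [Matrix.mul_diagonal, Matrix.transpose_apply]
  rw [Matrix.det_apply']
  have h1 : ∀ σ : Equiv.Perm κ, (∏ i, (Aᵀ * Matrix.diagonal z * A) (σ i) i) =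
      ∑ b : κ → I, ∏ i, (A (b i) (σ i) * z (b i) * A (b i) i) := by
    intro σ
    simp only [hM]
    rw [Finset.prod_univ_sum]
    rw [Fintype.piFinset_univ]
  simp only [h1, Finset.mul_sum]
  rw [Finset.sum_comm]
  refine Finset.sum_congr rfl fun b _ => ?_
  rw [← Matrix.det_transpose (A.submatrix b id), Matrix.det_apply', Finset.mul_sum]
  refine Finset.sum_congr rfl fun σ _ => ?_
  simp only [Matrix.transpose_apply, Matrix.submatrix_apply, id_eq]
  rw [Finset.prod_mul_distrib, Finset.prod_mul_distrib]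
  ring

theorem l04_det_sq {I : Type*} [Fintype I] [DecidableEq I] (A : Matrix I κ ℝ) (z : I → ℝ) :
    ((Fintype.card κ).factorial : ℝ) * (Aᵀ * Matrix.diagonal z * A).det =
      ∑ b : κ → I, (∏ j, z (b j)) * (A.submatrix b id).det ^ 2 := by
  rw [l04_det_expand]
  have h1 : ∀ σ : Equiv.Perm κ,
      ∑ b : κ → I, (∏ j, z (b j)) * (∏ j, A (b j) j) * (A.submatrix b id).det =
      ∑ b : κ → I, (∏ j, z (b j)) * (∏ j, A (b (σ j)) j) *
        ((Equiv.Perm.sign σ : ℤ) * (A.submatrix b id).det) := by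
    intro σ
    rw [← Equiv.sum_comp (Equiv.arrowCongr σ.symm (Equiv.refl I))]
    refine Finset.sum_congr rfl fun b _ => ?_
    have h2 : (Equiv.arrowCongr σ.symm (Equiv.refl I)) b = b ∘ σ := by
      funext i
      simp [Equiv.arrowCongr]
    rw [h2]
    have h3 : ∏ j, z ((b ∘ σ) j) = ∏ j, z (b j) := Equiv.prod_comp σ (fun j => z (b j))
    have h4 : (A.submatrix (b ∘ σ) id).det = (Equiv.Perm.sign σ : ℤ) * (A.submatrix b id).det := by
      have := Matrix.det_permute σ (A.submatrix b id)
      rw [← this]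
      rfl
    rw [h3, h4]
    rfl
  have h2 : ((Fintype.card κ).factorial : ℝ) *
      ∑ b : κ → I, (∏ j, z (b j)) * (∏ j, A (b j) j) * (A.submatrix b id).det =
      ∑ _σ : Equiv.Perm κ,
        ∑ b : κ → I, (∏ j, z (b j)) * (∏ j, A (b j) j) * (A.submatrix b id).det := by
    rw [Finset.sum_const, Finset.card_univ, Fintype.card_perm, nsmul_eq_mul]
  rw [h2, Finset.sum_congr rfl fun σ _ => h1 σ, Finset.sum_comm]
  refine Finset.sum_congr rfl fun b _ => ?_
  have h5 : (A.submatrix b id).det = ∑ σ : Equiv.Perm κ, ((Equiv.Perm.sign σ : ℤ) : ℝ) *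
      ∏ j, A (b (σ j)) j := by
    rw [Matrix.det_apply']
    rfl
  have h6 : ∀ σ : Equiv.Perm κ, (∏ j, z (b j)) * (∏ j, A (b (σ j)) j) *
      ((Equiv.Perm.sign σ : ℤ) * (A.submatrix b id).det) =
      (∏ j, z (b j)) * (A.submatrix b id).det *
        (((Equiv.Perm.sign σ : ℤ) : ℝ) * ∏ j, A (b (σ j)) j) := by
    intro σ
    ring
  rw [Finset.sum_congr rfl fun σ _ => h6 σ, ← Finset.mul_sum, ← h5]
  ring

theorem exists_basis {I : Type*} [Fintype I] [DecidableEq I] (A : Matrix I κ ℝ) (z : I → ℝ)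
    (hz : ∀ i, 0 ≤ z i) (hZ : (Aᵀ * Matrix.diagonal z * A).PosDef) :
    ∃ b : κ → I, (A.submatrix b id).det ≠ 0 ∧ (∀ j, 0 < z (b j)) ∧
      (Aᵀ * Matrix.diagonal z * A).det ≤
        (Fintype.card I * Fintype.card κ : ℝ) ^ Fintype.card κ *
          ((∏ j, z (b j)) * (A.submatrix b id).det ^ 2) := by
  classical
  have hdet : 0 < (Aᵀ * Matrix.diagonal z * A).det := hZ.det_pos
  have hF := l04_det_sq A z
  have hFn : ∀ b : κ → I, 0 ≤ (∏ j, z (b j)) * (A.submatrix b id).det ^ 2 := fun b =>
    mul_nonneg (Finset.prod_nonneg fun j _ => hz _) (sq_nonneg _)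
  have hfac : (1 : ℝ) ≤ ((Fintype.card κ).factorial : ℝ) := by
    exact_mod_cast Nat.succ_le_of_lt (Nat.factorial_pos _)
  have hpos : 0 < ∑ b : κ → I, (∏ j, z (b j)) * (A.submatrix b id).det ^ 2 := by
    rw [← hF]
    exact mul_pos (by linarith) hdet
  have hne : (Finset.univ : Finset (κ → I)).Nonempty := by
    by_contra h
    rw [Finset.not_nonempty_iff_eq_empty] at h
    rw [h, Finset.sum_empty] at hpos
    exact lt_irrefl _ hpos
  obtain ⟨b, -, hb⟩ := Finset.exists_max_image Finset.univ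
    (fun b : κ → I => (∏ j, z (b j)) * (A.submatrix b id).det ^ 2) hne
  have hsum : ∑ b' : κ → I, (∏ j, z (b' j)) * (A.submatrix b' id).det ^ 2 ≤
      (Fintype.card I : ℝ) ^ Fintype.card κ * ((∏ j, z (b j)) * (A.submatrix b id).det ^ 2) := by
    refine (Finset.sum_le_sum fun b' hb' => hb b' hb').trans ?_
    rw [Finset.sum_const, Finset.card_univ, Fintype.card_fun, nsmul_eq_mul]
    push_cast
    exact le_rfl
  have hFb : 0 < (∏ j, z (b j)) * (A.submatrix b id).det ^ 2 := by
    rcases (hFn b).lt_or_eq with h | h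
    · exact h
    · rw [← h, mul_zero] at hsum
      linarith
  have hd : (A.submatrix b id).det ≠ 0 := by
    intro h
    rw [h] at hFb
    simp at hFb
  have hp : (∏ j, z (b j)) ≠ 0 := by
    intro h
    rw [h, zero_mul] at hFb
    exact lt_irrefl _ hFb
  refine ⟨b, hd, fun j => ?_, ?_⟩
  · refine lt_of_le_of_ne (hz _) fun h => hp ?_
    exact Finset.prod_eq_zero (Finset.mem_univ j) h.symm
  · have h1 : (Aᵀ * Matrix.diagonal z * A).det ≤
        ((Fintype.card κ).factorial : ℝ) * (Aᵀ * Matrix.diagonal z * A).det := by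
      nlinarith [hdet, hfac]
    refine h1.trans (hF.le.trans (hsum.trans (mul_le_mul_of_nonneg_right ?_ hFb.le)))
    rw [mul_pow]
    have h2 : (1 : ℝ) ≤ (Fintype.card κ : ℝ) ^ Fintype.card κ := by
      rcases Nat.eq_zero_or_pos (Fintype.card κ) with h0 | h0
      · rw [h0]
        simp
      · exact one_le_pow₀ (by exact_mod_cast h0)
    have h3 : (0 : ℝ) ≤ (Fintype.card I : ℝ) ^ Fintype.card κ := by positivity
    nlinarith [h2, h3]

/-- the edges: `(h, o)` joins `h` and `o`, `none` is the ground -/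
def edv (κ : Type*) [DecidableEq κ] : Matrix (κ × Option κ) κ ℤ := fun i k =>
  (if i.1 = k then 1 else 0) - (if i.2 = some k then 1 else 0)

/-- the conductances of a Dirichlet matrix -/
noncomputable def edw (Z : Matrix κ κ ℝ) (i : κ × Option κ) : ℝ :=
  i.2.elim (∑ j, Z i.1 j) fun k => if i.1 = k then 0 else -Z i.1 k / 2

theorem edw_nonneg {Z : Matrix κ κ ℝ} (h : Dir Z) (i : κ × Option κ) : 0 ≤ edw Z i := by
  obtain ⟨a, o⟩ := i
  cases o with
  | none => exact h.2.2 a
  | some k =>
    show 0 ≤ if a = k then 0 else -Z a k / 2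
    by_cases hak : a = k
    · rw [if_pos hak]
    · rw [if_neg hak]
      have := h.2.1 a k hak
      linarith

theorem dir_eq {Z : Matrix κ κ ℝ} (h : Dir Z) :
    Z = ((edv κ).map (Int.cast : ℤ → ℝ))ᵀ * Matrix.diagonal (edw Z) *
      (edv κ).map (Int.cast : ℤ → ℝ) := by
  ext a b
  have hE : ∀ (i : κ × Option κ) (k : κ), ((edv κ).map (Int.cast : ℤ → ℝ)) i k =
      (if i.1 = k then (1 : ℝ) else 0) - (if i.2 = some k then 1 else 0) := by
    intro i k
    rw [Matrix.map_apply]
    unfold edv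
    push_cast
    rfl
  have hM : (((edv κ).map (Int.cast : ℤ → ℝ))ᵀ * Matrix.diagonal (edw Z) *
      (edv κ).map (Int.cast : ℤ → ℝ)) a b = ∑ i : κ × Option κ,
        ((if i.1 = a then (1 : ℝ) else 0) - (if i.2 = some a then 1 else 0)) * edw Z i *
        ((if i.1 = b then (1 : ℝ) else 0) - (if i.2 = some b then 1 else 0)) := by
    rw [Matrix.mul_apply]
    refine Finset.sum_congr rfl fun i _ => ?_
    rw [Matrix.mul_diagonal, Matrix.transpose_apply, hE, hE]
  rw [hM, Fintype.sum_prod_type]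
  have h1 : ∀ h' : κ, ∑ o : Option κ,
      ((if h' = a then (1 : ℝ) else 0) - (if o = some a then 1 else 0)) * edw Z (h', o) *
        ((if h' = b then (1 : ℝ) else 0) - (if o = some b then 1 else 0)) =
      (if h' = a then (1 : ℝ) else 0) * (∑ j, Z h' j) * (if h' = b then (1 : ℝ) else 0) +
      ∑ k : κ, ((if h' = a then (1 : ℝ) else 0) - (if k = a then 1 else 0)) *
        (if h' = k then 0 else -Z h' k / 2) *
        ((if h' = b then (1 : ℝ) else 0) - (if k = b then 1 else 0)) := by
    intro h'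
    rw [Fintype.sum_option]
    congr 1
    · have e1 : edw Z (h', none) = ∑ j, Z h' j := rfl
      rw [e1, if_neg (by simp : ¬ (none : Option κ) = some a),
        if_neg (by simp : ¬ (none : Option κ) = some b), sub_zero, sub_zero]
    · refine Finset.sum_congr rfl fun k _ => ?_
      have e1 : edw Z (h', some k) = if h' = k then 0 else -Z h' k / 2 := rfl
      rw [e1]
      simp only [Option.some.injEq]
  rw [Finset.sum_congr rfl fun h' _ => h1 h', Finset.sum_add_distrib]
  have h2 : ∑ h' : κ, (if h' = a then (1 : ℝ) else 0) * (∑ j, Z h' j) *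
      (if h' = b then (1 : ℝ) else 0) = if a = b then ∑ j, Z a j else 0 := by
    rw [Finset.sum_eq_single a]
    · by_cases hab : a = b <;> simp [hab]
    · intro c _ hc
      rw [if_neg hc]
      ring
    · intro hc
      exact absurd (Finset.mem_univ a) hc
  obtain ⟨w, hw⟩ : ∃ w : κ → κ → ℝ, w = fun h' k => if h' = k then 0 else -Z h' k / 2 := ⟨_, rfl⟩
  have h3 : ∀ h' k : κ, ((if h' = a then (1 : ℝ) else 0) - (if k = a then 1 else 0)) *
        (if h' = k then 0 else -Z h' k / 2) *
        ((if h' = b then (1 : ℝ) else 0) - (if k = b then 1 else 0)) =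
      (if h' = a then (if h' = b then w h' k else 0) else 0) -
      (if h' = a then (if k = b then w h' k else 0) else 0) -
      (if k = a then (if h' = b then w h' k else 0) else 0) +
      (if k = a then (if k = b then w h' k else 0) else 0) := by
    intro h' k
    have : (if h' = k then 0 else -Z h' k / 2) = w h' k := by rw [hw]
    rw [this]
    split_ifs <;> ring
  have h4 : ∑ h' : κ, ∑ k : κ, ((if h' = a then (1 : ℝ) else 0) - (if k = a then 1 else 0)) *
        (if h' = k then 0 else -Z h' k / 2) *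
        ((if h' = b then (1 : ℝ) else 0) - (if k = b then 1 else 0)) =
      (if a = b then ∑ k, w a k else 0) - w a b - w b a + (if a = b then ∑ k, w k a else 0) := by
    simp only [h3, Finset.sum_add_distrib, Finset.sum_sub_distrib]
    have e1 : ∑ h' : κ, ∑ k : κ, (if h' = a then (if h' = b then w h' k else 0) else 0) =
        if a = b then ∑ k, w a k else 0 := by
      rw [Finset.sum_eq_single a]
      · by_cases hab : a = b <;> simp [hab]
      · intro c _ hc
        simp [hc]
      · intro hc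
        exact absurd (Finset.mem_univ a) hc
    have e2 : ∑ h' : κ, ∑ k : κ, (if h' = a then (if k = b then w h' k else 0) else 0) =
        w a b := by
      rw [Finset.sum_eq_single a]
      · rw [Finset.sum_eq_single b]
        · simp
        · intro c _ hc
          simp [hc]
        · intro hc
          exact absurd (Finset.mem_univ b) hc
      · intro c _ hc
        simp [hc]
      · intro hc
        exact absurd (Finset.mem_univ a) hc
    have e3 : ∑ h' : κ, ∑ k : κ, (if k = a then (if h' = b then w h' k else 0) else 0) =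
        w b a := by
      rw [Finset.sum_eq_single b]
      · rw [Finset.sum_eq_single a]
        · simp
        · intro c _ hc
          simp [hc]
        · intro hc
          exact absurd (Finset.mem_univ a) hc
      · intro c _ hc
        simp [hc]
      · intro hc
        exact absurd (Finset.mem_univ b) hc
    have e4 : ∑ h' : κ, ∑ k : κ, (if k = a then (if k = b then w h' k else 0) else 0) =
        if a = b then ∑ k, w k a else 0 := by
      rw [Finset.sum_comm, Finset.sum_eq_single a]
      · by_cases hab : a = b <;> simp [hab]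
      · intro c _ hc
        simp [hc]
      · intro hc
        exact absurd (Finset.mem_univ a) hc
    rw [e1, e2, e3, e4]
  rw [h2, h4]
  have hsymm : ∀ i j, w i j = w j i := by
    intro i j
    rw [hw]
    show (if i = j then (0 : ℝ) else -Z i j / 2) = if j = i then 0 else -Z j i / 2
    by_cases hij : i = j
    · rw [if_pos hij, if_pos hij.symm]
    · rw [if_neg hij, if_neg (fun h => hij h.symm), l01_symm h.1]
  by_cases hab : a = b
  · subst hab
    rw [if_pos rfl, if_pos rfl, if_pos rfl]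
    have e1 : w a a = 0 := by rw [hw]; simp
    have e2 : ∑ k, w k a = ∑ k, w a k := Finset.sum_congr rfl fun k _ => hsymm k a
    have e3 : ∑ k, w a k = -(∑ k, Z a k - Z a a) / 2 := by
      have e4 : ∑ k, w a k = ∑ k ∈ Finset.univ.erase a, (-Z a k / 2) := by
        rw [← Finset.add_sum_erase Finset.univ (fun k => w a k) (Finset.mem_univ a), e1, zero_add]
        refine Finset.sum_congr rfl fun k hk => ?_
        rw [hw]
        show (if a = k then (0 : ℝ) else -Z a k / 2) = _
        rw [if_neg fun h => (Finset.mem_erase.mp hk).1 h.symm]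
      have e5 : ∑ k, Z a k = Z a a + ∑ k ∈ Finset.univ.erase a, Z a k :=
        (Finset.add_sum_erase Finset.univ (fun k => Z a k) (Finset.mem_univ a)).symm
      rw [e4, e5, ← Finset.sum_div, Finset.sum_neg_distrib]
      ring
    rw [e1, e2, e3]
    ring
  · rw [if_neg hab, if_neg hab, if_neg hab, hsymm b a, hw]
    show Z a b = 0 + (0 - (if a = b then (0 : ℝ) else -Z a b / 2) -
      (if a = b then (0 : ℝ) else -Z a b / 2) + 0)
    rw [if_neg hab]
    ring

theorem l04_q {I : Type*} [Fintype I] [DecidableEq I] (B : Matrix I κ ℝ) (d : I → ℝ)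
    (x : κ → ℝ) : x ⬝ᵥ ((Bᵀ * Matrix.diagonal d * B) *ᵥ x) = ∑ i, d i * (B *ᵥ x) i ^ 2 := by
  rw [← Matrix.mulVec_mulVec, ← Matrix.mulVec_mulVec, Matrix.dotProduct_mulVec,
    Matrix.vecMul_transpose]
  show ∑ i, (B *ᵥ x) i * (Matrix.diagonal d *ᵥ (B *ᵥ x)) i = _
  refine Finset.sum_congr rfl fun i _ => ?_
  rw [Matrix.mulVec_diagonal]
  ring

theorem dir_basis (κ : Type*) [Fintype κ] [DecidableEq κ] :
    ∃ C : ℝ, 0 < C ∧ ∀ Z : Matrix κ κ ℝ, Dir Z → Z.PosDef → ∃ b : κ → κ × Option κ,
      ((edv κ).submatrix b id).det ≠ 0 ∧ (∀ j, 0 < edw Z (b j)) ∧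
      Z.det ≤ C * ∏ j, edw Z (b j) ∧
      (Z - (((edv κ).submatrix b id).map (Int.cast : ℤ → ℝ))ᵀ *
        Matrix.diagonal (fun j => edw Z (b j)) *
        ((edv κ).submatrix b id).map (Int.cast : ℤ → ℝ)).PosSemidef := by
  classical
  obtain ⟨S, hS⟩ : ∃ S : ℝ, S = ∑ b : κ → κ × Option κ,
    ((((edv κ).submatrix b id).det : ℤ) : ℝ) ^ 2 := ⟨_, rfl⟩
  have hS0 : 0 ≤ S := by
    rw [hS]
    exact Finset.sum_nonneg fun b _ => sq_nonneg _
  obtain ⟨T, hT⟩ : ∃ T : ℝ, T = ((Fintype.card (κ × Option κ) : ℝ) * Fintype.card κ) ^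
    Fintype.card κ := ⟨_, rfl⟩
  have hT0 : 0 ≤ T := by
    rw [hT]
    positivity
  refine ⟨T * S + 1, by positivity, fun Z hZ hpd => ?_⟩
  obtain ⟨E, hE⟩ : ∃ E : Matrix (κ × Option κ) κ ℝ, E = (edv κ).map (Int.cast : ℤ → ℝ) := ⟨_, rfl⟩
  have hZE : Z = Eᵀ * Matrix.diagonal (edw Z) * E := by
    rw [hE]
    exact dir_eq hZ
  have hpd' : (Eᵀ * Matrix.diagonal (edw Z) * E).PosDef := by
    rw [← hZE]
    exact hpd
  obtain ⟨b, hb1, hb2, hb3⟩ := exists_basis E (edw Z) (edw_nonneg hZ) hpd'
  rw [← hZE] at hb3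
  have hdet : (E.submatrix b id).det = ((((edv κ).submatrix b id).det : ℤ) : ℝ) := by
    rw [Int.cast_det, hE]
    rfl
  have hdne : ((edv κ).submatrix b id).det ≠ 0 := by
    intro h
    apply hb1
    rw [hdet, h, Int.cast_zero]
  have hinj : Function.Injective b := by
    intro j k hjk
    by_contra hne
    apply hb1
    refine Matrix.det_zero_of_row_eq hne ?_
    funext l
    show E (b j) (id l) = E (b k) (id l)
    rw [hjk]
  have hprod : 0 < ∏ j, edw Z (b j) := Finset.prod_pos fun j _ => hb2 j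
  refine ⟨b, hdne, hb2, ?_, ?_⟩
  · have h1 : (E.submatrix b id).det ^ 2 ≤ S := by
      rw [hdet, hS]
      exact Finset.single_le_sum (f := fun b : κ → κ × Option κ =>
        ((((edv κ).submatrix b id).det : ℤ) : ℝ) ^ 2) (fun b _ => sq_nonneg _) (Finset.mem_univ b)
    have h2 : Z.det ≤ T * ((∏ j, edw Z (b j)) * (E.submatrix b id).det ^ 2) := by
      rw [hT]
      exact hb3
    have h3 : T * ((∏ j, edw Z (b j)) * (E.submatrix b id).det ^ 2) ≤
        T * ((∏ j, edw Z (b j)) * S) :=
      mul_le_mul_of_nonneg_left (mul_le_mul_of_nonneg_left h1 hprod.le) hT0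
    nlinarith [h2, h3, hprod]
  · have hsub : ((edv κ).submatrix b id).map (Int.cast : ℤ → ℝ) = E.submatrix b id := by
      rw [hE]
      rfl
    rw [hsub]
    refine Matrix.PosSemidef.of_dotProduct_mulVec_nonneg ?_ fun x => ?_
    · rw [Matrix.IsHermitian, Matrix.conjTranspose_eq_transpose_of_trivial,
        Matrix.transpose_sub, hZ.1, Matrix.transpose_mul, Matrix.transpose_mul,
        Matrix.transpose_transpose, Matrix.diagonal_transpose, Matrix.mul_assoc]
    · have hq : x ⬝ᵥ (Z *ᵥ x) = ∑ i, edw Z i * (E *ᵥ x) i ^ 2 := by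
        conv_lhs => rw [hZE]
        rw [l04_q]
      rw [star_trivial, Matrix.sub_mulVec, dotProduct_sub, l04_q, hq, sub_nonneg]
      have h1 : ∀ j, (E.submatrix b id *ᵥ x) j = (E *ᵥ x) (b j) := fun j => rfl
      simp only [h1]
      have h2 : ∑ j, edw Z (b j) * (E *ᵥ x) (b j) ^ 2 =
          ∑ i ∈ Finset.univ.map ⟨b, hinj⟩, edw Z i * (E *ᵥ x) i ^ 2 := by
        rw [Finset.sum_map]
        rfl
      rw [h2]
      exact Finset.sum_le_sum_of_subset_of_nonneg (Finset.subset_univ _) fun i _ _ =>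
        mul_nonneg (edw_nonneg hZ i) (sq_nonneg _)

end LT
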