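import Mathlib

/-!
# LG-L06: generators of the image of the fundamental group of a finite graph

Vertices `V'`, edges `E'` with end points `o e`, `t e` and labels `l e` in a group.

Prove by induction on `k ≤ card V'`: there are a set `U : Finset V'` of `k` vertices containing
`r`, a set `K : Finset E'` of `k - 1` edges and `x : V' → G` with `x r = 1`,
`x (t e) = l e * x (o e)` for `e ∈ K`, both end points of each `e ∈ K` in `U`.  Step: if `U ≠ V'` there
is by `hconn` an edge `e` with exactly one end point in `U`; add it (it is not in `K`), and define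
`x` at the new vertex accordingly.  Finally `S` = the set of the elements
`(x (t e))⁻¹ * l e * x (o e)`, `e ∉ K`; for `e ∈ K` the element is `1`.
-/

set_option linter.unusedSectionVars false

namespace LT

private theorem l06_step {V' E' G : Type*} [DecidableEq V']
    (o t : E' → V') (r : V')
    (hconn : ∀ v, Relation.ReflTransGen
      (fun a b => ∃ e, (o e = a ∧ t e = b) ∨ (o e = b ∧ t e = a)) r v)
    (U : Finset V') (hr : r ∈ U) (v : V') (hv : v ∉ U) :
    ∃ a ∈ U, ∃ b, b ∉ U ∧ ∃ e, (o e = a ∧ t e = b) ∨ (o e = b ∧ t e = a) := by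
  by_contra hcon
  push Not at hcon
  have : ∀ w, Relation.ReflTransGen
      (fun a b => ∃ e, (o e = a ∧ t e = b) ∨ (o e = b ∧ t e = a)) r w → w ∈ U := by
    intro w hw
    induction hw with
    | refl => exact hr
    | @tail b c _ h ih =>
      obtain ⟨e, he⟩ := h
      by_contra hc
      rcases he with he | he
      · exact (hcon b ih c hc e).1 he.1 he.2
      · exact (hcon b ih c hc e).2 he.1 he.2
  exact hv (this v (hconn v))

private theorem l06_ind {V' E' G : Type*} [Fintype V'] [DecidableEq V'] [DecidableEq E']
    [Group G] (o t : E' → V') (l : E' → G) (r : V')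
    (hconn : ∀ v, Relation.ReflTransGen
      (fun a b => ∃ e, (o e = a ∧ t e = b) ∨ (o e = b ∧ t e = a)) r v) (k : ℕ) :
    k + 1 ≤ Fintype.card V' → ∃ (U : Finset V') (K : Finset E') (x : V' → G),
      U.card = k + 1 ∧ r ∈ U ∧ K.card = k ∧ x r = 1 ∧
      ∀ e ∈ K, o e ∈ U ∧ t e ∈ U ∧ x (t e) = l e * x (o e) := by
  induction k with
  | zero =>
    intro _
    exact ⟨{r}, ∅, fun _ => 1, by simp, by simp, by simp, rfl, by simp⟩
  | succ k ih =>
    intro hk
    obtain ⟨U, K, x, hU, hr, hK, hx, hKx⟩ := ih (by omega)
    have hne : ∃ v, v ∉ U := by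
      by_contra hcon
      push Not at hcon
      have h1 : U = Finset.univ := by
        ext v
        simp [hcon v]
      rw [h1, Finset.card_univ] at hU
      omega
    obtain ⟨v, hv⟩ := hne
    obtain ⟨a, ha, b, hb, e, he⟩ := l06_step (G := G) o t r hconn U hr v hv
    have hrb : r ≠ b := fun h => hb (h ▸ hr)
    have hab : a ≠ b := fun h => hb (h ▸ ha)
    have heK : e ∉ K := by
      intro h
      have h1 := hKx e h
      rcases he with he | he
      · exact hb (he.2 ▸ h1.2.1)
      · exact hb (he.1 ▸ h1.1)
    obtain ⟨y, hy⟩ : ∃ y : G, (o e = a ∧ t e = b → y = l e * x a) ∧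
        (o e = b ∧ t e = a → x a = l e * y) := by
      rcases he with he | he
      · refine ⟨l e * x a, fun _ => rfl, fun h => ?_⟩
        exact absurd (he.1.symm.trans h.1) hab
      · refine ⟨(l e)⁻¹ * x a, fun h => ?_, fun _ => ?_⟩
        · exact absurd (h.1.symm.trans he.1) hab
        · group
    refine ⟨insert b U, insert e K, Function.update x b y, ?_, ?_, ?_, ?_, ?_⟩
    · rw [Finset.card_insert_of_notMem hb, hU]
    · exact Finset.mem_insert_of_mem hr
    · rw [Finset.card_insert_of_notMem heK, hK]
    · rw [Function.update_of_ne hrb, hx]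
    · intro e' he'
      rcases Finset.mem_insert.1 he' with h | h
      · subst h
        rcases he with he | he
        · rw [he.1, he.2, Function.update_self, Function.update_of_ne hab]
          exact ⟨Finset.mem_insert_of_mem ha, Finset.mem_insert_self _ _, hy.1 he⟩
        · rw [he.1, he.2, Function.update_self, Function.update_of_ne hab]
          exact ⟨Finset.mem_insert_self _ _, Finset.mem_insert_of_mem ha, hy.2 he⟩
      · obtain ⟨h1, h2, h3⟩ := hKx e' h
        have h4 : o e' ≠ b := fun h => hb (h ▸ h1)
        have h5 : t e' ≠ b := fun h => hb (h ▸ h2)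
        rw [Function.update_of_ne h4, Function.update_of_ne h5]
        exact ⟨Finset.mem_insert_of_mem h1, Finset.mem_insert_of_mem h2, h3⟩

theorem tree_gen {V' E' G : Type*} [Fintype V'] [DecidableEq V'] [Fintype E'] [DecidableEq E']
    [Group G] (o t : E' → V') (l : E' → G) (r : V')
    (hconn : ∀ v, Relation.ReflTransGen
      (fun a b => ∃ e, (o e = a ∧ t e = b) ∨ (o e = b ∧ t e = a)) r v) :
    ∃ (x : V' → G) (S : Set G), S.Finite ∧ x r = 1 ∧
      S.ncard + Fintype.card V' ≤ Fintype.card E' + 1 ∧
      ∀ e, (x (t e))⁻¹ * l e * x (o e) ∈ Subgroup.closure S := by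
  classical
  have hpos : 0 < Fintype.card V' := Fintype.card_pos_iff.2 ⟨r⟩
  obtain ⟨U, K, x, hU, hr, hK, hx, hKx⟩ :=
    l06_ind o t l r hconn (Fintype.card V' - 1) (by omega)
  refine ⟨x, ((Finset.univ \ K).image fun e => (x (t e))⁻¹ * l e * x (o e) : Finset G),
    Finset.finite_toSet _, hx, ?_, ?_⟩
  · rw [Set.ncard_coe_finset]
    have h1 := Finset.card_image_le (s := Finset.univ \ K)
      (f := fun e => (x (t e))⁻¹ * l e * x (o e))
    have h2 : (Finset.univ \ K).card = Fintype.card E' - K.card := by
      rw [Finset.card_sdiff_of_subset (Finset.subset_univ _), Finset.card_univ]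
    have h3 : K.card ≤ Fintype.card E' := Finset.card_le_univ _
    omega
  · intro e
    by_cases he : e ∈ K
    · rw [(hKx e he).2.2]
      have : (l e * x (o e))⁻¹ * l e * x (o e) = 1 := by group
      rw [this]
      exact one_mem _
    · refine Subgroup.subset_closure ?_
      rw [Finset.mem_coe, Finset.mem_image]
      exact ⟨e, by simp [he], rfl⟩

end LT
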