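import Mathlib

/-!
# LG-L07: counting classes by a rank

`V` a finite set of points with base point `s₀ ∈ V`.  `dlr s` is the indicator of `s` on `V ∖ {s₀}`
(`0` for `s₀`).  If `W` is spanned by differences `dlr s - dlr s'` of points of `V`, and
`s ~ s' ↔ dlr s - dlr s' ∈ W`, then `finrank W + (number of classes) = card V`.

Proof: let `K` be the kernel of the map `(V → ℝ) → (V/~ → ℝ)`, sum over the classes (surjective), so
`finrank K = card V - card (V/~)`.  The restriction map `(V → ℝ) → (V ∖ {s₀} → ℝ)` is injective on `K`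
(elements of `K` have total sum `0`), and maps `K` onto `W`: `K` is spanned by `e_s - e_s'`, `s ~ s'`,
whose image is in `W`; conversely each generator of `W` is the image of such an element.
-/

set_option linter.unusedSectionVars false

namespace LT

variable {𝒮 : Type*} [DecidableEq 𝒮]

/-- the indicator of `s` on `V ∖ {s₀}` -/
def dlr (V : Finset 𝒮) (s₀ s : 𝒮) : ↥(V.erase s₀) → ℝ := fun v => if s = (v : 𝒮) then 1 else 0

/-- `s ~ s'` iff `dlr s - dlr s' ∈ W` -/
def cls (V : Finset 𝒮) (s₀ : 𝒮) (W : Submodule ℝ (↥(V.erase s₀) → ℝ)) : Setoid ↥V where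
  r s s' := dlr V s₀ s - dlr V s₀ s' ∈ W
  iseqv :=
    { refl := fun s => by rw [sub_self]; exact W.zero_mem
      symm := fun {s s'} h => by
        have := W.neg_mem h
        rwa [neg_sub] at this
      trans := fun {a b c} h h' => by
        have := W.add_mem h h'
        rwa [sub_add_sub_cancel] at this }

open Classical in
/-- sums over the classes -/
noncomputable def l07_sum (V : Finset 𝒮) (r : Setoid ↥V) : (↥V → ℝ) →ₗ[ℝ] (Quotient r → ℝ) where
  toFun f q := ∑ v : ↥V, if (Quotient.mk r v) = q then f v else 0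
  map_add' f g := by
    funext q
    simp only [Pi.add_apply, ← Finset.sum_add_distrib]
    refine Finset.sum_congr rfl fun v _ => ?_
    split_ifs <;> simp
  map_smul' c f := by
    funext q
    simp only [Pi.smul_apply, smul_eq_mul, RingHom.id_apply, Finset.mul_sum]
    refine Finset.sum_congr rfl fun v _ => ?_
    split_ifs <;> simp

open Classical in
theorem l07_sum_single (V : Finset 𝒮) (r : Setoid ↥V) (v : ↥V) (c : ℝ) :
    l07_sum V r (Pi.single v c) = Pi.single (Quotient.mk r v) c := by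
  funext q
  show (∑ w : ↥V, if (Quotient.mk r w) = q then (Pi.single v c : ↥V → ℝ) w else 0) = _
  rw [Finset.sum_eq_single v]
  · by_cases h : Quotient.mk r v = q
    · subst h; simp
    · rw [if_neg h, Pi.single_eq_of_ne (Ne.symm h)]
  · intro w _ hw
    rw [Pi.single_eq_of_ne hw]
    simp
  · intro h
    exact absurd (Finset.mem_univ v) h

theorem l07_sum_surj (V : Finset 𝒮) (r : Setoid ↥V) : Function.Surjective (l07_sum V r) := by
  classical
  haveI : Fintype (Quotient r) := Fintype.ofFinite _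
  rw [← LinearMap.range_eq_top]
  rw [eq_top_iff]
  intro g _
  have : g = ∑ q : Quotient r, Pi.single q (g q) := by
    funext q
    simp [Finset.sum_apply, Pi.single_apply]
  rw [this]
  refine Submodule.sum_mem _ fun q _ => ?_
  refine ⟨Pi.single q.out (g q), ?_⟩
  rw [l07_sum_single, Quotient.out_eq]

/-- restriction to `V ∖ {s₀}` -/
def l07_res (V : Finset 𝒮) (s₀ : 𝒮) : (↥V → ℝ) →ₗ[ℝ] (↥(V.erase s₀) → ℝ) where
  toFun f v := f ⟨v, Finset.mem_of_mem_erase v.2⟩
  map_add' _ _ := rfl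
  map_smul' _ _ := rfl

theorem l07_res_single (V : Finset 𝒮) (s₀ : 𝒮) (v : ↥V) :
    l07_res V s₀ (Pi.single v 1) = dlr V s₀ (v : 𝒮) := by
  funext w
  show (Pi.single v (1 : ℝ) : ↥V → ℝ) ⟨w, Finset.mem_of_mem_erase w.2⟩ = if (v : 𝒮) = w then 1 else 0
  by_cases h : (v : 𝒮) = w
  · have h1 : (⟨w, Finset.mem_of_mem_erase w.2⟩ : ↥V) = v := Subtype.ext h.symm
    rw [h1, if_pos h, Pi.single_eq_same]
  · have h1 : (⟨w, Finset.mem_of_mem_erase w.2⟩ : ↥V) ≠ v := fun e => h (congrArg Subtype.val e).symm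
    rw [if_neg h, Pi.single_eq_of_ne h1]

theorem l07_res_eq (V : Finset 𝒮) (s₀ : 𝒮) (f : ↥V → ℝ) :
    l07_res V s₀ f = ∑ v : ↥V, f v • dlr V s₀ (v : 𝒮) := by
  have h1 : f = ∑ v : ↥V, f v • (Pi.single v (1 : ℝ) : ↥V → ℝ) := by
    funext w
    simp [Finset.sum_apply, Pi.single_apply]
  conv_lhs => rw [h1]
  rw [map_sum]
  refine Finset.sum_congr rfl fun v _ => ?_
  rw [map_smul, l07_res_single]

theorem l07_map (V : Finset 𝒮) {s₀ : 𝒮} (W : Submodule ℝ (↥(V.erase s₀) → ℝ))
    (P : Set (↥V × ↥V))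
    (hW : W = Submodule.span ℝ {w | ∃ p ∈ P, w = dlr V s₀ (p.1 : 𝒮) - dlr V s₀ (p.2 : 𝒮)}) :
    (LinearMap.ker (l07_sum V (cls V s₀ W))).map (l07_res V s₀) = W := by
  classical
  apply le_antisymm
  · rintro _ ⟨f, hf, rfl⟩
    have hf' : l07_sum V (cls V s₀ W) f = 0 := hf
    haveI : Fintype (Quotient (cls V s₀ W)) := Fintype.ofFinite _
    have h2 : ∑ v : ↥V, f v • dlr V s₀ ((Quotient.mk (cls V s₀ W) v).out : 𝒮) = 0 := by
      have h3 : ∀ v : ↥V, f v • dlr V s₀ ((Quotient.mk (cls V s₀ W) v).out : 𝒮) =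
          ∑ q : Quotient (cls V s₀ W), (if Quotient.mk (cls V s₀ W) v = q then f v else 0) •
            dlr V s₀ (q.out : 𝒮) := by
        intro v
        rw [Finset.sum_eq_single (Quotient.mk (cls V s₀ W) v)]
        · rw [if_pos rfl]
        · intro q _ hq
          rw [if_neg (Ne.symm hq), zero_smul]
        · intro h
          exact absurd (Finset.mem_univ _) h
      rw [Finset.sum_congr rfl fun v _ => h3 v, Finset.sum_comm]
      refine Finset.sum_eq_zero fun q _ => ?_
      rw [← Finset.sum_smul]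
      have h4 : ∑ v : ↥V, (if Quotient.mk (cls V s₀ W) v = q then f v else 0) = 0 :=
        congrFun hf' q
      rw [h4, zero_smul]
    rw [l07_res_eq]
    have h5 : ∑ v : ↥V, f v • dlr V s₀ (v : 𝒮) = ∑ v : ↥V, f v •
        (dlr V s₀ (v : 𝒮) - dlr V s₀ ((Quotient.mk (cls V s₀ W) v).out : 𝒮)) := by
      simp only [smul_sub]
      rw [Finset.sum_sub_distrib, h2, sub_zero]
    rw [h5]
    refine Submodule.sum_mem _ fun v _ => Submodule.smul_mem _ _ ?_
    have h6 : (Quotient.mk (cls V s₀ W) (Quotient.mk (cls V s₀ W) v).out) =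
        Quotient.mk (cls V s₀ W) v := Quotient.out_eq _
    exact (Quotient.exact h6.symm : (cls V s₀ W) v _)
  · have h1 : ∀ w ∈ {w | ∃ p ∈ P, w = dlr V s₀ (p.1 : 𝒮) - dlr V s₀ (p.2 : 𝒮)},
        w ∈ (LinearMap.ker (l07_sum V (cls V s₀ W))).map (l07_res V s₀) := by
      rintro w ⟨p, hp, rfl⟩
      have h2 : dlr V s₀ (p.1 : 𝒮) - dlr V s₀ (p.2 : 𝒮) ∈ W := by
        rw [hW]
        exact Submodule.subset_span ⟨p, hp, rfl⟩
      refine ⟨Pi.single p.1 1 - Pi.single p.2 1, ?_, ?_⟩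
      · show l07_sum V (cls V s₀ W) (Pi.single p.1 1 - Pi.single p.2 1) = 0
        rw [map_sub, l07_sum_single, l07_sum_single]
        have h3 : Quotient.mk (cls V s₀ W) p.1 = Quotient.mk (cls V s₀ W) p.2 :=
          Quotient.sound h2
        rw [h3, sub_self]
      · rw [map_sub, l07_res_single, l07_res_single]
    calc W = Submodule.span ℝ {w | ∃ p ∈ P, w = dlr V s₀ (p.1 : 𝒮) - dlr V s₀ (p.2 : 𝒮)} := hW
      _ ≤ _ := Submodule.span_le.mpr h1

theorem l07_inj (V : Finset 𝒮) {s₀ : 𝒮} (hs₀ : s₀ ∈ V) (r : Setoid ↥V) :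
    Function.Injective ((l07_res V s₀).domRestrict (LinearMap.ker (l07_sum V r))) := by
  classical
  rw [← LinearMap.ker_eq_bot, LinearMap.ker_eq_bot']
  rintro ⟨f, hf⟩ h
  have hf' : l07_sum V r f = 0 := hf
  have h' : l07_res V s₀ f = 0 := h
  have h1 : ∀ v : ↥V, (v : 𝒮) ≠ s₀ → f v = 0 := by
    intro v hv
    exact congrFun h' ⟨v, Finset.mem_erase.mpr ⟨hv, v.2⟩⟩
  have h2 : f ⟨s₀, hs₀⟩ = 0 := by
    have h3 : (∑ v : ↥V, if (Quotient.mk r v) = Quotient.mk r ⟨s₀, hs₀⟩ then f v else 0) = 0 :=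
      congrFun hf' (Quotient.mk r ⟨s₀, hs₀⟩)
    rw [Finset.sum_eq_single (⟨s₀, hs₀⟩ : ↥V)] at h3
    · simpa using h3
    · intro v _ hv
      rw [h1 v fun e => hv (Subtype.ext e)]
      simp
    · intro h
      exact absurd (Finset.mem_univ _) h
  apply Subtype.ext
  funext v
  show f v = 0
  by_cases hv : (v : 𝒮) = s₀
  · have : v = ⟨s₀, hs₀⟩ := Subtype.ext hv
    rw [this]; exact h2
  · exact h1 v hv

theorem class_count (V : Finset 𝒮) {s₀ : 𝒮} (hs₀ : s₀ ∈ V)
    (W : Submodule ℝ (↥(V.erase s₀) → ℝ)) (P : Set (↥V × ↥V))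
    (hW : W = Submodule.span ℝ {w | ∃ p ∈ P, w = dlr V s₀ (p.1 : 𝒮) - dlr V s₀ (p.2 : 𝒮)}) :
    Module.finrank ℝ W + Nat.card (Quotient (cls V s₀ W)) = V.card := by
  classical
  haveI : Fintype (Quotient (cls V s₀ W)) := Fintype.ofFinite _
  have h1 := LinearMap.finrank_range_add_finrank_ker (l07_sum V (cls V s₀ W))
  rw [LinearMap.range_eq_top.mpr (l07_sum_surj V (cls V s₀ W)), finrank_top,
    Module.finrank_fintype_fun_eq_card, Module.finrank_fintype_fun_eq_card,
    Fintype.card_coe] at h1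
  have h2 := LinearMap.finrank_range_of_inj (l07_inj V hs₀ (cls V s₀ W))
  rw [LinearMap.range_domRestrict, l07_map V W P hW] at h2
  rw [h2, Nat.card_eq_fintype_card]
  omega

end LT
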