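import Pool.Agent.H29.LG.J06
import Pool.Agent.H29.LG.L04
import Pool.Agent.H29.LG.L06
import Pool.Agent.H29.LG.L07

/-!
# LG-L08: the rank condition for compressed subgroups

`Compr c`: the subgroup generated by the `c k` is not contained in a subgroup generated by fewer than
`card β` elements.  For a set `F` of edges `(y, j)` (the edge `b y j ∈ κ y × Option (κ y)` joins two
points of `E_y = {h ∈ V : b_y • h ∈ V}`, base `h₀ y`), `W` = the span of the vectors `ev b e s`, `e ∈ F`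
(`s = true`: the edge at its starting points, `s = false`: at its end points).

1. `ev b (y, j) true = dlr h - dlr h'`, `ev b (y, j) false = dlr (b_y • h) - dlr (b_y • h')` where `h, h'`
   are the end points of the edge `b y j` (`none` ↦ `h₀ y`).  So `class_count` (for `V`, `s₀`):
   `finrank W + card V' = card V`, `V' = Quotient (cls D.V D.s₀ W)`.
2. For each `y` let `U_y` be the span of the rows `edv (b y j)`, `(y, j) ∈ F`; the rows are independent
   (`hb`), so `finrank U_y = card F_y`, and `class_count` (for `E_y`, `h₀ y`):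
   `card F_y + card E'_y = card E_y`, `E'_y = Quotient (cls E_y (h₀ y) U_y)`.
3. `h ~ h'` in `E_y` implies `h ~ h'` and `b_y • h ~ b_y • h'` in `V` (apply `(D.T y)ᵀ`, `(D.O y)ᵀ`).  So the
   graph with vertices `V'`, edges `E' = Σ y, E'_y`, labels `b_y`, is well defined; it is connected
   (`D.hlx`).  `tree_gen` gives `x`, `S`.  By induction on the list,
   `(x [mk l • s₀])⁻¹ * mk l ∈ closure S` for `PathIn V s₀ l`; with `D.hpath`, `D.stab`: all `c k` are in
   `closure S`, so `card β ≤ S.ncard` (`hcomp`).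
4. `∑_y card E_y = ∑_y (card κ_y + 1) = card ι + card β = card V - 1 + card β` (`card_eq`), so
   `card β ≤ ∑_y (card E_y - card F_y) + 1 - (card V - finrank W) = card β - card F + finrank W`.
-/

set_option linter.unusedSectionVars false

namespace LT

open scoped Matrix

variable {β : Type*} [Fintype β] [DecidableEq β]

/-- the subgroup generated by the `c k` is not contained in a subgroup generated by fewer than
`card β` elements -/
def Compr (c : β → FreeGroup β) : Prop :=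
  ∀ S : Finset (FreeGroup β),
    (FreeGroup.lift c).range ≤ Subgroup.closure (S : Set (FreeGroup β)) →
      Fintype.card β ≤ S.card

namespace GD

variable {c : β → FreeGroup β} {𝒮 : Type*} [DecidableEq 𝒮] [MulAction (FreeGroup β) 𝒮]
variable (D : GD c 𝒮)

/-- the edge `b y j` at its starting points (`true`) or end points (`false`) -/
def ev (b : ∀ y, D.κ y → D.κ y × Option (D.κ y)) (e : Σ y, D.κ y) (s : Bool) : D.ι → ℝ :=
  fun v => (((if s then (D.T e.1)ᵀ else (D.O e.1)ᵀ) *ᵥ (edv (D.κ e.1) (b e.1 e.2))) v : ℤ)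

/-- the points at which the letter `y` acts inside `V` -/
abbrev l08_E (y : β) : Finset 𝒮 := D.V.filter fun h => FreeGroup.of y • h ∈ D.V

theorem l08_h₀ (y : β) : D.h₀ y ∈ D.l08_E y := Finset.mem_filter.mpr ⟨D.hh₀ y, D.hh₁ y⟩

/-- the end point of an edge -/
def l08_pt (y : β) (o : Option (D.κ y)) : 𝒮 := o.elim (D.h₀ y) fun h => (h : 𝒮)

theorem l08_pt_mem (y : β) (o : Option (D.κ y)) : D.l08_pt y o ∈ D.l08_E y := by
  cases o with
  | none => exact D.l08_h₀ y
  | some h => exact Finset.mem_of_mem_erase h.2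

theorem l08_edv (y : β) (i : D.κ y × Option (D.κ y)) (k : D.κ y) :
    ((edv (D.κ y) i k : ℤ) : ℝ) = dlr (D.l08_E y) (D.h₀ y) (i.1 : 𝒮) k -
      dlr (D.l08_E y) (D.h₀ y) (D.l08_pt y i.2) k := by
  obtain ⟨h, o⟩ := i
  have hk : D.h₀ y ≠ (k : 𝒮) := fun e => (Finset.mem_erase.mp k.2).1 e.symm
  have h1 : ∀ h' : D.κ y, (if h' = k then (1 : ℝ) else 0) = if (h' : 𝒮) = k then 1 else 0 := by
    intro h'
    by_cases e : h' = k
    · rw [if_pos e, if_pos (congrArg Subtype.val e)]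
    · rw [if_neg e, if_neg fun e' => e (Subtype.ext e')]
  show (((if h = k then 1 else 0) - (if o = some k then 1 else 0) : ℤ) : ℝ) =
    (if (h : 𝒮) = k then 1 else 0) - (if D.l08_pt y o = k then 1 else 0)
  push_cast
  rw [h1 h]
  congr 1
  cases o with
  | none =>
    have h2 : D.l08_pt y none = D.h₀ y := rfl
    rw [h2, if_neg hk, if_neg (by simp)]
  | some h' =>
    have h2 : D.l08_pt y (some h') = (h' : 𝒮) := rfl
    rw [h2, ← h1 h']
    by_cases e : h' = k
    · rw [if_pos e, if_pos (congrArg some e)]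
    · rw [if_neg e, if_neg fun e' => e (Option.some.inj e')]

/-- the point or its image under the letter `y` -/
def l08_mv (y : β) (s : Bool) (h : 𝒮) : 𝒮 := if s then h else FreeGroup.of y • h

theorem l08_mv_mem {y : β} (s : Bool) {h : 𝒮} (hh : h ∈ D.l08_E y) : l08_mv y s h ∈ D.V := by
  have h1 := Finset.mem_filter.mp hh
  cases s with
  | false => exact h1.2
  | true => exact h1.1

/-- the linear map of `T y` or `O y` -/
noncomputable def l08_T (y : β) (s : Bool) : (D.κ y → ℝ) →ₗ[ℝ] (D.ι → ℝ) :=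
  Matrix.mulVecLin (((if s then D.T y else D.O y).map (Int.cast : ℤ → ℝ))ᵀ)

theorem l08_T_apply (y : β) (s : Bool) (f : D.κ y → ℝ) (v : D.ι) : D.l08_T y s f v =
    ∑ k : D.κ y, ((if l08_mv y s (k : 𝒮) = v then 1 else 0) -
      (if l08_mv y s (D.h₀ y) = v then 1 else 0)) * f k := by
  show ∑ k : D.κ y, (((if s then D.T y else D.O y) k v : ℤ) : ℝ) * f k = _
  refine Finset.sum_congr rfl fun k _ => ?_
  congr 1
  cases s with
  | false =>
    show ((D.O y k v : ℤ) : ℝ) = _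
    unfold O l08_mv
    push_cast
    rfl
  | true =>
    show ((D.T y k v : ℤ) : ℝ) = _
    unfold T l08_mv
    push_cast
    rfl

theorem l08_T_dlr (y : β) (s : Bool) {h : 𝒮} (hh : h ∈ D.l08_E y) :
    D.l08_T y s (dlr (D.l08_E y) (D.h₀ y) h) =
      dlr D.V D.s₀ (l08_mv y s h) - dlr D.V D.s₀ (l08_mv y s (D.h₀ y)) := by
  funext v
  rw [l08_T_apply]
  by_cases h0 : h = D.h₀ y
  · subst h0
    rw [Pi.sub_apply, sub_self]
    refine Finset.sum_eq_zero fun k _ => ?_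
    have hk : D.h₀ y ≠ (k : 𝒮) := fun e => (Finset.mem_erase.mp k.2).1 e.symm
    unfold dlr
    rw [if_neg hk, mul_zero]
  · rw [Finset.sum_eq_single (⟨h, Finset.mem_erase.mpr ⟨h0, hh⟩⟩ : D.κ y)]
    · unfold dlr
      rw [if_pos rfl, mul_one]
      rfl
    · intro k _ hk
      unfold dlr
      have hk' : ¬ h = (k : 𝒮) := fun e => hk (Subtype.ext e.symm)
      rw [if_neg hk', mul_zero]
    · intro hn
      exact absurd (Finset.mem_univ _) hn

theorem l08_T_sub (y : β) (s : Bool) {h h' : 𝒮} (hh : h ∈ D.l08_E y) (hh' : h' ∈ D.l08_E y) :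
    D.l08_T y s (dlr (D.l08_E y) (D.h₀ y) h - dlr (D.l08_E y) (D.h₀ y) h') =
      dlr D.V D.s₀ (l08_mv y s h) - dlr D.V D.s₀ (l08_mv y s h') := by
  rw [map_sub, l08_T_dlr D y s hh, l08_T_dlr D y s hh', sub_sub_sub_cancel_right]

theorem l08_ev' (b : ∀ y, D.κ y → D.κ y × Option (D.κ y)) (e : Σ y, D.κ y) (s : Bool) :
    D.ev b e s = D.l08_T e.1 s (dlr (D.l08_E e.1) (D.h₀ e.1) ((b e.1 e.2).1 : 𝒮) -
      dlr (D.l08_E e.1) (D.h₀ e.1) (D.l08_pt e.1 (b e.1 e.2).2)) := by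
  funext v
  have h1 : (dlr (D.l08_E e.1) (D.h₀ e.1) ((b e.1 e.2).1 : 𝒮) -
      dlr (D.l08_E e.1) (D.h₀ e.1) (D.l08_pt e.1 (b e.1 e.2).2)) =
      fun k => ((edv (D.κ e.1) (b e.1 e.2) k : ℤ) : ℝ) := by
    funext k
    rw [l08_edv]
    rfl
  rw [h1]
  show _ = ∑ k : D.κ e.1, (((if s then D.T e.1 else D.O e.1) k v : ℤ) : ℝ) *
    ((edv (D.κ e.1) (b e.1 e.2) k : ℤ) : ℝ)
  unfold ev
  cases s with
  | false =>
    show ((∑ k : D.κ e.1, D.O e.1 k v * edv (D.κ e.1) (b e.1 e.2) k : ℤ) : ℝ) = _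
    push_cast
    rfl
  | true =>
    show ((∑ k : D.κ e.1, D.T e.1 k v * edv (D.κ e.1) (b e.1 e.2) k : ℤ) : ℝ) = _
    push_cast
    rfl

theorem l08_ev (b : ∀ y, D.κ y → D.κ y × Option (D.κ y)) (e : Σ y, D.κ y) (s : Bool) :
    D.ev b e s = dlr D.V D.s₀ (l08_mv e.1 s ((b e.1 e.2).1 : 𝒮)) -
      dlr D.V D.s₀ (l08_mv e.1 s (D.l08_pt e.1 (b e.1 e.2).2)) := by
  rw [l08_ev', l08_T_sub D e.1 s (Finset.mem_of_mem_erase (b e.1 e.2).1.2) (D.l08_pt_mem _ _)]

theorem l08_grp1 {G : Type*} [Group G] {p a q m m' : G} (h : m = p * m') :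
    (a⁻¹ * p * q) * (q⁻¹ * m') = a⁻¹ * m := by
  subst h
  group

theorem l08_grp2 {G : Type*} [Group G] {p a q m m' : G} (h : m = p⁻¹ * m') :
    (q⁻¹ * p * a)⁻¹ * (q⁻¹ * m') = a⁻¹ * m := by
  subst h
  group

/-- the span of the edges -/
abbrev l08_W (b : ∀ y, D.κ y → D.κ y × Option (D.κ y)) (F : Finset (Σ y, D.κ y)) :
    Submodule ℝ (D.ι → ℝ) :=
  Submodule.span ℝ {w : D.ι → ℝ | ∃ e ∈ F, ∃ s, w = D.ev b e s}

/-- the span of the rows with label `y` -/
abbrev l08_U (b : ∀ y, D.κ y → D.κ y × Option (D.κ y)) (F : Finset (Σ y, D.κ y)) (y : β) :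
    Submodule ℝ (D.κ y → ℝ) :=
  Submodule.span ℝ {w : D.κ y → ℝ | ∃ j : D.κ y, (⟨y, j⟩ : Σ y, D.κ y) ∈ F ∧
    w = dlr (D.l08_E y) (D.h₀ y) ((b y j).1 : 𝒮) -
      dlr (D.l08_E y) (D.h₀ y) (D.l08_pt y (b y j).2)}

theorem l08_count_W (b : ∀ y, D.κ y → D.κ y × Option (D.κ y)) (F : Finset (Σ y, D.κ y)) :
    Module.finrank ℝ (D.l08_W b F) + Nat.card (Quotient (cls D.V D.s₀ (D.l08_W b F))) =
      D.V.card := by
  refine class_count D.V D.hs₀ (D.l08_W b F)
    {p | ∃ e ∈ F, ∃ s, (p.1 : 𝒮) = l08_mv e.1 s ((b e.1 e.2).1 : 𝒮) ∧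
      (p.2 : 𝒮) = l08_mv e.1 s (D.l08_pt e.1 (b e.1 e.2).2)} ?_
  unfold l08_W
  congr 1
  ext w
  constructor
  · rintro ⟨e, he, s, rfl⟩
    refine ⟨(⟨_, D.l08_mv_mem s (Finset.mem_of_mem_erase (b e.1 e.2).1.2)⟩,
      ⟨_, D.l08_mv_mem s (D.l08_pt_mem e.1 (b e.1 e.2).2)⟩), ⟨e, he, s, rfl, rfl⟩, ?_⟩
    exact D.l08_ev b e s
  · rintro ⟨p, ⟨e, he, s, h1, h2⟩, rfl⟩
    refine ⟨e, he, s, ?_⟩
    rw [l08_ev, h1, h2]

theorem l08_count_U (b : ∀ y, D.κ y → D.κ y × Option (D.κ y)) (F : Finset (Σ y, D.κ y)) (y : β) :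
    Module.finrank ℝ (D.l08_U b F y) +
      Nat.card (Quotient (cls (D.l08_E y) (D.h₀ y) (D.l08_U b F y))) = (D.l08_E y).card := by
  refine class_count (D.l08_E y) (D.l08_h₀ y) (D.l08_U b F y)
    {p | ∃ j : D.κ y, (⟨y, j⟩ : Σ y, D.κ y) ∈ F ∧ (p.1 : 𝒮) = ((b y j).1 : 𝒮) ∧
      (p.2 : 𝒮) = D.l08_pt y (b y j).2} ?_
  unfold l08_U
  congr 1
  ext w
  constructor
  · rintro ⟨j, hj, rfl⟩
    exact ⟨(⟨_, Finset.mem_of_mem_erase (b y j).1.2⟩, ⟨_, D.l08_pt_mem y (b y j).2⟩),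
      ⟨j, hj, rfl, rfl⟩, rfl⟩
  · rintro ⟨p, ⟨j, hj, h1, h2⟩, rfl⟩
    refine ⟨j, hj, ?_⟩
    rw [h1, h2]

theorem l08_finrank_U (b : ∀ y, D.κ y → D.κ y × Option (D.κ y))
    (hb : ∀ y, ((edv (D.κ y)).submatrix (b y) id).det ≠ 0) (F : Finset (Σ y, D.κ y)) (y : β) :
    Module.finrank ℝ (D.l08_U b F y) = (F.filter fun e => e.1 = y).card := by
  classical
  have h1 : LinearIndependent ℝ fun j : D.κ y => (fun k => ((edv (D.κ y) (b y j) k : ℤ) : ℝ)) := by
    have h2 : (((edv (D.κ y)).submatrix (b y) id).map (Int.cast : ℤ → ℝ)).det ≠ 0 := by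
      have h3 := (Int.castRingHom ℝ).map_det ((edv (D.κ y)).submatrix (b y) id)
      have h4 : ((((edv (D.κ y)).submatrix (b y) id).det : ℤ) : ℝ) ≠ 0 := Int.cast_ne_zero.mpr (hb y)
      intro h5
      apply h4
      exact h3.trans h5
    exact Matrix.linearIndependent_rows_of_det_ne_zero h2
  have h2 : LinearIndependent ℝ fun j : {j : D.κ y // (⟨y, j⟩ : Σ y, D.κ y) ∈ F} =>
      (fun k => ((edv (D.κ y) (b y j.1) k : ℤ) : ℝ)) :=
    h1.comp (fun j : {j : D.κ y // (⟨y, j⟩ : Σ y, D.κ y) ∈ F} => j.1) Subtype.val_injective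
  have h3 := finrank_span_eq_card h2
  have h4 : D.l08_U b F y = Submodule.span ℝ (Set.range
      fun j : {j : D.κ y // (⟨y, j⟩ : Σ y, D.κ y) ∈ F} =>
        (fun k => ((edv (D.κ y) (b y j.1) k : ℤ) : ℝ))) := by
    unfold l08_U
    congr 1
    ext w
    constructor
    · rintro ⟨j, hj, rfl⟩
      refine ⟨⟨j, hj⟩, ?_⟩
      funext k
      exact D.l08_edv y (b y j) k
    · rintro ⟨⟨j, hj⟩, rfl⟩
      refine ⟨j, hj, ?_⟩
      funext k
      exact D.l08_edv y (b y j) k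
  rw [h4, h3, Fintype.card_subtype]
  refine Finset.card_bij (fun j _ => (⟨y, j⟩ : Σ y, D.κ y)) ?_ ?_ ?_
  · intro j hj
    exact Finset.mem_filter.mpr ⟨(Finset.mem_filter.mp hj).2, rfl⟩
  · intro j _ j' _ h
    exact eq_of_heq (Sigma.mk.inj h).2
  · rintro ⟨y', j⟩ hj
    obtain ⟨h5, h6⟩ := Finset.mem_filter.mp hj
    dsimp only at h6
    subst h6
    exact ⟨j, Finset.mem_filter.mpr ⟨Finset.mem_univ _, h5⟩, rfl⟩

theorem l08_map (b : ∀ y, D.κ y → D.κ y × Option (D.κ y)) (F : Finset (Σ y, D.κ y)) (y : β)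
    (s : Bool) {u : D.κ y → ℝ} (hu : u ∈ D.l08_U b F y) : D.l08_T y s u ∈ D.l08_W b F := by
  have h1 : D.l08_U b F y ≤ (D.l08_W b F).comap (D.l08_T y s) := by
    refine Submodule.span_le.mpr ?_
    rintro w ⟨j, hj, rfl⟩
    show D.l08_T y s _ ∈ D.l08_W b F
    refine Submodule.subset_span ⟨⟨y, j⟩, hj, s, ?_⟩
    exact (D.l08_ev' b ⟨y, j⟩ s).symm
  exact h1 hu

/-- the graph: the end points of the classes of edges -/
def l08_o (b : ∀ y, D.κ y → D.κ y × Option (D.κ y)) (F : Finset (Σ y, D.κ y)) (s : Bool)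
    (e : Σ y, Quotient (cls (D.l08_E y) (D.h₀ y) (D.l08_U b F y))) :
    Quotient (cls D.V D.s₀ (D.l08_W b F)) :=
  Quotient.map (sa := cls (D.l08_E e.1) (D.h₀ e.1) (D.l08_U b F e.1))
    (sb := cls D.V D.s₀ (D.l08_W b F))
    (fun h => ⟨l08_mv e.1 s (h : 𝒮), D.l08_mv_mem s h.2⟩) (by
      intro h h' hh
      have h1 : dlr (D.l08_E e.1) (D.h₀ e.1) (h : 𝒮) - dlr (D.l08_E e.1) (D.h₀ e.1) (h' : 𝒮) ∈
        D.l08_U b F e.1 := hh
      have h2 := D.l08_map b F e.1 s h1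
      rw [l08_T_sub D e.1 s h.2 h'.2] at h2
      exact h2) e.2

theorem rado_cond (hcomp : Compr c) (b : ∀ y, D.κ y → D.κ y × Option (D.κ y))
    (hb : ∀ y, ((edv (D.κ y)).submatrix (b y) id).det ≠ 0) (F : Finset (Σ y, D.κ y)) :
    F.card ≤ Module.finrank ℝ (Submodule.span ℝ {w : D.ι → ℝ | ∃ e ∈ F, ∃ s, w = D.ev b e s}) := by
  classical
  have : Fintype (Quotient (cls D.V D.s₀ (D.l08_W b F))) := Fintype.ofFinite _
  have : ∀ y, Fintype (Quotient (cls (D.l08_E y) (D.h₀ y) (D.l08_U b F y))) :=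
    fun y => Fintype.ofFinite _
  have hE : ∀ {y : β} {s : 𝒮}, s ∈ D.V → FreeGroup.of y • s ∈ D.V → s ∈ D.l08_E y :=
    fun h h' => Finset.mem_filter.mpr ⟨h, h'⟩
  -- connectivity
  have hconn : ∀ l : List (β × Bool), ∀ (hl : PathIn (D.V : Set 𝒮) D.s₀ l),
      Relation.ReflTransGen (fun a a' => ∃ e, (D.l08_o b F true e = a ∧ D.l08_o b F false e = a') ∨
        (D.l08_o b F true e = a' ∧ D.l08_o b F false e = a))
        (Quotient.mk (cls D.V D.s₀ (D.l08_W b F)) ⟨D.s₀, D.hs₀⟩)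
        (Quotient.mk (cls D.V D.s₀ (D.l08_W b F)) ⟨FreeGroup.mk l • D.s₀, hl.end_mem⟩) := by
    intro l
    induction l with
    | nil =>
      intro hl
      have h1 : (⟨FreeGroup.mk [] • D.s₀, hl.end_mem⟩ : ↥D.V) = ⟨D.s₀, D.hs₀⟩ :=
        Subtype.ext (one_smul _ _)
      rw [h1]
    | cons p l ih =>
      intro hl
      have hl1 : PathIn (D.V : Set 𝒮) D.s₀ l := hl.1
      have hs : FreeGroup.mk l • D.s₀ ∈ D.V := hl1.end_mem
      refine (ih hl1).tail ?_
      obtain ⟨y, bb⟩ := p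
      cases bb with
      | true =>
        have h1 : FreeGroup.mk ((y, true) :: l) • D.s₀ =
            FreeGroup.of y • (FreeGroup.mk l • D.s₀) := by
          rw [← mul_smul]; rfl
        have h2 : FreeGroup.of y • (FreeGroup.mk l • D.s₀) ∈ D.V := by
          rw [← h1]; exact hl.end_mem
        refine ⟨⟨y, Quotient.mk _ ⟨FreeGroup.mk l • D.s₀, hE hs h2⟩⟩, Or.inl ⟨rfl, ?_⟩⟩
        show Quotient.mk (cls D.V D.s₀ (D.l08_W b F)) _ = _
        congr 1
        exact Subtype.ext h1.symm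
      | false =>
        have h1 : FreeGroup.of y • (FreeGroup.mk ((y, false) :: l) • D.s₀) =
            FreeGroup.mk l • D.s₀ := by
          have h3 : FreeGroup.mk ((y, false) :: l) = (FreeGroup.of y)⁻¹ * FreeGroup.mk l := rfl
          rw [h3, mul_smul, smul_inv_smul]
        have h2 : FreeGroup.mk ((y, false) :: l) • D.s₀ ∈ D.V := hl.end_mem
        have h4 : FreeGroup.of y • (FreeGroup.mk ((y, false) :: l) • D.s₀) ∈ D.V := by
          rw [h1]; exact hs
        refine ⟨⟨y, Quotient.mk _ ⟨FreeGroup.mk ((y, false) :: l) • D.s₀, hE h2 h4⟩⟩,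
          Or.inr ⟨rfl, ?_⟩⟩
        show Quotient.mk (cls D.V D.s₀ (D.l08_W b F)) _ = _
        congr 1
        exact Subtype.ext h1
  have hconn' : ∀ v : Quotient (cls D.V D.s₀ (D.l08_W b F)),
      Relation.ReflTransGen (fun a a' => ∃ e, (D.l08_o b F true e = a ∧ D.l08_o b F false e = a') ∨
        (D.l08_o b F true e = a' ∧ D.l08_o b F false e = a))
        (Quotient.mk (cls D.V D.s₀ (D.l08_W b F)) ⟨D.s₀, D.hs₀⟩) v := by
    intro v
    induction v using Quotient.inductionOn with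
    | h v =>
      obtain ⟨h1, h2⟩ := D.hlx v v.2
      have h3 := hconn _ h2
      have h4 : (⟨FreeGroup.mk (D.lx v) • D.s₀, h2.end_mem⟩ : ↥D.V) = v := by
        apply Subtype.ext
        show FreeGroup.mk (D.lx v) • D.s₀ = v
        rw [← h1, D.hx]
      rw [h4] at h3
      exact h3
  obtain ⟨x, S, hS, hx0, hcard, hcl⟩ := tree_gen (D.l08_o b F true) (D.l08_o b F false)
    (fun e => FreeGroup.of e.1) (Quotient.mk (cls D.V D.s₀ (D.l08_W b F)) ⟨D.s₀, D.hs₀⟩) hconn'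
  -- the generators
  have key : ∀ l : List (β × Bool), ∀ (hl : PathIn (D.V : Set 𝒮) D.s₀ l),
      (x (Quotient.mk (cls D.V D.s₀ (D.l08_W b F)) ⟨FreeGroup.mk l • D.s₀, hl.end_mem⟩))⁻¹ *
        FreeGroup.mk l ∈ Subgroup.closure S := by
    intro l
    induction l with
    | nil =>
      intro hl
      have h1 : (⟨FreeGroup.mk [] • D.s₀, hl.end_mem⟩ : ↥D.V) = ⟨D.s₀, D.hs₀⟩ :=
        Subtype.ext (one_smul _ _)
      rw [h1, hx0]
      have h2 : (1 : FreeGroup β)⁻¹ * FreeGroup.mk [] = 1 := by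
        rw [inv_one, one_mul]; rfl
      rw [h2]
      exact one_mem _
    | cons p l ih =>
      intro hl
      have hl1 : PathIn (D.V : Set 𝒮) D.s₀ l := hl.1
      have hs : FreeGroup.mk l • D.s₀ ∈ D.V := hl1.end_mem
      have hi := ih hl1
      obtain ⟨y, bb⟩ := p
      cases bb with
      | true =>
        have h1 : FreeGroup.mk ((y, true) :: l) • D.s₀ =
            FreeGroup.of y • (FreeGroup.mk l • D.s₀) := by
          rw [← mul_smul]; rfl
        have h2 : FreeGroup.of y • (FreeGroup.mk l • D.s₀) ∈ D.V := by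
          rw [← h1]; exact hl.end_mem
        have h3 := hcl ⟨y, Quotient.mk _ ⟨FreeGroup.mk l • D.s₀, hE hs h2⟩⟩
        have h4 : D.l08_o b F true ⟨y, Quotient.mk _ ⟨FreeGroup.mk l • D.s₀, hE hs h2⟩⟩ =
            Quotient.mk (cls D.V D.s₀ (D.l08_W b F)) ⟨FreeGroup.mk l • D.s₀, hl1.end_mem⟩ := rfl
        have h5 : D.l08_o b F false ⟨y, Quotient.mk _ ⟨FreeGroup.mk l • D.s₀, hE hs h2⟩⟩ =
            Quotient.mk (cls D.V D.s₀ (D.l08_W b F))
              ⟨FreeGroup.mk ((y, true) :: l) • D.s₀, hl.end_mem⟩ := by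
          show Quotient.mk (cls D.V D.s₀ (D.l08_W b F)) _ = _
          congr 1
          exact Subtype.ext h1.symm
        rw [h4, h5] at h3
        have h6 := mul_mem h3 hi
        have h7 : FreeGroup.mk ((y, true) :: l) = FreeGroup.of y * FreeGroup.mk l := rfl
        rw [l08_grp1 h7] at h6
        exact h6
      | false =>
        have h1 : FreeGroup.of y • (FreeGroup.mk ((y, false) :: l) • D.s₀) =
            FreeGroup.mk l • D.s₀ := by
          have h3 : FreeGroup.mk ((y, false) :: l) = (FreeGroup.of y)⁻¹ * FreeGroup.mk l := rfl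
          rw [h3, mul_smul, smul_inv_smul]
        have h2 : FreeGroup.mk ((y, false) :: l) • D.s₀ ∈ D.V := hl.end_mem
        have h4 : FreeGroup.of y • (FreeGroup.mk ((y, false) :: l) • D.s₀) ∈ D.V := by
          rw [h1]; exact hs
        have h3 := hcl ⟨y, Quotient.mk _ ⟨FreeGroup.mk ((y, false) :: l) • D.s₀, hE h2 h4⟩⟩
        have h5 : D.l08_o b F true
            ⟨y, Quotient.mk _ ⟨FreeGroup.mk ((y, false) :: l) • D.s₀, hE h2 h4⟩⟩ =
            Quotient.mk (cls D.V D.s₀ (D.l08_W b F))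
              ⟨FreeGroup.mk ((y, false) :: l) • D.s₀, hl.end_mem⟩ := rfl
        have h6 : D.l08_o b F false
            ⟨y, Quotient.mk _ ⟨FreeGroup.mk ((y, false) :: l) • D.s₀, hE h2 h4⟩⟩ =
            Quotient.mk (cls D.V D.s₀ (D.l08_W b F)) ⟨FreeGroup.mk l • D.s₀, hl1.end_mem⟩ := by
          show Quotient.mk (cls D.V D.s₀ (D.l08_W b F)) _ = _
          congr 1
          exact Subtype.ext h1
        rw [h5, h6] at h3
        have h8 := mul_mem (inv_mem h3) hi
        have h7 : FreeGroup.mk ((y, false) :: l) = (FreeGroup.of y)⁻¹ * FreeGroup.mk l := rfl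
        rw [l08_grp2 h7] at h8
        exact h8
  have hrange : (FreeGroup.lift c).range ≤ Subgroup.closure (hS.toFinset : Set (FreeGroup β)) := by
    rw [Set.Finite.coe_toFinset]
    refine FreeGroup.range_lift_le ?_
    rintro _ ⟨k, rfl⟩
    have h1 := key _ (D.hpath k)
    have h2 : FreeGroup.mk (c k).toWord = c k := FreeGroup.mk_toWord
    have h3 : c k • D.s₀ = D.s₀ := (D.stab _).mpr ⟨FreeGroup.of k, FreeGroup.lift_apply_of⟩
    have h4 : (⟨FreeGroup.mk (c k).toWord • D.s₀, (D.hpath k).end_mem⟩ : ↥D.V) =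
        ⟨D.s₀, D.hs₀⟩ := Subtype.ext (by
          show FreeGroup.mk (c k).toWord • D.s₀ = D.s₀
          rw [h2, h3])
    rw [h4, hx0, h2, inv_one, one_mul] at h1
    exact h1
  have hβ := hcomp hS.toFinset hrange
  rw [← Set.ncard_eq_toFinset_card S hS] at hβ
  -- the count
  have hW := D.l08_count_W b F
  have hU : ∑ y, (F.filter fun e => e.1 = y).card +
      Fintype.card (Σ y, Quotient (cls (D.l08_E y) (D.h₀ y) (D.l08_U b F y))) =
      ∑ y, (D.l08_E y).card := by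
    rw [Fintype.card_sigma, ← Finset.sum_add_distrib]
    refine Finset.sum_congr rfl fun y _ => ?_
    rw [← D.l08_finrank_U b hb F y, ← D.l08_count_U b F y, Nat.card_eq_fintype_card]
  have hF : F.card = ∑ y, (F.filter fun e => e.1 = y).card :=
    Finset.card_eq_sum_card_fiberwise fun _ _ => Finset.mem_coe.mpr (Finset.mem_univ _)
  have hk : ∑ y, (D.l08_E y).card = Fintype.card (Σ y, D.κ y) + Fintype.card β := by
    rw [Fintype.card_sigma]
    have h1 : Fintype.card β = ∑ _y : β, 1 := by simp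
    rw [h1, ← Finset.sum_add_distrib]
    refine Finset.sum_congr rfl fun y _ => ?_
    rw [Fintype.card_coe]
    exact (Finset.card_erase_add_one (D.l08_h₀ y)).symm
  have hι : Fintype.card D.ι + 1 = D.V.card := by
    rw [Fintype.card_coe]
    exact Finset.card_erase_add_one D.hs₀
  rw [D.card_eq] at hk
  rw [Nat.card_eq_fintype_card] at hW
  show F.card ≤ Module.finrank ℝ (D.l08_W b F)
  omega

end GD

end LT
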