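import Pool.Agent.H29.LG.L05
import Pool.Agent.H29.LG.L08
import Pool.Agent.H29.LG.R02

/-!
# LG-L09: the capacity bound for compressed subgroups

`dir_basis` for every `κ_y`: constants `C_y`; `M₀ = -∑_y log C_y`.  Given `Z`, take `b y`.  `rado_cond`
and `rado` give `σ` such that the vectors `u e = ev b e (σ e)`, `e ∈ Σ y, κ y`, are independent; as
`card (Σ y, κ y) = card ι` (`card_eq`) the matrix `U` with rows `u e` (reindexed to a square matrix) has
determinant `≠ 0`, an integer, so `det² ≥ 1`.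
`Z_y ≥ ∑_j w_j a_j a_jᵀ` (`w_j = edw Z (b y j) > 0`, `a_j` the row `edv (b y j)`; last claim of
`dir_basis`), so `Qr T O Z Z ≥ ∑_y ∑_j w_j [(Tᵀ a_j) (Tᵀ a_j)ᵀ + (Oᵀ a_j) (Oᵀ a_j)ᵀ] ≥ Uᵀ diag(w) U`, which is
positive definite with determinant `≥ ∏ w ≥ ∏_y (det Z_y / C_y)`.
-/

set_option linter.unusedSectionVars false

namespace LT

open scoped Matrix

variable {β : Type*} [Fintype β] [DecidableEq β]

section general

variable {ι κ : Type*} [Fintype ι] [DecidableEq ι] [Fintype κ] [DecidableEq κ]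

private theorem l09_psd {A : Matrix ι ι ℝ} (hA : Aᵀ = A) (h : ∀ x, 0 ≤ qf A x) :
    A.PosSemidef := by
  refine Matrix.PosSemidef.of_dotProduct_mulVec_nonneg ?_ fun x => ?_
  · rw [Matrix.IsHermitian, Matrix.conjTranspose_eq_transpose_of_trivial]
    exact hA
  · rw [star_trivial]
    exact h x

private theorem l09_fac {P : Matrix ι ι ℝ} (hP : P.PosSemidef) :
    ∃ B : Matrix ι ι ℝ, P = Bᴴ * B := by
  open scoped MatrixOrder in
  exact CStarAlgebra.nonneg_iff_eq_star_mul_self.mp hP.nonneg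

private theorem l09_trace {P Q : Matrix ι ι ℝ} (hP : P.PosSemidef) (hQ : Q.PosSemidef) :
    0 ≤ (P * Q).trace := by
  obtain ⟨B, rfl⟩ := l09_fac hQ
  rw [← mul_assoc, Matrix.trace_mul_comm, ← mul_assoc]
  exact (hP.mul_mul_conjTranspose_same B).trace_nonneg

private theorem l09_det_le {H K : Matrix ι ι ℝ} (hK : K.PosDef) (h : (H - K).PosSemidef) :
    H.PosDef ∧ Real.log K.det ≤ Real.log H.det := by
  have hH : H.PosDef := by
    have h1 := hK.add_posSemidef h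
    rwa [add_sub_cancel] at h1
  refine ⟨hH, ?_⟩
  have h1 := log_det_tangent hH hK
  have h2 : (H⁻¹ * (K - H)).trace = -(H⁻¹ * (H - K)).trace := by
    rw [← Matrix.trace_neg, ← Matrix.mul_neg, neg_sub]
  have h3 := l09_trace hH.inv.posSemidef h
  linarith

private theorem l09_qf_diag (w x : κ → ℝ) :
    qf (Matrix.diagonal w) x = ∑ j, w j * x j ^ 2 := by
  unfold qf
  simp only [dotProduct, Matrix.mulVec_diagonal]
  exact Finset.sum_congr rfl fun j _ => by ring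

private theorem l09_cz (S : Matrix κ ι ℤ) (a : κ → ℤ) (x : ι → ℝ) :
    cz (Sᵀ *ᵥ a) ⬝ᵥ x = cz a ⬝ᵥ (rz S *ᵥ x) := by
  have h1 : cz (Sᵀ *ᵥ a) = (rz S)ᵀ *ᵥ cz a := by
    funext i
    simp only [cz, rz, Matrix.mulVec, dotProduct, Matrix.transpose_apply, Matrix.map_apply,
      Int.cast_sum, Int.cast_mul]
  rw [h1, Matrix.mulVec_transpose, ← Matrix.dotProduct_mulVec]

end general

namespace GD

variable {c : β → FreeGroup β} {𝒮 : Type*} [DecidableEq 𝒮] [MulAction (FreeGroup β) 𝒮]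
variable (D : GD c 𝒮)

/-- the selected rows -/
private def l09_u (b : ∀ y, D.κ y → D.κ y × Option (D.κ y)) (σ : (Σ y, D.κ y) → Bool) :
    Matrix (Σ y, D.κ y) D.ι ℤ := fun e v =>
  ((if σ e then (D.T e.1)ᵀ else (D.O e.1)ᵀ) *ᵥ (edv (D.κ e.1) (b e.1 e.2))) v

private theorem l09_sq (b : ∀ y, D.κ y → D.κ y × Option (D.κ y)) (σ : (Σ y, D.κ y) → Bool)
    (x : D.ι → ℝ) (e : Σ y, D.κ y) :
    ((rz (D.l09_u b σ) *ᵥ x) e) ^ 2 ≤
      ((((edv (D.κ e.1)).submatrix (b e.1) id).map (Int.cast : ℤ → ℝ) *ᵥ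
        (rz (D.T e.1) *ᵥ x)) e.2) ^ 2 +
      ((((edv (D.κ e.1)).submatrix (b e.1) id).map (Int.cast : ℤ → ℝ) *ᵥ
        (rz (D.O e.1) *ᵥ x)) e.2) ^ 2 := by
  have h1 : ∀ S : Matrix (D.κ e.1) D.ι ℤ,
      (((edv (D.κ e.1)).submatrix (b e.1) id).map (Int.cast : ℤ → ℝ) *ᵥ (rz S *ᵥ x)) e.2 =
        cz (Sᵀ *ᵥ (edv (D.κ e.1) (b e.1 e.2))) ⬝ᵥ x := by
    intro S
    rw [l09_cz]
    rfl
  have h2 : (rz (D.l09_u b σ) *ᵥ x) e =
      cz ((if σ e then (D.T e.1)ᵀ else (D.O e.1)ᵀ) *ᵥ (edv (D.κ e.1) (b e.1 e.2))) ⬝ᵥ x := rfl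
  rw [h1, h1, h2]
  cases σ e
  · rw [if_neg Bool.false_ne_true]
    exact le_add_of_nonneg_left (sq_nonneg _)
  · rw [if_pos rfl]
    exact le_add_of_nonneg_right (sq_nonneg _)

theorem cap_bound (hcomp : Compr c) :
    ∃ M₀ : ℝ, ∀ Z : ∀ y, Matrix (D.κ y) (D.κ y) ℝ, (∀ y, Dir (Z y)) → (∀ y, (Z y).PosDef) →
      (Qr D.T D.O Z Z).PosDef ∧
      M₀ + ∑ y, Real.log (Z y).det ≤ Real.log (Qr D.T D.O Z Z).det := by
  classical
  choose C hC hdir using fun y => dir_basis (D.κ y)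
  refine ⟨-∑ y, Real.log (C y), ?_⟩
  intro Z hZ hZp
  choose b hb hw hdet hpsd using fun y => hdir y (Z y) (hZ y) (hZp y)
  have hr : ∀ F : Finset (Σ y, D.κ y), F.card ≤ Module.finrank ℝ
      (Submodule.span ℝ {v : D.ι → ℝ | ∃ e ∈ F, ∃ s, v = D.ev b e s}) :=
    fun F => D.rado_cond hcomp b hb F
  obtain ⟨σ, hσ⟩ := rado (E := Σ y, D.κ y) (W := D.ι → ℝ) (D.ev b) hr
  have e₀ : (Σ y, D.κ y) ≃ D.ι := Fintype.equivOfCardEq D.card_eq
  have hwex : ∃ w : (Σ y, D.κ y) → ℝ, (∀ e, 0 < w e) ∧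
      (∀ y, (Z y).det ≤ C y * ∏ j, w ⟨y, j⟩) ∧
      ∀ y (z : D.κ y → ℝ), ∑ j, w ⟨y, j⟩ *
        ((((edv (D.κ y)).submatrix (b y) id).map (Int.cast : ℤ → ℝ) *ᵥ z) j) ^ 2 ≤
          qf (Z y) z := by
    refine ⟨fun e => edw (Z e.1) (b e.1 e.2), fun e => hw e.1 e.2, hdet, ?_⟩
    intro y z
    have h1 := qf_mono (hpsd y) z
    rw [qf_conj, l09_qf_diag] at h1
    exact h1
  obtain ⟨w, hw0, hwdet, hZqf⟩ := hwex
  -- the square matrix
  obtain ⟨Ui, hUi⟩ : ∃ Ui : Matrix D.ι D.ι ℤ, Ui = (D.l09_u b σ).submatrix e₀.symm id :=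
    ⟨_, rfl⟩
  obtain ⟨U, hU⟩ : ∃ U : Matrix D.ι D.ι ℝ, U = rz Ui := ⟨_, rfl⟩
  have hUrow : ∀ i, U i = D.ev b (e₀.symm i) (σ (e₀.symm i)) := by
    intro i
    rw [hU, hUi]
    rfl
  have hUunit : IsUnit U := by
    rw [← Matrix.linearIndependent_rows_iff_isUnit]
    have h1 := hσ.comp e₀.symm e₀.symm.injective
    have h2 : U.row = (fun e => D.ev b e (σ e)) ∘ e₀.symm := by
      funext i
      exact hUrow i
    rw [h2]
    exact h1
  have hUdet0 : U.det ≠ 0 := ((Matrix.isUnit_iff_isUnit_det _).1 hUunit).ne_zero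
  have hUdet : U.det = ((Ui.det : ℤ) : ℝ) := by
    rw [hU, rz]
    exact ((Int.castRingHom ℝ).map_det Ui).symm
  have hUdet1 : 1 ≤ U.det ^ 2 := by
    have h1 : Ui.det ≠ 0 := by
      intro h
      rw [h, Int.cast_zero] at hUdet
      exact hUdet0 hUdet
    have h2 : (1 : ℤ) ≤ Ui.det ^ 2 := by
      have : 0 < Ui.det ^ 2 := by positivity
      omega
    rw [hUdet]
    exact_mod_cast h2
  -- the lower bound
  obtain ⟨K, hK⟩ : ∃ K : Matrix D.ι D.ι ℝ,
    K = Uᵀ * Matrix.diagonal (fun i => w (e₀.symm i)) * U := ⟨_, rfl⟩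
  have hKpd : K.PosDef := by
    have h1 : (Matrix.diagonal (fun i => w (e₀.symm i))).PosDef :=
      Matrix.PosDef.diagonal fun i => hw0 _
    have h2 := h1.conjTranspose_mul_mul_same (Matrix.mulVec_injective_iff_isUnit.2 hUunit)
    rw [Matrix.conjTranspose_eq_transpose_of_trivial] at h2
    rw [hK]
    exact h2
  have hKdet : K.det = U.det ^ 2 * ∏ e, w e := by
    rw [hK, Matrix.det_mul, Matrix.det_mul, Matrix.det_transpose, Matrix.det_diagonal,
      Equiv.prod_comp e₀.symm w]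
    ring
  have hQs : (Qr D.T D.O Z Z)ᵀ = Qr D.T D.O Z Z := by
    unfold Qr
    rw [Matrix.transpose_sum]
    refine Finset.sum_congr rfl fun y _ => ?_
    rw [Matrix.transpose_add, Matrix.transpose_mul, Matrix.transpose_mul, Matrix.transpose_mul,
      Matrix.transpose_mul, Matrix.transpose_transpose, Matrix.transpose_transpose, (hZ y).1,
      Matrix.mul_assoc, Matrix.mul_assoc]
  have hKs : Kᵀ = K := by
    rw [hK, Matrix.transpose_mul, Matrix.transpose_mul, Matrix.transpose_transpose,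
      Matrix.diagonal_transpose, Matrix.mul_assoc]
  have hle : ∀ x, qf K x ≤ qf (Qr D.T D.O Z Z) x := by
    intro x
    rw [hK, qf_conj, l09_qf_diag]
    have h1 : ∀ i, (U *ᵥ x) i = (rz (D.l09_u b σ) *ᵥ x) (e₀.symm i) := by
      intro i
      rw [hU, hUi]
      rfl
    have h2 : ∑ i, w (e₀.symm i) * (U *ᵥ x) i ^ 2 =
        ∑ e, w e * ((rz (D.l09_u b σ) *ᵥ x) e) ^ 2 := by
      rw [← Equiv.sum_comp e₀.symm (fun e => w e * ((rz (D.l09_u b σ) *ᵥ x) e) ^ 2)]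
      exact Finset.sum_congr rfl fun i _ => by rw [h1]
    rw [h2]
    unfold Qr
    rw [qf_sum, Fintype.sum_sigma]
    refine Finset.sum_le_sum fun y _ => ?_
    rw [qf_add, qf_conj, qf_conj]
    refine le_trans ?_ (add_le_add (hZqf y (rz (D.T y) *ᵥ x)) (hZqf y (rz (D.O y) *ᵥ x)))
    rw [← Finset.sum_add_distrib]
    refine Finset.sum_le_sum fun j _ => ?_
    rw [← mul_add]
    exact mul_le_mul_of_nonneg_left (D.l09_sq b σ x ⟨y, j⟩) (hw0 _).le
  have hpsd' : (Qr D.T D.O Z Z - K).PosSemidef := by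
    refine l09_psd ?_ fun x => ?_
    · rw [Matrix.transpose_sub, hQs, hKs]
    · rw [qf_sub]
      have := hle x
      linarith
  obtain ⟨h1, h2⟩ := l09_det_le hKpd hpsd'
  refine ⟨h1, le_trans ?_ h2⟩
  have hprod : 0 < ∏ e, w e := Finset.prod_pos fun e _ => hw0 e
  have h3 : Real.log (∏ e, w e) ≤ Real.log K.det := by
    refine Real.log_le_log hprod ?_
    rw [hKdet]
    exact le_mul_of_one_le_left hprod.le hUdet1
  refine le_trans ?_ h3
  rw [Fintype.prod_sigma, Real.log_prod (fun y _ =>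
    (Finset.prod_pos fun j _ => hw0 ⟨y, j⟩).ne'), ← Finset.sum_neg_distrib,
    ← Finset.sum_add_distrib]
  refine Finset.sum_le_sum fun y _ => ?_
  have h4 : 0 < ∏ j, w ⟨y, j⟩ := Finset.prod_pos fun j _ => hw0 ⟨y, j⟩
  have h5 : (Z y).det ≤ C y * ∏ j, w ⟨y, j⟩ := hwdet y
  have h6 := Real.log_le_log (hZp y).det_pos h5
  rw [Real.log_mul (hC y).ne' h4.ne'] at h6
  linarith

end GD

end LT
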