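import Pool.Agent.H29.LG.R03

/-!
# LG-R04: the gap: a pencil of determinant class has a positive lower bound
-/

set_option linter.unusedSectionVars false

namespace LT

open scoped Matrix ComplexOrder

variable {β : Type*} [Fintype β] [DecidableEq β]
variable {κ : β → Type*} [∀ y, Fintype (κ y)] [∀ y, DecidableEq (κ y)]
variable {ι : Type*} [Fintype ι] [DecidableEq ι]

theorem pencil_gap [Nonempty ι] (e : (Σ y, κ y) ≃ ι) (T O : ∀ y, Matrix (κ y) ι ℤ)
    (gT : ∀ y, (rz (T y) * (rz (T y))ᵀ).PosDef) (gO : ∀ y, (rz (O y) * (rz (O y))ᵀ).PosDef)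
    (hc : Comb T O) {M₀ : ℝ} (hM : LB ((penc T O).submatrix e.symm id) M₀) :
    ∃ c : ℝ, 0 < c ∧ LB ((penc T O).submatrix e.symm id) c := by
  have hcard : ∑ y, Fintype.card (κ y) = Fintype.card ι := by
    rw [← Fintype.card_sigma]
    exact Fintype.card_congr e
  obtain ⟨C, hC, hth⟩ := theta_bound T O hcard gT gO hc
  obtain ⟨x, hx⟩ : ∃ x, x = (penc T O).submatrix e.symm id := ⟨_, rfl⟩
  have hP : PM ((lamM (mapM m2phi x))ᴴ * lamM (mapM m2phi x)) := PM_conjTranspose_mul_self _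
  refine ⟨(1 / 2 : ℝ) ^ (4 * Fintype.card ι + 4) / 2, by positivity, ?_⟩
  rw [← hx] at hM ⊢
  intro ε hε
  rw [← LG_mapM m2phi m2phi_inj x hε]
  refine le_of_dyadic (l := fun η => LG (mapM m2phi x) η)
    (k := fun η => q06_k (trN (F2 β)) ((lamM (mapM m2phi x))ᴴ * lamM (mapM m2phi x)) η)
    (M₀ := M₀) (by positivity) hC (fun ε ε' h h' => LG_mono _ h h') ?_ ?_ ?_ hε
  · intro η hη
    change M₀ ≤ LG (mapM m2phi x) η
    rw [LG_mapM m2phi m2phi_inj x hη]
    exact hM η hη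
  · intro η hη
    exact q06_step hP hη
  · intro η hη hη1
    obtain ⟨M, h1, h2⟩ := exists_msg e T O gT gO hη
    rw [← hx] at h1 h2
    have h3 := hth η hη hη1 M
    rw [← h2] at h3
    exact h3.trans h1

end LT
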