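import Pool.Agent.H29.LG.L03
import Pool.Agent.H29.LG.L09
import Pool.Agent.H29.LG.R02
import Pool.Agent.H29.LG.R04

/-!
# LG-L10: compressed subgroups: the pencil is of determinant class
-/

set_option linter.unusedSectionVars false

namespace LT

open scoped Matrix ComplexOrder

variable {β : Type*} [Fintype β] [DecidableEq β]

namespace GD

variable {c : β → FreeGroup β} {𝒮 : Type*} [DecidableEq 𝒮] [MulAction (FreeGroup β) 𝒮]

theorem isD_T (D : GD c 𝒮) : IsD D.V D.s₀ D.T := by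
  intro y
  refine ⟨fun h => (h : 𝒮), D.h₀ y, ?_⟩
  ext h v
  simp only [rz, GD.T, dmat, Matrix.map_apply]
  push_cast
  rfl

theorem isD_O (D : GD c 𝒮) : IsD D.V D.s₀ D.O := by
  intro y
  refine ⟨fun h => FreeGroup.of y • (h : 𝒮), FreeGroup.of y • D.h₀ y, ?_⟩
  ext h v
  simp only [rz, GD.O, dmat, Matrix.map_apply]
  push_cast
  rfl

theorem compressed_LB (D : GD c 𝒮) (gT : ∀ y, (rz (D.T y) * (rz (D.T y))ᵀ).PosDef)
    (gO : ∀ y, (rz (D.O y) * (rz (D.O y))ᵀ).PosDef) (hcomp : Compr c)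
    (e : (Σ y, D.κ y) ≃ D.ι) : ∃ M₀ : ℝ, LB (D.f.submatrix e.symm id) M₀ := by
  obtain ⟨M₀, hM₀⟩ := D.cap_bound hcomp
  have hcard : ∑ y, Fintype.card (D.κ y) = Fintype.card D.ι := by
    rw [← D.card_eq, Fintype.card_sigma]
  refine ⟨M₀ - Fintype.card D.ι * Real.log 2, ?_⟩
  intro η hη
  obtain ⟨M, hp, hq, hE⟩ := exists_msg_dir e D.T D.O D.isD_T D.isD_O gT gO hη
  rw [LG_mapM m2phi m2phi_inj _ hη] at hE
  have hZ : ∀ y, (M.p y + M.q y).PosDef := fun y => (M.p_pos y).add (M.q_pos y)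
  have hd : ∀ y, Dir (M.p y + M.q y) := fun y => (hp y).add (hq y)
  have h1 := hM₀ (fun y => M.p y + M.q y) hd hZ
  exact (E0_ge_one D.T D.O hcard hη M h1.1 h1.2).trans hE

end GD

end LT
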