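import Pool.Agent.H29.LG.F01
import Pool.Agent.H29.LG.C02
import Pool.Agent.H29.LG.C03
import Pool.Agent.H29.LG.K08
import Pool.Agent.H29.LG.L10

/-!
# LG-F03: lower bounds for the Jacobians of compressed families; towers
-/

set_option linter.unusedSectionVars false

namespace LT

open scoped Matrix ComplexOrder

variable {β : Type*} [Fintype β] [DecidableEq β]

/-- the Jacobian matrix of a family of words -/
noncomputable def Jc (c : β → FreeGroup β) : Matrix β β (FR β) := fun k b => fox b (c k)

theorem intM_Jc (c : β → FreeGroup β) : IntM (Jc c) := fun _ _ => fox_mem_intR _ _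

theorem Jc_detclass (c : β → FreeGroup β) (hc : Function.Injective (FreeGroup.lift c))
    (hcomp : Compr c) : LB (Jc c) 0 := by
  classical
  obtain ⟨D⟩ := exists_GD_letter c hc (Compr.letter hcomp)
  have e : (Σ y, D.κ y) ≃ D.ι := Fintype.equivOfCardEq D.card_eq
  obtain ⟨M₀, hM₀⟩ := D.compressed_LB D.gram_T D.gram_O hcomp e
  exact LB_zero_of_int (intM_Jc c) (D.LB_of_pencil e hM₀)

theorem Jc_malnormal (c : β → FreeGroup β) (hc : Function.Injective (FreeGroup.lift c))
    (hcomp : Compr c) (hne : (FreeGroup.lift c).range ≠ ⊤)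
    (hmal : ∀ γ : FreeGroup β, γ ∉ (FreeGroup.lift c).range → ∀ k ∈ (FreeGroup.lift c).range,
      γ * k * γ⁻¹ ∈ (FreeGroup.lift c).range → k = 1) :
    ∃ r : ℝ, 0 < r ∧ LB (Jc c) r := by
  classical
  obtain ⟨D⟩ := exists_GD_letter c hc (Compr.letter hcomp)
  have hn : Nonempty D.ι := D.nonempty_ι hne
  have e : (Σ y, D.κ y) ≃ D.ι := Fintype.equivOfCardEq D.card_eq
  obtain ⟨M₀, hM₀⟩ := D.compressed_LB D.gram_T D.gram_O hcomp e
  have hcomb : Comb D.T D.O := D.comb_of_free fun m hm h0 g hg =>
    D.free_of_malnormal hmal m hm h0 g hg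
  obtain ⟨r, hr, hLB⟩ := pencil_gap e D.T D.O D.gram_T D.gram_O hcomb hM₀
  exact ⟨r, hr, D.LB_of_pencil e hLB⟩

/-- the chain rule for Jacobians -/
theorem Jc_comp (a w : β → FreeGroup β) :
    Jc (fun k => FreeGroup.lift a (w k)) = mapM (FreeGroup.lift a) (Jc w) * Jc a := by
  funext k b
  rw [Matrix.mul_apply]
  have h := chain_rule a (fun (g : FreeGroup β) (b : β) => fox b (FreeGroup.lift a g))
    (fun u v => by
      funext b
      rw [map_mul, fox_mul]
      rfl) (w k) b
  change fox b (FreeGroup.lift a (w k)) = _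
  rw [h]
  refine Finset.sum_congr rfl fun j _ => ?_
  change _ = MonoidAlgebra.mapDomain (FreeGroup.lift a) (fox j (w k)) * fox b (a j)
  rw [FreeGroup.lift_apply_of]

theorem lift_comp_apply (a w : β → FreeGroup β) (g : FreeGroup β) :
    FreeGroup.lift (fun k => FreeGroup.lift a (w k)) g = FreeGroup.lift a (FreeGroup.lift w g) := by
  have h : FreeGroup.lift (fun k => FreeGroup.lift a (w k)) =
      (FreeGroup.lift a).comp (FreeGroup.lift w) := by
    ext k
    rw [FreeGroup.lift_apply_of, MonoidHom.comp_apply, FreeGroup.lift_apply_of]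
  rw [h]
  rfl

/-- factor a family through a larger subgroup -/
theorem exists_factor (a c : β → FreeGroup β)
    (h : (FreeGroup.lift c).range ≤ (FreeGroup.lift a).range) :
    ∃ w : β → FreeGroup β, c = fun k => FreeGroup.lift a (w k) := by
  have h1 : ∀ k, ∃ w, FreeGroup.lift a w = c k := by
    intro k
    have h2 : c k ∈ (FreeGroup.lift c).range := ⟨FreeGroup.of k, FreeGroup.lift_apply_of⟩
    exact h h2
  choose w hw using h1
  exact ⟨w, funext fun k => (hw k).symm⟩

theorem Compr.mono {a c : β → FreeGroup β} (h : Compr c)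
    (hle : (FreeGroup.lift c).range ≤ (FreeGroup.lift a).range) : Compr a :=
  fun S hS => h S (hle.trans hS)

theorem Compr.of_comp {a w : β → FreeGroup β}
    (h : Compr (fun k => FreeGroup.lift a (w k))) : Compr w := by
  classical
  intro S hS
  have h1 := h (S.image (FreeGroup.lift a)) (by
    rintro _ ⟨g, rfl⟩
    rw [lift_comp_apply]
    have h2 : FreeGroup.lift w g ∈ Subgroup.closure (S : Set (FreeGroup β)) := hS ⟨g, rfl⟩
    have h3 : FreeGroup.lift a (FreeGroup.lift w g) ∈
        (Subgroup.closure (S : Set (FreeGroup β))).map (FreeGroup.lift a) :=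
      Subgroup.mem_map_of_mem _ h2
    rw [MonoidHom.map_closure] at h3
    rw [Finset.coe_image]
    exact h3)
  exact h1.trans Finset.card_image_le

theorem Jc_tower (c a d : β → FreeGroup β) (hc : Function.Injective (FreeGroup.lift c))
    (ha : Function.Injective (FreeGroup.lift a)) (hd : Function.Injective (FreeGroup.lift d))
    (hcomp : Compr c) (hca : (FreeGroup.lift c).range ≤ (FreeGroup.lift a).range)
    (had : (FreeGroup.lift a).range < (FreeGroup.lift d).range)
    (hmal : ∀ γ ∈ (FreeGroup.lift d).range, γ ∉ (FreeGroup.lift a).range →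
      ∀ k ∈ (FreeGroup.lift a).range, γ * k * γ⁻¹ ∈ (FreeGroup.lift a).range → k = 1) :
    ∃ r : ℝ, 0 < r ∧ LB (Jc c) r := by
  obtain ⟨w, rfl⟩ := exists_factor a c hca
  obtain ⟨v, rfl⟩ := exists_factor d a had.le
  have hw : Compr w := hcomp.of_comp
  have hcompa := hcomp.mono hca
  have hv : Compr v := hcompa.of_comp
  have hcd : Compr d := hcompa.mono had.le
  have hwi : Function.Injective (FreeGroup.lift w) := by
    intro x y hxy
    apply hc
    rw [lift_comp_apply (fun k => FreeGroup.lift d (v k)) w x,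
      lift_comp_apply (fun k => FreeGroup.lift d (v k)) w y, hxy]
  have hvi : Function.Injective (FreeGroup.lift v) := by
    intro x y hxy
    apply ha
    rw [lift_comp_apply d v x, lift_comp_apply d v y, hxy]
  have hmem : ∀ g : FreeGroup β, FreeGroup.lift d g ∈
      (FreeGroup.lift fun k => FreeGroup.lift d (v k)).range ↔ g ∈ (FreeGroup.lift v).range := by
    intro g
    constructor
    · rintro ⟨x, hx⟩
      rw [lift_comp_apply] at hx
      exact ⟨x, hd hx⟩
    · rintro ⟨x, rfl⟩
      exact ⟨x, lift_comp_apply d v x⟩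
  have hne : (FreeGroup.lift v).range ≠ ⊤ := by
    intro h
    apply had.ne
    refine le_antisymm had.le ?_
    rintro _ ⟨g, rfl⟩
    rw [hmem, h]
    exact Subgroup.mem_top g
  have hmal' : ∀ γ : FreeGroup β, γ ∉ (FreeGroup.lift v).range →
      ∀ k ∈ (FreeGroup.lift v).range, γ * k * γ⁻¹ ∈ (FreeGroup.lift v).range → k = 1 := by
    intro γ hγ k hk hγk
    have h0 : FreeGroup.lift d γ * FreeGroup.lift d k * (FreeGroup.lift d γ)⁻¹ =
        FreeGroup.lift d (γ * k * γ⁻¹) := by
      rw [map_mul, map_mul, map_inv]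
    have h1 := hmal (FreeGroup.lift d γ) ⟨γ, rfl⟩ (fun h => hγ ((hmem γ).1 h))
      (FreeGroup.lift d k) ((hmem k).2 hk) (by
        rw [h0]
        exact (hmem _).2 hγk)
    apply hd
    rw [h1, map_one]
  obtain ⟨r, hr, hJv⟩ := Jc_malnormal v hvi hv hne hmal'
  refine ⟨r, hr, ?_⟩
  have hJw := LB_mapM (FreeGroup.lift fun k => FreeGroup.lift d (v k)) ha (Jc_detclass w hwi hw)
  have hJd := Jc_detclass d hd hcd
  have h1 := LB_mul (LB_mapM (FreeGroup.lift d) hd hJv) hJd
  rw [← Jc_comp] at h1
  have h2 := LB_mul hJw h1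
  rw [← Jc_comp, add_zero, zero_add] at h2
  exact h2

end LT
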