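import Mathlib

/-!
# LG: Gaussian sums over the integer lattice (definitions)

`qf A x = xᵀ A x`, `gw A x = exp (-π xᵀ A x)`, `th A = ∑_{m ∈ ℤ^ι} gw A m`,
`mq A M = E_{m ~ A} (mᵀ M m)` for the discrete Gaussian measure with weights `gw A m`.
`th1`, `c1` are the one-dimensional versions.
-/

set_option linter.unusedSectionVars false

namespace LT

open scoped Matrix

variable {ι : Type*} [Fintype ι]

/-- the quadratic form `xᵀ A x` -/
def qf (A : Matrix ι ι ℝ) (x : ι → ℝ) : ℝ := x ⬝ᵥ (A *ᵥ x)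

/-- an integer vector as a real vector -/
def cz {ι : Type*} (m : ι → ℤ) : ι → ℝ := fun i => (m i : ℝ)

/-- `exp (-π xᵀ A x)` -/
noncomputable def gw (A : Matrix ι ι ℝ) (x : ι → ℝ) : ℝ := Real.exp (-(Real.pi * qf A x))

/-- `θ(A) = ∑_{m ∈ ℤ^ι} exp (-π mᵀ A m)` -/
noncomputable def th (A : Matrix ι ι ℝ) : ℝ := ∑' m : ι → ℤ, gw A (cz m)

/-- expectation of `mᵀ M m` for the discrete Gaussian measure on `ℤ^ι` with weights
`exp (-π mᵀ A m)` -/
noncomputable def mq (A M : Matrix ι ι ℝ) : ℝ :=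
  (∑' m : ι → ℤ, qf M (cz m) * gw A (cz m)) / th A

/-- `∑_{n ∈ ℤ} exp (-π s n²)` -/
noncomputable def th1 (s : ℝ) : ℝ := ∑' n : ℤ, Real.exp (-(Real.pi * s * (n : ℝ) ^ 2))

/-- `E n²` for the discrete Gaussian measure on `ℤ` with weights `exp (-π s n²)` -/
noncomputable def c1 (s : ℝ) : ℝ :=
  (∑' n : ℤ, (n : ℝ) ^ 2 * Real.exp (-(Real.pi * s * (n : ℝ) ^ 2))) / th1 s

end LT
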