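import Pool.Agent.H29.LG.G00

/-!
# LG-G01: quadratic forms and summability of Gaussian sums

* `exists_qf_ge`: smallest eigenvalue, or compactness of the unit sphere; `qf_le`: all entries.
* `gs_summable`: `qf A (m + x) ≥ δ ∑ (m_i + x_i)²`, and
  `(1 + ∑ |y_i|)^k exp (-π δ ∑ y_i²) ≤ C ∏_i exp (-|y_i|)` for a constant `C`; the product over `i`
  of the summable functions `n ↦ exp (-|n + x_i|)` on `ℤ` is summable on `ι → ℤ`
  (induction on `ι`, or `Summable` of a product over a `Fintype`, or compare with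
  `∏_i 1/(1+n_i²)`; any route is fine).
-/

set_option linter.unusedSectionVars false

namespace LT

open scoped Matrix

variable {ι : Type*} [Fintype ι] [DecidableEq ι]

theorem qf_add (A B : Matrix ι ι ℝ) (x : ι → ℝ) : qf (A + B) x = qf A x + qf B x := by
  simp only [qf, Matrix.add_mulVec, dotProduct_add]

theorem qf_sub (A B : Matrix ι ι ℝ) (x : ι → ℝ) : qf (A - B) x = qf A x - qf B x := by
  simp only [qf, Matrix.sub_mulVec, dotProduct_sub]

theorem qf_smul (c : ℝ) (A : Matrix ι ι ℝ) (x : ι → ℝ) : qf (c • A) x = c * qf A x := by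
  simp only [qf, Matrix.smul_mulVec, dotProduct_smul, smul_eq_mul]

theorem qf_one (x : ι → ℝ) : qf (1 : Matrix ι ι ℝ) x = ∑ i, x i ^ 2 := by
  simp only [qf, Matrix.one_mulVec, dotProduct, sq]

theorem qf_sum {μ : Type*} (s : Finset μ) (A : μ → Matrix ι ι ℝ) (x : ι → ℝ) :
    qf (∑ j ∈ s, A j) x = ∑ j ∈ s, qf (A j) x := by
  classical
  induction s using Finset.induction_on with
  | empty => simp [qf]
  | insert a s ha ih => rw [Finset.sum_insert ha, Finset.sum_insert ha, qf_add, ih]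

/-- `qf (Bᵀ P B) x = qf P (B x)` -/
theorem qf_conj {κ : Type*} [Fintype κ] (B : Matrix κ ι ℝ) (P : Matrix κ κ ℝ) (x : ι → ℝ) :
    qf (Bᵀ * P * B) x = qf P (B *ᵥ x) := by
  unfold qf
  rw [← Matrix.mulVec_mulVec, ← Matrix.mulVec_mulVec, Matrix.dotProduct_mulVec,
    Matrix.vecMul_transpose]

theorem qf_vecMulVec (v x : ι → ℝ) : qf (Matrix.vecMulVec v v) x = (v ⬝ᵥ x) ^ 2 := by
  unfold qf
  rw [Matrix.vecMulVec_mulVec, dotProduct_smul, dotProduct_comm x v, op_smul_eq_mul]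
  ring

theorem qf_pos {A : Matrix ι ι ℝ} (hA : A.PosDef) {x : ι → ℝ} (hx : x ≠ 0) : 0 < qf A x := by
  have h := hA.dotProduct_mulVec_pos hx
  simpa [qf] using h

theorem qf_nonneg {A : Matrix ι ι ℝ} (hA : A.PosSemidef) (x : ι → ℝ) : 0 ≤ qf A x := by
  have h := hA.dotProduct_mulVec_nonneg x
  simpa [qf] using h

theorem qf_mono {A B : Matrix ι ι ℝ} (h : (B - A).PosSemidef) (x : ι → ℝ) : qf A x ≤ qf B x := by
  have h1 := qf_nonneg h x
  rw [qf_sub] at h1
  linarith

/-- a positive semidefinite matrix is a sum of squares -/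
theorem exists_psd_decomp {P : Matrix ι ι ℝ} (hP : P.PosSemidef) :
    ∃ w : ι → ι → ℝ, P = ∑ k, Matrix.vecMulVec (w k) (w k) := by
  open scoped MatrixOrder in
  have h0 : 0 ≤ P := hP.nonneg
  open scoped MatrixOrder Matrix.Norms.L2Operator in
  obtain ⟨B, hB⟩ := CStarAlgebra.nonneg_iff_eq_star_mul_self.mp h0
  refine ⟨fun k => B k, ?_⟩
  rw [hB]
  ext i j
  simp [Matrix.mul_apply, Matrix.sum_apply, Matrix.vecMulVec_apply, Matrix.star_apply]

theorem g01_sum_sq_le_card_mul_norm_sq (x : ι → ℝ) :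
    ∑ i, x i ^ 2 ≤ (Fintype.card ι : ℝ) * ‖x‖ ^ 2 := by
  calc ∑ i, x i ^ 2 ≤ ∑ _i : ι, ‖x‖ ^ 2 := by
        refine Finset.sum_le_sum fun i _ => ?_
        have h := norm_le_pi_norm x i
        rw [Real.norm_eq_abs] at h
        rw [← sq_abs (x i)]
        exact pow_le_pow_left₀ (abs_nonneg _) h 2
    _ = (Fintype.card ι : ℝ) * ‖x‖ ^ 2 := by simp

theorem g01_continuous_qf (A : Matrix ι ι ℝ) : Continuous (qf A) := by
  unfold qf
  simp only [dotProduct, Matrix.mulVec]
  fun_prop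

theorem g01_qf_smul_vec (A : Matrix ι ι ℝ) (c : ℝ) (x : ι → ℝ) :
    qf A (c • x) = c ^ 2 * qf A x := by
  unfold qf
  rw [Matrix.mulVec_smul, dotProduct_smul, smul_dotProduct, smul_eq_mul, smul_eq_mul]
  ring

theorem exists_qf_ge {A : Matrix ι ι ℝ} (hA : A.PosDef) :
    ∃ δ : ℝ, 0 < δ ∧ ∀ x : ι → ℝ, δ * ∑ i, x i ^ 2 ≤ qf A x := by
  rcases isEmpty_or_nonempty ι with he | hne
  · exact ⟨1, one_pos, fun x => by simp [qf, dotProduct]⟩
  have hcard : (0 : ℝ) < Fintype.card ι := by exact_mod_cast Fintype.card_pos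
  have hsph : IsCompact (Metric.sphere (0 : ι → ℝ) 1) := isCompact_sphere _ _
  have hne' : (Metric.sphere (0 : ι → ℝ) 1).Nonempty := NormedSpace.sphere_nonempty.mpr zero_le_one
  obtain ⟨y, hy, hmin⟩ := hsph.exists_isMinOn hne' (g01_continuous_qf A).continuousOn
  have hy0 : y ≠ 0 := by
    rintro rfl
    simp at hy
  have hpos := qf_pos hA hy0
  refine ⟨qf A y / Fintype.card ι, div_pos hpos hcard, fun x => ?_⟩
  by_cases hx : x = 0
  · subst hx
    simp [qf]
  have hn : 0 < ‖x‖ := norm_pos_iff.mpr hx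
  have h1 : qf A y ≤ qf A (‖x‖⁻¹ • x) := by
    apply hmin
    simp [norm_smul, hn.ne']
  rw [g01_qf_smul_vec] at h1
  have h2 : qf A y * ‖x‖ ^ 2 ≤ qf A x := by
    have h3 := mul_le_mul_of_nonneg_right h1 (sq_nonneg ‖x‖)
    have h4 : ‖x‖⁻¹ ^ 2 * qf A x * ‖x‖ ^ 2 = qf A x := by
      field_simp
    linarith
  calc qf A y / Fintype.card ι * ∑ i, x i ^ 2
      ≤ qf A y / Fintype.card ι * ((Fintype.card ι : ℝ) * ‖x‖ ^ 2) :=
        mul_le_mul_of_nonneg_left (g01_sum_sq_le_card_mul_norm_sq x) (div_pos hpos hcard).le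
    _ = qf A y * ‖x‖ ^ 2 := by field_simp
    _ ≤ qf A x := h2

theorem exists_abs_qf_le (A : Matrix ι ι ℝ) :
    ∃ K : ℝ, 0 ≤ K ∧ ∀ x : ι → ℝ, |qf A x| ≤ K * ∑ i, x i ^ 2 := by
  refine ⟨∑ i, ∑ j, |A i j|, Finset.sum_nonneg fun i _ => Finset.sum_nonneg fun j _ =>
    abs_nonneg _, fun x => ?_⟩
  have h1 : qf A x = ∑ i, ∑ j, A i j * (x i * x j) := by
    simp only [qf, dotProduct, Matrix.mulVec, Finset.mul_sum]
    exact Finset.sum_congr rfl fun i _ => Finset.sum_congr rfl fun j _ => by ring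
  have h2 : ∀ i, x i ^ 2 ≤ ∑ i, x i ^ 2 := fun i =>
    Finset.single_le_sum (f := fun i => x i ^ 2) (fun j _ => sq_nonneg _) (Finset.mem_univ i)
  rw [h1, Finset.sum_mul]
  refine (Finset.abs_sum_le_sum_abs _ _).trans (Finset.sum_le_sum fun i _ => ?_)
  rw [Finset.sum_mul]
  refine (Finset.abs_sum_le_sum_abs _ _).trans (Finset.sum_le_sum fun j _ => ?_)
  rw [abs_mul]
  refine mul_le_mul_of_nonneg_left ?_ (abs_nonneg _)
  rw [abs_le]
  constructor <;> nlinarith [h2 i, h2 j, sq_nonneg (x i + x j), sq_nonneg (x i - x j)]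

theorem g01_summable_exp_neg_abs_int : Summable fun n : ℤ => Real.exp (-|(n : ℝ)|) := by
  have h : Summable fun n : ℕ => Real.exp (-(n : ℝ)) := Real.summable_exp_neg_nat
  refine Summable.of_nat_of_neg ?_ ?_
  · refine h.congr fun n => ?_
    simp
  · refine h.congr fun n => ?_
    simp

theorem g01_summable_exp_neg_abs_int_add (x : ℝ) :
    Summable fun n : ℤ => Real.exp (-|(n : ℝ) + x|) := by
  refine Summable.of_nonneg_of_le (fun n => (Real.exp_pos _).le) (fun n => ?_)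
    (g01_summable_exp_neg_abs_int.mul_left (Real.exp |x|))
  rw [← Real.exp_add]
  apply Real.exp_le_exp.mpr
  have h : |(n : ℝ)| ≤ |(n : ℝ) + x| + |x| := by
    have h1 := abs_sub_abs_le_abs_sub (n : ℝ) (-x)
    rw [sub_neg_eq_add, abs_neg] at h1
    linarith
  linarith

theorem g01_summable_pi (f : ι → ℤ → ℝ) (h0 : ∀ i n, 0 ≤ f i n) (hf : ∀ i, Summable (f i)) :
    Summable fun m : ι → ℤ => ∏ i, f i (m i) := by
  refine summable_of_sum_le (c := ∏ i, ∑' n, f i n) (fun m => Finset.prod_nonneg fun i _ => h0 i _)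
    fun s => ?_
  have hsub : s ⊆ Fintype.piFinset fun i => s.image fun m => m i := by
    intro m hm
    rw [Fintype.mem_piFinset]
    exact fun i => Finset.mem_image_of_mem _ hm
  calc ∑ m ∈ s, ∏ i, f i (m i)
      ≤ ∑ m ∈ Fintype.piFinset fun i => s.image fun m => m i, ∏ i, f i (m i) :=
        Finset.sum_le_sum_of_subset_of_nonneg hsub fun m _ _ => Finset.prod_nonneg fun i _ => h0 i _
    _ = ∏ i, ∑ n ∈ s.image fun m => m i, f i n := (Finset.prod_univ_sum _ _).symm
    _ ≤ ∏ i, ∑' n, f i n := Finset.prod_le_prod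
        (fun i _ => Finset.sum_nonneg fun n _ => h0 i n)
        (fun i _ => (hf i).sum_le_tsum _ fun n _ => h0 i n)

theorem g01_pow_le (k : ℕ) {s : ℝ} (hs : 0 ≤ s) : s ^ k ≤ (k.factorial : ℝ) * Real.exp s := by
  have h := Real.pow_div_factorial_le_exp s hs k
  have hk : (0 : ℝ) < k.factorial := by exact_mod_cast k.factorial_pos
  rw [div_le_iff₀ hk] at h
  linarith

theorem gs_summable_sq {δ : ℝ} (hδ : 0 < δ) (x : ι → ℝ) (k : ℕ) :
    Summable fun m : ι → ℤ => (1 + ∑ i, |cz m i + x i|) ^ k *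
      Real.exp (-(Real.pi * (δ * ∑ i, (cz m i + x i) ^ 2))) := by
  have hπδ : 0 < Real.pi * δ := mul_pos Real.pi_pos hδ
  have hsum : Summable fun m : ι → ℤ => ∏ i, Real.exp (-|(m i : ℝ) + x i|) :=
    g01_summable_pi (fun i n => Real.exp (-|(n : ℝ) + x i|)) (fun i n => (Real.exp_pos _).le)
      fun i => g01_summable_exp_neg_abs_int_add (x i)
  refine Summable.of_nonneg_of_le (fun m => ?_) (fun m => ?_)
    (hsum.mul_left ((k.factorial : ℝ) * Real.exp (1 + Fintype.card ι * (1 / (Real.pi * δ)))))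
  · positivity
  · have hS : 0 ≤ 1 + ∑ i, |cz m i + x i| := by positivity
    have h1 := g01_pow_le k hS
    have h2 : ∀ i, 2 * |cz m i + x i| ≤
        Real.pi * δ * (cz m i + x i) ^ 2 + 1 / (Real.pi * δ) := by
      intro i
      rw [← sq_abs (cz m i + x i)]
      set y := |cz m i + x i|
      have h3 : 0 ≤ (Real.pi * δ * y - 1) ^ 2 / (Real.pi * δ) := by positivity
      have h4 : (Real.pi * δ * y - 1) ^ 2 / (Real.pi * δ) =
          Real.pi * δ * y ^ 2 + 1 / (Real.pi * δ) - 2 * y := by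
        field_simp
        ring
      linarith
    have h5 := Finset.sum_le_sum fun (i : ι) (_ : i ∈ Finset.univ) => h2 i
    rw [← Finset.mul_sum, Finset.sum_add_distrib, ← Finset.mul_sum, Finset.sum_const,
      Finset.card_univ, nsmul_eq_mul] at h5
    rw [← Real.exp_sum]
    calc (1 + ∑ i, |cz m i + x i|) ^ k * Real.exp (-(Real.pi * (δ * ∑ i, (cz m i + x i) ^ 2)))
        ≤ (k.factorial : ℝ) * Real.exp (1 + ∑ i, |cz m i + x i|) *
          Real.exp (-(Real.pi * (δ * ∑ i, (cz m i + x i) ^ 2))) :=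
          mul_le_mul_of_nonneg_right h1 (Real.exp_pos _).le
      _ = (k.factorial : ℝ) * Real.exp (1 + ∑ i, |cz m i + x i| -
          Real.pi * δ * ∑ i, (cz m i + x i) ^ 2) := by
          rw [mul_assoc, ← Real.exp_add]
          congr 2
          ring
      _ ≤ (k.factorial : ℝ) * (Real.exp (1 + Fintype.card ι * (1 / (Real.pi * δ))) *
          Real.exp (∑ i, -|(m i : ℝ) + x i|)) := by
          rw [← Real.exp_add]
          refine mul_le_mul_of_nonneg_left (Real.exp_le_exp.mpr ?_) (by positivity)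
          rw [Finset.sum_neg_distrib]
          have h6 : ∑ i, |cz m i + x i| = ∑ i, |(m i : ℝ) + x i| := rfl
          rw [h6] at h5 ⊢
          linarith
      _ = _ := by ring

theorem gs_summable {A : Matrix ι ι ℝ} (hA : A.PosDef) (x : ι → ℝ) (k : ℕ) :
    Summable fun m : ι → ℤ => (1 + ∑ i, |cz m i + x i|) ^ k * gw A (cz m + x) := by
  obtain ⟨δ, hδ, h⟩ := exists_qf_ge hA
  refine Summable.of_nonneg_of_le (fun m => ?_) (fun m => ?_) (gs_summable_sq hδ x k)
  · unfold gw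
    positivity
  · unfold gw
    refine mul_le_mul_of_nonneg_left (Real.exp_le_exp.mpr ?_) (by positivity)
    have h1 := mul_le_mul_of_nonneg_left (h (cz m + x)) Real.pi_pos.le
    simp only [Pi.add_apply] at h1
    linarith

/-- every function of polynomial growth is summable against the shifted Gaussian weight -/
theorem gs_summable_of_le {A : Matrix ι ι ℝ} (hA : A.PosDef) (x : ι → ℝ) {g : (ι → ℤ) → ℝ}
    {C : ℝ} (k : ℕ) (h : ∀ m, |g m| ≤ C * (1 + ∑ i, |cz m i + x i|) ^ k) :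
    Summable fun m : ι → ℤ => g m * gw A (cz m + x) := by
  refine Summable.of_norm_bounded ((gs_summable hA x k).mul_left C) fun m => ?_
  have hw : 0 < gw A (cz m + x) := Real.exp_pos _
  rw [Real.norm_eq_abs, abs_mul, abs_of_pos hw, ← mul_assoc]
  exact mul_le_mul_of_nonneg_right (h m) hw.le

theorem summable_gw {A : Matrix ι ι ℝ} (hA : A.PosDef) : Summable fun m : ι → ℤ => gw A (cz m) := by
  have h := gs_summable hA 0 0
  simpa using h

theorem g01_cz_zero : cz (0 : ι → ℤ) = 0 := by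
  ext i
  simp [cz]

theorem summable_qf_gw {A : Matrix ι ι ℝ} (hA : A.PosDef) (M : Matrix ι ι ℝ) :
    Summable fun m : ι → ℤ => qf M (cz m) * gw A (cz m) := by
  obtain ⟨K, hK, h⟩ := exists_abs_qf_le M
  have h1 := gs_summable_of_le hA 0 (g := fun m => qf M (cz m)) (C := K) 2 (fun m => by
    refine (h (cz m)).trans (mul_le_mul_of_nonneg_left ?_ hK)
    have h2 : ∑ i, cz m i ^ 2 ≤ (∑ i, |cz m i|) ^ 2 := by
      calc ∑ i, cz m i ^ 2 = ∑ i, |cz m i| ^ 2 := by simp only [sq_abs]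
        _ ≤ (∑ i, |cz m i|) ^ 2 := Finset.sum_sq_le_sq_sum_of_nonneg fun i _ => abs_nonneg _
    have h3 : 0 ≤ ∑ i, |cz m i| := Finset.sum_nonneg fun i _ => abs_nonneg _
    simp only [Pi.zero_apply, add_zero]
    nlinarith)
  simpa using h1

theorem one_le_th {A : Matrix ι ι ℝ} (hA : A.PosDef) : 1 ≤ th A := by
  have h := (summable_gw hA).le_tsum (0 : ι → ℤ) fun _ _ => (Real.exp_pos _).le
  have h1 : gw A (cz (0 : ι → ℤ)) = 1 := by
    rw [g01_cz_zero]
    simp [gw, qf]
  rw [h1] at h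
  exact h

theorem th_pos {A : Matrix ι ι ℝ} (hA : A.PosDef) : 0 < th A :=
  lt_of_lt_of_le one_pos (one_le_th hA)

theorem mq_add {A : Matrix ι ι ℝ} (hA : A.PosDef) (M M' : Matrix ι ι ℝ) :
    mq A (M + M') = mq A M + mq A M' := by
  unfold mq
  rw [← add_div, ← (summable_qf_gw hA M).tsum_add (summable_qf_gw hA M')]
  congr 1
  exact tsum_congr fun m => by rw [qf_add, add_mul]

theorem mq_smul (A : Matrix ι ι ℝ) (c : ℝ) (M : Matrix ι ι ℝ) : mq A (c • M) = c * mq A M := by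
  unfold mq
  rw [← mul_div_assoc, ← tsum_mul_left]
  congr 1
  exact tsum_congr fun m => by rw [qf_smul, mul_assoc]

theorem mq_sum {A : Matrix ι ι ℝ} (hA : A.PosDef) {μ : Type*} (s : Finset μ)
    (M : μ → Matrix ι ι ℝ) : mq A (∑ j ∈ s, M j) = ∑ j ∈ s, mq A (M j) := by
  classical
  induction s using Finset.induction_on with
  | empty => simp [mq, qf]
  | insert a s ha ih => rw [Finset.sum_insert ha, Finset.sum_insert ha, mq_add hA, ih]

theorem mq_nonneg {A M : Matrix ι ι ℝ} (hA : A.PosDef) (hM : M.PosSemidef) : 0 ≤ mq A M :=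
  div_nonneg (tsum_nonneg fun _ => mul_nonneg (qf_nonneg hM _) (Real.exp_pos _).le) (th_pos hA).le

theorem mq_mono {A M M' : Matrix ι ι ℝ} (hA : A.PosDef) (hM : (M' - M).PosSemidef) :
    mq A M ≤ mq A M' := by
  have h := mq_nonneg hA hM
  have h1 : mq A M' = mq A M + mq A (M' - M) := by
    rw [← mq_add hA, add_sub_cancel]
  linarith

end LT
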