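import Mathlib

/-!
# LG-G02: rotation by 45 degrees of the lattice `ℤ^ι × ℤ^ι`

The map `(c, n, n') ↦ (m, m') = (n + n' + c, n - n')` is a bijection
`(ι → Fin 2) × (ι → ℤ) × (ι → ℤ) ≃ (ι → ℤ) × (ι → ℤ)` (inverse: `c = (m + m') mod 2`,
`n = (m + m') / 2` (floor), `n' = n - m'`), and `m + m' = 2 n + c`, `m - m' = 2 n' + c`.
The family `F (m + m') G (m - m')` is a subfamily (injective reindexing) of the summable family
`F a G b`.
-/

set_option linter.unusedSectionVars false

namespace LT

variable {ι : Type*} [Fintype ι] [DecidableEq ι]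

/-- a class modulo `2` as an integer vector -/
def cf {ι : Type*} (c : ι → Fin 2) : ι → ℤ := fun i => ((c i : ℕ) : ℤ)

/-- reindexing of the lattice plane by classes modulo `2` -/
def g02rot_equiv (ι : Type*) :
    (ι → Fin 2) × ((ι → ℤ) × (ι → ℤ)) ≃ (ι → ℤ) × (ι → ℤ) where
  toFun q := (q.2.1 + q.2.2 + cf q.1, q.2.1 - q.2.2)
  invFun p := (fun i => ⟨((p.1 i + p.2 i) % 2).toNat, by omega⟩,
    (fun i => (p.1 i + p.2 i) / 2, fun i => (p.1 i + p.2 i) / 2 - p.2 i))
  left_inv q := by
    obtain ⟨c, n, n'⟩ := q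
    have hc : ∀ i, ((c i : ℕ) : ℤ) = 0 ∨ ((c i : ℕ) : ℤ) = 1 := by
      intro i
      have := (c i).2
      omega
    refine Prod.ext ?_ (Prod.ext ?_ ?_)
    · funext i
      apply Fin.ext
      have := hc i
      simp only [Pi.add_apply, Pi.sub_apply, cf]
      omega
    · funext i
      have := hc i
      simp only [Pi.add_apply, Pi.sub_apply, cf]
      omega
    · funext i
      have := hc i
      simp only [Pi.add_apply, Pi.sub_apply, cf]
      omega
  right_inv p := by
    obtain ⟨m, m'⟩ := p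
    refine Prod.ext ?_ ?_
    · funext i
      simp only [Pi.add_apply, cf]
      omega
    · funext i
      simp only [Pi.sub_apply]
      omega

theorem rot_summable {F G : (ι → ℤ) → ℝ} (hF : Summable F) (hG : Summable G) :
    Summable fun p : (ι → ℤ) × (ι → ℤ) => F (p.1 + p.2) * G (p.1 - p.2) := by
  have h := summable_mul_of_summable_norm hF.norm hG.norm
  have hinj : Function.Injective
      (fun p : (ι → ℤ) × (ι → ℤ) => (p.1 + p.2, p.1 - p.2)) := by
    rintro ⟨a, b⟩ ⟨a', b'⟩ hab
    simp only [Prod.mk.injEq] at hab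
    obtain ⟨h1, h2⟩ := hab
    refine Prod.ext ?_ ?_
    · funext i
      have h1 := congrFun h1 i
      have h2 := congrFun h2 i
      simp only [Pi.add_apply, Pi.sub_apply] at h1 h2
      show a i = a' i
      omega
    · funext i
      have h1 := congrFun h1 i
      have h2 := congrFun h2 i
      simp only [Pi.add_apply, Pi.sub_apply] at h1 h2
      show b i = b' i
      omega
  exact h.comp_injective hinj

theorem rot_tsum {F G : (ι → ℤ) → ℝ} (hF : Summable F) (hG : Summable G) :
    ∑' p : (ι → ℤ) × (ι → ℤ), F (p.1 + p.2) * G (p.1 - p.2) =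
      ∑ c : ι → Fin 2, (∑' n : ι → ℤ, F (2 • n + cf c)) * ∑' n : ι → ℤ, G (2 • n + cf c) := by
  have hkey : ∀ q : (ι → Fin 2) × ((ι → ℤ) × (ι → ℤ)),
      F ((g02rot_equiv ι q).1 + (g02rot_equiv ι q).2) *
        G ((g02rot_equiv ι q).1 - (g02rot_equiv ι q).2) =
      F (2 • q.2.1 + cf q.1) * G (2 • q.2.2 + cf q.1) := by
    rintro ⟨c, n, n'⟩
    have h1 : (g02rot_equiv ι (c, n, n')).1 + (g02rot_equiv ι (c, n, n')).2 =
        2 • n + cf c := by
      show n + n' + cf c + (n - n') = 2 • n + cf c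
      rw [two_nsmul]
      abel
    have h2 : (g02rot_equiv ι (c, n, n')).1 - (g02rot_equiv ι (c, n, n')).2 =
        2 • n' + cf c := by
      show n + n' + cf c - (n - n') = 2 • n' + cf c
      rw [two_nsmul]
      abel
    rw [h1, h2]
  have hinj : ∀ c : ι → Fin 2, Function.Injective (fun n : ι → ℤ => 2 • n + cf c) := by
    intro c a b hab
    funext i
    have h := congrFun hab i
    have h' : (2 : ℤ) * a i + cf c i = 2 * b i + cf c i := by
      simpa using h
    omega
  have hs := (g02rot_equiv ι).summable_iff.mpr (rot_summable hF hG)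
  have hs' : Summable fun q : (ι → Fin 2) × ((ι → ℤ) × (ι → ℤ)) =>
      F (2 • q.2.1 + cf q.1) * G (2 • q.2.2 + cf q.1) := by
    refine hs.congr ?_
    intro q
    exact hkey q
  rw [← (g02rot_equiv ι).tsum_eq
    (fun p : (ι → ℤ) × (ι → ℤ) => F (p.1 + p.2) * G (p.1 - p.2)), tsum_congr hkey,
    hs'.tsum_prod, tsum_fintype]
  refine Finset.sum_congr rfl fun c _ => ?_
  exact (tsum_mul_tsum_of_summable_norm ((hF.comp_injective (hinj c)).norm)
    ((hG.comp_injective (hinj c)).norm)).symm

end LT
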