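import Pool.Agent.H29.LG.G01
import Pool.Agent.H29.LG.G02

/-!
# LG-G03: the second moment of a discrete Gaussian is smallest for the unshifted lattice

`F k = (v ⬝ᵥ (k + x)) * exp (-π qf A (k + x) / 2)` on `k ∈ ℤ^ι`.  For `m, m' ∈ ℤ^ι`:
`(v·(m+m'+x)) (v·(m-m'+x)) = (v·(m+x))² - (v·m')²` and
`qf A (m+m'+x) + qf A (m-m'+x) = 2 (qf A (m+x) + qf A m')` (parallelogram law, `A` symmetric), so
`F (m+m') F (m-m') = ((v·(m+x))² - (v·m')²) gw A (m+x) gw A m'`.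
Sum over `(m,m')`: the left side is `S₂(x) S₀(0) - S₀(x) S₂(0)` (product of summable families), and
by `rot_tsum` it is `∑_c (∑_n F (2n + c))² ≥ 0`.
-/

set_option linter.unusedSectionVars false

namespace LT

open scoped Matrix

variable {ι : Type*} [Fintype ι] [DecidableEq ι]

private theorem sm_abs_dot_le (v y : ι → ℝ) :
    |v ⬝ᵥ y| ≤ (∑ i, |v i|) * (1 + ∑ i, |y i|) ^ 1 := by
  rw [pow_one]
  have h1 : |v ⬝ᵥ y| ≤ ∑ i, |v i| * |y i| := by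
    refine (Finset.abs_sum_le_sum_abs _ _).trans (le_of_eq ?_)
    exact Finset.sum_congr rfl fun i _ => abs_mul _ _
  refine h1.trans ?_
  rw [Finset.sum_mul]
  refine Finset.sum_le_sum fun i _ => ?_
  refine mul_le_mul_of_nonneg_left ?_ (abs_nonneg _)
  have h2 : |y i| ≤ ∑ j, |y j| :=
    Finset.single_le_sum (f := fun j => |y j|) (fun j _ => abs_nonneg _) (Finset.mem_univ i)
  linarith

private theorem sm_dot_sq_le (v y : ι → ℝ) :
    |(v ⬝ᵥ y) ^ 2| ≤ (∑ i, |v i|) ^ 2 * (1 + ∑ i, |y i|) ^ 2 := by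
  have h1 := sm_abs_dot_le v y
  rw [pow_one] at h1
  rw [abs_pow, ← mul_pow]
  exact pow_le_pow_left₀ (abs_nonneg _) h1 2

private theorem sm_summ_sq {A : Matrix ι ι ℝ} (hA : A.PosDef) (x v : ι → ℝ) :
    Summable fun m : ι → ℤ => (v ⬝ᵥ (cz m + x)) ^ 2 * gw A (cz m + x) :=
  gs_summable_of_le hA x 2 (C := (∑ i, |v i|) ^ 2) fun m => sm_dot_sq_le v (cz m + x)

private theorem sm_summ_zero {A : Matrix ι ι ℝ} (hA : A.PosDef) (x : ι → ℝ) :
    Summable fun m : ι → ℤ => gw A (cz m + x) := by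
  have h := gs_summable_of_le hA x 0 (g := fun _ => (1 : ℝ)) (C := 1) (fun m => by simp)
  simpa using h

private theorem sm_half {A : Matrix ι ι ℝ} (hA : A.PosDef) : ((1 / 2 : ℝ) • A).PosDef :=
  hA.smul (by norm_num)

private theorem sm_summ_one {A : Matrix ι ι ℝ} (hA : A.PosDef) (x v : ι → ℝ) :
    Summable fun m : ι → ℤ => (v ⬝ᵥ (cz m + x)) * gw ((1 / 2 : ℝ) • A) (cz m + x) :=
  gs_summable_of_le (sm_half hA) x 1 (C := ∑ i, |v i|) fun m => sm_abs_dot_le v (cz m + x)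

private theorem sm_cz_add (m m' : ι → ℤ) : cz (m + m') = cz m + cz m' := by
  funext i
  simp [cz]

private theorem sm_cz_sub (m m' : ι → ℤ) : cz (m - m') = cz m - cz m' := by
  funext i
  simp [cz]

private theorem sm_para (A : Matrix ι ι ℝ) (a b : ι → ℝ) :
    qf A (a + b) + qf A (a - b) = 2 * (qf A a + qf A b) := by
  unfold qf
  simp only [Matrix.mulVec_add, Matrix.mulVec_sub, add_dotProduct, sub_dotProduct,
    dotProduct_add, dotProduct_sub]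
  ring

private theorem sm_prod (A : Matrix ι ι ℝ) (x v : ι → ℝ) (m m' : ι → ℤ) :
    ((v ⬝ᵥ (cz (m + m') + x)) * gw ((1 / 2 : ℝ) • A) (cz (m + m') + x)) *
      ((v ⬝ᵥ (cz (m - m') + x)) * gw ((1 / 2 : ℝ) • A) (cz (m - m') + x)) =
    ((v ⬝ᵥ (cz m + x)) ^ 2 * gw A (cz m + x)) * gw A (cz m') -
      gw A (cz m + x) * ((v ⬝ᵥ cz m') ^ 2 * gw A (cz m')) := by
  have e1 : cz (m + m') + x = (cz m + x) + cz m' := by
    rw [sm_cz_add]
    abel
  have e2 : cz (m - m') + x = (cz m + x) - cz m' := by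
    rw [sm_cz_sub]
    abel
  rw [e1, e2]
  generalize cz m + x = a
  generalize cz m' = b
  have e3 : gw ((1 / 2 : ℝ) • A) (a + b) * gw ((1 / 2 : ℝ) • A) (a - b) = gw A a * gw A b := by
    unfold gw
    rw [← Real.exp_add, ← Real.exp_add, qf_smul, qf_smul]
    congr 1
    have h := sm_para A a b
    linear_combination (-(Real.pi / 2)) * h
  have e4 : v ⬝ᵥ (a + b) = v ⬝ᵥ a + v ⬝ᵥ b := dotProduct_add _ _ _
  have e5 : v ⬝ᵥ (a - b) = v ⬝ᵥ a - v ⬝ᵥ b := dotProduct_sub _ _ _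
  rw [e4, e5]
  linear_combination ((v ⬝ᵥ a) ^ 2 - (v ⬝ᵥ b) ^ 2) * e3

theorem shift_le {A : Matrix ι ι ℝ} (hA : A.PosDef) (x v : ι → ℝ) :
    (∑' m : ι → ℤ, (v ⬝ᵥ cz m) ^ 2 * gw A (cz m)) * (∑' m : ι → ℤ, gw A (cz m + x)) ≤
      (∑' m : ι → ℤ, (v ⬝ᵥ (cz m + x)) ^ 2 * gw A (cz m + x)) * th A := by
  have s2 := sm_summ_sq hA x v
  have s0 := sm_summ_zero hA x
  have t0 : Summable fun m : ι → ℤ => gw A (cz m) := summable_gw hA
  have t2 : Summable fun m : ι → ℤ => (v ⬝ᵥ cz m) ^ 2 * gw A (cz m) := by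
    have h := sm_summ_sq hA 0 v
    simpa using h
  have s1 := sm_summ_one hA x v
  have h1 := rot_tsum s1 s1
  have h2 : 0 ≤ ∑ c : ι → Fin 2, (∑' n : ι → ℤ, (v ⬝ᵥ (cz (2 • n + cf c) + x)) *
      gw ((1 / 2 : ℝ) • A) (cz (2 • n + cf c) + x)) *
      ∑' n : ι → ℤ, (v ⬝ᵥ (cz (2 • n + cf c) + x)) *
      gw ((1 / 2 : ℝ) • A) (cz (2 • n + cf c) + x) :=
    Finset.sum_nonneg fun c _ => mul_self_nonneg _
  rw [← h1] at h2
  have h3 : (fun p : (ι → ℤ) × (ι → ℤ) =>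
      ((v ⬝ᵥ (cz (p.1 + p.2) + x)) * gw ((1 / 2 : ℝ) • A) (cz (p.1 + p.2) + x)) *
      ((v ⬝ᵥ (cz (p.1 - p.2) + x)) * gw ((1 / 2 : ℝ) • A) (cz (p.1 - p.2) + x))) =
      fun p => ((v ⬝ᵥ (cz p.1 + x)) ^ 2 * gw A (cz p.1 + x)) * gw A (cz p.2) -
      gw A (cz p.1 + x) * ((v ⬝ᵥ cz p.2) ^ 2 * gw A (cz p.2)) := by
    funext p
    exact sm_prod A x v p.1 p.2
  rw [h3] at h2
  have p1 := summable_mul_of_summable_norm s2.norm t0.norm
  have p2 := summable_mul_of_summable_norm s0.norm t2.norm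
  have q1 := tsum_mul_tsum_of_summable_norm s2.norm t0.norm
  have q2 := tsum_mul_tsum_of_summable_norm s0.norm t2.norm
  rw [p1.tsum_sub p2, ← q1, ← q2] at h2
  unfold th
  linarith

end LT
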