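import Pool.Agent.H29.LG.G01
import Pool.Agent.H29.LG.G02

/-!
# LG-G04: a correlation inequality for discrete Gaussians (positivity of the fourth cumulant)

`F k = (u·k) (b·k) exp (-π qf A k / 2)`, `Y k = exp (-π qf A k / 2)`.
For `m, m' ∈ ℤ^ι` (weights `gw A m gw A m'`, see `LG-G03` with `x = 0`):
`F (m+m') F (m-m') = ((u·m)² - (u·m')²) ((b·m)² - (b·m')²) gw A m gw A m'`,
`F (m+m') Y (m-m') = (u·(m+m')) (b·(m+m')) gw A m gw A m'`,
`Y (m+m') Y (m-m') = gw A m gw A m'`.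
Summing over `(m, m')` (the odd cross terms `(u·m)(b·m')` vanish by the symmetry `m' ↦ -m'`):
`∑_c X_c² = 2 (S₄ S₀ - S_uu S_bb)`, `∑_c X_c Y_c = 2 S_ub S₀`, `∑_c Y_c² = S₀²`
where `X_c = ∑_n F (2n+c)`, `Y_c = ∑_n Y (2n+c)` (`rot_tsum`).
Cauchy-Schwarz over `c`: `(2 S_ub S₀)² ≤ 2 (S₄ S₀ - S_uu S_bb) S₀²`; divide by `2 S₀² > 0`.
-/

set_option linter.unusedSectionVars false

namespace LT

open scoped Matrix

variable {ι : Type*} [Fintype ι] [DecidableEq ι]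

/-- linear forms are bounded by the size of the vector -/
private theorem lg4_lin (v : ι → ℝ) (m : ι → ℤ) :
    |v ⬝ᵥ cz m| ≤ (∑ i, |v i|) * (1 + ∑ i, |cz m i + (0 : ι → ℝ) i|) := by
  have h1 : |v ⬝ᵥ cz m| ≤ ∑ i, |v i| * |cz m i| := by
    unfold dotProduct
    refine (Finset.abs_sum_le_sum_abs _ _).trans (le_of_eq ?_)
    exact Finset.sum_congr rfl fun i _ => abs_mul _ _
  refine h1.trans ?_
  rw [Finset.sum_mul]
  refine Finset.sum_le_sum fun i _ => mul_le_mul_of_nonneg_left ?_ (abs_nonneg _)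
  have h2 : |cz m i| ≤ ∑ j, |cz m j + (0 : ι → ℝ) j| := by
    simp only [Pi.zero_apply, add_zero]
    exact Finset.single_le_sum (f := fun j => |cz m j|) (fun j _ => abs_nonneg _)
      (Finset.mem_univ i)
  linarith

private theorem lg4_list (l : List (ι → ℝ)) (m : ι → ℤ) :
    |(l.map fun v => v ⬝ᵥ cz m).prod| ≤ (l.map fun v => ∑ i, |v i|).prod *
      (1 + ∑ i, |cz m i + (0 : ι → ℝ) i|) ^ l.length := by
  induction l with
  | nil => simp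
  | cons v l ih =>
    rw [List.map_cons, List.prod_cons, List.map_cons, List.prod_cons, abs_mul, List.length_cons,
      pow_succ]
    have h1 := lg4_lin v m
    have h0 : 0 ≤ (∑ i, |v i|) * (1 + ∑ i, |cz m i + (0 : ι → ℝ) i|) := (abs_nonneg _).trans h1
    calc |v ⬝ᵥ cz m| * |(l.map fun v => v ⬝ᵥ cz m).prod|
        ≤ ((∑ i, |v i|) * (1 + ∑ i, |cz m i + (0 : ι → ℝ) i|)) *
          ((l.map fun v => ∑ i, |v i|).prod *
            (1 + ∑ i, |cz m i + (0 : ι → ℝ) i|) ^ l.length) :=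
          mul_le_mul h1 ih (abs_nonneg _) h0
      _ = _ := by ring

private theorem lg4_sum {A : Matrix ι ι ℝ} (hA : A.PosDef) (l : List (ι → ℝ)) :
    Summable fun m : ι → ℤ => (l.map fun v => v ⬝ᵥ cz m).prod * gw A (cz m) := by
  have h := gs_summable_of_le hA 0 (g := fun m => (l.map fun v => v ⬝ᵥ cz m).prod)
    (C := (l.map fun v => ∑ i, |v i|).prod) l.length (fun m => lg4_list l m)
  simpa using h

private theorem lg4_tsum {f g : (ι → ℤ) → ℝ} (hf : Summable f) (hg : Summable g) :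
    HasSum (fun p : (ι → ℤ) × (ι → ℤ) => f p.1 * g p.2) ((∑' m, f m) * ∑' m, g m) := by
  have h1 : Summable fun p : (ι → ℤ) × (ι → ℤ) => f p.1 * g p.2 :=
    summable_mul_of_summable_norm hf.norm hg.norm
  have h2 := tsum_mul_tsum_of_summable_norm hf.norm hg.norm
  rw [h2]
  exact h1.hasSum

private theorem lg4_cz_add (m m' : ι → ℤ) : cz (m + m') = cz m + cz m' := by
  funext i
  simp [cz]

private theorem lg4_cz_sub (m m' : ι → ℤ) : cz (m - m') = cz m - cz m' := by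
  funext i
  simp [cz]

private theorem lg4_cz_neg (m : ι → ℤ) : cz (-m) = -cz m := by
  funext i
  simp [cz]

private theorem lg4_par (A : Matrix ι ι ℝ) (x y : ι → ℝ) :
    qf A (x + y) + qf A (x - y) = 2 * (qf A x + qf A y) := by
  unfold qf
  rw [Matrix.mulVec_add, Matrix.mulVec_sub, add_dotProduct, sub_dotProduct, dotProduct_add,
    dotProduct_add, dotProduct_sub, dotProduct_sub]
  ring

private theorem lg4_gw (A : Matrix ι ι ℝ) (m m' : ι → ℤ) :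
    gw ((1 / 2 : ℝ) • A) (cz (m + m')) * gw ((1 / 2 : ℝ) • A) (cz (m - m')) =
      gw A (cz m) * gw A (cz m') := by
  unfold gw
  rw [← Real.exp_add, ← Real.exp_add, qf_smul, qf_smul, lg4_cz_add, lg4_cz_sub]
  congr 1
  have h := lg4_par A (cz m) (cz m')
  linear_combination (-(Real.pi / 2)) * h

private theorem lg4_odd {A : Matrix ι ι ℝ} (v : ι → ℝ) :
    ∑' m : ι → ℤ, (v ⬝ᵥ cz m) * gw A (cz m) = 0 := by
  have h1 : ∑' m : ι → ℤ, (v ⬝ᵥ cz m) * gw A (cz m) =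
      ∑' m : ι → ℤ, (v ⬝ᵥ cz (-m)) * gw A (cz (-m)) :=
    ((Equiv.neg (ι → ℤ)).tsum_eq fun m : ι → ℤ => (v ⬝ᵥ cz m) * gw A (cz m)).symm
  have h2 : ∀ m : ι → ℤ, (v ⬝ᵥ cz (-m)) * gw A (cz (-m)) = -((v ⬝ᵥ cz m) * gw A (cz m)) := by
    intro m
    have h3 : gw A (cz (-m)) = gw A (cz m) := by
      unfold gw qf
      rw [lg4_cz_neg, Matrix.mulVec_neg, neg_dotProduct, dotProduct_neg, neg_neg]
    rw [h3, lg4_cz_neg, dotProduct_neg, neg_mul]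
  rw [tsum_congr h2, tsum_neg] at h1
  linarith

theorem cov_ge {A : Matrix ι ι ℝ} (hA : A.PosDef) (u b : ι → ℝ) :
    2 * (∑' m : ι → ℤ, (u ⬝ᵥ cz m) * (b ⬝ᵥ cz m) * gw A (cz m)) ^ 2 ≤
      (∑' m : ι → ℤ, (u ⬝ᵥ cz m) ^ 2 * (b ⬝ᵥ cz m) ^ 2 * gw A (cz m)) * th A -
        (∑' m : ι → ℤ, (u ⬝ᵥ cz m) ^ 2 * gw A (cz m)) *
          (∑' m : ι → ℤ, (b ⬝ᵥ cz m) ^ 2 * gw A (cz m)) := by
  have hA2 : ((1 / 2 : ℝ) • A).PosDef := by
    exact hA.smul (by norm_num)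
  -- summable families for `A`
  have s0 : Summable fun m : ι → ℤ => gw A (cz m) := summable_gw hA
  have su : Summable fun m : ι → ℤ => (u ⬝ᵥ cz m) * gw A (cz m) := by
    simpa using lg4_sum hA [u]
  have sb : Summable fun m : ι → ℤ => (b ⬝ᵥ cz m) * gw A (cz m) := by
    simpa using lg4_sum hA [b]
  have sub : Summable fun m : ι → ℤ => (u ⬝ᵥ cz m) * (b ⬝ᵥ cz m) * gw A (cz m) := by
    refine (lg4_sum hA [u, b]).congr fun m => ?_
    simp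
  have suu : Summable fun m : ι → ℤ => (u ⬝ᵥ cz m) ^ 2 * gw A (cz m) := by
    refine (lg4_sum hA [u, u]).congr fun m => ?_
    simp [pow_two]
  have sbb : Summable fun m : ι → ℤ => (b ⬝ᵥ cz m) ^ 2 * gw A (cz m) := by
    refine (lg4_sum hA [b, b]).congr fun m => ?_
    simp [pow_two]
  have s4 : Summable fun m : ι → ℤ => (u ⬝ᵥ cz m) ^ 2 * (b ⬝ᵥ cz m) ^ 2 * gw A (cz m) := by
    refine (lg4_sum hA [u, u, b, b]).congr fun m => ?_
    simp only [List.map_cons, List.map_nil, List.prod_cons, List.prod_nil]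
    ring
  -- the functions `F`, `Y`
  have hY : Summable fun m : ι → ℤ => gw ((1 / 2 : ℝ) • A) (cz m) := summable_gw hA2
  have hF : Summable fun m : ι → ℤ =>
      (u ⬝ᵥ cz m) * (b ⬝ᵥ cz m) * gw ((1 / 2 : ℝ) • A) (cz m) := by
    refine (lg4_sum hA2 [u, b]).congr fun m => ?_
    simp
  have e1 := rot_tsum hF hF
  have e2 := rot_tsum hF hY
  have e3 := rot_tsum hY hY
  have k1 : ∑' p : (ι → ℤ) × (ι → ℤ),
      (u ⬝ᵥ cz (p.1 + p.2)) * (b ⬝ᵥ cz (p.1 + p.2)) * gw ((1 / 2 : ℝ) • A) (cz (p.1 + p.2)) *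
        ((u ⬝ᵥ cz (p.1 - p.2)) * (b ⬝ᵥ cz (p.1 - p.2)) *
          gw ((1 / 2 : ℝ) • A) (cz (p.1 - p.2))) =
      2 * ((∑' m : ι → ℤ, (u ⬝ᵥ cz m) ^ 2 * (b ⬝ᵥ cz m) ^ 2 * gw A (cz m)) * th A -
        (∑' m : ι → ℤ, (u ⬝ᵥ cz m) ^ 2 * gw A (cz m)) *
          (∑' m : ι → ℤ, (b ⬝ᵥ cz m) ^ 2 * gw A (cz m))) := by
    have h := (((lg4_tsum s4 s0).add (lg4_tsum s0 s4)).sub (lg4_tsum suu sbb)).sub
      (lg4_tsum sbb suu)
    rw [← th] at h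
    refine ((tsum_congr fun p => ?_).trans h.tsum_eq).trans ?_
    · have h1 := lg4_gw A p.1 p.2
      rw [lg4_cz_add, lg4_cz_sub] at h1 ⊢
      rw [dotProduct_add, dotProduct_add, dotProduct_sub, dotProduct_sub]
      linear_combination ((u ⬝ᵥ cz p.1 + u ⬝ᵥ cz p.2) * (b ⬝ᵥ cz p.1 + b ⬝ᵥ cz p.2) *
        ((u ⬝ᵥ cz p.1 - u ⬝ᵥ cz p.2) * (b ⬝ᵥ cz p.1 - b ⬝ᵥ cz p.2))) * h1
    · ring
  have k2 : ∑' p : (ι → ℤ) × (ι → ℤ),
      (u ⬝ᵥ cz (p.1 + p.2)) * (b ⬝ᵥ cz (p.1 + p.2)) * gw ((1 / 2 : ℝ) • A) (cz (p.1 + p.2)) *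
        gw ((1 / 2 : ℝ) • A) (cz (p.1 - p.2)) =
      2 * (∑' m : ι → ℤ, (u ⬝ᵥ cz m) * (b ⬝ᵥ cz m) * gw A (cz m)) * th A := by
    have h := (((lg4_tsum sub s0).add (lg4_tsum s0 sub)).add (lg4_tsum su sb)).add
      (lg4_tsum sb su)
    rw [← th] at h
    refine ((tsum_congr fun p => ?_).trans h.tsum_eq).trans ?_
    · have h1 := lg4_gw A p.1 p.2
      rw [lg4_cz_add, lg4_cz_sub] at h1 ⊢
      rw [dotProduct_add, dotProduct_add]
      linear_combination ((u ⬝ᵥ cz p.1 + u ⬝ᵥ cz p.2) * (b ⬝ᵥ cz p.1 + b ⬝ᵥ cz p.2)) * h1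
    · rw [lg4_odd u, lg4_odd b]
      ring
  have k3 : ∑' p : (ι → ℤ) × (ι → ℤ),
      gw ((1 / 2 : ℝ) • A) (cz (p.1 + p.2)) * gw ((1 / 2 : ℝ) • A) (cz (p.1 - p.2)) =
      th A * th A := by
    have h : ∑' p : (ι → ℤ) × (ι → ℤ), gw A (cz p.1) * gw A (cz p.2) = th A * th A :=
      (lg4_tsum s0 s0).tsum_eq
    rw [← h]
    refine tsum_congr fun p => ?_
    rw [lg4_gw A p.1 p.2]
  have hth : 0 < th A := th_pos hA
  have f1 := (e1.symm.trans k1)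
  have f2 := (e2.symm.trans k2)
  have f3 := (e3.symm.trans k3)
  generalize (∑' m : ι → ℤ, (u ⬝ᵥ cz m) * (b ⬝ᵥ cz m) * gw A (cz m)) = S at f2 ⊢
  generalize (∑' m : ι → ℤ, (u ⬝ᵥ cz m) ^ 2 * (b ⬝ᵥ cz m) ^ 2 * gw A (cz m)) * th A -
        (∑' m : ι → ℤ, (u ⬝ᵥ cz m) ^ 2 * gw A (cz m)) *
          (∑' m : ι → ℤ, (b ⬝ᵥ cz m) ^ 2 * gw A (cz m)) = R at f1 ⊢
  obtain ⟨X, hX⟩ : ∃ X : (ι → Fin 2) → ℝ, X = fun c => ∑' n : ι → ℤ,
    (u ⬝ᵥ cz (2 • n + cf c)) * (b ⬝ᵥ cz (2 • n + cf c)) *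
      gw ((1 / 2 : ℝ) • A) (cz (2 • n + cf c)) := ⟨_, rfl⟩
  obtain ⟨Y, hY'⟩ : ∃ Y : (ι → Fin 2) → ℝ, Y = fun c => ∑' n : ι → ℤ,
      gw ((1 / 2 : ℝ) • A) (cz (2 • n + cf c)) := ⟨_, rfl⟩
  have hcs := Finset.sum_mul_sq_le_sq_mul_sq (Finset.univ : Finset (ι → Fin 2)) X Y
  have g1 : ∑ c, X c ^ 2 = 2 * R := by
    rw [← f1, hX]
    exact Finset.sum_congr rfl fun c _ => pow_two _
  have g2 : ∑ c, X c * Y c = 2 * S * th A := by
    rw [← f2, hX, hY']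
  have g3 : ∑ c, Y c ^ 2 = th A * th A := by
    rw [← f3, hY']
    exact Finset.sum_congr rfl fun c _ => pow_two _
  rw [g1, g2, g3] at hcs
  have h5 : (2 * S ^ 2) * (2 * (th A * th A)) ≤ R * (2 * (th A * th A)) := by
    calc (2 * S ^ 2) * (2 * (th A * th A)) = (2 * S * th A) ^ 2 := by ring
      _ ≤ 2 * R * (th A * th A) := hcs
      _ = R * (2 * (th A * th A)) := by ring
  exact le_of_mul_le_mul_right h5 (by positivity)

end LT
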