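import Pool.Agent.H29.LG.G01

/-!
# LG-G05: derivatives of Gaussian sums along a line `A + r B`

`A + s B` positive definite: `qf (A + s B) x ≥ δ ∑ x_i²`, `|qf B x| ≤ K ∑ x_i²`, so for
`|r - s| ≤ δ/(2(K+1))` the form `A + r B` is `≥ δ/2`, and all the terms and their `r`-derivatives are
dominated by `C (1 + ∑ |m_i|)^4 exp (-π (δ/2) ∑ m_i²)`, summable by `gs_summable_sq` (`x = 0`).
Use `hasDerivAt_tsum_of_isPreconnected` (on the ball around `s`) or `hasDerivAt_tsum`.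
-/

set_option linter.unusedSectionVars false

namespace LT

open scoped Matrix

variable {ι : Type*} [Fintype ι] [DecidableEq ι]

theorem g05_sq_le (m : ι → ℤ) : ∑ i, cz m i ^ 2 ≤ (1 + ∑ i, |cz m i|) ^ 2 := by
  have h1 : ∑ i, cz m i ^ 2 ≤ (∑ i, |cz m i|) ^ 2 := by
    have := Finset.sum_sq_le_sq_sum_of_nonneg (s := (Finset.univ : Finset ι))
      (f := fun i => |cz m i|) (fun i _ => abs_nonneg _)
    simpa [sq_abs] using this
  have h2 : 0 ≤ ∑ i, |cz m i| := Finset.sum_nonneg fun i _ => abs_nonneg _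
  nlinarith

theorem g05_dot_le (w : ι → ℝ) (m : ι → ℤ) : |w ⬝ᵥ cz m| ≤ (∑ i, |w i|) * (1 + ∑ i, |cz m i|) := by
  have h2 : ∀ i, |cz m i| ≤ 1 + ∑ i, |cz m i| := by
    intro i
    have : |cz m i| ≤ ∑ i, |cz m i| := Finset.single_le_sum (f := fun i => |cz m i|)
      (fun i _ => abs_nonneg _) (Finset.mem_univ i)
    linarith
  unfold dotProduct
  calc |∑ i, w i * cz m i| ≤ ∑ i, |w i * cz m i| := Finset.abs_sum_le_sum_abs _ _
    _ ≤ ∑ i, |w i| * (1 + ∑ i, |cz m i|) := by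
        refine Finset.sum_le_sum fun i _ => ?_
        rw [abs_mul]
        exact mul_le_mul_of_nonneg_left (h2 i) (abs_nonneg _)
    _ = _ := by rw [Finset.sum_mul]

/-- general termwise differentiation -/
theorem g05_aux {A B : Matrix ι ι ℝ} {s : ℝ} (h : (A + s • B).PosDef)
    (P P' : ℝ → (ι → ℤ) → ℝ) (hP : ∀ m r, HasDerivAt (fun r => P r m) (P' r m) r) (C : ℝ)
    (hC : ∀ r, |r - s| < 1 → ∀ m, |P r m| ≤ C * (1 + ∑ i, |cz m i|) ^ 2)
    (hC' : ∀ r, |r - s| < 1 → ∀ m, |P' r m| ≤ C * (1 + ∑ i, |cz m i|) ^ 2) :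
    HasDerivAt (fun r => ∑' m : ι → ℤ, P r m * gw (A + r • B) (cz m))
      (∑' m : ι → ℤ, (P' s m - Real.pi * P s m * qf B (cz m)) * gw (A + s • B) (cz m)) s := by
  obtain ⟨δ, hδ, hδ'⟩ := exists_qf_ge h
  obtain ⟨K, hK, hK'⟩ := exists_abs_qf_le B
  have hC0 : 0 ≤ C := by
    have h1 := hC s (by simp) 0
    have h2 : (1 + ∑ i, |cz (0 : ι → ℤ) i|) ^ 2 = 1 := by simp [cz]
    rw [h2, mul_one] at h1
    exact (abs_nonneg _).trans h1
  set ρ : ℝ := min 1 (δ / (2 * (K + 1))) with hρ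
  have hρ0 : 0 < ρ := by rw [hρ]; positivity
  have hρ1 : ρ ≤ 1 := min_le_left _ _
  have hρ2 : ρ * K ≤ δ / 2 := by
    have h1 : ρ ≤ δ / (2 * (K + 1)) := min_le_right _ _
    have h2 : ρ * (2 * (K + 1)) ≤ δ := by rwa [le_div_iff₀ (by positivity)] at h1
    nlinarith
  have hball : ∀ r, r ∈ Metric.ball s ρ → |r - s| < ρ := by
    intro r hr
    rwa [Metric.mem_ball, Real.dist_eq] at hr
  -- bound of the weight
  have hgw : ∀ r, r ∈ Metric.ball s ρ → ∀ m : ι → ℤ,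
      gw (A + r • B) (cz m) ≤ Real.exp (-(Real.pi * (δ / 2 * ∑ i, (cz m i + (0 : ι → ℝ) i) ^ 2))) := by
    intro r hr m
    unfold gw
    apply Real.exp_le_exp.mpr
    have h1 : qf (A + r • B) (cz m) = qf (A + s • B) (cz m) + (r - s) * qf B (cz m) := by
      rw [qf_add, qf_add, qf_smul, qf_smul]; ring
    have h2 := hδ' (cz m)
    have h3 := hK' (cz m)
    have h4 : |(r - s) * qf B (cz m)| ≤ ρ * (K * ∑ i, cz m i ^ 2) := by
      rw [abs_mul]
      exact mul_le_mul (hball r hr).le h3 (abs_nonneg _) hρ0.le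
    have h5 : 0 ≤ ∑ i, cz m i ^ 2 := Finset.sum_nonneg fun i _ => sq_nonneg _
    have h6 : δ / 2 * ∑ i, cz m i ^ 2 ≤ qf (A + r • B) (cz m) := by
      rw [h1]
      have h7 := (abs_le.mp h4).1
      nlinarith
    simp only [Pi.zero_apply, add_zero]
    have := mul_le_mul_of_nonneg_left h6 Real.pi_pos.le
    linarith
  have hgw0 : ∀ (r : ℝ) (m : ι → ℤ), 0 ≤ gw (A + r • B) (cz m) := fun r m => (Real.exp_pos _).le
  set u : (ι → ℤ) → ℝ := fun m => (C + Real.pi * C * K) *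
    ((1 + ∑ i, |cz m i + (0 : ι → ℝ) i|) ^ 4 *
      Real.exp (-(Real.pi * (δ / 2 * ∑ i, (cz m i + (0 : ι → ℝ) i) ^ 2)))) with hu
  have hsu : Summable u := (gs_summable_sq (half_pos hδ) 0 4).mul_left _
  have hN1 : ∀ m : ι → ℤ, 1 ≤ 1 + ∑ i, |cz m i| := by
    intro m
    have : 0 ≤ ∑ i, |cz m i| := Finset.sum_nonneg fun i _ => abs_nonneg _
    linarith
  have hpi := Real.pi_pos
  -- bounds
  have hb1 : ∀ m r, r ∈ Metric.ball s ρ →
      ‖(P' r m - Real.pi * P r m * qf B (cz m)) * gw (A + r • B) (cz m)‖ ≤ u m := by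
    intro m r hr
    have h1 := hC' r ((hball r hr).trans_le hρ1) m
    have h2 := hC r ((hball r hr).trans_le hρ1) m
    have h3 : |qf B (cz m)| ≤ K * (1 + ∑ i, |cz m i|) ^ 2 :=
      (hK' (cz m)).trans (mul_le_mul_of_nonneg_left (g05_sq_le m) hK)
    set N : ℝ := 1 + ∑ i, |cz m i| with hN
    have hN1' : 1 ≤ N := hN1 m
    have h4 : N ^ 2 ≤ N ^ 4 := pow_le_pow_right₀ hN1' (by norm_num)
    have h5 : |P' r m - Real.pi * P r m * qf B (cz m)| ≤ (C + Real.pi * C * K) * N ^ 4 := by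
      have h6 : |Real.pi * P r m * qf B (cz m)| ≤ Real.pi * (C * N ^ 2) * (K * N ^ 2) := by
        rw [abs_mul, abs_mul, abs_of_pos hpi]
        refine mul_le_mul (mul_le_mul_of_nonneg_left h2 hpi.le) h3 (abs_nonneg _) (by positivity)
      calc |P' r m - Real.pi * P r m * qf B (cz m)|
          ≤ |P' r m| + |Real.pi * P r m * qf B (cz m)| := abs_sub _ _
        _ ≤ C * N ^ 2 + Real.pi * (C * N ^ 2) * (K * N ^ 2) := add_le_add h1 h6
        _ ≤ C * N ^ 4 + Real.pi * (C * N ^ 2) * (K * N ^ 2) := by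
            have := mul_le_mul_of_nonneg_left h4 hC0
            linarith
        _ = (C + Real.pi * C * K) * N ^ 4 := by ring
    rw [Real.norm_eq_abs, abs_mul, abs_of_nonneg (hgw0 r m), hu]
    simp only
    rw [← mul_assoc]
    refine mul_le_mul ?_ (hgw r hr m) (hgw0 r m) (by positivity)
    simpa [hN] using h5
  have hb0 : Summable fun m : ι → ℤ => P s m * gw (A + s • B) (cz m) := by
    refine Summable.of_norm_bounded (g := fun m : ι → ℤ => C * ((1 + ∑ i, |cz m i + (0 : ι → ℝ) i|) ^ 2 *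
      Real.exp (-(Real.pi * (δ / 2 * ∑ i, (cz m i + (0 : ι → ℝ) i) ^ 2)))))
      ((gs_summable_sq (half_pos hδ) 0 2).mul_left _) ?_
    intro m
    rw [Real.norm_eq_abs, abs_mul, abs_of_nonneg (hgw0 s m), ← mul_assoc]
    refine mul_le_mul ?_ (hgw s (Metric.mem_ball_self hρ0) m) (hgw0 s m) (by positivity)
    simpa using hC s (by simp) m
  -- derivatives of the terms
  have hder : ∀ (m : ι → ℤ) (r : ℝ), r ∈ Metric.ball s ρ →
      HasDerivAt (fun r => P r m * gw (A + r • B) (cz m))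
        ((P' r m - Real.pi * P r m * qf B (cz m)) * gw (A + r • B) (cz m)) r := by
    intro m r _
    have h1 : HasDerivAt (fun r : ℝ => -(Real.pi * qf (A + r • B) (cz m)))
        (-(Real.pi * qf B (cz m))) r := by
      have h2 : (fun r : ℝ => -(Real.pi * qf (A + r • B) (cz m)))
          = fun r : ℝ => -(Real.pi * (qf A (cz m) + r * qf B (cz m))) := by
        funext r
        rw [qf_add, qf_smul]
      rw [h2]
      have h3 : HasDerivAt (fun r : ℝ => qf A (cz m) + r * qf B (cz m)) (1 * qf B (cz m)) r :=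
        ((hasDerivAt_id r).mul_const _).const_add _
      exact (h3.const_mul Real.pi).fun_neg.congr_deriv (by ring)
    have h5 : HasDerivAt (fun r => gw (A + r • B) (cz m))
        (gw (A + r • B) (cz m) * -(Real.pi * qf B (cz m))) r := h1.exp
    exact ((hP m r).fun_mul h5).congr_deriv (by ring)
  have key := hasDerivAt_tsum_of_isPreconnected hsu Metric.isOpen_ball
    (convex_ball s ρ).isPreconnected hder hb1 (Metric.mem_ball_self hρ0) hb0
    (Metric.mem_ball_self hρ0)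
  exact key

theorem hasDerivAt_th {A B : Matrix ι ι ℝ} {s : ℝ} (h : (A + s • B).PosDef) :
    HasDerivAt (fun r => th (A + r • B))
      (-(Real.pi * ∑' m : ι → ℤ, qf B (cz m) * gw (A + s • B) (cz m))) s := by
  have h1 := g05_aux h (fun _ _ => (1 : ℝ)) (fun _ _ => (0 : ℝ)) (fun m r => hasDerivAt_const r 1) 1
    (by
      intro r _ m
      have : 0 ≤ ∑ i, |cz m i| := Finset.sum_nonneg fun i _ => abs_nonneg _
      rw [abs_one, one_mul]
      nlinarith)
    (by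
      intro r _ m
      rw [abs_zero, one_mul]
      positivity)
  simp only [one_mul, mul_one, zero_sub] at h1
  unfold th
  convert h1 using 1
  rw [← tsum_mul_left, ← tsum_neg]
  exact tsum_congr fun m => by ring

theorem hasDerivAt_gsum {A B : Matrix ι ι ℝ} {s : ℝ} (h : (A + s • B).PosDef) (u v : ι → ℝ) :
    HasDerivAt (fun r => ∑' m : ι → ℤ, ((u + r • v) ⬝ᵥ cz m) ^ 2 * gw (A + r • B) (cz m))
      (∑' m : ι → ℤ, (2 * ((u + s • v) ⬝ᵥ cz m) * (v ⬝ᵥ cz m) -
        Real.pi * ((u + s • v) ⬝ᵥ cz m) ^ 2 * qf B (cz m)) * gw (A + s • B) (cz m)) s := by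
  set c : ℝ := ∑ i, |u i| + (|s| + 1) * ∑ i, |v i| with hc
  set c' : ℝ := ∑ i, |v i| with hc'
  have hc'0 : 0 ≤ c' := Finset.sum_nonneg fun i _ => abs_nonneg _
  have hc0 : 0 ≤ c := by
    have : 0 ≤ ∑ i, |u i| := Finset.sum_nonneg fun i _ => abs_nonneg _
    have h2 := abs_nonneg s
    rw [hc]; positivity
  have hcv : c' ≤ c := by
    have : 0 ≤ ∑ i, |u i| := Finset.sum_nonneg fun i _ => abs_nonneg _
    have h2 := abs_nonneg s
    rw [hc]
    nlinarith
  have hlin : ∀ r, |r - s| < 1 → ∀ m : ι → ℤ,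
      |(u + r • v) ⬝ᵥ cz m| ≤ c * (1 + ∑ i, |cz m i|) := by
    intro r hr m
    refine (g05_dot_le _ m).trans ?_
    have hN : 0 ≤ 1 + ∑ i, |cz m i| := by
      have : 0 ≤ ∑ i, |cz m i| := Finset.sum_nonneg fun i _ => abs_nonneg _
      linarith
    refine mul_le_mul_of_nonneg_right ?_ hN
    have hr' : |r| ≤ |s| + 1 := by
      have := abs_sub_abs_le_abs_sub r s
      linarith
    calc ∑ i, |(u + r • v) i| ≤ ∑ i, (|u i| + (|s| + 1) * |v i|) := by
          refine Finset.sum_le_sum fun i _ => ?_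
          rw [Pi.add_apply, Pi.smul_apply, smul_eq_mul]
          refine (abs_add_le _ _).trans ?_
          rw [abs_mul]
          have := mul_le_mul_of_nonneg_right hr' (abs_nonneg (v i))
          linarith
      _ = c := by rw [Finset.sum_add_distrib, ← Finset.mul_sum]
  refine g05_aux h (fun r m => ((u + r • v) ⬝ᵥ cz m) ^ 2)
    (fun r m => 2 * ((u + r • v) ⬝ᵥ cz m) * (v ⬝ᵥ cz m)) ?_ (2 * c ^ 2) ?_ ?_
  · intro m r
    have h1 : HasDerivAt (fun r : ℝ => (u + r • v) ⬝ᵥ cz m) (v ⬝ᵥ cz m) r := by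
      have h2 : (fun r : ℝ => (u + r • v) ⬝ᵥ cz m)
          = fun r : ℝ => u ⬝ᵥ cz m + r * (v ⬝ᵥ cz m) := by
        funext r
        rw [add_dotProduct, smul_dotProduct, smul_eq_mul]
      rw [h2]
      simpa using ((hasDerivAt_id r).mul_const (v ⬝ᵥ cz m)).const_add (u ⬝ᵥ cz m)
    exact (h1.fun_pow 2).congr_deriv (by norm_num)
  · intro r hr m
    have h1 := hlin r hr m
    rw [abs_pow]
    have h2 : |(u + r • v) ⬝ᵥ cz m| ^ 2 ≤ (c * (1 + ∑ i, |cz m i|)) ^ 2 :=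
      pow_le_pow_left₀ (abs_nonneg _) h1 2
    refine h2.trans ?_
    rw [mul_pow]
    have : 0 ≤ c ^ 2 * (1 + ∑ i, |cz m i|) ^ 2 := by positivity
    linarith
  · intro r hr m
    have h1 := hlin r hr m
    have h2 : |v ⬝ᵥ cz m| ≤ c * (1 + ∑ i, |cz m i|) := by
      refine (g05_dot_le v m).trans ?_
      have hN : 0 ≤ 1 + ∑ i, |cz m i| := by
        have : 0 ≤ ∑ i, |cz m i| := Finset.sum_nonneg fun i _ => abs_nonneg _
        linarith
      exact mul_le_mul_of_nonneg_right hcv hN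
    rw [abs_mul, abs_mul, abs_two]
    have h3 : |(u + r • v) ⬝ᵥ cz m| * |v ⬝ᵥ cz m|
        ≤ (c * (1 + ∑ i, |cz m i|)) * (c * (1 + ∑ i, |cz m i|)) :=
      mul_le_mul h1 h2 (abs_nonneg _) ((abs_nonneg _).trans h1)
    calc 2 * |(u + r • v) ⬝ᵥ cz m| * |v ⬝ᵥ cz m|
        = 2 * (|(u + r • v) ⬝ᵥ cz m| * |v ⬝ᵥ cz m|) := by ring
      _ ≤ 2 * ((c * (1 + ∑ i, |cz m i|)) * (c * (1 + ∑ i, |cz m i|))) := by linarith
      _ = 2 * c ^ 2 * (1 + ∑ i, |cz m i|) ^ 2 := by ring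

/-- in the direction of scaling: `d/dt log θ(t A) = -π mq (t A) A` -/
theorem hasDerivAt_log_th_smul {A : Matrix ι ι ℝ} (hA : A.PosDef) {t : ℝ} (ht : 0 < t) :
    HasDerivAt (fun r => Real.log (th (r • A))) (-(Real.pi * mq (t • A) A)) t := by
  have h0 : (t • A).PosDef := hA.smul ht
  have h1 : ((0 : Matrix ι ι ℝ) + t • A).PosDef := by rwa [zero_add]
  have h2 := hasDerivAt_th h1
  simp only [zero_add] at h2
  have h3 := h2.log (th_pos h0).ne'
  convert h3 using 1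
  unfold mq
  ring

end LT
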