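import Pool.Agent.H29.LG.G04
import Pool.Agent.H29.LG.G05

/-!
# LG-G06: the defect `tr(P A)/(2π) - E_A (mᵀ A P A m)` is monotone in `A`

By `exists_psd_decomp` and linearity it is enough to treat `P = w wᵀ`
(`mᵀ A w wᵀ A m = ((A w)·m)²`, `tr (w wᵀ A) = wᵀ A w`).  Let `B = A' - A = ∑_i b_i b_iᵀ`
(`exists_psd_decomp`), `A_s = A + s B` (positive definite for `s ≥ 0`), and
`F(s) = wᵀ A_s w / (2π) - E_{A_s} ((A_s w)·m)²`.
With `x_i = w·b_i`, `y_i = E_{A_s} ((A_s w)·m)(b_i·m)` (note `(B w)·m = ∑ x_i (b_i·m)`):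
`F'(s) = ∑_i [x_i²/(2π) - 2 x_i y_i + π Cov_{A_s} (((A_s w)·m)², (b_i·m)²)]
       ≥ ∑_i [x_i²/(2π) - 2 x_i y_i + 2π y_i²] = ∑_i (x_i - 2π y_i)²/(2π) ≥ 0`
by `cov_ge` (`u = A_s w`, `b = b_i`) divided by `θ(A_s)²`.  The derivative of the quotient
`S(s)/θ(A_s)` comes from `hasDerivAt_gsum` (`u = A w`, `v = B w`) and `hasDerivAt_th`.
Then `F(0) ≤ F(1)` (`monotoneOn_of_deriv_nonneg` on `[0,1]`).
-/

set_option linter.unusedSectionVars false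

namespace LT

open scoped Matrix

variable {ι : Type*} [Fintype ι] [DecidableEq ι]

theorem g6_sym {A : Matrix ι ι ℝ} (hA : A.PosDef) : Aᵀ = A := by
  have h := hA.1
  rw [Matrix.IsHermitian, Matrix.conjTranspose_eq_transpose_of_trivial] at h
  exact h

theorem g6_wmul {A : Matrix ι ι ℝ} (hA : Aᵀ = A) (w : ι → ℝ) :
    A * Matrix.vecMulVec w w * A = Matrix.vecMulVec (A *ᵥ w) (A *ᵥ w) := by
  rw [Matrix.mul_vecMulVec, Matrix.vecMulVec_mul]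
  congr 1
  rw [← Matrix.mulVec_transpose, hA]

theorem g6_trace {A : Matrix ι ι ℝ} (hA : Aᵀ = A) (w : ι → ℝ) :
    (Matrix.vecMulVec w w * A).trace = qf A w := by
  rw [Matrix.vecMulVec_mul, Matrix.trace_vecMulVec, ← Matrix.mulVec_transpose, hA]
  rfl

theorem g6_mq (A : Matrix ι ι ℝ) (u : ι → ℝ) :
    mq A (Matrix.vecMulVec u u) = (∑' m : ι → ℤ, (u ⬝ᵥ cz m) ^ 2 * gw A (cz m)) / th A := by
  unfold mq
  simp only [qf_vecMulVec]

theorem g6_abs_dot (u : ι → ℝ) (m : ι → ℤ) :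
    |u ⬝ᵥ cz m| ≤ (∑ i, |u i|) * (1 + ∑ i, |cz m i + (0 : ι → ℝ) i|) := by
  have h1 : |u ⬝ᵥ cz m| ≤ ∑ i, |u i| * |cz m i| := by
    rw [dotProduct]
    refine (Finset.abs_sum_le_sum_abs _ _).trans (le_of_eq ?_)
    exact Finset.sum_congr rfl fun i _ => abs_mul _ _
  refine h1.trans ?_
  rw [Finset.sum_mul]
  refine Finset.sum_le_sum fun i _ => ?_
  refine mul_le_mul_of_nonneg_left ?_ (abs_nonneg _)
  have h2 : |cz m i| ≤ ∑ j, |cz m j + (0 : ι → ℝ) j| := by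
    have h3 := Finset.single_le_sum (f := fun j => |cz m j + (0 : ι → ℝ) j|)
      (fun j _ => abs_nonneg _) (Finset.mem_univ i)
    simpa using h3
  linarith

theorem g6_abs_nonneg (m : ι → ℤ) : 0 ≤ ∑ i, |cz m i + (0 : ι → ℝ) i| :=
  Finset.sum_nonneg fun _ _ => abs_nonneg _

theorem g6_sum2 {A : Matrix ι ι ℝ} (hA : A.PosDef) (u b : ι → ℝ) :
    Summable fun m : ι → ℤ => (u ⬝ᵥ cz m) * (b ⬝ᵥ cz m) * gw A (cz m) := by
  have h := gs_summable_of_le hA (0 : ι → ℝ)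
    (g := fun m : ι → ℤ => (u ⬝ᵥ cz m) * (b ⬝ᵥ cz m))
    (C := (∑ i, |u i|) * (∑ i, |b i|)) 2 (by
      intro m
      rw [abs_mul]
      have h1 := g6_abs_dot u m
      have h2 := g6_abs_dot b m
      calc |u ⬝ᵥ cz m| * |b ⬝ᵥ cz m|
          ≤ ((∑ i, |u i|) * (1 + ∑ i, |cz m i + (0 : ι → ℝ) i|)) *
            ((∑ i, |b i|) * (1 + ∑ i, |cz m i + (0 : ι → ℝ) i|)) :=
            mul_le_mul h1 h2 (abs_nonneg _) ((abs_nonneg _).trans h1)
        _ = _ := by ring)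
  simpa using h

theorem g6_sum4 {A : Matrix ι ι ℝ} (hA : A.PosDef) (u b : ι → ℝ) :
    Summable fun m : ι → ℤ => (u ⬝ᵥ cz m) ^ 2 * (b ⬝ᵥ cz m) ^ 2 * gw A (cz m) := by
  have h := gs_summable_of_le hA (0 : ι → ℝ)
    (g := fun m : ι → ℤ => (u ⬝ᵥ cz m) ^ 2 * (b ⬝ᵥ cz m) ^ 2)
    (C := (∑ i, |u i|) ^ 2 * (∑ i, |b i|) ^ 2) 4 (by
      intro m
      rw [abs_mul, abs_pow, abs_pow]
      have h1 := g6_abs_dot u m
      have h2 := g6_abs_dot b m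
      have h3 : |u ⬝ᵥ cz m| ^ 2 ≤ ((∑ i, |u i|) * (1 + ∑ i, |cz m i + (0 : ι → ℝ) i|)) ^ 2 :=
        pow_le_pow_left₀ (abs_nonneg _) h1 2
      have h4 : |b ⬝ᵥ cz m| ^ 2 ≤ ((∑ i, |b i|) * (1 + ∑ i, |cz m i + (0 : ι → ℝ) i|)) ^ 2 :=
        pow_le_pow_left₀ (abs_nonneg _) h2 2
      calc |u ⬝ᵥ cz m| ^ 2 * |b ⬝ᵥ cz m| ^ 2
          ≤ ((∑ i, |u i|) * (1 + ∑ i, |cz m i + (0 : ι → ℝ) i|)) ^ 2 *
            ((∑ i, |b i|) * (1 + ∑ i, |cz m i + (0 : ι → ℝ) i|)) ^ 2 :=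
            mul_le_mul h3 h4 (by positivity) (by positivity)
        _ = _ := by ring)
  simpa using h

theorem g6_sq {A : Matrix ι ι ℝ} (hA : A.PosDef) (b : ι → ℝ) :
    Summable fun m : ι → ℤ => (b ⬝ᵥ cz m) ^ 2 * gw A (cz m) := by
  refine (g6_sum2 hA b b).congr fun m => ?_
  ring

theorem g6_tsum_qf {κ : Type*} [Fintype κ] {A : Matrix ι ι ℝ} (hA : A.PosDef)
    (b : κ → ι → ℝ) :
    ∑' m : ι → ℤ, qf (∑ k, Matrix.vecMulVec (b k) (b k)) (cz m) * gw A (cz m) =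
      ∑ k, ∑' m : ι → ℤ, (b k ⬝ᵥ cz m) ^ 2 * gw A (cz m) := by
  rw [← Summable.tsum_finsetSum fun k _ => g6_sq hA (b k)]
  refine tsum_congr fun m => ?_
  rw [qf_sum, Finset.sum_mul]
  refine Finset.sum_congr rfl fun k _ => ?_
  rw [qf_vecMulVec]

theorem g6_mulVec {κ : Type*} [Fintype κ] (b : κ → ι → ℝ) (w : ι → ℝ) (x : ι → ℝ) :
    ((∑ k, Matrix.vecMulVec (b k) (b k)) *ᵥ w) ⬝ᵥ x = ∑ k, (b k ⬝ᵥ w) * (b k ⬝ᵥ x) := by
  rw [Matrix.sum_mulVec, sum_dotProduct]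
  refine Finset.sum_congr rfl fun k _ => ?_
  have h : Matrix.vecMulVec (b k) (b k) *ᵥ w = (b k ⬝ᵥ w) • b k := by
    rw [Matrix.vecMulVec_mulVec]
    ext i
    simp [mul_comm]
  rw [h, smul_dotProduct, smul_eq_mul]

theorem g6_tsum_der {κ : Type*} [Fintype κ] {A : Matrix ι ι ℝ} (hA : A.PosDef)
    (b : κ → ι → ℝ) (w U : ι → ℝ) :
    ∑' m : ι → ℤ, (2 * (U ⬝ᵥ cz m) *
        (((∑ k, Matrix.vecMulVec (b k) (b k)) *ᵥ w) ⬝ᵥ cz m) -
        Real.pi * (U ⬝ᵥ cz m) ^ 2 * qf (∑ k, Matrix.vecMulVec (b k) (b k)) (cz m)) *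
        gw A (cz m) =
      ∑ k, (2 * (b k ⬝ᵥ w) * (∑' m : ι → ℤ, (U ⬝ᵥ cz m) * (b k ⬝ᵥ cz m) * gw A (cz m)) -
        Real.pi * ∑' m : ι → ℤ, (U ⬝ᵥ cz m) ^ 2 * (b k ⬝ᵥ cz m) ^ 2 * gw A (cz m)) := by
  have h1 : ∀ k : κ, (2 * (b k ⬝ᵥ w) *
      (∑' m : ι → ℤ, (U ⬝ᵥ cz m) * (b k ⬝ᵥ cz m) * gw A (cz m)) -
        Real.pi * ∑' m : ι → ℤ, (U ⬝ᵥ cz m) ^ 2 * (b k ⬝ᵥ cz m) ^ 2 * gw A (cz m)) =
      ∑' m : ι → ℤ, (2 * (b k ⬝ᵥ w) * ((U ⬝ᵥ cz m) * (b k ⬝ᵥ cz m) * gw A (cz m)) -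
        Real.pi * ((U ⬝ᵥ cz m) ^ 2 * (b k ⬝ᵥ cz m) ^ 2 * gw A (cz m))) := by
    intro k
    rw [Summable.tsum_sub ((g6_sum2 hA U (b k)).mul_left _) ((g6_sum4 hA U (b k)).mul_left _),
      tsum_mul_left, tsum_mul_left]
  simp only [h1]
  rw [← Summable.tsum_finsetSum fun k _ =>
    ((g6_sum2 hA U (b k)).mul_left _).sub ((g6_sum4 hA U (b k)).mul_left _)]
  refine tsum_congr fun m => ?_
  rw [g6_mulVec, qf_sum, Finset.mul_sum, Finset.mul_sum, ← Finset.sum_sub_distrib,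
    Finset.sum_mul]
  refine Finset.sum_congr rfl fun k _ => ?_
  rw [qf_vecMulVec]
  ring

/-- the scalar inequality -/
theorem g6_scalar {κ : Type*} [Fintype κ] (x s2 s4 sb : κ → ℝ) (t n : ℝ) (ht : 0 < t)
    (h : ∀ k, 2 * s2 k ^ 2 ≤ s4 k * t - n * sb k) :
    0 ≤ (∑ k, x k ^ 2) / (2 * Real.pi) -
      ((∑ k, (2 * x k * s2 k - Real.pi * s4 k)) * t - n * (-(Real.pi * ∑ k, sb k))) / t ^ 2 := by
  have hpi := Real.pi_pos
  have e : (∑ k, x k ^ 2) / (2 * Real.pi) -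
      ((∑ k, (2 * x k * s2 k - Real.pi * s4 k)) * t - n * (-(Real.pi * ∑ k, sb k))) / t ^ 2 =
      ∑ k, (x k ^ 2 / (2 * Real.pi) - ((2 * x k * s2 k - Real.pi * s4 k) * t +
        n * Real.pi * sb k) / t ^ 2) := by
    rw [Finset.sum_sub_distrib (fun k => x k ^ 2 / (2 * Real.pi))
      (fun k => ((2 * x k * s2 k - Real.pi * s4 k) * t + n * Real.pi * sb k) / t ^ 2),
      ← Finset.sum_div, ← Finset.sum_div, Finset.sum_add_distrib, ← Finset.sum_mul,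
      ← Finset.mul_sum]
    ring
  rw [e]
  refine Finset.sum_nonneg fun k _ => ?_
  have hk := h k
  have e2 : x k ^ 2 / (2 * Real.pi) - ((2 * x k * s2 k - Real.pi * s4 k) * t +
        n * Real.pi * sb k) / t ^ 2 =
      (x k - 2 * Real.pi * (s2 k / t)) ^ 2 / (2 * Real.pi) +
        Real.pi * ((s4 k * t - n * sb k) - 2 * s2 k ^ 2) / t ^ 2 := by
    field_simp
    ring
  rw [e2]
  have : 0 ≤ (s4 k * t - n * sb k) - 2 * s2 k ^ 2 := by linarith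
  positivity

/-- the rank one case -/
theorem g6_rank_one {A A' : Matrix ι ι ℝ} (hA : A.PosDef) (h : (A' - A).PosSemidef)
    (w : ι → ℝ) :
    qf A w / (2 * Real.pi) - mq A (Matrix.vecMulVec (A *ᵥ w) (A *ᵥ w)) ≤
      qf A' w / (2 * Real.pi) - mq A' (Matrix.vecMulVec (A' *ᵥ w) (A' *ᵥ w)) := by
  obtain ⟨b, hb⟩ := exists_psd_decomp h
  set B : Matrix ι ι ℝ := A' - A with hB
  have hA' : A' = A + B := by rw [hB]; abel
  have hpd : ∀ s : ℝ, 0 ≤ s → (A + s • B).PosDef := fun s hs =>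
    hA.add_posSemidef (h.smul hs)
  let u : ι → ℝ := A *ᵥ w
  let v : ι → ℝ := B *ᵥ w
  let N : ℝ → ℝ := fun r => ∑' m : ι → ℤ, ((u + r • v) ⬝ᵥ cz m) ^ 2 * gw (A + r • B) (cz m)
  let F : ℝ → ℝ := fun s => (qf A w + s * qf B w) / (2 * Real.pi) - N s / th (A + s • B)
  have hF : ∀ s : ℝ, F s = qf (A + s • B) w / (2 * Real.pi) -
      mq (A + s • B) (Matrix.vecMulVec ((A + s • B) *ᵥ w) ((A + s • B) *ᵥ w)) := by
    intro s
    have e1 : (A + s • B) *ᵥ w = u + s • v := by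
      rw [Matrix.add_mulVec, Matrix.smul_mulVec]
    simp only [F, N]
    rw [g6_mq, e1, qf_add, qf_smul]
  have hder : ∀ s : ℝ, 0 ≤ s → ∃ f' : ℝ, HasDerivAt F f' s ∧ 0 ≤ f' := by
    intro s hs
    have hs' := hpd s hs
    have h1 := hasDerivAt_th hs'
    have h2 := hasDerivAt_gsum hs' u v
    have ht := th_pos hs'
    have h3 : HasDerivAt (fun r : ℝ => (qf A w + r * qf B w) / (2 * Real.pi))
        ((qf B w) / (2 * Real.pi)) s := by
      have := (((hasDerivAt_id s).mul_const (qf B w)).const_add (qf A w)).div_const (2 * Real.pi)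
      simpa using this
    refine ⟨_, h3.sub (h2.div h1 ht.ne'), ?_⟩
    have hcov := fun k => cov_ge hs' (u + s • v) (b k)
    have hsc := g6_scalar (fun k => b k ⬝ᵥ w)
      (fun k => ∑' m : ι → ℤ, ((u + s • v) ⬝ᵥ cz m) * (b k ⬝ᵥ cz m) * gw (A + s • B) (cz m))
      (fun k => ∑' m : ι → ℤ, ((u + s • v) ⬝ᵥ cz m) ^ 2 * (b k ⬝ᵥ cz m) ^ 2 *
        gw (A + s • B) (cz m))
      (fun k => ∑' m : ι → ℤ, (b k ⬝ᵥ cz m) ^ 2 * gw (A + s • B) (cz m))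
      (th (A + s • B))
      (∑' m : ι → ℤ, ((u + s • v) ⬝ᵥ cz m) ^ 2 * gw (A + s • B) (cz m)) ht hcov
    have e1 : qf B w = ∑ k, (b k ⬝ᵥ w) ^ 2 := by
      rw [hb, qf_sum]
      exact Finset.sum_congr rfl fun k _ => qf_vecMulVec _ _
    have e2 : ∑' m : ι → ℤ, qf B (cz m) * gw (A + s • B) (cz m) =
        ∑ k, ∑' m : ι → ℤ, (b k ⬝ᵥ cz m) ^ 2 * gw (A + s • B) (cz m) := by
      have := g6_tsum_qf hs' b
      rw [← hb] at this
      exact this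
    have e3 := g6_tsum_der hs' b w (u + s • v)
    rw [← hb] at e3
    rw [e1, e2, e3]
    exact hsc
  have hmono : MonotoneOn F (Set.Icc (0 : ℝ) 1) := by
    refine monotoneOn_of_deriv_nonneg (convex_Icc 0 1) ?_ ?_ ?_
    · intro s hs
      obtain ⟨f', hf', -⟩ := hder s hs.1
      exact hf'.continuousAt.continuousWithinAt
    · intro s hs
      obtain ⟨f', hf', -⟩ := hder s (interior_subset hs).1
      exact hf'.differentiableAt.differentiableWithinAt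
    · intro s hs
      obtain ⟨f', hf', h0⟩ := hder s (interior_subset hs).1
      rw [hf'.deriv]
      exact h0
  have h01 := hmono (Set.left_mem_Icc.2 zero_le_one) (Set.right_mem_Icc.2 zero_le_one)
    zero_le_one
  rw [hF 0, hF 1] at h01
  rw [zero_smul, add_zero, one_smul, ← hA'] at h01
  exact h01

theorem def_mono {A A' P : Matrix ι ι ℝ} (hA : A.PosDef) (h : (A' - A).PosSemidef)
    (hP : P.PosSemidef) :
    (P * A).trace / (2 * Real.pi) - mq A (A * P * A) ≤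
      (P * A').trace / (2 * Real.pi) - mq A' (A' * P * A') := by
  obtain ⟨w, hw⟩ := exists_psd_decomp hP
  have hA' : A'.PosDef := by
    have : A' = A + (A' - A) := by abel
    rw [this]
    exact hA.add_posSemidef h
  have key : ∀ {M : Matrix ι ι ℝ}, M.PosDef →
      (P * M).trace / (2 * Real.pi) - mq M (M * P * M) =
        ∑ k, (qf M (w k) / (2 * Real.pi) -
          mq M (Matrix.vecMulVec (M *ᵥ w k) (M *ᵥ w k))) := by
    intro M hM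
    have hs := g6_sym hM
    have e1 : (P * M).trace = ∑ k, qf M (w k) := by
      rw [hw, Finset.sum_mul, Matrix.trace_sum]
      exact Finset.sum_congr rfl fun k _ => g6_trace hs (w k)
    have e2 : M * P * M = ∑ k, Matrix.vecMulVec (M *ᵥ w k) (M *ᵥ w k) := by
      rw [hw, Finset.mul_sum, Finset.sum_mul]
      exact Finset.sum_congr rfl fun k _ => g6_wmul hs (w k)
    rw [e1, e2, mq_sum hM, Finset.sum_sub_distrib, Finset.sum_div]
  rw [key hA, key hA']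
  exact Finset.sum_le_sum fun k _ => g6_rank_one hA h (w k)

end LT
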