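import Pool.Agent.H29.LG.G03

/-!
# LG-G07: restriction of a discrete Gaussian to a sublattice

`S : ℤ^κ → ℤ^ι` (integer matrix), `A' = Sᵀ A S` positive definite (so `S` is injective).
By `exists_psd_decomp` and linearity take `P = w wᵀ`; then `mᵀ A S w wᵀ Sᵀ A m = (w·(Sᵀ A m))²` and
`χᵀ A' w wᵀ A' χ = (w·(A' χ))² = ((A' w)·χ)²`.
Decompose `ℤ^ι` into cosets `m₀ + S ℤ^κ` of the subgroup `S ℤ^κ` (a section of
`(ι → ℤ) ⧸ range S`, e.g. `AddSubgroup.addGroupEquivQuotientProdAddSubgroup`).  For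
`m = m₀ + S χ` and `x = A'⁻¹ Sᵀ A m₀`: `Sᵀ A m = A' (χ + x)` and
`mᵀ A m = (χ + x)ᵀ A' (χ + x) + const(m₀)`.  So on each coset, by `shift_le` (for `A'`, `v = A' w`),
`∑_χ (w·(Sᵀ A m))² gw A m ≥ mq A' (..) * ∑_χ gw A m`.  Sum over the cosets (everything is summable).
-/

set_option linter.unusedSectionVars false

namespace LT

open scoped Matrix

variable {ι κ : Type*} [Fintype ι] [DecidableEq ι] [Fintype κ] [DecidableEq κ]

/-- an integer matrix as a real matrix -/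
def rz (S : Matrix ι κ ℤ) : Matrix ι κ ℝ := S.map (Int.cast : ℤ → ℝ)

private theorem g07_cast (S : Matrix ι κ ℤ) (χ : κ → ℤ) : cz (S *ᵥ χ) = rz S *ᵥ cz χ := by
  funext i
  simp [cz, rz, Matrix.mulVec, dotProduct]

private theorem g07_cast_add (m m' : ι → ℤ) : cz (m + m') = cz m + cz m' := by
  funext i
  simp [cz]

private theorem g07_symm {A : Matrix ι ι ℝ} (hA : A.PosDef) : Aᵀ = A := by
  have h := hA.isHermitian
  rw [Matrix.IsHermitian, Matrix.conjTranspose_eq_transpose_of_trivial] at h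
  exact h

private theorem g07_dot {A : Matrix ι ι ℝ} (hA : A.PosDef) (x y : ι → ℝ) :
    x ⬝ᵥ (A *ᵥ y) = (A *ᵥ x) ⬝ᵥ y := by
  rw [Matrix.dotProduct_mulVec, ← Matrix.mulVec_transpose, g07_symm hA]

private theorem g07_qf_add {A : Matrix ι ι ℝ} (hA : A.PosDef) (x y : ι → ℝ) :
    qf A (x + y) = qf A x + 2 * (x ⬝ᵥ (A *ᵥ y)) + qf A y := by
  unfold qf
  rw [Matrix.mulVec_add, add_dotProduct, dotProduct_add, dotProduct_add,
    g07_dot hA y x, dotProduct_comm (A *ᵥ y) x]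
  ring

private theorem g07_inj {A : Matrix ι ι ℝ} (S : Matrix ι κ ℤ)
    (hS : ((rz S)ᵀ * A * rz S).PosDef) {χ χ' : κ → ℤ} (h : S *ᵥ χ = S *ᵥ χ') : χ = χ' := by
  by_contra hne
  have h1 : cz (χ - χ') ≠ 0 := by
    intro h0
    apply hne
    funext i
    have h2 := congrFun h0 i
    simp only [cz, Pi.sub_apply, Pi.zero_apply] at h2
    have h3 : χ i - χ' i = 0 := by exact_mod_cast h2
    omega
  have h4 := qf_pos hS h1
  rw [qf_conj, ← g07_cast, Matrix.mulVec_sub, h, sub_self] at h4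
  have h5 : cz (0 : ι → ℤ) = 0 := g01_cz_zero
  rw [h5] at h4
  simp [qf] at h4

private theorem g07_one {A : Matrix ι ι ℝ} (hA : A.PosDef) (S : Matrix ι κ ℤ)
    (hS : ((rz S)ᵀ * A * rz S).PosDef) (w : κ → ℝ) :
    mq ((rz S)ᵀ * A * rz S) (((rz S)ᵀ * A * rz S) * Matrix.vecMulVec w w *
      ((rz S)ᵀ * A * rz S)) ≤
      mq A (A * rz S * Matrix.vecMulVec w w * (rz S)ᵀ * A) := by
  set T := rz S with hT
  set B := Tᵀ * A * T with hB
  set M := A * T * Matrix.vecMulVec w w * Tᵀ * A with hM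
  have hBs := g07_symm hS
  have hAs := g07_symm hA
  set v := B *ᵥ w with hv
  -- the quadratic forms
  have hq1 : ∀ χ : κ → ℝ, qf (B * Matrix.vecMulVec w w * B) χ = (v ⬝ᵥ χ) ^ 2 := by
    intro χ
    have h := qf_conj B (Matrix.vecMulVec w w) χ
    rw [hBs] at h
    rw [h, qf_vecMulVec, g07_dot hS w χ]
  have hq2 : ∀ y : ι → ℝ, qf M y = (w ⬝ᵥ ((Tᵀ * A) *ᵥ y)) ^ 2 := by
    intro y
    have h := qf_conj (Tᵀ * A) (Matrix.vecMulVec w w) y
    rw [Matrix.transpose_mul, Matrix.transpose_transpose, hAs] at h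
    rw [← qf_vecMulVec, ← h, hM]
    congr 1
    simp only [Matrix.mul_assoc]
  -- cosets
  let H : AddSubgroup (ι → ℤ) := (Matrix.mulVecLin S).toAddMonoidHom.range
  have hmemH : ∀ y : ι → ℤ, y ∈ H ↔ ∃ χ : κ → ℤ, S *ᵥ χ = y := by
    intro y
    constructor
    · rintro ⟨χ, hχ⟩
      exact ⟨χ, hχ⟩
    · rintro ⟨χ, hχ⟩
      exact ⟨χ, hχ⟩
  let φ : ((ι → ℤ) ⧸ H) × (κ → ℤ) → (ι → ℤ) := fun p => p.1.out + S *ᵥ p.2
  have hφmk : ∀ p, ((φ p : ι → ℤ) : (ι → ℤ) ⧸ H) = p.1 := by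
    intro p
    have h1 : ((φ p : ι → ℤ) : (ι → ℤ) ⧸ H) = ((p.1.out : ι → ℤ) : (ι → ℤ) ⧸ H) := by
      refine QuotientAddGroup.eq.mpr ?_
      rw [hmemH]
      refine ⟨-p.2, ?_⟩
      rw [Matrix.mulVec_neg]
      show -(S *ᵥ p.2) = -(p.1.out + S *ᵥ p.2) + p.1.out
      abel
    rw [h1]
    exact p.1.out_eq
  have hbij : Function.Bijective φ := by
    constructor
    · intro p p' h
      have h1 : p.1 = p'.1 := by rw [← hφmk p, ← hφmk p', h]
      have h2 : p.1.out + S *ᵥ p.2 = p'.1.out + S *ᵥ p'.2 := h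
      rw [h1] at h2
      exact Prod.ext h1 (g07_inj S hS (add_left_cancel h2))
    · intro m
      have h1 : ((((m : (ι → ℤ) ⧸ H)).out : ι → ℤ) : (ι → ℤ) ⧸ H) = (m : (ι → ℤ) ⧸ H) :=
        ((m : (ι → ℤ) ⧸ H)).out_eq
      rw [QuotientAddGroup.eq, hmemH] at h1
      obtain ⟨χ, hχ⟩ := h1
      refine ⟨((m : (ι → ℤ) ⧸ H), χ), ?_⟩
      show ((m : (ι → ℤ) ⧸ H)).out + S *ᵥ χ = m
      rw [hχ]
      abel
  let e := Equiv.ofBijective φ hbij
  have hsf := summable_qf_gw hA M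
  have hsg := summable_gw hA
  have hsf' : Summable fun p : ((ι → ℤ) ⧸ H) × (κ → ℤ) =>
      qf M (cz (e p)) * gw A (cz (e p)) := (e.summable_iff (f := fun m : ι → ℤ =>
        qf M (cz m) * gw A (cz m))).mpr hsf
  have hsg' : Summable fun p : ((ι → ℤ) ⧸ H) × (κ → ℤ) => gw A (cz (e p)) :=
    (e.summable_iff (f := fun m : ι → ℤ => gw A (cz m))).mpr hsg
  have htf : ∑' m : ι → ℤ, qf M (cz m) * gw A (cz m) =
      ∑' q : (ι → ℤ) ⧸ H, ∑' χ : κ → ℤ, qf M (cz (e (q, χ))) * gw A (cz (e (q, χ))) := by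
    rw [← e.tsum_eq (fun m : ι → ℤ => qf M (cz m) * gw A (cz m))]
    exact hsf'.tsum_prod
  have htg : th A = ∑' q : (ι → ℤ) ⧸ H, ∑' χ : κ → ℤ, gw A (cz (e (q, χ))) := by
    unfold th
    rw [← e.tsum_eq (fun m : ι → ℤ => gw A (cz m))]
    exact hsg'.tsum_prod
  set μ := mq B (B * Matrix.vecMulVec w w * B) with hμ
  have hμ' : μ * th B = ∑' χ : κ → ℤ, (v ⬝ᵥ cz χ) ^ 2 * gw B (cz χ) := by
    rw [hμ]
    unfold mq
    rw [div_mul_cancel₀ _ (th_pos hS).ne']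
    exact tsum_congr fun χ => by rw [hq1]
  have hcos : ∀ q : (ι → ℤ) ⧸ H, μ * ∑' χ : κ → ℤ, gw A (cz (e (q, χ))) ≤
      ∑' χ : κ → ℤ, qf M (cz (e (q, χ))) * gw A (cz (e (q, χ))) := by
    intro q
    set m0 : ι → ℤ := q.out with hm0
    set x : κ → ℝ := B⁻¹ *ᵥ ((Tᵀ * A) *ᵥ cz m0) with hx
    have hBu : IsUnit B.det := (Matrix.isUnit_iff_isUnit_det B).mp hS.isUnit
    have hBx : B *ᵥ x = (Tᵀ * A) *ᵥ cz m0 := by
      rw [hx, Matrix.mulVec_mulVec, Matrix.mul_nonsing_inv _ hBu, Matrix.one_mulVec]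
    have hcz : ∀ χ : κ → ℤ, cz (e (q, χ)) = cz m0 + T *ᵥ cz χ := by
      intro χ
      show cz (q.out + S *ᵥ χ) = _
      rw [g07_cast_add, g07_cast]
    have hlin : ∀ χ : κ → ℤ, w ⬝ᵥ ((Tᵀ * A) *ᵥ cz (e (q, χ))) = v ⬝ᵥ (cz χ + x) := by
      intro χ
      rw [hcz, Matrix.mulVec_add, Matrix.mulVec_mulVec, ← hBx, ← Matrix.mulVec_add,
        g07_dot hS, add_comm x]
    have hquad : ∀ χ : κ → ℤ, qf A (cz (e (q, χ))) =
        qf B (cz χ + x) + (qf A (cz m0) - qf B x) := by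
      intro χ
      rw [hcz, add_comm (cz m0), g07_qf_add hA, g07_qf_add hS, hBx, ← qf_conj, ← hB]
      have h3 : (T *ᵥ cz χ) ⬝ᵥ (A *ᵥ cz m0) = cz χ ⬝ᵥ ((Tᵀ * A) *ᵥ cz m0) := by
        rw [← Matrix.mulVec_mulVec, Matrix.dotProduct_mulVec (cz χ) Tᵀ, Matrix.vecMul_transpose]
      rw [h3]
      ring
    set K := Real.exp (-(Real.pi * (qf A (cz m0) - qf B x))) with hK
    have hKpos : 0 < K := Real.exp_pos _
    have hgw : ∀ χ : κ → ℤ, gw A (cz (e (q, χ))) = K * gw B (cz χ + x) := by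
      intro χ
      unfold gw
      rw [hquad, hK, ← Real.exp_add]
      congr 1
      ring
    have e1 : ∑' χ : κ → ℤ, gw A (cz (e (q, χ))) = K * ∑' χ : κ → ℤ, gw B (cz χ + x) := by
      rw [← tsum_mul_left]
      exact tsum_congr hgw
    have e2 : ∑' χ : κ → ℤ, qf M (cz (e (q, χ))) * gw A (cz (e (q, χ))) =
        K * ∑' χ : κ → ℤ, (v ⬝ᵥ (cz χ + x)) ^ 2 * gw B (cz χ + x) := by
      rw [← tsum_mul_left]
      refine tsum_congr fun χ => ?_
      rw [hq2, hlin, hgw]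
      ring
    rw [e1, e2]
    have h4 := shift_le hS x v
    rw [← hμ'] at h4
    have h5 : μ * ∑' χ : κ → ℤ, gw B (cz χ + x) ≤
        ∑' χ : κ → ℤ, (v ⬝ᵥ (cz χ + x)) ^ 2 * gw B (cz χ + x) := by
      have h6 := th_pos hS
      by_contra h7
      push Not at h7
      have h8 := mul_lt_mul_of_pos_right h7 h6
      linarith
    have h9 := mul_le_mul_of_nonneg_left h5 hKpos.le
    linarith
  have hfin : μ * th A ≤ ∑' m : ι → ℤ, qf M (cz m) * gw A (cz m) := by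
    rw [htf, htg, ← tsum_mul_left]
    exact Summable.tsum_le_tsum hcos (hsg'.prod.mul_left μ) hsf'.prod
  have hr : mq A M = (∑' m : ι → ℤ, qf M (cz m) * gw A (cz m)) / th A := rfl
  rw [hr, le_div_iff₀ (th_pos hA)]
  exact hfin

theorem mq_restrict {A : Matrix ι ι ℝ} (hA : A.PosDef) (S : Matrix ι κ ℤ)
    (hS : ((rz S)ᵀ * A * rz S).PosDef) {P : Matrix κ κ ℝ} (hP : P.PosSemidef) :
    mq ((rz S)ᵀ * A * rz S) (((rz S)ᵀ * A * rz S) * P * ((rz S)ᵀ * A * rz S)) ≤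
      mq A (A * rz S * P * (rz S)ᵀ * A) := by
  obtain ⟨w, hw⟩ := exists_psd_decomp hP
  have h1 : ((rz S)ᵀ * A * rz S) * P * ((rz S)ᵀ * A * rz S) =
      ∑ k, ((rz S)ᵀ * A * rz S) * Matrix.vecMulVec (w k) (w k) * ((rz S)ᵀ * A * rz S) := by
    rw [hw, Matrix.mul_sum, Matrix.sum_mul]
  have h2 : A * rz S * P * (rz S)ᵀ * A =
      ∑ k, A * rz S * Matrix.vecMulVec (w k) (w k) * (rz S)ᵀ * A := by
    rw [hw, Matrix.mul_sum, Matrix.sum_mul, Matrix.sum_mul]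
  rw [h1, h2, mq_sum hS, mq_sum hA]
  exact Finset.sum_le_sum fun k _ => g07_one hA S hS (w k)

end LT
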