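import Pool.Agent.H29.LG.G00

/-!
# LG-G08: the one-dimensional case

* `th1_inv`: `Real.tsum_exp_neg_mul_int_sq`.
* `hasDerivAt_th1`: termwise differentiation on `s > 0`.
* `c1_inv`: differentiate `log` of `th1_inv`: `th1 s = s^{-1/2} th1 (1/s)` gives
  `-π c1 s = -1/(2s) + (π/s²) c1 (1/s)`.
* `c1_le`: for `u ≥ 1`: `c1 u ≤ ∑_{n ≠ 0} n² exp (-π u n²)` (`th1 ≥ 1`), and
  `u² ∑_{n≠0} n² exp(-π u n²) ≤ 1`: e.g. `n² exp (-π u n²) ≤ n² exp (-π u |n|)` and
  `x² exp(-π x) ≤ ...`; any crude estimate (`exp (π u n²) ≥ 8 u² n⁴` or similar: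
  `exp y ≥ y³/6`, `y = π u n²` gives `u² n² exp (-y) ≤ 6 u² n²/(π³ u³ n⁶) ≤ 6/(π³ n⁴)`, and
  `2 * 6/π³ * ∑ 1/n⁴ ≤ 12/31 * 1.09 < 1`).
* `th1_tendsto`: `th1 u - 1 = ∑_{n≠0} exp(-π u n²) → 0` (same kind of bound).
-/

set_option linter.unusedSectionVars false

namespace LT

theorem lg8_exp_le {y : ℝ} (hy : 0 < y) : Real.exp (-y) ≤ 6 / y ^ 3 := by
  have h1 : y ^ 3 / 6 ≤ Real.exp y := by
    have h2 := Real.pow_div_factorial_le_exp y hy.le 3
    have h3 : ((Nat.factorial 3 : ℕ) : ℝ) = 6 := by norm_num [Nat.factorial]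
    rwa [h3] at h2
  rw [Real.exp_neg, inv_le_comm₀ (Real.exp_pos y) (by positivity), inv_div]
  exact h1

theorem lg8_bound {s : ℝ} (hs : 0 < s) (n : ℤ) :
    (n : ℝ) ^ 2 * Real.exp (-(Real.pi * s * (n : ℝ) ^ 2))
      ≤ 6 / (Real.pi * s) ^ 3 * (1 / (n : ℝ) ^ 4) := by
  rcases eq_or_ne n 0 with h | h
  · subst h
    simp
  · have hn : (n : ℝ) ≠ 0 := Int.cast_ne_zero.mpr h
    have hn2 : 0 < (n : ℝ) ^ 2 := by positivity
    have hp : 0 < Real.pi := Real.pi_pos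
    have h1 := lg8_exp_le (y := Real.pi * s * (n : ℝ) ^ 2) (by positivity)
    calc (n : ℝ) ^ 2 * Real.exp (-(Real.pi * s * (n : ℝ) ^ 2))
        ≤ (n : ℝ) ^ 2 * (6 / (Real.pi * s * (n : ℝ) ^ 2) ^ 3) :=
          mul_le_mul_of_nonneg_left h1 hn2.le
      _ = 6 / (Real.pi * s) ^ 3 * (1 / (n : ℝ) ^ 4) := by
          field_simp

theorem lg8_sum4 : Summable (fun n : ℤ => 1 / (n : ℝ) ^ 4) :=
  Real.summable_one_div_int_pow.mpr (by norm_num)

theorem lg8_sum2 {s : ℝ} (hs : 0 < s) :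
    Summable (fun n : ℤ => (n : ℝ) ^ 2 * Real.exp (-(Real.pi * s * (n : ℝ) ^ 2))) :=
  Summable.of_nonneg_of_le (fun n => by positivity) (fun n => lg8_bound hs n)
    (lg8_sum4.mul_left _)

theorem lg8_sum0 {s : ℝ} (hs : 0 < s) :
    Summable (fun n : ℤ => Real.exp (-(Real.pi * s * (n : ℝ) ^ 2))) := by
  have h1 : Summable (fun n : ℤ => (if n = 0 then (1 : ℝ) else 0)
      + (n : ℝ) ^ 2 * Real.exp (-(Real.pi * s * (n : ℝ) ^ 2))) :=
    (summable_of_ne_finset_zero (s := {0}) (fun n hn => by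
      rw [if_neg]
      simpa using hn)).add (lg8_sum2 hs)
  refine Summable.of_nonneg_of_le (fun n => by positivity) (fun n => ?_) h1
  rcases eq_or_ne n 0 with h | h
  · subst h
    simp
  · rw [if_neg h, zero_add]
    have h2 : (1 : ℝ) ≤ (n : ℝ) ^ 2 := by
      have h3 : (1 : ℤ) ≤ n ^ 2 := by
        have := sq_pos_of_ne_zero h
        omega
      exact_mod_cast h3
    exact le_mul_of_one_le_left (Real.exp_pos _).le h2

theorem one_le_th1 {s : ℝ} (hs : 0 < s) : 1 ≤ th1 s := by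
  unfold th1
  have h1 := (lg8_sum0 hs).le_tsum 0 (fun n _ => (Real.exp_pos _).le)
  simpa using h1

theorem th1_inv {s : ℝ} (hs : 0 < s) : Real.sqrt s * th1 s = th1 (1 / s) := by
  have h1 := Real.tsum_exp_neg_mul_int_sq hs
  have h2 : (∑' n : ℤ, Real.exp (-Real.pi * s * (n : ℝ) ^ 2)) = th1 s := by
    unfold th1
    refine tsum_congr fun n => ?_
    congr 1
    ring
  have h3 : (∑' n : ℤ, Real.exp (-Real.pi / s * (n : ℝ) ^ 2)) = th1 (1 / s) := by
    unfold th1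
    refine tsum_congr fun n => ?_
    congr 1
    ring
  rw [h2, h3] at h1
  rw [h1, ← Real.sqrt_eq_rpow]
  have h4 : Real.sqrt s ≠ 0 := (Real.sqrt_pos.mpr hs).ne'
  field_simp

theorem hasDerivAt_th1 {s : ℝ} (hs : 0 < s) :
    HasDerivAt th1
      (-(Real.pi * ∑' n : ℤ, (n : ℝ) ^ 2 * Real.exp (-(Real.pi * s * (n : ℝ) ^ 2)))) s := by
  have hp : 0 < Real.pi := Real.pi_pos
  have h := hasDerivAt_tsum_of_isPreconnected
    (g := fun (n : ℤ) (y : ℝ) => Real.exp (-(Real.pi * y * (n : ℝ) ^ 2)))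
    (g' := fun (n : ℤ) (y : ℝ) =>
      -(Real.pi * ((n : ℝ) ^ 2 * Real.exp (-(Real.pi * y * (n : ℝ) ^ 2)))))
    (u := fun n : ℤ => Real.pi * (6 / (Real.pi * (s / 2)) ^ 3 * (1 / (n : ℝ) ^ 4)))
    (t := Set.Ioi (s / 2)) (y₀ := s) (y := s)
    ((lg8_sum4.mul_left _).mul_left _) isOpen_Ioi (convex_Ioi _).isPreconnected
    (fun n y _ => by
      have h1 : HasDerivAt (fun y : ℝ => -(Real.pi * y * (n : ℝ) ^ 2))
          (-(Real.pi * (n : ℝ) ^ 2)) y := by
        have h2 := ((hasDerivAt_id y).const_mul (Real.pi * (n : ℝ) ^ 2)).neg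
        refine (h2.congr_of_eventuallyEq ?_).congr_deriv (by ring)
        exact Filter.Eventually.of_forall fun z => by
          simp only [id, Pi.neg_apply]
          ring
      have h3 := h1.exp
      refine h3.congr_deriv ?_
      ring)
    (fun n y hy => by
      have hy' : s / 2 < y := hy
      have h0 : 0 < s / 2 := by positivity
      have hy0 : 0 < y := h0.trans hy'
      rw [norm_neg, Real.norm_of_nonneg (by positivity)]
      refine mul_le_mul_of_nonneg_left ?_ hp.le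
      refine le_trans ?_ (lg8_bound h0 n)
      refine mul_le_mul_of_nonneg_left ?_ (by positivity)
      refine Real.exp_le_exp.mpr (neg_le_neg ?_)
      refine mul_le_mul_of_nonneg_right ?_ (by positivity)
      exact mul_le_mul_of_nonneg_left hy'.le hp.le)
    (by
      change s / 2 < s
      linarith) (lg8_sum0 hs)
    (by
      change s / 2 < s
      linarith)
  rw [tsum_neg, tsum_mul_left] at h
  exact h

theorem c1_nonneg {s : ℝ} (hs : 0 < s) : 0 ≤ c1 s := by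
  unfold c1
  refine div_nonneg (tsum_nonneg fun n => by positivity) ?_
  exact zero_le_one.trans (one_le_th1 hs)

theorem c1_inv {s : ℝ} (hs : 0 < s) : 1 / (2 * Real.pi * s) - c1 s = c1 (1 / s) / s ^ 2 := by
  have hp : 0 < Real.pi := Real.pi_pos
  have hs' : 0 < 1 / s := by positivity
  set A : ℝ := ∑' n : ℤ, (n : ℝ) ^ 2 * Real.exp (-(Real.pi * s * (n : ℝ) ^ 2)) with hA
  set B : ℝ := ∑' n : ℤ, (n : ℝ) ^ 2 * Real.exp (-(Real.pi * (1 / s) * (n : ℝ) ^ 2)) with hB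
  have h1 : HasDerivAt (fun y : ℝ => Real.sqrt y * th1 y)
      (1 / (2 * Real.sqrt s) * th1 s + Real.sqrt s * (-(Real.pi * A))) s :=
    (Real.hasDerivAt_sqrt hs.ne').mul (hasDerivAt_th1 hs)
  have h2 : HasDerivAt (fun y : ℝ => th1 (1 / y)) (-(Real.pi * B) * (-(s ^ 2)⁻¹)) s := by
    have h3 : HasDerivAt (fun y : ℝ => 1 / y) (-(s ^ 2)⁻¹) s := by
      simpa [one_div] using hasDerivAt_inv hs.ne'
    exact (hasDerivAt_th1 hs').comp s h3
  have h4 : HasDerivAt (fun y : ℝ => th1 (1 / y))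
      (1 / (2 * Real.sqrt s) * th1 s + Real.sqrt s * (-(Real.pi * A))) s := by
    refine h1.congr_of_eventuallyEq ?_
    filter_upwards [lt_mem_nhds hs] with y hy
    exact (th1_inv hy).symm
  have h5 := h2.unique h4
  have h6 : th1 (1 / s) = Real.sqrt s * th1 s := (th1_inv hs).symm
  have h7 : 0 < th1 s := zero_lt_one.trans_le (one_le_th1 hs)
  have h8 : 0 < Real.sqrt s := Real.sqrt_pos.mpr hs
  have h9 : Real.sqrt s * Real.sqrt s = s := Real.mul_self_sqrt hs.le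
  have h10 : c1 s = A / th1 s := rfl
  have h11 : c1 (1 / s) = B / th1 (1 / s) := rfl
  rw [h10, h11, h6]
  generalize Real.sqrt s = q at *
  generalize th1 s = T at *
  clear_value A B
  subst h9
  field_simp at h5 ⊢
  nlinarith [h5]

theorem lg8_zeta4 : HasSum (fun n : ℤ => 1 / (n : ℝ) ^ 4) (Real.pi ^ 4 / 45) := by
  have h1 := hasSum_zeta_four
  have h2 : HasSum (fun n : ℕ => 1 / (((n : ℕ) : ℤ) : ℝ) ^ 4) (Real.pi ^ 4 / 90) := by
    simpa using h1
  have h3 : HasSum (fun n : ℕ => 1 / ((-((n : ℕ) : ℤ) : ℤ) : ℝ) ^ 4) (Real.pi ^ 4 / 90) := by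
    have h4 : (fun n : ℕ => 1 / ((-((n : ℕ) : ℤ) : ℤ) : ℝ) ^ 4)
        = (fun n : ℕ => 1 / (n : ℝ) ^ 4) := by
      funext n
      push_cast
      rw [Even.neg_pow (by decide)]
    rw [h4]
    exact h1
  have h5 := HasSum.of_nat_of_neg (f := fun n : ℤ => 1 / (n : ℝ) ^ 4) h2 h3
  have h6 : Real.pi ^ 4 / 90 + Real.pi ^ 4 / 90 - 1 / ((0 : ℤ) : ℝ) ^ 4 = Real.pi ^ 4 / 45 := by
    norm_num
    ring
  rwa [h6] at h5

theorem c1_le {u : ℝ} (hu : 1 ≤ u) : u ^ 2 * c1 u ≤ 1 := by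
  have hu0 : 0 < u := zero_lt_one.trans_le hu
  have hp : 0 < Real.pi := Real.pi_pos
  have hp4 : Real.pi ≤ 4 := Real.pi_le_four
  have h1 : (∑' n : ℤ, (n : ℝ) ^ 2 * Real.exp (-(Real.pi * u * (n : ℝ) ^ 2)))
      ≤ 6 / (Real.pi * u) ^ 3 * (Real.pi ^ 4 / 45) := by
    rw [← (lg8_zeta4.mul_left (6 / (Real.pi * u) ^ 3)).tsum_eq]
    exact (lg8_sum2 hu0).tsum_le_tsum (fun n => lg8_bound hu0 n) (lg8_sum4.mul_left _)
  have h2 : c1 u ≤ ∑' n : ℤ, (n : ℝ) ^ 2 * Real.exp (-(Real.pi * u * (n : ℝ) ^ 2)) := by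
    unfold c1
    exact div_le_self (tsum_nonneg fun n => by positivity) (one_le_th1 hu0)
  have h3 : u ^ 2 * (6 / (Real.pi * u) ^ 3 * (Real.pi ^ 4 / 45)) = 2 * Real.pi / (15 * u) := by
    field_simp
    ring
  have h4 : 2 * Real.pi / (15 * u) ≤ 1 := by
    rw [div_le_one (by positivity)]
    nlinarith
  calc u ^ 2 * c1 u ≤ u ^ 2 * (6 / (Real.pi * u) ^ 3 * (Real.pi ^ 4 / 45)) :=
        mul_le_mul_of_nonneg_left (h2.trans h1) (by positivity)
    _ = 2 * Real.pi / (15 * u) := h3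
    _ ≤ 1 := h4

theorem th1_tendsto : Filter.Tendsto th1 Filter.atTop (nhds 1) := by
  have hp : 0 < Real.pi := Real.pi_pos
  have h := tendsto_tsum_of_dominated_convergence (𝓕 := Filter.atTop)
    (f := fun (u : ℝ) (n : ℤ) => Real.exp (-(Real.pi * u * (n : ℝ) ^ 2)))
    (g := fun n : ℤ => if n = 0 then (1 : ℝ) else 0)
    (bound := fun n : ℤ => Real.exp (-(Real.pi * 1 * (n : ℝ) ^ 2))) (lg8_sum0 one_pos)
    (fun n => by
      rcases eq_or_ne n 0 with h | h
      · subst h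
        simp
      · rw [if_neg h]
        have hn : 0 < Real.pi * (n : ℝ) ^ 2 := by
          have : (n : ℝ) ≠ 0 := Int.cast_ne_zero.mpr h
          positivity
        have h1 : Filter.Tendsto (fun u : ℝ => Real.pi * (n : ℝ) ^ 2 * u) Filter.atTop
            Filter.atTop := Filter.tendsto_id.const_mul_atTop hn
        have h2 := Real.tendsto_exp_neg_atTop_nhds_zero.comp h1
        refine h2.congr fun u => ?_
        simp only [Function.comp_apply]
        congr 1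
        ring)
    (by
      filter_upwards [Filter.eventually_ge_atTop (1 : ℝ)] with u hu
      intro n
      rw [Real.norm_of_nonneg (Real.exp_pos _).le]
      refine Real.exp_le_exp.mpr (neg_le_neg ?_)
      refine mul_le_mul_of_nonneg_right ?_ (by positivity)
      exact mul_le_mul_of_nonneg_left hu hp.le)
  rw [tsum_ite_eq] at h
  exact h

end LT
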