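import Pool.Agent.H29.LG.G01
import Pool.Agent.H29.LG.G06
import Pool.Agent.H29.LG.G08

/-!
# LG-G09: scalar matrices and consequences of the monotonicity of the defect

* `th_scalar`: `gw (s • 1) m = ∏ exp (-π s m_i²)`; `∑_{m : ι → ℤ} ∏_i f (m_i) = ∏_i ∑_n f n`
  (induction on `ι` / `Fintype` induction with `Fin`-indexed families, or `tsum_prod`-type lemmas for
  `Fintype.piFinset` exhaustion; choose your way).
* `mq_scalar`: `E m_i m_j = 0` for `i ≠ j` by the symmetry `m_i ↦ -m_i`; `E m_i² = c1 s`.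
* `def_nonneg`: `δ • 1 ≤ A` (`exists_qf_ge`), `def_mono`, and the defect of `δ • 1` is
  `(δ/(2π) - δ² c1 δ) tr P = c1 (1/δ) tr P ≥ 0` by `c1_inv`.
* `def_le`: `A ≤ κ • 1`, `def_mono`, and the same computation.
-/

set_option linter.unusedSectionVars false

namespace LT

open scoped Matrix

variable {ι : Type*} [Fintype ι] [DecidableEq ι]

theorem g9_hasSum_fin : ∀ (k : ℕ) (f : Fin k → ℤ → ℝ), (∀ i, Summable fun n => ‖f i n‖) →
    Summable (fun m : Fin k → ℤ => ‖∏ i, f i (m i)‖) ∧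
      ∑' m : Fin k → ℤ, ∏ i, f i (m i) = ∏ i, ∑' n, f i n := by
  intro k
  induction k with
  | zero =>
    intro f _
    constructor
    · exact (hasSum_fintype _).summable
    · rw [tsum_fintype]
      simp
  | succ k ih =>
    intro f hf
    obtain ⟨h1, h2⟩ := ih (fun i => f i.succ) (fun i => hf i.succ)
    have e1 : ∀ m : ℤ × (Fin k → ℤ), ∏ i, f i ((Fin.consEquiv (fun _ => ℤ)) m i)
        = f 0 m.1 * ∏ i : Fin k, f i.succ (m.2 i) := by
      intro m
      rw [Fin.prod_univ_succ]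
      simp [Fin.consEquiv]
    constructor
    · rw [← (Fin.consEquiv (fun _ : Fin (k + 1) => ℤ)).summable_iff]
      refine (Summable.mul_norm (hf 0) h1).congr fun m => ?_
      simp only [Function.comp_apply]
      rw [e1]
    · rw [← (Fin.consEquiv (fun _ : Fin (k + 1) => ℤ)).tsum_eq]
      simp only [e1]
      rw [Fin.prod_univ_succ, ← h2, tsum_mul_tsum_of_summable_norm (hf 0) h1]

theorem g9_prod (f : ι → ℤ → ℝ) (hf : ∀ i, Summable fun n => ‖f i n‖) :
    Summable (fun m : ι → ℤ => ∏ i, f i (m i)) ∧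
      ∑' m : ι → ℤ, ∏ i, f i (m i) = ∏ i, ∑' n, f i n := by
  obtain ⟨h1, h2⟩ := g9_hasSum_fin (Fintype.card ι) (fun i => f ((Fintype.equivFin ι).symm i))
    (fun i => hf _)
  let e : (Fin (Fintype.card ι) → ℤ) ≃ (ι → ℤ) := (Fintype.equivFin ι).symm.arrowCongr (Equiv.refl ℤ)
  have e1 : ∀ m, ∏ i, f i (e m i) = ∏ i, f ((Fintype.equivFin ι).symm i) (m i) := by
    intro m
    rw [← (Fintype.equivFin ι).symm.prod_comp]
    refine Finset.prod_congr rfl fun i _ => ?_
    simp [e, Equiv.arrowCongr]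
  constructor
  · rw [← e.summable_iff]
    refine h1.of_norm.congr fun m => ?_
    simp only [Function.comp_apply]
    rw [e1]
  · rw [← e.tsum_eq]
    simp only [e1]
    rw [h2, (Fintype.equivFin ι).symm.prod_comp (fun i => ∑' n, f i n)]

theorem g9_gw (s : ℝ) (m : ι → ℤ) :
    gw (s • (1 : Matrix ι ι ℝ)) (cz m) = ∏ i, Real.exp (-(Real.pi * s * (m i : ℝ) ^ 2)) := by
  unfold gw
  rw [qf_smul, qf_one, ← Real.exp_sum]
  congr 1
  simp only [cz]
  rw [Finset.sum_neg_distrib, ← Finset.mul_sum, mul_assoc]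

theorem th_scalar {s : ℝ} (hs : 0 < s) : th (s • (1 : Matrix ι ι ℝ)) = th1 s ^ Fintype.card ι := by
  have h := (g9_prod (ι := ι) (fun _ n => Real.exp (-(Real.pi * s * (n : ℝ) ^ 2))) (fun _ =>
    (lg8_sum0 hs).congr fun n => (Real.norm_of_nonneg (Real.exp_pos _).le).symm)).2
  unfold th
  simp only [g9_gw]
  rw [h, Finset.prod_const, Finset.card_univ]
  rfl

theorem g9_sum1 {s : ℝ} (hs : 0 < s) :
    Summable (fun n : ℤ => ‖(n : ℝ) * Real.exp (-(Real.pi * s * (n : ℝ) ^ 2))‖) := by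
  refine Summable.of_nonneg_of_le (fun n => norm_nonneg _) (fun n => ?_) (lg8_sum2 hs)
  rw [norm_mul, Real.norm_of_nonneg (Real.exp_pos _).le]
  refine mul_le_mul_of_nonneg_right ?_ (Real.exp_pos _).le
  rw [Real.norm_eq_abs]
  have h1 : |n| ≤ n ^ 2 := by
    rcases eq_or_ne n 0 with h | h
    · subst h; simp
    · have h2 : 1 ≤ |n| := Int.one_le_abs h
      rw [← sq_abs]
      nlinarith
  have h2 : ((|n| : ℤ) : ℝ) ≤ ((n ^ 2 : ℤ) : ℝ) := by exact_mod_cast h1
  push_cast at h2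
  exact h2

theorem g9_odd (s : ℝ) :
    ∑' n : ℤ, (n : ℝ) * Real.exp (-(Real.pi * s * (n : ℝ) ^ 2)) = 0 := by
  have h := (Equiv.neg ℤ).tsum_eq (fun n : ℤ => (n : ℝ) * Real.exp (-(Real.pi * s * (n : ℝ) ^ 2)))
  have h2 : (∑' n : ℤ, (((Equiv.neg ℤ) n : ℤ) : ℝ) *
      Real.exp (-(Real.pi * s * (((Equiv.neg ℤ) n : ℤ) : ℝ) ^ 2)))
      = - ∑' n : ℤ, (n : ℝ) * Real.exp (-(Real.pi * s * (n : ℝ) ^ 2)) := by
    rw [← tsum_neg]
    refine tsum_congr fun n => ?_
    simp
  rw [h2] at h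
  linarith

/-- the factors of `m_i m_j exp` -/
noncomputable def g9_f (s : ℝ) (i j l : ι) (n : ℤ) : ℝ :=
  ((if l = i then (n : ℝ) else 1) * (if l = j then (n : ℝ) else 1)) *
    Real.exp (-(Real.pi * s * (n : ℝ) ^ 2))

theorem g9_f_sum {s : ℝ} (hs : 0 < s) (i j l : ι) : Summable fun n => ‖g9_f s i j l n‖ := by
  unfold g9_f
  by_cases h1 : l = i
  · by_cases h2 : l = j
    · simp only [if_pos h1, if_pos h2]
      refine (lg8_sum2 hs).congr fun n => ?_
      rw [Real.norm_of_nonneg (mul_nonneg (mul_self_nonneg _) (Real.exp_pos _).le)]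
      ring
    · simp only [if_pos h1, if_neg h2, mul_one]
      exact g9_sum1 hs
  · by_cases h2 : l = j
    · simp only [if_neg h1, if_pos h2, one_mul]
      exact g9_sum1 hs
    · simp only [if_neg h1, if_neg h2, one_mul]
      exact (lg8_sum0 hs).congr fun n => (Real.norm_of_nonneg (Real.exp_pos _).le).symm

theorem g9_term (s : ℝ) (i j : ι) (m : ι → ℤ) :
    (m i : ℝ) * (m j : ℝ) * gw (s • (1 : Matrix ι ι ℝ)) (cz m) = ∏ l, g9_f s i j l (m l) := by
  unfold g9_f
  rw [Finset.prod_mul_distrib, Finset.prod_mul_distrib, g9_gw]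
  congr 1
  rw [Finset.prod_ite_eq' Finset.univ i (fun l => (m l : ℝ)),
    Finset.prod_ite_eq' Finset.univ j (fun l => (m l : ℝ))]
  simp

theorem g9_moment {s : ℝ} (hs : 0 < s) (i j : ι) :
    ∑' m : ι → ℤ, (m i : ℝ) * (m j : ℝ) * gw (s • (1 : Matrix ι ι ℝ)) (cz m)
      = if i = j then c1 s * th1 s ^ Fintype.card ι else 0 := by
  simp only [g9_term]
  rw [(g9_prod (g9_f s i j) (g9_f_sum hs i j)).2]
  have hth : th1 s ≠ 0 := (zero_lt_one.trans_le (one_le_th1 hs)).ne'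
  split_ifs with h
  · subst h
    have h1 : ∀ l : ι, ∑' n, g9_f s i i l n = th1 s * (if l = i then c1 s else 1) := by
      intro l
      unfold g9_f
      by_cases h1 : l = i
      · simp only [if_pos h1]
        unfold c1
        rw [mul_div_cancel₀ _ hth]
        refine tsum_congr fun n => ?_
        ring
      · simp only [if_neg h1, one_mul, mul_one]
        rfl
    simp only [h1]
    rw [Finset.prod_mul_distrib, Finset.prod_const, Finset.card_univ,
      Finset.prod_ite_eq' Finset.univ i (fun _ => c1 s), if_pos (Finset.mem_univ _), mul_comm]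
  · refine Finset.prod_eq_zero (Finset.mem_univ i) ?_
    unfold g9_f
    simp only [if_true, if_neg h, mul_one]
    exact g9_odd s

theorem mq_scalar {s : ℝ} (hs : 0 < s) (P : Matrix ι ι ℝ) :
    mq (s • (1 : Matrix ι ι ℝ)) P = c1 s * P.trace := by
  have hth : th1 s ^ Fintype.card ι ≠ 0 :=
    pow_ne_zero _ (zero_lt_one.trans_le (one_le_th1 hs)).ne'
  have hsum : ∀ i j : ι, Summable fun m : ι → ℤ =>
      (m i : ℝ) * (m j : ℝ) * gw (s • (1 : Matrix ι ι ℝ)) (cz m) := by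
    intro i j
    simp only [g9_term]
    exact (g9_prod (g9_f s i j) (g9_f_sum hs i j)).1
  have e1 : ∀ m : ι → ℤ, qf P (cz m) * gw (s • (1 : Matrix ι ι ℝ)) (cz m)
      = ∑ i, ∑ j, P i j * ((m i : ℝ) * (m j : ℝ) * gw (s • (1 : Matrix ι ι ℝ)) (cz m)) := by
    intro m
    unfold qf
    rw [dotProduct, Finset.sum_mul]
    refine Finset.sum_congr rfl fun i _ => ?_
    rw [Matrix.mulVec, dotProduct, Finset.mul_sum, Finset.sum_mul]
    refine Finset.sum_congr rfl fun j _ => ?_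
    simp only [cz]
    ring
  unfold mq
  rw [th_scalar hs]
  simp only [e1]
  rw [Summable.tsum_finsetSum fun i _ => summable_sum fun j _ => (hsum i j).mul_left _]
  have e2 : ∀ i : ι, ∑' m : ι → ℤ, ∑ j, P i j *
      ((m i : ℝ) * (m j : ℝ) * gw (s • (1 : Matrix ι ι ℝ)) (cz m))
      = P i i * (c1 s * th1 s ^ Fintype.card ι) := by
    intro i
    rw [Summable.tsum_finsetSum fun j _ => (hsum i j).mul_left _]
    simp only [tsum_mul_left, g9_moment hs]
    simp
  simp only [e2]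
  rw [← Finset.sum_mul, Matrix.trace]
  simp only [Matrix.diag_apply]
  field_simp

theorem g9_psd_trace {P : Matrix ι ι ℝ} (hP : P.PosSemidef) : 0 ≤ P.trace := hP.trace_nonneg

theorem g9_scalar_def {k : ℝ} (hk : 0 < k) (P : Matrix ι ι ℝ) :
    (P * (k • (1 : Matrix ι ι ℝ))).trace / (2 * Real.pi) -
      mq (k • (1 : Matrix ι ι ℝ)) ((k • (1 : Matrix ι ι ℝ)) * P * (k • (1 : Matrix ι ι ℝ)))
      = c1 (1 / k) * P.trace := by
  have h1 := c1_inv hk
  have e1 : (k • (1 : Matrix ι ι ℝ)) * P * (k • (1 : Matrix ι ι ℝ)) = (k * k) • P := by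
    rw [smul_mul_assoc, one_mul, mul_smul_comm, mul_one, smul_smul]
  rw [e1, mq_smul, mq_scalar hk, mul_smul_comm, mul_one, Matrix.trace_smul, smul_eq_mul]
  have hp : 0 < Real.pi := Real.pi_pos
  have h2 : c1 (1 / k) = k ^ 2 * (1 / (2 * Real.pi * k) - c1 k) := by
    rw [h1]
    field_simp
  rw [h2]
  field_simp

theorem g9_posDef {k : ℝ} (hk : 0 < k) : (k • (1 : Matrix ι ι ℝ)).PosDef :=
  Matrix.PosDef.one.smul hk

theorem def_nonneg {A P : Matrix ι ι ℝ} (hA : A.PosDef) (hP : P.PosSemidef) :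
    mq A (A * P * A) ≤ (P * A).trace / (2 * Real.pi) := by
  obtain ⟨δ, hδ, h⟩ := exists_qf_ge hA
  have h1 : (A - δ • (1 : Matrix ι ι ℝ)).PosSemidef := by
    refine Matrix.PosSemidef.of_dotProduct_mulVec_nonneg ?_ ?_
    · exact hA.1.sub (g9_posDef hδ).1
    · intro x
      have h2 := h x
      have h3 : qf (A - δ • (1 : Matrix ι ι ℝ)) x = qf A x - δ * ∑ i, x i ^ 2 := by
        rw [qf_sub, qf_smul, qf_one]
      have h4 : star x ⬝ᵥ ((A - δ • (1 : Matrix ι ι ℝ)) *ᵥ x)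
          = qf (A - δ • (1 : Matrix ι ι ℝ)) x := by
        rw [star_trivial]
        rfl
      rw [h4, h3]
      linarith
  have h2 := def_mono (g9_posDef hδ) h1 hP
  rw [g9_scalar_def hδ] at h2
  have h3 : 0 ≤ c1 (1 / δ) * P.trace := mul_nonneg (c1_nonneg (by positivity)) hP.trace_nonneg
  linarith

theorem def_le {A P : Matrix ι ι ℝ} (hA : A.PosDef) (hP : P.PosSemidef) {k : ℝ} (hk : 0 < k)
    (h : (k • (1 : Matrix ι ι ℝ) - A).PosSemidef) :
    (P * A).trace / (2 * Real.pi) - mq A (A * P * A) ≤ c1 (1 / k) * P.trace := by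
  have h2 := def_mono hA h hP
  rwa [g9_scalar_def hk] at h2

end LT
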