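import Pool.Agent.H29.LG.G11

/-!
# LG-G12: the derivative of `Λ(t)`

Write `A = t R`, `V₁ = T R Tᵀ`, `V₀ = O R Oᵀ` (positive definite as `T Tᵀ`, `O Oᵀ` and `R` are),
`Z = G⁻¹ = p + q`.  `hasDerivAt_log_th_smul` gives the derivative
`D = -π (mq (tR) R - ∑_y mq (tG_y) G_y)`.
`R = R (η + Q) R = η R² + ∑_y (R Tᵀ p T R + R Oᵀ q O R)` (`R` commutes with `η + Q = R⁻¹`), so
`t² mq (tR) R = η mq A (A 1 A) + ∑_y (mq A (A Tᵀ p T A) + mq A (A Oᵀ q O A))`.
`mq_restrict` (`S = Tᵀ`, `P = p`; `(rz S)ᵀ A rz S = T A Tᵀ = t V₁`):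
`mq A (A Tᵀ p T A) ≥ mq (tV₁) ((tV₁) p (tV₁))`, and `def_mono` (`t V₁ ≤ t G`):
`mq (tV₁) ((tV₁) p (tV₁)) ≥ mq (tG) ((tG) p (tG)) + tr (p (tV₁ - tG))/(2π)`.  Same for `O, q, V₀`.
Sum: `mq (tG) ((tG)(p+q)(tG)) = t² mq (tG) G`, and
`∑ tr (p V₁) + tr (q V₀) = tr (R Q) = n - η tr R`, `∑ tr ((p+q) G) = ∑ card (κ y) = n`.
Hence `t² (mq (tR) R - ∑ mq (tG) G) ≥ η mq A (A 1 A) - (t/(2π)) η tr R`.
-/

set_option linter.unusedSectionVars false

namespace LT

open scoped Matrix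

variable {β : Type*} [Fintype β] {κ : β → Type*} [∀ y, Fintype (κ y)] [∀ y, DecidableEq (κ y)]
variable {ι : Type*} [Fintype ι] [DecidableEq ι]
variable {T O : ∀ y, Matrix (κ y) ι ℤ} {η : ℝ}

/-- `tr (R Q) = n - η tr R` -/
theorem Msg.trace_RQ (M : Msg T O η) :
    (M.R * Qr T O M.p M.q).trace = Fintype.card ι - η * M.R.trace := by
  have h := congrArg Matrix.trace M.RQ
  rw [Matrix.mul_add, Matrix.trace_add, Matrix.mul_smul, Matrix.mul_one, Matrix.trace_smul,
    Matrix.trace_one, smul_eq_mul] at h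
  linarith

theorem Msg.hasDerivAt_Lam (M : Msg T O η) {t : ℝ} (ht : 0 < t) :
    HasDerivAt M.Lam (-(Real.pi * (mq (t • M.R) M.R - ∑ y, mq (t • M.G y) (M.G y)))) t := by
  have h1 := hasDerivAt_log_th_smul M.R_pos ht
  have h2 : HasDerivAt (fun r : ℝ => ∑ y, Real.log (th (r • M.G y)))
      (∑ y, -(Real.pi * mq (t • M.G y) (M.G y))) t :=
    HasDerivAt.fun_sum fun y _ => hasDerivAt_log_th_smul (M.G_pos y) ht
  refine (h1.fun_sub h2).congr_deriv ?_
  rw [Finset.sum_neg_distrib, ← Finset.mul_sum]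
  ring

theorem g12_rz_transpose {κ' : Type*} [Fintype κ'] [DecidableEq κ'] (S : Matrix κ' ι ℤ) :
    rz Sᵀ = (rz S)ᵀ := by
  ext i j
  rfl

theorem g12_conj_posDef {κ' : Type*} [Fintype κ'] [DecidableEq κ'] {A : Matrix ι ι ℝ}
    (hA : A.PosDef) {B : Matrix κ' ι ℝ} (hB : (B * Bᵀ).PosDef) : (B * A * Bᵀ).PosDef := by
  have hinj : Function.Injective (Bᵀ).mulVec := by
    intro x y hxy
    have h1 : (B * Bᵀ) *ᵥ (x - y) = 0 := by
      rw [← Matrix.mulVec_mulVec, Matrix.mulVec_sub]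
      have : Bᵀ *ᵥ x = Bᵀ *ᵥ y := hxy
      rw [this, sub_self, Matrix.mulVec_zero]
    have h2 : IsUnit (B * Bᵀ) := hB.isUnit
    have h3 := Matrix.mulVec_injective_iff_isUnit.mpr h2
    have h4 : x - y = 0 := by
      apply h3
      show (B * Bᵀ) *ᵥ (x - y) = (B * Bᵀ) *ᵥ 0
      rw [h1, Matrix.mulVec_zero]
    exact sub_eq_zero.mp h4
  have h := hA.conjTranspose_mul_mul_same hinj
  rw [Matrix.conjTranspose_eq_transpose_of_trivial, Matrix.transpose_transpose] at h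
  exact h

/-- one half edge: restriction to the sublattice and monotonicity of the defect -/
theorem g12_half {κ' : Type*} [Fintype κ'] [DecidableEq κ'] {A : Matrix ι ι ℝ} (hA : A.PosDef)
    (S : Matrix κ' ι ℤ) (hS : (rz S * (rz S)ᵀ).PosDef) {P H : Matrix κ' κ' ℝ}
    (hP : P.PosSemidef) (hH : (H - rz S * A * (rz S)ᵀ).PosSemidef) :
    mq H (H * P * H) + (P * (rz S * A * (rz S)ᵀ)).trace / (2 * Real.pi) -
      (P * H).trace / (2 * Real.pi) ≤ mq A (A * ((rz S)ᵀ * P * rz S) * A) := by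
  have hV : (rz S * A * (rz S)ᵀ).PosDef := g12_conj_posDef hA hS
  have h1 := mq_restrict hA Sᵀ (P := P) (by
    rw [g12_rz_transpose, Matrix.transpose_transpose]
    exact hV) hP
  rw [g12_rz_transpose, Matrix.transpose_transpose] at h1
  have h2 := def_mono hV hH hP
  have h3 : A * ((rz S)ᵀ * P * rz S) * A = A * (rz S)ᵀ * P * rz S * A := by
    simp only [Matrix.mul_assoc]
  rw [h3]
  linarith

theorem Msg.deriv_le (M : Msg T O η) (hη : 0 < η) (hcard : ∑ y, Fintype.card (κ y) = Fintype.card ι)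
    (gT : ∀ y, (rz (T y) * (rz (T y))ᵀ).PosDef) (gO : ∀ y, (rz (O y) * (rz (O y))ᵀ).PosDef)
    {t : ℝ} (ht : 0 < t) :
    -(Real.pi * (mq (t • M.R) M.R - ∑ y, mq (t • M.G y) (M.G y))) ≤
      Real.pi * η / t ^ 2 * (((1 : Matrix ι ι ℝ) * (t • M.R)).trace / (2 * Real.pi) -
        mq (t • M.R) ((t • M.R) * 1 * (t • M.R))) := by
  have hA : (t • M.R).PosDef := M.R_pos.smul ht
  have hG : ∀ y, (t • M.G y).PosDef := fun y => (M.G_pos y).smul ht
  -- the decomposition of `t² R`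
  have hdec : t ^ 2 • M.R = η • ((t • M.R) * 1 * (t • M.R)) +
      ∑ y, ((t • M.R) * ((rz (T y))ᵀ * M.p y * rz (T y)) * (t • M.R) +
        (t • M.R) * ((rz (O y))ᵀ * M.q y * rz (O y)) * (t • M.R)) := by
    have h1 : M.R * (η • (1 : Matrix ι ι ℝ) + Qr T O M.p M.q) * M.R = M.R := by
      rw [M.RQ, Matrix.one_mul]
    have h2 : ∑ y, ((t • M.R) * ((rz (T y))ᵀ * M.p y * rz (T y)) * (t • M.R) +
        (t • M.R) * ((rz (O y))ᵀ * M.q y * rz (O y)) * (t • M.R)) =
        (t • M.R) * Qr T O M.p M.q * (t • M.R) := by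
      rw [Qr, Matrix.mul_sum, Matrix.sum_mul]
      refine Finset.sum_congr rfl fun y _ => ?_
      rw [Matrix.mul_add, Matrix.add_mul]
    rw [h2]
    conv_lhs => rw [← h1]
    rw [Matrix.mul_add, Matrix.add_mul, smul_add]
    simp only [Matrix.smul_mul, Matrix.mul_smul, smul_smul, Matrix.mul_one]
    congr 2
    · ring
    · ring
  have hmain : t ^ 2 * mq (t • M.R) M.R = η * mq (t • M.R) ((t • M.R) * 1 * (t • M.R)) +
      ∑ y, (mq (t • M.R) ((t • M.R) * ((rz (T y))ᵀ * M.p y * rz (T y)) * (t • M.R)) +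
        mq (t • M.R) ((t • M.R) * ((rz (O y))ᵀ * M.q y * rz (O y)) * (t • M.R))) := by
    rw [← mq_smul, hdec, mq_add hA, mq_smul, mq_sum hA]
    congr 1
    exact Finset.sum_congr rfl fun y _ => mq_add hA _ _
  -- the bound for every label
  have hy : ∀ y, t ^ 2 * mq (t • M.G y) (M.G y) +
      (M.p y * (rz (T y) * (t • M.R) * (rz (T y))ᵀ)).trace / (2 * Real.pi) +
      (M.q y * (rz (O y) * (t • M.R) * (rz (O y))ᵀ)).trace / (2 * Real.pi) -
      t * Fintype.card (κ y) / (2 * Real.pi) ≤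
      mq (t • M.R) ((t • M.R) * ((rz (T y))ᵀ * M.p y * rz (T y)) * (t • M.R)) +
        mq (t • M.R) ((t • M.R) * ((rz (O y))ᵀ * M.q y * rz (O y)) * (t • M.R)) := by
    intro y
    have hscale : ∀ S : Matrix (κ y) ι ℤ, (M.G y - rz S * M.R * (rz S)ᵀ).PosSemidef →
        (t • M.G y - rz S * (t • M.R) * (rz S)ᵀ).PosSemidef := by
      intro S hS
      have h1 : t • M.G y - rz S * (t • M.R) * (rz S)ᵀ =
          t • (M.G y - rz S * M.R * (rz S)ᵀ) := by
        rw [smul_sub, Matrix.mul_smul, Matrix.smul_mul]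
      rw [h1]
      exact hS.smul ht.le
    have h1 := g12_half hA (T y) (gT y) (M.p_pos y).posSemidef (hscale (T y) (M.hT y))
    have h2 := g12_half hA (O y) (gO y) (M.q_pos y).posSemidef (hscale (O y) (M.hO y))
    have hGinv : M.G y * (M.p y + M.q y) = 1 :=
      Matrix.nonsing_inv_mul _ ((Matrix.isUnit_iff_isUnit_det _).mp
        ((M.p_pos y).add (M.q_pos y)).isUnit)
    have hGinv' : (M.p y + M.q y) * M.G y = 1 :=
      Matrix.mul_nonsing_inv _ ((Matrix.isUnit_iff_isUnit_det _).mp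
        ((M.p_pos y).add (M.q_pos y)).isUnit)
    have h3 : mq (t • M.G y) ((t • M.G y) * M.p y * (t • M.G y)) +
        mq (t • M.G y) ((t • M.G y) * M.q y * (t • M.G y)) =
        t ^ 2 * mq (t • M.G y) (M.G y) := by
      rw [← mq_add (hG y), ← mq_smul, ← Matrix.add_mul, ← Matrix.mul_add]
      congr 1
      simp only [Matrix.smul_mul, Matrix.mul_smul, smul_smul]
      rw [hGinv, Matrix.one_mul, pow_two]
    have h4 : (M.p y * (t • M.G y)).trace + (M.q y * (t • M.G y)).trace =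
        t * Fintype.card (κ y) := by
      rw [← Matrix.trace_add, ← Matrix.add_mul, Matrix.mul_smul, hGinv', Matrix.trace_smul,
        Matrix.trace_one, smul_eq_mul]
    have h5 : (M.p y * (t • M.G y)).trace / (2 * Real.pi) +
        (M.q y * (t • M.G y)).trace / (2 * Real.pi) =
        t * Fintype.card (κ y) / (2 * Real.pi) := by
      rw [← add_div, h4]
    linarith
  -- traces
  have htr : ∑ y, ((M.p y * (rz (T y) * (t • M.R) * (rz (T y))ᵀ)).trace +
      (M.q y * (rz (O y) * (t • M.R) * (rz (O y))ᵀ)).trace) =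
      t * (Fintype.card ι - η * M.R.trace) := by
    rw [← M.trace_RQ, Qr, Matrix.mul_sum, Matrix.trace_sum, Finset.mul_sum]
    refine Finset.sum_congr rfl fun y _ => ?_
    rw [Matrix.mul_add, Matrix.trace_add, mul_add]
    congr 1
    · rw [Matrix.mul_smul, Matrix.smul_mul, Matrix.mul_smul, Matrix.trace_smul, smul_eq_mul]
      congr 1
      rw [← Matrix.mul_assoc, Matrix.trace_mul_comm, ← Matrix.mul_assoc, ← Matrix.mul_assoc,
        Matrix.trace_mul_comm, Matrix.mul_assoc]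
    · rw [Matrix.mul_smul, Matrix.smul_mul, Matrix.mul_smul, Matrix.trace_smul, smul_eq_mul]
      congr 1
      rw [← Matrix.mul_assoc, Matrix.trace_mul_comm, ← Matrix.mul_assoc, ← Matrix.mul_assoc,
        Matrix.trace_mul_comm, Matrix.mul_assoc]
  have hsum := Finset.sum_le_sum fun y (_ : y ∈ Finset.univ) => hy y
  have hsum2 : ∑ y, (t ^ 2 * mq (t • M.G y) (M.G y) +
      (M.p y * (rz (T y) * (t • M.R) * (rz (T y))ᵀ)).trace / (2 * Real.pi) +
      (M.q y * (rz (O y) * (t • M.R) * (rz (O y))ᵀ)).trace / (2 * Real.pi) -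
      t * Fintype.card (κ y) / (2 * Real.pi)) =
      t ^ 2 * ∑ y, mq (t • M.G y) (M.G y) - η * (t * M.R.trace) / (2 * Real.pi) := by
    have hc : (∑ y, (Fintype.card (κ y) : ℝ)) = Fintype.card ι := by
      rw [← hcard]
      push_cast
      rfl
    have e1 : ∀ y, t ^ 2 * mq (t • M.G y) (M.G y) +
        (M.p y * (rz (T y) * (t • M.R) * (rz (T y))ᵀ)).trace / (2 * Real.pi) +
        (M.q y * (rz (O y) * (t • M.R) * (rz (O y))ᵀ)).trace / (2 * Real.pi) -
        t * Fintype.card (κ y) / (2 * Real.pi) =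
        t ^ 2 * mq (t • M.G y) (M.G y) +
        ((M.p y * (rz (T y) * (t • M.R) * (rz (T y))ᵀ)).trace +
        (M.q y * (rz (O y) * (t • M.R) * (rz (O y))ᵀ)).trace) / (2 * Real.pi) -
        t / (2 * Real.pi) * Fintype.card (κ y) := by
      intro y
      ring
    rw [Finset.sum_congr rfl fun y _ => e1 y, Finset.sum_sub_distrib, Finset.sum_add_distrib,
      ← Finset.mul_sum, ← Finset.mul_sum, ← Finset.sum_div, htr, hc]
    ring
  rw [hsum2] at hsum
  have hfin : t ^ 2 * ∑ y, mq (t • M.G y) (M.G y) - η * (t * M.R.trace) / (2 * Real.pi) +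
      η * mq (t • M.R) ((t • M.R) * 1 * (t • M.R)) ≤ t ^ 2 * mq (t • M.R) M.R := by
    rw [hmain]
    linarith
  have htrA : ((1 : Matrix ι ι ℝ) * (t • M.R)).trace = t * M.R.trace := by
    rw [Matrix.one_mul, Matrix.trace_smul, smul_eq_mul]
  rw [htrA]
  have ht2 : 0 < t ^ 2 := by positivity
  have e2 : Real.pi * η / t ^ 2 * (t * M.R.trace / (2 * Real.pi) -
      mq (t • M.R) ((t • M.R) * 1 * (t • M.R))) =
      (Real.pi * (η * (t * M.R.trace) / (2 * Real.pi) -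
        η * mq (t • M.R) ((t • M.R) * 1 * (t • M.R)))) / t ^ 2 := by
    ring
  rw [e2, le_div_iff₀ ht2]
  have h9 := mul_le_mul_of_nonneg_left hfin Real.pi_pos.le
  linarith

end LT
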