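import Pool.Agent.H29.LG.G12

/-!
# LG-G13: the limit of `Λ(t)` at `0` and the upper bound

* `tendsto_Lam`: `D_tendsto` for `R` and all `G_y`; `log det (tR) = n log t + log det R`,
  `log det (t G_y) = card (κ y) log t + log det G_y`, the `log t` terms cancel by `hcard`;
  `det R = (det (η + Q))⁻¹`, `det G_y = (det (p_y + q_y))⁻¹`.
* `Lam_le`: let `k = tr R > 0`, `n = card ι`; `k • 1 - R` is positive semidefinite.  By `deriv_le`:
  for all `t > 0` the derivative `Λ'(t) ≤ η tr R/(2t)` (`mq ≥ 0`), and by `def_le`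
  (`t k • 1 - t R` psd): `Λ'(t) ≤ π η n t⁻² c1 (1/(tk))`, which for `tk ≤ 1` is `≤ π η n k²`
  (`c1_le` with `u = 1/(tk)`: `t⁻² c1 u = k² u² c1 u ≤ k²`).
  So `Λ(t) - π η n k² t` is antitone on `(0, 1/k]`, and `Λ(t) - (η tr R/2) log t` is antitone on
  `[1/k, ∞)`.  With the limit at `0`: `Λ(t) ≤ E0/2 + π η n k` for `t ≤ 1/k`, and
  `Λ(t) ≤ Λ(1/k) + (η tr R/2) log (tk)` for `t ≥ 1/k`.
-/

set_option linter.unusedSectionVars false

namespace LT

open scoped Matrix

variable {β : Type*} [Fintype β] {κ : β → Type*} [∀ y, Fintype (κ y)] [∀ y, DecidableEq (κ y)]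
variable {ι : Type*} [Fintype ι] [DecidableEq ι]
variable {T O : ∀ y, Matrix (κ y) ι ℤ} {η : ℝ}

/-- `R ≤ (tr R) 1` -/
theorem g13_tr_sub_psd {R : Matrix ι ι ℝ} (hR : R.PosSemidef) :
    (R.trace • (1 : Matrix ι ι ℝ) - R).PosSemidef := by
  refine Matrix.PosSemidef.of_dotProduct_mulVec_nonneg ?_ ?_
  · refine Matrix.IsHermitian.sub ?_ hR.1
    unfold Matrix.IsHermitian
    rw [Matrix.conjTranspose_smul, Matrix.conjTranspose_one]
    simp
  · intro x
    obtain ⟨w, hw⟩ := exists_psd_decomp hR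
    have h1 : star x ⬝ᵥ (R.trace • (1 : Matrix ι ι ℝ) - R) *ᵥ x
        = qf (R.trace • (1 : Matrix ι ι ℝ) - R) x := by
      simp [qf]
    have h2 : R.trace = ∑ k, ∑ i, w k i ^ 2 := by
      rw [hw, Matrix.trace_sum]
      refine Finset.sum_congr rfl fun k _ => ?_
      rw [Matrix.trace]
      refine Finset.sum_congr rfl fun i _ => ?_
      rw [Matrix.diag_apply, Matrix.vecMulVec_apply, sq]
    have h3 : qf R x = ∑ k, (w k ⬝ᵥ x) ^ 2 := by
      conv_lhs => rw [hw]
      rw [qf_sum]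
      exact Finset.sum_congr rfl fun k _ => qf_vecMulVec _ _
    rw [h1, qf_sub, qf_smul, qf_one, h3, h2, Finset.sum_mul, sub_nonneg]
    refine Finset.sum_le_sum fun k _ => ?_
    exact Finset.sum_mul_sq_le_sq_mul_sq _ _ _

theorem g13_Rdet (M : Msg T O η) :
    Real.log M.R.det = -Real.log (η • (1 : Matrix ι ι ℝ) + Qr T O M.p M.q).det := by
  have h := congrArg Matrix.det M.RQ
  rw [Matrix.det_mul, Matrix.det_one] at h
  have h1 : M.R.det = (η • (1 : Matrix ι ι ℝ) + Qr T O M.p M.q).det⁻¹ :=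
    eq_inv_of_mul_eq_one_left h
  rw [h1, Real.log_inv]

theorem g13_Gdet (M : Msg T O η) (y : β) :
    Real.log (M.G y).det = -Real.log (M.p y + M.q y).det := by
  rw [Msg.G, Matrix.det_nonsing_inv, Ring.inverse_eq_inv, Real.log_inv]

theorem g13_det_smul {ν : Type*} [Fintype ν] [DecidableEq ν] {A : Matrix ν ν ℝ} (hA : A.PosDef)
    {t : ℝ} (ht : 0 < t) :
    Real.log (t • A).det = Fintype.card ν * Real.log t + Real.log A.det := by
  rw [Matrix.det_smul, Real.log_mul (by positivity) hA.det_pos.ne', Real.log_pow]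

theorem Msg.tendsto_Lam (M : Msg T O η)
    (hcard : ∑ y, Fintype.card (κ y) = Fintype.card ι) :
    Filter.Tendsto M.Lam (nhdsWithin 0 (Set.Ioi 0)) (nhds (M.E0 / 2)) := by
  have h1 := D_tendsto M.R_pos
  have h2 := tendsto_finsetSum (Finset.univ : Finset β) fun y _ => D_tendsto (M.G_pos y)
  have h3 := (h1.sub h2).add_const (M.E0 / 2)
  simp only [Finset.sum_const_zero, sub_zero, zero_add] at h3
  refine h3.congr' ?_
  filter_upwards [self_mem_nhdsWithin] with t ht
  have ht' : (0 : ℝ) < t := ht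
  have h4 : ∑ y, (Real.log (th (t • M.G y)) + Real.log (t • M.G y).det / 2)
      = ∑ y, Real.log (th (t • M.G y)) + (Fintype.card ι * Real.log t
        - ∑ y, Real.log (M.p y + M.q y).det) / 2 := by
    rw [Finset.sum_add_distrib]
    congr 1
    rw [← Finset.sum_div]
    congr 1
    have h5 : ∀ y ∈ (Finset.univ : Finset β), Real.log (t • M.G y).det
        = (Fintype.card (κ y) : ℝ) * Real.log t - Real.log (M.p y + M.q y).det := by
      intro y _
      rw [g13_det_smul (M.G_pos y) ht', g13_Gdet, ← sub_eq_add_neg]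
    rw [Finset.sum_congr rfl h5, Finset.sum_sub_distrib, ← Finset.sum_mul]
    congr 2
    exact_mod_cast hcard
  rw [h4, g13_det_smul M.R_pos ht', g13_Rdet, Msg.Lam, Msg.E0]
  ring

theorem g13_lim_le {f : ℝ → ℝ} {L b : ℝ}
    (hf : AntitoneOn f (Set.Ioc 0 b)) (hL : Filter.Tendsto f (nhdsWithin 0 (Set.Ioi 0)) (nhds L))
    {t : ℝ} (ht : 0 < t) (htb : t ≤ b) : f t ≤ L := by
  refine ge_of_tendsto hL ?_
  have h1 : Set.Ioo (0 : ℝ) t ∈ nhdsWithin 0 (Set.Ioi 0) :=
    Ioo_mem_nhdsGT ht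
  filter_upwards [h1] with s hs
  exact hf ⟨hs.1, hs.2.le.trans htb⟩ ⟨ht, htb⟩ hs.2.le

theorem Msg.Lam_le [Nonempty ι] (M : Msg T O η) (hη : 0 < η)
    (hcard : ∑ y, Fintype.card (κ y) = Fintype.card ι)
    (gT : ∀ y, (rz (T y) * (rz (T y))ᵀ).PosDef) (gO : ∀ y, (rz (O y) * (rz (O y))ᵀ).PosDef)
    {t : ℝ} (ht : 0 < t) :
    M.Lam t ≤ M.E0 / 2 + Real.pi * Fintype.card ι * (η * M.R.trace) +
      η * M.R.trace / 2 * max 0 (Real.log (t * M.R.trace)) := by
  have hk : 0 < M.R.trace := M.R_pos.trace_pos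
  set k := M.R.trace with hkdef
  have hder : ∀ s : ℝ, 0 < s → ∃ D, HasDerivAt M.Lam D s ∧
      D ≤ Real.pi * η / s ^ 2 * (((1 : Matrix ι ι ℝ) * (s • M.R)).trace / (2 * Real.pi) -
        mq (s • M.R) ((s • M.R) * 1 * (s • M.R))) := fun s hs =>
    ⟨_, M.hasDerivAt_Lam hs, M.deriv_le hη hcard gT gO hs⟩
  have hsR : ∀ s : ℝ, 0 < s → (s • M.R).PosDef := fun s hs => M.R_pos.smul hs
  -- first bound
  have hb1 : ∀ s : ℝ, 0 < s → s ≤ 1 / k → ∃ D, HasDerivAt M.Lam D s ∧
      D ≤ Real.pi * η * Fintype.card ι * k ^ 2 := by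
    intro s hs hsk
    obtain ⟨D, hD, hD'⟩ := hder s hs
    refine ⟨D, hD, hD'.trans ?_⟩
    have h1 : ((s * k) • (1 : Matrix ι ι ℝ) - s • M.R).PosSemidef := by
      have := (g13_tr_sub_psd M.R_pos.posSemidef).smul hs.le
      rwa [smul_sub, smul_smul] at this
    have h2 := def_le (hsR s hs) (Matrix.PosSemidef.one (n := ι) (R := ℝ)) (mul_pos hs hk) h1
    rw [Matrix.trace_one] at h2
    have hu : 1 ≤ 1 / (s * k) := by
      rw [le_div_iff₀ (mul_pos hs hk), one_mul]
      rwa [le_div_iff₀ hk] at hsk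
    have h3 := c1_le hu
    have hpos : 0 < Real.pi * η / s ^ 2 := by positivity
    calc Real.pi * η / s ^ 2 * (((1 : Matrix ι ι ℝ) * (s • M.R)).trace / (2 * Real.pi) -
        mq (s • M.R) ((s • M.R) * 1 * (s • M.R)))
        ≤ Real.pi * η / s ^ 2 * (c1 (1 / (s * k)) * Fintype.card ι) :=
          mul_le_mul_of_nonneg_left h2 hpos.le
      _ = Real.pi * η * Fintype.card ι * k ^ 2 * ((1 / (s * k)) ^ 2 * c1 (1 / (s * k))) := by
          field_simp
      _ ≤ Real.pi * η * Fintype.card ι * k ^ 2 * 1 :=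
          mul_le_mul_of_nonneg_left h3 (by positivity)
      _ = Real.pi * η * Fintype.card ι * k ^ 2 := mul_one _
  -- second bound
  have hb2 : ∀ s : ℝ, 0 < s → ∃ D, HasDerivAt M.Lam D s ∧ D ≤ η * k / 2 * s⁻¹ := by
    intro s hs
    obtain ⟨D, hD, hD'⟩ := hder s hs
    refine ⟨D, hD, hD'.trans ?_⟩
    have h0 : ((s • M.R) * 1 * (s • M.R)).PosSemidef := by
      have h1 := (Matrix.PosSemidef.one (n := ι) (R := ℝ)).mul_mul_conjTranspose_same (s • M.R)
      rwa [(hsR s hs).1.eq] at h1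
    have h1 : 0 ≤ mq (s • M.R) ((s • M.R) * 1 * (s • M.R)) := mq_nonneg (hsR s hs) h0
    have h2 : ((1 : Matrix ι ι ℝ) * (s • M.R)).trace = s * k := by
      rw [one_mul, Matrix.trace_smul, smul_eq_mul]
    have hpos : 0 < Real.pi * η / s ^ 2 := by positivity
    calc Real.pi * η / s ^ 2 * (((1 : Matrix ι ι ℝ) * (s • M.R)).trace / (2 * Real.pi) -
        mq (s • M.R) ((s • M.R) * 1 * (s • M.R)))
        ≤ Real.pi * η / s ^ 2 * (s * k / (2 * Real.pi)) := by
          rw [h2]
          exact mul_le_mul_of_nonneg_left (by linarith) hpos.le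
      _ = η * k / 2 * s⁻¹ := by
          have := Real.pi_pos.ne'
          field_simp
  -- the region `t ≤ 1/k`
  have hA1 : ∀ s : ℝ, 0 < s → s ≤ 1 / k →
      M.Lam s ≤ M.E0 / 2 + Real.pi * Fintype.card ι * (η * k) := by
    intro s hs hsk
    have h1 : AntitoneOn (fun s => M.Lam s - Real.pi * η * Fintype.card ι * k ^ 2 * s)
        (Set.Ioc 0 (1 / k)) := by
      refine antitoneOn_of_deriv_nonpos (convex_Ioc _ _) ?_ ?_ ?_
      · intro r hr
        obtain ⟨D, hD, _⟩ := hb1 r hr.1 hr.2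
        exact (hD.continuousAt.sub (by fun_prop)).continuousWithinAt
      · intro r hr
        rw [interior_Ioc] at hr
        obtain ⟨D, hD, _⟩ := hb1 r hr.1 hr.2.le
        exact (hD.differentiableAt.sub (by fun_prop)).differentiableWithinAt
      · intro r hr
        rw [interior_Ioc] at hr
        obtain ⟨D, hD, hD'⟩ := hb1 r hr.1 hr.2.le
        have h2 : HasDerivAt (fun s => M.Lam s - Real.pi * η * Fintype.card ι * k ^ 2 * s)
            (D - Real.pi * η * Fintype.card ι * k ^ 2 * 1) r :=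
          hD.sub ((hasDerivAt_id r).const_mul _)
        rw [h2.deriv]
        linarith
    have h2 : Filter.Tendsto (fun s => M.Lam s - Real.pi * η * Fintype.card ι * k ^ 2 * s)
        (nhdsWithin 0 (Set.Ioi 0)) (nhds (M.E0 / 2 - Real.pi * η * Fintype.card ι * k ^ 2 * 0)) := by
      refine (M.tendsto_Lam hcard).sub (Filter.Tendsto.const_mul _ ?_)
      exact nhdsWithin_le_nhds
    have h3 := g13_lim_le h1 h2 hs hsk
    rw [mul_zero, sub_zero] at h3
    have h4 : Real.pi * η * Fintype.card ι * k ^ 2 * s ≤ Real.pi * Fintype.card ι * (η * k) := by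
      have h5 : s * k ≤ 1 := by rwa [le_div_iff₀ hk] at hsk
      calc Real.pi * η * Fintype.card ι * k ^ 2 * s
          = Real.pi * Fintype.card ι * (η * k) * (s * k) := by ring
        _ ≤ Real.pi * Fintype.card ι * (η * k) * 1 :=
            mul_le_mul_of_nonneg_left h5 (by positivity)
        _ = _ := mul_one _
    linarith
  rcases le_or_gt t (1 / k) with h | h
  · have h1 := hA1 t ht h
    have h2 : 0 ≤ η * k / 2 * max 0 (Real.log (t * k)) := by positivity
    linarith
  · have hk' : 0 < 1 / k := by positivity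
    have h1 : AntitoneOn (fun s => M.Lam s - η * k / 2 * Real.log s) (Set.Ici (1 / k)) := by
      refine antitoneOn_of_deriv_nonpos (convex_Ici _) ?_ ?_ ?_
      · intro r hr
        have hr0 : 0 < r := lt_of_lt_of_le hk' hr
        obtain ⟨D, hD, _⟩ := hb2 r hr0
        exact (hD.sub ((Real.hasDerivAt_log hr0.ne').const_mul _)).continuousAt.continuousWithinAt
      · intro r hr
        rw [interior_Ici] at hr
        have hr0 : 0 < r := lt_trans hk' hr
        obtain ⟨D, hD, _⟩ := hb2 r hr0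
        exact (hD.sub ((Real.hasDerivAt_log hr0.ne').const_mul
          _)).differentiableAt.differentiableWithinAt
      · intro r hr
        rw [interior_Ici] at hr
        have hr0 : 0 < r := lt_trans hk' hr
        obtain ⟨D, hD, hD'⟩ := hb2 r hr0
        have h2 : HasDerivAt (fun s => M.Lam s - η * k / 2 * Real.log s)
            (D - η * k / 2 * r⁻¹) r := hD.sub ((Real.hasDerivAt_log hr0.ne').const_mul _)
        rw [h2.deriv]
        linarith
    have h2 := h1 (Set.self_mem_Ici) h.le (h.le)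
    simp only at h2
    have h3 := hA1 (1 / k) hk' le_rfl
    have h4 : Real.log (t * k) = Real.log t - Real.log (1 / k) := by
      rw [Real.log_mul ht.ne' hk.ne', one_div, Real.log_inv]
      ring
    have h5 : η * k / 2 * Real.log (t * k) ≤ η * k / 2 * max 0 (Real.log (t * k)) :=
      mul_le_mul_of_nonneg_left (le_max_right _ _) (by positivity)
    rw [h4, mul_sub] at h5
    rw [h4]
    linarith

end LT
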