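import Pool.Agent.H29.LG.K00

/-!
# LG-J00: cocycles `Γ : F × 𝒮 → ℂ[F]^μ` over an action of the free group `F`

`IsCoc Γ`: `Γ(v w, s) = Γ(v, w • s) + v Γ(w, s)`.

* `exists_coc`: let `F` act on `𝒮 × (μ → FR β)` by `b_y • (s, m) = (b_y • s, a y s + b_y m)` (a
  permutation; `FreeGroup.lift` to `Equiv.Perm`); `Γ w s = (w • (s, 0)).2`; one shows
  `(w • (s, m)).2 = Γ w s + w m` by induction on `w`.
* `IsCoc.eq_of_path`: induction on the list: `mk ((y, true) :: l) = b_y * mk l`,
  `mk ((y, false) :: l) = b_y⁻¹ * mk l` and `IsCoc.inv`.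
* `IsCoc.int`: induction on the group element (`FreeGroup.induction_on`).
* `chain_rule`: both sides are determined by their values on generators; induction on `w`
  (`fox_mul`, `fox_inv`, `fox_of`).
-/

set_option linter.unusedSectionVars false

namespace LT

open scoped Matrix

/-- the group ring `ℂ[F]` -/
abbrev FR (β : Type*) : Type _ := MonoidAlgebra ℂ (FreeGroup β)

variable {β : Type*} [DecidableEq β] {𝒮 : Type*} [MulAction (FreeGroup β) 𝒮]
variable {μ ν : Type*}

/-- left multiplication of a row vector by a group element -/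
noncomputable def lm (g : FreeGroup β) (r : μ → FR β) : μ → FR β := fun j =>
  MonoidAlgebra.single g 1 * r j

theorem lm_add (g : FreeGroup β) (r r' : μ → FR β) : lm g (r + r') = lm g r + lm g r' := by
  funext j
  exact mul_add _ _ _

theorem lm_sub (g : FreeGroup β) (r r' : μ → FR β) : lm g (r - r') = lm g r - lm g r' := by
  funext j
  exact mul_sub _ _ _

theorem lm_neg (g : FreeGroup β) (r : μ → FR β) : lm g (-r) = -lm g r := by
  funext j
  exact mul_neg _ _

theorem lm_lm (g h : FreeGroup β) (r : μ → FR β) : lm g (lm h r) = lm (g * h) r := by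
  funext j
  unfold lm
  rw [← mul_assoc, fx_single_mul]

theorem lm_one (r : μ → FR β) : lm 1 r = r := by
  funext j
  unfold lm
  rw [← MonoidAlgebra.one_def, one_mul]

theorem lm_zero (g : FreeGroup β) : lm g (0 : μ → FR β) = 0 := by
  funext j
  exact mul_zero _

theorem lm_vecMul [Fintype μ] (g : FreeGroup β) (r : μ → FR β) (Z : Matrix μ ν (FR β)) :
    lm g (r ᵥ* Z) = lm g r ᵥ* Z := by
  funext j
  unfold lm
  rw [Matrix.vecMul, Matrix.vecMul, dotProduct, dotProduct, Finset.mul_sum]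
  exact Finset.sum_congr rfl fun i _ => (mul_assoc _ _ _).symm

/-- `Γ(v w, s) = Γ(v, w • s) + v Γ(w, s)` -/
def IsCoc (Γ : FreeGroup β → 𝒮 → μ → FR β) : Prop :=
  ∀ v w s, Γ (v * w) s = Γ v (w • s) + lm v (Γ w s)

theorem IsCoc.one {Γ : FreeGroup β → 𝒮 → μ → FR β} (h : IsCoc Γ) (s : 𝒮) : Γ 1 s = 0 := by
  have h1 := h 1 1 s
  rw [mul_one, one_smul, lm_one] at h1
  exact left_eq_add.mp h1

theorem IsCoc.inv {Γ : FreeGroup β → 𝒮 → μ → FR β} (h : IsCoc Γ) (v : FreeGroup β) (s : 𝒮) :
    Γ v⁻¹ s = -lm v⁻¹ (Γ v (v⁻¹ • s)) := by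
  have h1 := h v⁻¹ v (v⁻¹ • s)
  rw [inv_mul_cancel, h.one, smul_inv_smul] at h1
  exact eq_neg_of_add_eq_zero_left h1.symm

theorem IsCoc.add {Γ Γ' : FreeGroup β → 𝒮 → μ → FR β} (h : IsCoc Γ) (h' : IsCoc Γ') :
    IsCoc (fun w s => Γ w s + Γ' w s) := by
  intro v w s
  simp only [h v w s, h' v w s, lm_add]
  abel

theorem IsCoc.vecMul [Fintype μ] {Γ : FreeGroup β → 𝒮 → μ → FR β} (h : IsCoc Γ)
    (Z : Matrix μ ν (FR β)) : IsCoc (fun w s => Γ w s ᵥ* Z) := by
  intro v w s
  simp only [h v w s, Matrix.add_vecMul, lm_vecMul]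

theorem isCoc_fox : IsCoc (fun (w : FreeGroup β) (_ : 𝒮) b => fox b w) := by
  intro v w s
  funext b
  exact fox_mul b v w

theorem isCoc_cob (ψ : 𝒮 → μ → FR β) : IsCoc (fun w s => ψ (w • s) - lm w (ψ s)) := by
  intro v w s
  simp only [lm_sub, lm_lm, mul_smul]
  abel

/-- the permutation `(s, m) ↦ (b_y • s, a y s + b_y m)` -/
noncomputable def j00_perm (a : β → 𝒮 → μ → FR β) (y : β) :
    Equiv.Perm (𝒮 × (μ → FR β)) where
  toFun p := (FreeGroup.of y • p.1, a y p.1 + lm (FreeGroup.of y) p.2)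
  invFun p := ((FreeGroup.of y)⁻¹ • p.1,
    lm (FreeGroup.of y)⁻¹ (p.2 - a y ((FreeGroup.of y)⁻¹ • p.1)))
  left_inv := by
    rintro ⟨s, m⟩
    simp only [inv_smul_smul, add_sub_cancel_left, lm_lm, inv_mul_cancel, lm_one]
  right_inv := by
    rintro ⟨s, m⟩
    simp only [smul_inv_smul, lm_lm, mul_inv_cancel, lm_one, add_sub_cancel]

theorem exists_coc (a : β → 𝒮 → μ → FR β) :
    ∃ Γ : FreeGroup β → 𝒮 → μ → FR β, IsCoc Γ ∧ ∀ y s, Γ (FreeGroup.of y) s = a y s := by
  have key : ∀ w : FreeGroup β, ∀ (s : 𝒮) (m : μ → FR β), FreeGroup.lift (j00_perm a) w (s, m) =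
      (w • s, (FreeGroup.lift (j00_perm a) w (s, 0)).2 + lm w m) := by
    intro w
    induction w using FreeGroup.induction_on with
    | C1 =>
      intro s m
      rw [map_one, Equiv.Perm.one_apply, Equiv.Perm.one_apply, one_smul, lm_one, zero_add]
    | of x =>
      intro s m
      change FreeGroup.lift (j00_perm a) (FreeGroup.of x) (s, m) = (FreeGroup.of x • s,
        (FreeGroup.lift (j00_perm a) (FreeGroup.of x) (s, 0)).2 + lm (FreeGroup.of x) m)
      rw [FreeGroup.lift_apply_of]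
      change (FreeGroup.of x • s, a x s + lm (FreeGroup.of x) m) =
        (FreeGroup.of x • s, a x s + lm (FreeGroup.of x) 0 + lm (FreeGroup.of x) m)
      rw [lm_zero, add_zero]
    | inv_of x _ =>
      intro s m
      change FreeGroup.lift (j00_perm a) (FreeGroup.of x)⁻¹ (s, m) = ((FreeGroup.of x)⁻¹ • s,
        (FreeGroup.lift (j00_perm a) (FreeGroup.of x)⁻¹ (s, 0)).2 + lm (FreeGroup.of x)⁻¹ m)
      rw [map_inv, FreeGroup.lift_apply_of]
      change ((FreeGroup.of x)⁻¹ • s, lm (FreeGroup.of x)⁻¹ (m - a x ((FreeGroup.of x)⁻¹ • s))) =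
        ((FreeGroup.of x)⁻¹ • s, lm (FreeGroup.of x)⁻¹ (0 - a x ((FreeGroup.of x)⁻¹ • s)) +
          lm (FreeGroup.of x)⁻¹ m)
      rw [← lm_add]
      congr 2
      abel
    | mul x y hx hy =>
      intro s m
      rw [map_mul, Equiv.Perm.mul_apply, Equiv.Perm.mul_apply, hy s m, hy s 0, hx, hx (y • s)
        ((FreeGroup.lift (j00_perm a) y (s, 0)).2 + lm y 0), lm_zero, add_zero, lm_add, lm_lm,
        mul_smul, add_assoc]
  refine ⟨fun w s => (FreeGroup.lift (j00_perm a) w (s, 0)).2, ?_, ?_⟩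
  · intro v w s
    change (FreeGroup.lift (j00_perm a) (v * w) (s, 0)).2 = _
    rw [map_mul, Equiv.Perm.mul_apply, key w s 0, lm_zero, add_zero, key v]
  · intro y s
    change (FreeGroup.lift (j00_perm a) (FreeGroup.of y) (s, 0)).2 = _
    rw [FreeGroup.lift_apply_of]
    change a y s + lm (FreeGroup.of y) 0 = a y s
    rw [lm_zero, add_zero]

/-- the word `l`, read from right to left starting at `s`, stays in `V` -/
def PathIn (V : Set 𝒮) (s : 𝒮) : List (β × Bool) → Prop
  | [] => s ∈ V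
  | p :: l => PathIn V s l ∧ FreeGroup.mk (p :: l) • s ∈ V

theorem PathIn.end_mem {V : Set 𝒮} {s : 𝒮} {l : List (β × Bool)} (h : PathIn V s l) :
    FreeGroup.mk l • s ∈ V := by
  cases l with
  | nil =>
    have h1 : FreeGroup.mk ([] : List (β × Bool)) = 1 := rfl
    rw [h1, one_smul]
    exact h
  | cons p l => exact h.2

/-- two cocycles which agree on the edges inside `V` agree on the paths inside `V` -/
theorem IsCoc.eq_of_path {Γ Γ' : FreeGroup β → 𝒮 → μ → FR β} (h : IsCoc Γ) (h' : IsCoc Γ')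
    {V : Set 𝒮} (hV : ∀ y, ∀ s ∈ V, FreeGroup.of y • s ∈ V →
      Γ (FreeGroup.of y) s = Γ' (FreeGroup.of y) s)
    {s : 𝒮} {l : List (β × Bool)} (hl : PathIn V s l) :
    Γ (FreeGroup.mk l) s = Γ' (FreeGroup.mk l) s := by
  induction l with
  | nil =>
    have h1 : FreeGroup.mk ([] : List (β × Bool)) = 1 := rfl
    rw [h1, h.one, h'.one]
  | cons p l ih =>
    obtain ⟨h1, h2⟩ := hl
    have h3 := h1.end_mem
    obtain ⟨y, b⟩ := p
    cases b
    · rw [fx_mk_false, mul_smul] at h2
      rw [fx_mk_false, h, h', ih h1, h.inv, h'.inv, hV y _ h2 (by rwa [smul_inv_smul])]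
    · rw [fx_mk_true, mul_smul] at h2
      rw [fx_mk_true, h, h', ih h1, hV y _ h3 h2]

theorem IsCoc.int {Γ : FreeGroup β → 𝒮 → μ → FR β} (h : IsCoc Γ)
    (hi : ∀ y s j, Γ (FreeGroup.of y) s j ∈ intR (FreeGroup β)) (w : FreeGroup β) (s : 𝒮)
    (j : μ) : Γ w s j ∈ intR (FreeGroup β) := by
  induction w using FreeGroup.induction_on generalizing s j with
  | C1 =>
    rw [h.one]
    exact zero_mem _
  | of x => exact hi x s j
  | inv_of x _ =>
    have h1 : Γ (FreeGroup.of x)⁻¹ s j ∈ intR (FreeGroup β) := by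
      rw [h.inv]
      exact neg_mem (mul_mem (single_one_mem_intR _) (hi x _ j))
    exact h1
  | mul x y hx hy =>
    rw [h]
    exact add_mem (hx _ j) (mul_mem (single_one_mem_intR _) (hy s j))

/-- the chain rule -/
theorem chain_rule [Fintype β] (c : β → FreeGroup β) (F : FreeGroup β → μ → FR β)
    (hF : ∀ v w, F (v * w) = F v + lm (FreeGroup.lift c v) (F w)) (w : FreeGroup β) (j : μ) :
    F w j = ∑ k, MonoidAlgebra.mapDomain (FreeGroup.lift c) (fox k w) * F (FreeGroup.of k) j := by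
  have h1 : F 1 = 0 := by
    have h := hF 1 1
    rw [mul_one, map_one, lm_one] at h
    exact left_eq_add.mp h
  have hinv : ∀ v : FreeGroup β, F v⁻¹ = -lm (FreeGroup.lift c v⁻¹) (F v) := by
    intro v
    have h := hF v⁻¹ v
    rw [inv_mul_cancel, h1] at h
    exact eq_neg_of_add_eq_zero_left h.symm
  have hφ : ∀ g : FreeGroup β, MonoidAlgebra.mapDomainRingHom ℂ (FreeGroup.lift c)
      (MonoidAlgebra.single g 1) = MonoidAlgebra.single (FreeGroup.lift c g) 1 := fun g =>
    MonoidAlgebra.mapDomain_single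
  have main : F w j = ∑ k, MonoidAlgebra.mapDomainRingHom ℂ (FreeGroup.lift c) (fox k w) *
      F (FreeGroup.of k) j := by
    induction w using FreeGroup.induction_on with
    | C1 =>
      rw [h1]
      refine (Finset.sum_eq_zero fun k _ => ?_).symm
      rw [fox_one, map_zero, zero_mul]
    | of x =>
      change F (FreeGroup.of x) j = ∑ k, MonoidAlgebra.mapDomainRingHom ℂ (FreeGroup.lift c)
        (fox k (FreeGroup.of x)) * F (FreeGroup.of k) j
      rw [Finset.sum_eq_single x]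
      · rw [fox_of, if_pos rfl, map_one, one_mul]
      · intro k _ hk
        rw [fox_of, if_neg (Ne.symm hk), map_zero, zero_mul]
      · intro h
        exact absurd (Finset.mem_univ x) h
    | inv_of x ih =>
      rw [hinv]
      change -(MonoidAlgebra.single (FreeGroup.lift c (FreeGroup.of x)⁻¹) 1 *
        F (FreeGroup.of x) j) = _
      have ih' : F (FreeGroup.of x) j = ∑ k, MonoidAlgebra.mapDomainRingHom ℂ (FreeGroup.lift c)
        (fox k (FreeGroup.of x)) * F (FreeGroup.of k) j := ih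
      rw [ih', Finset.mul_sum, ← Finset.sum_neg_distrib]
      refine Finset.sum_congr rfl fun k _ => ?_
      change _ = MonoidAlgebra.mapDomainRingHom ℂ (FreeGroup.lift c)
        (fox k (FreeGroup.of x)⁻¹) * F (FreeGroup.of k) j
      rw [fox_inv, map_neg, map_mul, hφ, neg_mul, mul_assoc]
    | mul x y hx hy =>
      rw [hF]
      change F x j + MonoidAlgebra.single (FreeGroup.lift c x) 1 * F y j = _
      rw [hx, hy, Finset.mul_sum, ← Finset.sum_add_distrib]
      refine Finset.sum_congr rfl fun k _ => ?_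
      rw [fox_mul, map_add, map_mul, hφ, add_mul, mul_assoc]
  exact main

end LT
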