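import Pool.Agent.H29.LG.J01

/-!
# LG-J02: `J X = A f` and `Y X = 1 + H' f`

`claim1`: `IsCoc.eq_of_path` for `Γ w s = (fox w) ᵥ* X` (`isCoc_fox`, `IsCoc.vecMul`) and
`Γ' w s = (dl (w • s) - lm w (dl s)) + al w s ᵥ* f` (`isCoc_cob`, `IsCoc.add`).  On an edge
`s → b_y • s` inside `V`: `Γ = X_y`, `al = ed y s`, and `ed_vecMul` with
`g s = lm b_y (dl s - dl (h₀ y)) - (dl (b_y • s) - dl (b_y • h₀ y))` (`f_row`).
For `s = s₀`: `dl s₀ = 0`.  `J X = A f`: the path of `c_k` ends at `s₀` (`stab`, `mk_toWord`).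
`Y X = 1 + H' f`: `x_v = mk (lx v)`, `x_v • s₀ = v`.
-/

set_option linter.unusedSectionVars false

namespace LT

open scoped Matrix

variable {β : Type*} [Fintype β] [DecidableEq β]

namespace GD

variable {c : β → FreeGroup β} {𝒮 : Type*} [DecidableEq 𝒮] [MulAction (FreeGroup β) 𝒮]
variable (D : GD c 𝒮)

theorem j02_edge (y : β) (s : 𝒮) (hs : s ∈ D.V) (hs' : FreeGroup.of y • s ∈ D.V) :
    (fun b => fox b (FreeGroup.of y)) ᵥ* D.X =
      D.dl (FreeGroup.of y • s) - lm (FreeGroup.of y) (D.dl s) +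
        D.al (FreeGroup.of y) s ᵥ* D.f := by
  have h1 : (fun b => fox b (FreeGroup.of y)) ᵥ* D.X = D.X y := by
    funext v
    show ∑ b, fox b (FreeGroup.of y) * D.X b v = D.X y v
    rw [Finset.sum_eq_single y]
    · rw [fox_of, if_pos rfl, one_mul]
    · intro b _ hb
      rw [fox_of, if_neg (fun h => hb h.symm), zero_mul]
    · intro h
      exact absurd (Finset.mem_univ y) h
  have h2 : D.ed y s ᵥ* D.f = lm (FreeGroup.of y) (D.dl s - D.dl (D.h₀ y)) -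
      (D.dl (FreeGroup.of y • s) - D.dl (FreeGroup.of y • D.h₀ y)) := by
    refine D.ed_vecMul y hs hs' D.f (fun s => lm (FreeGroup.of y) (D.dl s - D.dl (D.h₀ y)) -
      (D.dl (FreeGroup.of y • s) - D.dl (FreeGroup.of y • D.h₀ y))) ?_ (fun h => D.f_row y h)
    show lm (FreeGroup.of y) (D.dl (D.h₀ y) - D.dl (D.h₀ y)) -
      (D.dl (FreeGroup.of y • D.h₀ y) - D.dl (FreeGroup.of y • D.h₀ y)) = 0
    rw [sub_self, sub_self, sub_zero, lm_zero]
  rw [h1, al_of, h2, lm_sub]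
  show D.dl (FreeGroup.of y • D.h₀ y) - lm (FreeGroup.of y) (D.dl (D.h₀ y)) = _
  abel

theorem claim1 {l : List (β × Bool)} (hl : PathIn (D.V : Set 𝒮) D.s₀ l) :
    (fun b => fox b (FreeGroup.mk l)) ᵥ* D.X =
      D.dl (FreeGroup.mk l • D.s₀) + D.al (FreeGroup.mk l) D.s₀ ᵥ* D.f := by
  have h := IsCoc.eq_of_path
    (Γ := fun (w : FreeGroup β) (_ : 𝒮) => (fun b => fox b w) ᵥ* D.X)
    (Γ' := fun (w : FreeGroup β) (s : 𝒮) => (D.dl (w • s) - lm w (D.dl s)) + D.al w s ᵥ* D.f)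
    ((isCoc_fox (β := β) (𝒮 := 𝒮)).vecMul D.X)
    ((isCoc_cob D.dl).add (D.al_coc.vecMul D.f))
    (V := (D.V : Set 𝒮))
    (fun y s hs hs' => D.j02_edge y s (Finset.mem_coe.mp hs) (Finset.mem_coe.mp hs')) hl
  refine h.trans ?_
  show D.dl (FreeGroup.mk l • D.s₀) - lm (FreeGroup.mk l) (D.dl D.s₀) +
    D.al (FreeGroup.mk l) D.s₀ ᵥ* D.f = _
  rw [dl_s₀, lm_zero, sub_zero]

theorem JX : D.J * D.X = D.A * D.f := by
  have key : ∀ k, (fun b => fox b (c k)) ᵥ* D.X = D.al (c k) D.s₀ ᵥ* D.f := by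
    intro k
    have h := D.claim1 (D.hpath k)
    rw [FreeGroup.mk_toWord] at h
    have hk : c k • D.s₀ = D.s₀ := by
      refine (D.stab (c k)).mpr ⟨FreeGroup.of k, ?_⟩
      rw [FreeGroup.lift_apply_of]
    rw [h, hk, dl_s₀, zero_add]
  funext k v
  exact congrFun (key k) v

theorem YX : D.Y * D.X = 1 + D.H' * D.f := by
  have key : ∀ v : D.ι, (fun b => fox b (D.x v)) ᵥ* D.X =
      D.dl (v : 𝒮) + D.al (D.x v) D.s₀ ᵥ* D.f := by
    intro v
    obtain ⟨h1, h2⟩ := D.hlx v (Finset.mem_of_mem_erase v.2)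
    have h := D.claim1 h2
    rw [← h1, D.hx] at h
    exact h
  funext v w
  refine (congrFun (key v) w).trans ?_
  show D.dl (v : 𝒮) w + (D.al (D.x v) D.s₀ ᵥ* D.f) w = (1 : Matrix D.ι D.ι (FR β)) v w +
    (D.al (D.x v) D.s₀ ᵥ* D.f) w
  congr 1
  rw [Matrix.one_apply]
  unfold dl
  by_cases hvw : v = w
  · rw [if_pos hvw, if_pos (congrArg Subtype.val hvw)]
  · rw [if_neg hvw, if_neg (fun h => hvw (Subtype.ext h))]

end GD

end LT
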