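import Pool.Agent.H29.LT.Fox
import Pool.Agent.H29.LT.C01

/-!
# LG-K00: elements of the group ring with integral coefficients

`intR G` is the subring of the `x ∈ ℂ[G]` with integer coefficients, `IntM x` says that all entries
of the matrix `x` are in it.
-/

set_option linter.unusedSectionVars false

namespace LT

open scoped Matrix

variable {G : Type*} [Group G] {K : Type*} [Group K]

/-- the subring of `ℂ[G]` of the elements with integral coefficients -/
noncomputable def intR (G : Type*) [Group G] : Subring (MonoidAlgebra ℂ G) :=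
  (MonoidAlgebra.mapRingHom G (Int.castRingHom ℂ)).range

theorem single_mem_intR (g : G) (n : ℤ) : MonoidAlgebra.single g (n : ℂ) ∈ intR G := by
  refine ⟨MonoidAlgebra.single g n, ?_⟩
  rw [MonoidAlgebra.mapRingHom_single]
  rfl

theorem single_one_mem_intR (g : G) : MonoidAlgebra.single g (1 : ℂ) ∈ intR G := by
  have h := single_mem_intR g 1
  rwa [Int.cast_one] at h

theorem intR_coeff {x : MonoidAlgebra ℂ G} (h : x ∈ intR G) (g : G) :
    ∃ n : ℤ, x.coeff g = (n : ℂ) := by
  obtain ⟨y, rfl⟩ := h
  exact ⟨y.coeff g, MonoidAlgebra.coeff_mapRingHom _ _ _⟩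

theorem mapDomain_mem_intR (φ : G →* K) {x : MonoidAlgebra ℂ G} (h : x ∈ intR G) :
    MonoidAlgebra.mapDomain φ x ∈ intR K := by
  obtain ⟨y, rfl⟩ := h
  induction y using MonoidAlgebra.induction_linear with
  | zero =>
    rw [map_zero, MonoidAlgebra.mapDomain_zero]
    exact zero_mem _
  | add a b ha hb =>
    rw [map_add, MonoidAlgebra.mapDomain_add]
    exact add_mem ha hb
  | single g c =>
    rw [MonoidAlgebra.mapRingHom_single, MonoidAlgebra.mapDomain_single]
    exact single_mem_intR (φ g) c

theorem k00_foxL {β : Type*} [DecidableEq β] (b : β) (l : List (β × Bool)) :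
    foxL b l ∈ intR (FreeGroup β) := by
  have hite : ∀ i : β, (if i = b then (1 : MonoidAlgebra ℂ (FreeGroup β)) else 0) ∈
      intR (FreeGroup β) := by
    intro i
    split_ifs
    · exact one_mem _
    · exact zero_mem _
  induction l with
  | nil =>
    rw [foxL]
    exact zero_mem _
  | cons p l ih =>
    obtain ⟨i, t⟩ := p
    cases t
    · rw [foxL]
      exact mul_mem (single_one_mem_intR _) (sub_mem ih (hite i))
    · rw [foxL]
      exact add_mem (hite i) (mul_mem (single_one_mem_intR _) ih)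

theorem fox_mem_intR {β : Type*} [DecidableEq β] (b : β) (w : FreeGroup β) :
    fox b w ∈ intR (FreeGroup β) := k00_foxL b w.toWord

variable {ι κ μ ν : Type*}

/-- all entries have integral coefficients -/
def IntM (x : Matrix ι κ (MonoidAlgebra ℂ G)) : Prop := ∀ i j, x i j ∈ intR G

theorem IntM.mul [Fintype κ] {x : Matrix ι κ (MonoidAlgebra ℂ G)}
    {y : Matrix κ μ (MonoidAlgebra ℂ G)} (hx : IntM x) (hy : IntM y) : IntM (x * y) := by
  intro i j
  rw [Matrix.mul_apply]
  exact sum_mem fun k _ => mul_mem (hx i k) (hy k j)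

theorem IntM.add {x y : Matrix ι κ (MonoidAlgebra ℂ G)} (hx : IntM x) (hy : IntM y) :
    IntM (x + y) := fun i j => add_mem (hx i j) (hy i j)

theorem IntM.neg {x : Matrix ι κ (MonoidAlgebra ℂ G)} (hx : IntM x) : IntM (-x) :=
  fun i j => neg_mem (hx i j)

theorem IntM.sub {x y : Matrix ι κ (MonoidAlgebra ℂ G)} (hx : IntM x) (hy : IntM y) :
    IntM (x - y) := fun i j => sub_mem (hx i j) (hy i j)

theorem IntM_one [DecidableEq ι] : IntM (1 : Matrix ι ι (MonoidAlgebra ℂ G)) := by
  intro i j
  rw [Matrix.one_apply]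
  split_ifs
  · exact one_mem _
  · exact zero_mem _

theorem IntM.submatrix {x : Matrix ι κ (MonoidAlgebra ℂ G)} (hx : IntM x) (f : μ → ι)
    (g : ν → κ) : IntM (x.submatrix f g) := fun i j => hx (f i) (g j)

theorem IntM.fromBlocks {a : Matrix ι κ (MonoidAlgebra ℂ G)} {b : Matrix ι μ (MonoidAlgebra ℂ G)}
    {c : Matrix ν κ (MonoidAlgebra ℂ G)} {d : Matrix ν μ (MonoidAlgebra ℂ G)} (ha : IntM a)
    (hb : IntM b) (hc : IntM c) (hd : IntM d) : IntM (Matrix.fromBlocks a b c d) := by
  rintro (i | i) (j | j)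
  · exact ha i j
  · exact hb i j
  · exact hc i j
  · exact hd i j

theorem IntM.mapM {x : Matrix ι κ (MonoidAlgebra ℂ G)} (hx : IntM x) (φ : G →* K) :
    IntM (mapM φ x) := fun i j => mapDomain_mem_intR φ (hx i j)

end LT
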