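import Pool.Agent.H29.LG.K05

/-!
# LG-K06: approximation of `LG x ε` by finite quotients

As in `k05_step`, but for `H + ε` instead of `H` and several `ε` at the same time:
`H = (lamM x)ᴴ * lamM x`, `ε ≤ H + ε ≤ c`, `A = regM (mapM φ x)`, `ε ≤ Aᴴ * A + ε ≤ c`
(`schur_upper`), `c = (max of E) + ‖..‖ + (l1M x)² + 1`.  `L_approx` for `H + ε`, `Aᴴ * A + ε`; the
moments of `H + ε` up to order `n` agree with those of `Aᴴ * A + ε` by `a02_binom` (with `a = 1`,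
`q = ε`) when `φ` is injective on `k05_S (adjM x * x) n`.  Choose `n` such that
`2 card ι (c/ε) (1 - ε/c)^n ≤ δ` for all `ε ∈ E`, then `rf_finset`.
-/

set_option linter.unusedSectionVars false

namespace LT

open scoped Matrix ComplexOrder

variable {β : Type*} [DecidableEq β] {ι : Type*} [Fintype ι] [DecidableEq ι]

section generic

variable {𝔄 : Type*} [CStarAlgebra 𝔄] [PartialOrder 𝔄] [StarOrderedRing 𝔄]
variable {𝔅 : Type*} [CStarAlgebra 𝔅] [PartialOrder 𝔅] [StarOrderedRing 𝔅]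
variable {κ : Type*} [Fintype κ] [DecidableEq κ]

theorem k06_binom (τ : Tr 𝔄) (H : 𝔄) (q : ℝ) (n : ℕ) :
    (τ.f ((H + algebraMap ℝ 𝔄 q) ^ n)).re =
      ∑ m ∈ Finset.range (n + 1), 1 ^ m * q ^ (n - m) * (n.choose m : ℝ) * (τ.f (H ^ m)).re := by
  have h1 := a02_binom τ H 1 q n
  rwa [one_smul] at h1

theorem k06_moment (τ : Tr 𝔄) (τ' : Tr 𝔅) (hm : τ.mass = τ'.mass) {H : 𝔄} {H' : 𝔅} (ε : ℝ) (n : ℕ)
    (hk : ∀ k : ℕ, 1 ≤ k → k ≤ n → (τ.f (H ^ k)).re = (τ'.f (H' ^ k)).re) {k : ℕ} (hkn : k ≤ n) :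
    (τ.f ((H + algebraMap ℝ 𝔄 ε) ^ k)).re = (τ'.f ((H' + algebraMap ℝ 𝔅 ε) ^ k)).re := by
  rw [k06_binom, k06_binom]
  refine Finset.sum_congr rfl fun m hmem => ?_
  rw [Finset.mem_range] at hmem
  rcases Nat.eq_zero_or_pos m with h0 | h0
  · subst h0
    rw [pow_zero H, pow_zero H']
    unfold Tr.mass at hm
    rw [hm]
  · rw [hk m h0 (by omega)]

theorem k06_gen (τ : Tr 𝔄) (τ' : Tr 𝔅) (hm : τ.mass = τ'.mass) {H : 𝔄} {H' : 𝔅} {ε c M : ℝ}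
    (hε : 0 < ε) (hc : ε ≤ c) (hMc : M + ε ≤ c) (h1 : 0 ≤ H) (h2 : H ≤ algebraMap ℝ 𝔄 M)
    (h1' : 0 ≤ H') (h2' : H' ≤ algebraMap ℝ 𝔅 M) (n : ℕ)
    (hk : ∀ k : ℕ, 1 ≤ k → k ≤ n → (τ.f (H ^ k)).re = (τ'.f (H' ^ k)).re) :
    |L τ (H + algebraMap ℝ 𝔄 ε) - L τ' (H' + algebraMap ℝ 𝔅 ε)| ≤
      2 * τ.mass * (c / ε) * (1 - ε / c) ^ n := by
  refine L_approx τ τ' hm hε hc (le_add_of_nonneg_left h1) ?_ (le_add_of_nonneg_left h1') ?_ n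
    fun _ _ hkn => k06_moment τ τ' hm ε n hk hkn
  · have h3 : H + algebraMap ℝ 𝔄 ε ≤ algebraMap ℝ 𝔄 M + algebraMap ℝ 𝔄 ε :=
      add_le_add_left h2 _
    refine h3.trans ?_
    rw [← map_add]
    exact algebraMap_mono 𝔄 hMc
  · have h3 : H' + algebraMap ℝ 𝔅 ε ≤ algebraMap ℝ 𝔅 M + algebraMap ℝ 𝔅 ε :=
      add_le_add_left h2' _
    refine h3.trans ?_
    rw [← map_add]
    exact algebraMap_mono 𝔅 hMc

theorem k06_approx (τ : Tr 𝔄) (τ' : Tr 𝔅) (hm : (τ.mat ι).mass = (τ'.mat κ).mass)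
    {X : Matrix ι ι 𝔄} {Y : Matrix κ κ 𝔅} {ε c M : ℝ}
    (hε : 0 < ε) (hc : ε ≤ c) (hMc : M + ε ≤ c) (hX : LeM (Xᴴ * X) (eI 𝔄 ι M))
    (hY : LeM (Yᴴ * Y) (eI 𝔅 κ M)) (n : ℕ)
    (hk : ∀ k : ℕ, 1 ≤ k → k ≤ n → (τ.mat ι).f (toC ((Xᴴ * X) ^ k)) =
      (τ'.mat κ).f (toC ((Yᴴ * Y) ^ k))) :
    |LM τ (Xᴴ * X + eI 𝔄 ι ε) - LM τ' (Yᴴ * Y + eI 𝔅 κ ε)| ≤
      2 * (τ.mat ι).mass * (c / ε) * (1 - ε / c) ^ n := by
  refine k06_gen (τ.mat ι) (τ'.mat κ) hm (H := toC (Xᴴ * X)) (H' := toC (Yᴴ * Y)) hε hc hMc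
    (PM_conjTranspose_mul_self X) hX (PM_conjTranspose_mul_self Y) hY n fun k hk1 hkn => ?_
  rw [← c02_toC_pow, ← c02_toC_pow, hk k hk1 hkn]

end generic

theorem k06_choose (E : Finset ℝ) (hE : ∀ ε ∈ E, 0 < ε) {c : ℝ} (hc : ∀ ε ∈ E, ε ≤ c) (a : ℝ)
    {δ : ℝ} (hδ : 0 < δ) :
    ∃ n : ℕ, ∀ ε ∈ E, 2 * a * (c / ε) * (1 - ε / c) ^ n ≤ δ := by
  have h1 : ∀ ε ∈ E, ∀ᶠ n : ℕ in Filter.atTop, 2 * a * (c / ε) * (1 - ε / c) ^ n ≤ δ := by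
    intro ε hε
    have e1 := hE ε hε
    have e2 := hc ε hε
    have hc0 : 0 < c := by linarith
    have hq0 : 0 ≤ 1 - ε / c := by
      rw [sub_nonneg]
      exact (div_le_one hc0).2 e2
    have hq1 : 1 - ε / c < 1 := by
      have : 0 < ε / c := div_pos e1 hc0
      linarith
    have hlim : Filter.Tendsto (fun n : ℕ => 2 * a * (c / ε) * (1 - ε / c) ^ n)
        Filter.atTop (nhds 0) := by
      have := (tendsto_pow_atTop_nhds_zero_of_lt_one hq0 hq1).const_mul (2 * a * (c / ε))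
      rwa [mul_zero] at this
    exact hlim.eventually_le_const hδ
  have h2 := (Filter.eventually_all_finset E).2 h1
  exact h2.exists

section fin

variable {Q : Type*} [Group Q] [Fintype Q] [DecidableEq Q]

theorem k06_step (x : Matrix ι ι (MonoidAlgebra ℂ (FreeGroup β))) {ε c M R : ℝ} (hε : 0 < ε)
    (hc : ε ≤ c) (hMc : M + ε ≤ c)
    (h2 : LeM ((lamM x)ᴴ * lamM x) (eI (N (FreeGroup β)) ι M))
    (hRx : l1M x ≤ R) (hRM : R ^ 2 ≤ M) (n : ℕ) (φ : FreeGroup β →* Q)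
    (hφ : ∀ g ∈ k05_S (adjM x * x) n, φ g ≠ 1) :
    |LG x ε - LM (k05_tr (Fintype.card Q))
        ((regM (mapM φ x))ᴴ * regM (mapM φ x) + eI ℂ (ι × Q) ε)| ≤
      2 * (Fintype.card ι) * (c / ε) * (1 - ε / c) ^ n := by
  obtain ⟨A, hA⟩ : ∃ A, A = regM (mapM φ x) := ⟨_, rfl⟩
  rw [← hA]
  have hu := schur_upper A (R := R) (fun i => by rw [hA]; exact (regM_rows φ x i).trans hRx)
    (fun j => by rw [hA]; exact (regM_cols φ x j).trans hRx)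
  have hu' : LeM (Aᴴ * A) (eI ℂ (ι × Q) M) := by
    have h3 := k05_psd hu
    rw [toC_sub, k05_smul, sub_nonneg] at h3
    exact LeM.trans h3 (k05g_mono hRM)
  have hmass : ((trN (FreeGroup β)).mat ι).mass = Fintype.card ι := by
    rw [c02g_mass, trN_mass, mul_one]
  have key := k06_approx (trN (FreeGroup β)) (k05_tr (Fintype.card Q))
    (by rw [hmass, k05_massQ]) hε hc hMc h2 hu' n ?_
  · rw [hmass] at key
    exact key
  · intro k hk1 hkn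
    obtain ⟨m, rfl⟩ : ∃ m, k = m + 1 := ⟨k - 1, by omega⟩
    rw [c02_gram, tr_lamM, hA, k05_gram, k05_trace, adjM_mapM, ← mapM_mul, ← c02_mapM_pow]
    refine Finset.sum_congr rfl fun i _ => ?_
    symm
    refine k05_coeff φ _ fun g hg hne => ?_
    exact hφ g (k05_mem hkn i hg hne)

end fin

theorem exists_quot_approx (x : Matrix ι ι (MonoidAlgebra ℂ (FreeGroup β))) (E : Finset ℝ)
    (hE : ∀ ε ∈ E, 0 < ε) {δ : ℝ} (hδ : 0 < δ) :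
    ∃ (Q : Type) (_ : Group Q) (_ : Fintype Q) (_ : DecidableEq Q) (φ : FreeGroup β →* Q),
      ∀ ε ∈ E, |LG x ε - LM (k05_tr (Fintype.card Q))
        ((regM (mapM φ x))ᴴ * regM (mapM φ x) + eI ℂ (ι × Q) ε)| ≤ δ := by
  obtain ⟨M₀, hM₀, hleM⟩ := exists_le_eI (PM_conjTranspose_mul_self (lamM x))
  obtain ⟨R, hR⟩ : ∃ R, R = l1M x := ⟨_, rfl⟩
  obtain ⟨M, hM⟩ : ∃ M, M = max M₀ (R ^ 2) := ⟨_, rfl⟩
  have m1 : M₀ ≤ M := by rw [hM]; exact le_max_left _ _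
  have m2 : R ^ 2 ≤ M := by rw [hM]; exact le_max_right _ _
  obtain ⟨c, hc⟩ : ∃ c, c = M + ∑ ε ∈ E, ε := ⟨_, rfl⟩
  have c1 : ∀ ε ∈ E, M + ε ≤ c := by
    intro ε hε
    have := Finset.single_le_sum (f := fun ε : ℝ => ε) (fun i hi => (hE i hi).le) hε
    rw [hc]
    linarith
  have c2 : ∀ ε ∈ E, ε ≤ c := by
    intro ε hε
    have := c1 ε hε
    linarith
  obtain ⟨n, hn⟩ := k06_choose E hE c2 (Fintype.card ι : ℝ) hδ
  obtain ⟨Q, i1, i2, i3, φ, hφ⟩ := rf_finset (k05_S (adjM x * x) n)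
    (fun g hg => Finset.ne_of_mem_erase hg)
  refine ⟨Q, i1, i2, i3, φ, fun ε hε => ?_⟩
  exact (k06_step x (hE ε hε) (c2 ε hε) (c1 ε hε) (hleM.trans (k05g_mono m1)) hR.ge m2 n φ
    hφ).trans (hn ε hε)

end LT
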