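import Pool.Agent.H29.LG.G00

/-!
# LG-L01: Dirichlet matrices (grounded Laplacians)

`Dir X`: symmetric, off-diagonal entries `≤ 0`, row sums `≥ 0`.

* `qf_dir`: `qf X x = (1/2) ∑_{ij} (-X_ij) (x_i - x_j)² + ∑_i (∑_j X_ij) x_i²`.
* `Dir.of_ctr`: `x = e_i - e_j`, `Φ = |·|`: `qf (e_i + e_j) ≤ qf (e_i - e_j)` gives `X_ij ≤ 0`;
  `x = 1 + s e_i`, `Φ = min · 1`: `qf 1 ≤ qf (1 + s e_i) = qf 1 + 2 s (X 1)_i + s² X_ii`, `s → 0`.
* `Dir.par`: `Y = 1 - (1 + X)⁻¹`; for all `x z`: `qf Y x ≤ qf X z + |x - z|²` with equality for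
  `z = (1 + X)⁻¹ x`; so `qf Y (Φ ∘ x) ≤ qf X (Φ ∘ z) + |Φ ∘ x - Φ ∘ z|² ≤ qf Y x`.
-/

set_option linter.unusedSectionVars false

namespace LT

open scoped Matrix

variable {κ : Type*} [Fintype κ] [DecidableEq κ]

/-- symmetric, off-diagonal entries `≤ 0`, row sums `≥ 0` -/
def Dir (X : Matrix κ κ ℝ) : Prop :=
  Xᵀ = X ∧ (∀ i j, i ≠ j → X i j ≤ 0) ∧ ∀ i, 0 ≤ ∑ j, X i j

/-- normal contractions -/
def Ctr (Φ : ℝ → ℝ) : Prop := Φ 0 = 0 ∧ ∀ a b, |Φ a - Φ b| ≤ |a - b|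

omit [DecidableEq κ] in
theorem l01_qf (X : Matrix κ κ ℝ) (x : κ → ℝ) : qf X x = ∑ i, ∑ j, X i j * (x i * x j) := by
  unfold qf
  simp only [dotProduct, Matrix.mulVec, Finset.mul_sum]
  refine Finset.sum_congr rfl fun i _ => Finset.sum_congr rfl fun j _ => ?_
  ring

omit [DecidableEq κ] in
theorem l01_symm {X : Matrix κ κ ℝ} (hX : Xᵀ = X) (i j : κ) : X i j = X j i := by
  conv_lhs => rw [← hX]
  rfl

theorem qf_dir {X : Matrix κ κ ℝ} (hX : Xᵀ = X) (x : κ → ℝ) :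
    qf X x = (1 / 2) * ∑ i, ∑ j, (-X i j) * (x i - x j) ^ 2 + ∑ i, (∑ j, X i j) * x i ^ 2 := by
  have h1 : ∑ i, ∑ j, X i j * x j ^ 2 = ∑ i, ∑ j, X i j * x i ^ 2 := by
    rw [Finset.sum_comm]
    refine Finset.sum_congr rfl fun i _ => Finset.sum_congr rfl fun j _ => ?_
    rw [l01_symm hX]
  have h2 : ∑ i, ∑ j, (-X i j) * (x i - x j) ^ 2
      = 2 * (∑ i, ∑ j, X i j * (x i * x j)) - (∑ i, ∑ j, X i j * x i ^ 2)
        - ∑ i, ∑ j, X i j * x j ^ 2 := by
    rw [Finset.mul_sum, ← Finset.sum_sub_distrib, ← Finset.sum_sub_distrib]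
    refine Finset.sum_congr rfl fun i _ => ?_
    rw [Finset.mul_sum, ← Finset.sum_sub_distrib, ← Finset.sum_sub_distrib]
    refine Finset.sum_congr rfl fun j _ => ?_
    ring
  have h3 : ∑ i, (∑ j, X i j) * x i ^ 2 = ∑ i, ∑ j, X i j * x i ^ 2 :=
    Finset.sum_congr rfl fun i _ => by rw [Finset.sum_mul]
  rw [l01_qf, h2, h3, h1]
  ring

theorem l01_qf_nonneg {X : Matrix κ κ ℝ} (h : Dir X) (x : κ → ℝ) : 0 ≤ qf X x := by
  rw [qf_dir h.1]
  refine add_nonneg (mul_nonneg (by norm_num) (Finset.sum_nonneg fun i _ =>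
    Finset.sum_nonneg fun j _ => ?_)) (Finset.sum_nonneg fun i _ =>
      mul_nonneg (h.2.2 i) (sq_nonneg _))
  by_cases hij : i = j
  · subst hij
    rw [sub_self]
    simp
  · exact mul_nonneg (neg_nonneg.mpr (h.2.1 i j hij)) (sq_nonneg _)

theorem Dir.psd {X : Matrix κ κ ℝ} (h : Dir X) : X.PosSemidef := by
  refine Matrix.PosSemidef.of_dotProduct_mulVec_nonneg ?_ fun x => ?_
  · rw [Matrix.IsHermitian, Matrix.conjTranspose_eq_transpose_of_trivial]
    exact h.1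
  · rw [star_trivial]
    exact l01_qf_nonneg h x

theorem l01_ctr_sq {Φ : ℝ → ℝ} (hΦ : Ctr Φ) (a b : ℝ) : (Φ a - Φ b) ^ 2 ≤ (a - b) ^ 2 :=
  sq_le_sq.mpr (hΦ.2 a b)

theorem l01_ctr_sq' {Φ : ℝ → ℝ} (hΦ : Ctr Φ) (a : ℝ) : Φ a ^ 2 ≤ a ^ 2 := by
  have := l01_ctr_sq hΦ a 0
  rwa [hΦ.1, sub_zero, sub_zero] at this

theorem Dir.qf_ctr {X : Matrix κ κ ℝ} (h : Dir X) {Φ : ℝ → ℝ} (hΦ : Ctr Φ) (x : κ → ℝ) :
    qf X (fun i => Φ (x i)) ≤ qf X x := by
  rw [qf_dir h.1, qf_dir h.1]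
  refine add_le_add (mul_le_mul_of_nonneg_left (Finset.sum_le_sum fun i _ =>
    Finset.sum_le_sum fun j _ => ?_) (by norm_num)) (Finset.sum_le_sum fun i _ =>
      mul_le_mul_of_nonneg_left (l01_ctr_sq' hΦ _) (h.2.2 i))
  by_cases hij : i = j
  · subst hij
    simp
  · exact mul_le_mul_of_nonneg_left (l01_ctr_sq hΦ _ _) (neg_nonneg.mpr (h.2.1 i j hij))

omit [DecidableEq κ] in
theorem l01_qf_add {X : Matrix κ κ ℝ} (hX : Xᵀ = X) (x y : κ → ℝ) :
    qf X (x + y) = qf X x + 2 * (y ⬝ᵥ (X *ᵥ x)) + qf X y := by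
  have h1 : x ⬝ᵥ (X *ᵥ y) = y ⬝ᵥ (X *ᵥ x) := by
    rw [Matrix.dotProduct_mulVec, ← Matrix.mulVec_transpose, hX, dotProduct_comm]
  unfold qf
  rw [Matrix.mulVec_add, add_dotProduct, dotProduct_add, dotProduct_add, h1]
  ring

theorem l01_qf_single (X : Matrix κ κ ℝ) (i : κ) (s : ℝ) :
    qf X (Pi.single i s) = s ^ 2 * X i i := by
  unfold qf
  rw [single_dotProduct, Matrix.mulVec_single]
  simp
  ring

theorem Dir.of_ctr {X : Matrix κ κ ℝ} (hX : Xᵀ = X)
    (h : ∀ Φ : ℝ → ℝ, Ctr Φ → ∀ x : κ → ℝ, qf X (fun i => Φ (x i)) ≤ qf X x) : Dir X := by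
  refine ⟨hX, fun i j hij => ?_, fun i => ?_⟩
  · have h1 := h (fun t => |t|) ⟨abs_zero, fun a b => abs_abs_sub_abs_le a b⟩
      (Pi.single i 1 + Pi.single j (-1))
    have h2 : (fun l => |(Pi.single i 1 + Pi.single j (-1) : κ → ℝ) l|)
        = Pi.single i 1 + Pi.single j 1 := by
      funext l
      simp only [Pi.add_apply, Pi.single_apply]
      by_cases h3 : l = i
      · subst h3
        rw [if_pos rfl, if_neg hij, if_neg hij]
        simp
      · rw [if_neg h3]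
        by_cases h4 : l = j
        · rw [if_pos h4, if_pos h4]
          simp
        · rw [if_neg h4, if_neg h4]
          simp
    rw [h2, l01_qf_add hX, l01_qf_add hX, l01_qf_single, l01_qf_single, l01_qf_single,
      single_dotProduct, single_dotProduct, Matrix.mulVec_single] at h1
    have h5 : (MulOpposite.op (1 : ℝ) • X.col i) j = X j i := by simp
    rw [h5] at h1
    rw [l01_symm hX]
    nlinarith [h1]
  · have hmin : Ctr (fun t : ℝ => min t 1) := by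
      refine ⟨by simp, fun a b => ?_⟩
      have := abs_min_sub_min_le_max a 1 b 1
      simpa using this
    have h1 : ∀ s : ℝ, 0 < s → 0 ≤ 2 * (∑ j, X i j) + s * X i i := by
      intro s hs
      have h2 := h _ hmin ((fun _ => 1) + Pi.single i s)
      have h3 : (fun l => min (((fun _ => 1) + Pi.single i s : κ → ℝ) l) 1) = fun _ => 1 := by
        funext l
        simp only [Pi.add_apply, Pi.single_apply]
        by_cases h4 : l = i
        · rw [if_pos h4]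
          exact min_eq_right (by linarith)
        · rw [if_neg h4]
          simp
      rw [h3, l01_qf_add hX, l01_qf_single, single_dotProduct] at h2
      have h4 : (X *ᵥ fun _ => 1) i = ∑ j, X i j := by
        simp [Matrix.mulVec, dotProduct]
      rw [h4] at h2
      have h5 : 0 ≤ s * (2 * (∑ j, X i j) + s * X i i) := by nlinarith [h2]
      exact nonneg_of_mul_nonneg_right h5 hs
    by_contra hneg
    rw [not_le] at hneg
    set r := ∑ j, X i j with hr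
    have hden : 0 < |X i i| + 1 := by positivity
    have h6 := h1 (-r / (|X i i| + 1)) (div_pos (by linarith) hden)
    have h7 : -r / (|X i i| + 1) * X i i ≤ -r := by
      rw [div_mul_eq_mul_div, div_le_iff₀ hden]
      nlinarith [le_abs_self (X i i), abs_nonneg (X i i)]
    linarith

theorem Dir.add {X Y : Matrix κ κ ℝ} (hX : Dir X) (hY : Dir Y) : Dir (X + Y) := by
  refine ⟨by rw [Matrix.transpose_add, hX.1, hY.1], fun i j hij => ?_, fun i => ?_⟩
  · rw [Matrix.add_apply]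
    exact add_nonpos (hX.2.1 i j hij) (hY.2.1 i j hij)
  · simp only [Matrix.add_apply, Finset.sum_add_distrib]
    exact add_nonneg (hX.2.2 i) (hY.2.2 i)

theorem Dir.smul {X : Matrix κ κ ℝ} (hX : Dir X) {r : ℝ} (hr : 0 ≤ r) : Dir (r • X) := by
  refine ⟨by rw [Matrix.transpose_smul, hX.1], fun i j hij => ?_, fun i => ?_⟩
  · rw [Matrix.smul_apply, smul_eq_mul]
    exact mul_nonpos_of_nonneg_of_nonpos hr (hX.2.1 i j hij)
  · simp only [Matrix.smul_apply, smul_eq_mul, ← Finset.mul_sum]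
    exact mul_nonneg hr (hX.2.2 i)

theorem l01_zero : Dir (0 : Matrix κ κ ℝ) :=
  ⟨Matrix.transpose_zero, fun _ _ _ => le_of_eq rfl, fun _ => by simp⟩

theorem Dir.sum {μ : Type*} (s : Finset μ) {X : μ → Matrix κ κ ℝ} (h : ∀ i ∈ s, Dir (X i)) :
    Dir (∑ i ∈ s, X i) := by
  classical
  induction s using Finset.induction_on with
  | empty =>
    rw [Finset.sum_empty]
    exact l01_zero
  | insert a s ha ih =>
    rw [Finset.sum_insert ha]
    exact (h a (Finset.mem_insert_self _ _)).add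
      (ih fun i hi => h i (Finset.mem_insert_of_mem hi))

theorem dir_one : Dir (1 : Matrix κ κ ℝ) := by
  refine ⟨Matrix.transpose_one, fun i j hij => ?_, fun i => ?_⟩
  · rw [Matrix.one_apply_ne hij]
  · simp only [Matrix.one_apply, Finset.sum_ite_eq, Finset.mem_univ, if_true]
    exact zero_le_one

theorem isClosed_dir : IsClosed {X : Matrix κ κ ℝ | Dir X} := by
  have h1 : {X : Matrix κ κ ℝ | Dir X} = {X | Xᵀ = X} ∩
      ((⋂ i, ⋂ j, ⋂ (_ : i ≠ j), {X : Matrix κ κ ℝ | X i j ≤ 0}) ∩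
        ⋂ i, {X : Matrix κ κ ℝ | 0 ≤ ∑ j, X i j}) := by
    ext X
    simp only [Dir, Set.mem_ofPred_eq, Set.mem_inter_iff, Set.mem_iInter]
  rw [h1]
  refine (isClosed_eq continuous_id.matrix_transpose continuous_id).inter
    ((isClosed_iInter fun i => isClosed_iInter fun j => isClosed_iInter fun _ =>
      isClosed_le (continuous_id.matrix_elem i j) continuous_const).inter
        (isClosed_iInter fun i => isClosed_le continuous_const
          (continuous_finsetSum _ fun j _ => continuous_id.matrix_elem i j)))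

omit [DecidableEq κ] in
theorem l01_sub_sq (u v : κ → ℝ) : (u - v) ⬝ᵥ (u - v) = u ⬝ᵥ u - 2 * (v ⬝ᵥ u) + v ⬝ᵥ v := by
  rw [sub_dotProduct, dotProduct_sub, dotProduct_sub, dotProduct_comm u v]
  ring

theorem Dir.par {X : Matrix κ κ ℝ} (h : Dir X) : Dir (1 - (1 + X)⁻¹) := by
  have hpd : (1 + X).PosDef := Matrix.PosDef.one.add_posSemidef h.psd
  have hu : IsUnit (1 + X).det := (Matrix.isUnit_iff_isUnit_det _).mp hpd.isUnit
  have hs : (1 + X)ᵀ = 1 + X := by rw [Matrix.transpose_add, Matrix.transpose_one, h.1]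
  -- the exact value
  have hz : ∀ x : κ → ℝ, X *ᵥ ((1 + X)⁻¹ *ᵥ x) = x - (1 + X)⁻¹ *ᵥ x := by
    intro x
    have h1 : (1 + X) *ᵥ ((1 + X)⁻¹ *ᵥ x) = x := by
      rw [Matrix.mulVec_mulVec, Matrix.mul_nonsing_inv _ hu, Matrix.one_mulVec]
    rw [Matrix.add_mulVec, Matrix.one_mulVec] at h1
    rw [eq_sub_iff_add_eq, add_comm]
    exact h1
  have hval : ∀ x : κ → ℝ, qf (1 - (1 + X)⁻¹) x = x ⬝ᵥ (x - (1 + X)⁻¹ *ᵥ x) := by
    intro x
    unfold qf
    rw [Matrix.sub_mulVec, Matrix.one_mulVec]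
  have heq : ∀ x : κ → ℝ, qf (1 - (1 + X)⁻¹) x = qf X ((1 + X)⁻¹ *ᵥ x)
      + (x - (1 + X)⁻¹ *ᵥ x) ⬝ᵥ (x - (1 + X)⁻¹ *ᵥ x) := by
    intro x
    rw [hval]
    unfold qf
    rw [hz, ← add_dotProduct]
    congr 1
    abel
  have hle : ∀ x w : κ → ℝ, qf (1 - (1 + X)⁻¹) x ≤ qf X w + (x - w) ⬝ᵥ (x - w) := by
    intro x w
    set z := (1 + X)⁻¹ *ᵥ x with hzdef
    have h1 : w = z + (w - z) := by abel
    have h2 : qf X w = qf X z + 2 * ((w - z) ⬝ᵥ (x - z)) + qf X (w - z) := by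
      conv_lhs => rw [h1]
      rw [l01_qf_add h.1, hzdef, hz]
    have h3 : (x - w) ⬝ᵥ (x - w) = (x - z) ⬝ᵥ (x - z) - 2 * ((w - z) ⬝ᵥ (x - z))
        + (w - z) ⬝ᵥ (w - z) := by
      have h4 : x - w = (x - z) - (w - z) := by abel
      rw [h4]
      exact l01_sub_sq _ _
    rw [heq, h2, h3, ← hzdef]
    have h5 : 0 ≤ qf X (w - z) := l01_qf_nonneg h _
    have h6 : 0 ≤ (w - z) ⬝ᵥ (w - z) := by
      simp only [dotProduct]
      exact Finset.sum_nonneg fun i _ => mul_self_nonneg _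
    linarith
  refine Dir.of_ctr ?_ fun Φ hΦ x => ?_
  · rw [Matrix.transpose_sub, Matrix.transpose_one, Matrix.transpose_nonsing_inv, hs]
  · refine (hle _ (fun i => Φ (((1 + X)⁻¹ *ᵥ x) i))).trans ?_
    rw [heq x]
    refine add_le_add (h.qf_ctr hΦ _) ?_
    simp only [dotProduct, Pi.sub_apply, ← sq]
    exact Finset.sum_le_sum fun i _ => l01_ctr_sq hΦ _ _

end LT
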