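import Pool.Agent.H29.LG.L01

/-!
# LG-L02: difference matrices, pull back and trace of Dirichlet matrices

`V` a finite set of points with base point `s₀`; a vector `φ` on `V ∖ {s₀}` is extended by `0`
(`ext0`).  `dmat V s₀ a a₀` maps `φ` to the differences `φ(a h) - φ(a₀)`.

* `Dir.pull`: `qf_dir` for `P` at `x_h = φ(a h) - φ(a₀)`: differences `x_h - x_h'` and values `x_h`
  are differences of values of `φ`, and `ext0 (Φ ∘ φ) = Φ ∘ ext0 φ`; then `Dir.of_ctr`.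
* `Dir.trace`: `X = (T K⁻¹ Tᵀ)⁻¹`, `T = dmat ..`: `qf X x ≤ qf K φ` whenever `T φ = x`, with equality
  for `φ = K⁻¹ Tᵀ X x`.  Given a contraction `Φ` let `u₀ = ext0 φ a₀`,
  `Ψ t = Φ (t - u₀) - Φ (-u₀)` (a contraction), `φ' = Ψ ∘ φ`; then `T φ' = Φ ∘ x` and
  `qf X (Φ ∘ x) ≤ qf K φ' ≤ qf K φ = qf X x`; `Dir.of_ctr`.
* `trace_sub` (Woodbury): `W = T (K + Tᵀ P T)⁻¹ Tᵀ`, `V = T K⁻¹ Tᵀ`:
  `(K + Tᵀ P T) K⁻¹ Tᵀ = Tᵀ (1 + P V)`, so `V = W (1 + P V)`, `W⁻¹ = (1 + P V) V⁻¹ = V⁻¹ + P`.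
-/

set_option linter.unusedSectionVars false

namespace LT

open scoped Matrix

variable {κ : Type*} [Fintype κ] [DecidableEq κ]
variable {𝒮 : Type*} [DecidableEq 𝒮]

/-- the matrix `φ ↦ (φ(a h) - φ(a₀))_h` -/
def dmat (V : Finset 𝒮) (s₀ : 𝒮) (a : κ → 𝒮) (a₀ : 𝒮) : Matrix κ ↥(V.erase s₀) ℝ := fun h v =>
  (if a h = (v : 𝒮) then 1 else 0) - (if a₀ = (v : 𝒮) then 1 else 0)

/-- extension by `0` -/
def ext0 {V : Finset 𝒮} {s₀ : 𝒮} (φ : ↥(V.erase s₀) → ℝ) (s : 𝒮) : ℝ :=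
  if h : s ∈ V.erase s₀ then φ ⟨s, h⟩ else 0

theorem l02_sum (V : Finset 𝒮) (s₀ : 𝒮) (s : 𝒮) (φ : ↥(V.erase s₀) → ℝ) :
    ∑ v : ↥(V.erase s₀), (if s = (v : 𝒮) then (1 : ℝ) else 0) * φ v = ext0 φ s := by
  unfold ext0
  by_cases hs : s ∈ V.erase s₀
  · rw [dif_pos hs, Finset.sum_eq_single (⟨s, hs⟩ : ↥(V.erase s₀))]
    · rw [if_pos rfl, one_mul]
    · intro v _ hv
      rw [if_neg, zero_mul]
      intro h
      exact hv (Subtype.ext h.symm)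
    · intro h
      exact absurd (Finset.mem_univ _) h
  · rw [dif_neg hs]
    refine Finset.sum_eq_zero fun v _ => ?_
    rw [if_neg, zero_mul]
    intro h
    exact hs (h ▸ v.2)

theorem dmat_mulVec (V : Finset 𝒮) (s₀ : 𝒮) (a : κ → 𝒮) (a₀ : 𝒮) (φ : ↥(V.erase s₀) → ℝ)
    (h : κ) : (dmat V s₀ a a₀ *ᵥ φ) h = ext0 φ (a h) - ext0 φ a₀ := by
  rw [← l02_sum V s₀ (a h) φ, ← l02_sum V s₀ a₀ φ, ← Finset.sum_sub_distrib]
  simp only [Matrix.mulVec, dotProduct, dmat]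
  refine Finset.sum_congr rfl fun v _ => ?_
  ring

theorem l02_ext0 {V : Finset 𝒮} {s₀ : 𝒮} (φ : ↥(V.erase s₀) → ℝ) {Ψ : ℝ → ℝ} (h : Ψ 0 = 0)
    (s : 𝒮) : ext0 (fun v => Ψ (φ v)) s = Ψ (ext0 φ s) := by
  unfold ext0
  by_cases hs : s ∈ V.erase s₀
  · rw [dif_pos hs, dif_pos hs]
  · rw [dif_neg hs, dif_neg hs, h]

theorem l02_qf_le {X : Matrix κ κ ℝ} (h : Dir X) {x y : κ → ℝ}
    (h1 : ∀ i j, (y i - y j) ^ 2 ≤ (x i - x j) ^ 2) (h2 : ∀ i, y i ^ 2 ≤ x i ^ 2) :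
    qf X y ≤ qf X x := by
  rw [qf_dir h.1, qf_dir h.1]
  refine add_le_add (mul_le_mul_of_nonneg_left (Finset.sum_le_sum fun i _ =>
    Finset.sum_le_sum fun j _ => ?_) (by norm_num)) (Finset.sum_le_sum fun i _ =>
      mul_le_mul_of_nonneg_left (h2 _) (h.2.2 i))
  by_cases hij : i = j
  · subst hij
    simp
  · exact mul_le_mul_of_nonneg_left (h1 _ _) (neg_nonneg.mpr (h.2.1 i j hij))

omit [DecidableEq κ] in
theorem l02_qf_conj {ι : Type*} [Fintype ι] (P : Matrix κ κ ℝ) (T : Matrix κ ι ℝ) (φ : ι → ℝ) :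
    qf (Tᵀ * P * T) φ = qf P (T *ᵥ φ) := by
  unfold qf
  rw [← Matrix.mulVec_mulVec, ← Matrix.mulVec_mulVec, Matrix.dotProduct_mulVec,
    Matrix.vecMul_transpose]

theorem Dir.pull {P : Matrix κ κ ℝ} (hP : Dir P) (V : Finset 𝒮) (s₀ : 𝒮) (a : κ → 𝒮)
    (a₀ : 𝒮) : Dir ((dmat V s₀ a a₀)ᵀ * P * dmat V s₀ a a₀) := by
  refine Dir.of_ctr ?_ fun Φ hΦ φ => ?_
  · rw [Matrix.transpose_mul, Matrix.transpose_mul, Matrix.transpose_transpose, hP.1,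
      Matrix.mul_assoc]
  · rw [l02_qf_conj, l02_qf_conj]
    refine l02_qf_le hP (fun i j => ?_) fun i => ?_
    · rw [dmat_mulVec, dmat_mulVec, dmat_mulVec, dmat_mulVec, l02_ext0 φ hΦ.1, l02_ext0 φ hΦ.1,
        l02_ext0 φ hΦ.1, sub_sub_sub_cancel_right, sub_sub_sub_cancel_right]
      exact l01_ctr_sq hΦ _ _
    · rw [dmat_mulVec, dmat_mulVec, l02_ext0 φ hΦ.1, l02_ext0 φ hΦ.1]
      exact l01_ctr_sq hΦ _ _

theorem l02_posDef {ι : Type*} [Fintype ι] [DecidableEq ι] {K : Matrix ι ι ℝ}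
    {T : Matrix κ ι ℝ} (hK : K.PosDef) (hT : (T * Tᵀ).PosDef) : (T * K * Tᵀ).PosDef := by
  have h1 := hK.mul_mul_conjTranspose_same (B := T) (by
    intro u v huv
    have h2 : u ᵥ* (T * Tᵀ) = v ᵥ* (T * Tᵀ) := by
      rw [← Matrix.vecMul_vecMul, ← Matrix.vecMul_vecMul]
      exact congrArg (fun w => w ᵥ* Tᵀ) huv
    have h3 : IsUnit (T * Tᵀ).det := (Matrix.isUnit_iff_isUnit_det _).mp hT.isUnit
    have h4 := congrArg (fun w => w ᵥ* (T * Tᵀ)⁻¹) h2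
    simpa only [Matrix.vecMul_vecMul, Matrix.mul_nonsing_inv _ h3, Matrix.vecMul_one] using h4)
  rwa [Matrix.conjTranspose_eq_transpose_of_trivial] at h1

theorem Dir.trace {V : Finset 𝒮} {s₀ : 𝒮} {K : Matrix ↥(V.erase s₀) ↥(V.erase s₀) ℝ}
    (hK : K.PosDef) (hD : Dir K) (a : κ → 𝒮) (a₀ : 𝒮)
    (hT : (dmat V s₀ a a₀ * (dmat V s₀ a a₀)ᵀ).PosDef) :
    Dir (dmat V s₀ a a₀ * K⁻¹ * (dmat V s₀ a a₀)ᵀ)⁻¹ := by
  have hTφ : ∀ φ : ↥(V.erase s₀) → ℝ, ∀ h, (dmat V s₀ a a₀ *ᵥ φ) h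
      = ext0 φ (a h) - ext0 φ a₀ := fun φ h => dmat_mulVec V s₀ a a₀ φ h
  set T := dmat V s₀ a a₀ with hTdef
  have hpd : (T * K⁻¹ * Tᵀ).PosDef := l02_posDef hK.inv hT
  have hu : IsUnit (T * K⁻¹ * Tᵀ).det := (Matrix.isUnit_iff_isUnit_det _).mp hpd.isUnit
  have huK : IsUnit K.det := (Matrix.isUnit_iff_isUnit_det _).mp hK.isUnit
  have hVs : (T * K⁻¹ * Tᵀ)ᵀ = T * K⁻¹ * Tᵀ := by
    rw [Matrix.transpose_mul, Matrix.transpose_mul, Matrix.transpose_transpose,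
      Matrix.transpose_nonsing_inv, hD.1, Matrix.mul_assoc]
  -- the minimiser
  set W := (T * K⁻¹ * Tᵀ)⁻¹ with hW
  have hWs : Wᵀ = W := by rw [hW, Matrix.transpose_nonsing_inv, hVs]
  have hφ : ∀ x : κ → ℝ, T *ᵥ (K⁻¹ *ᵥ (Tᵀ *ᵥ (W *ᵥ x))) = x := by
    intro x
    rw [Matrix.mulVec_mulVec, Matrix.mulVec_mulVec, Matrix.mulVec_mulVec, hW,
      Matrix.mul_nonsing_inv _ hu, Matrix.one_mulVec]
  have hKφ : ∀ x : κ → ℝ, K *ᵥ (K⁻¹ *ᵥ (Tᵀ *ᵥ (W *ᵥ x))) = Tᵀ *ᵥ (W *ᵥ x) := by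
    intro x
    rw [Matrix.mulVec_mulVec, Matrix.mul_nonsing_inv _ huK, Matrix.one_mulVec]
  have hval : ∀ x : κ → ℝ, qf K (K⁻¹ *ᵥ (Tᵀ *ᵥ (W *ᵥ x))) = qf W x := by
    intro x
    unfold qf
    rw [hKφ, Matrix.dotProduct_mulVec, Matrix.vecMul_transpose, hφ]
  have hle : ∀ φ : ↥(V.erase s₀) → ℝ, qf W (T *ᵥ φ) ≤ qf K φ := by
    intro φ
    set x := T *ᵥ φ with hx
    set φ0 := K⁻¹ *ᵥ (Tᵀ *ᵥ (W *ᵥ x)) with hφ0
    have h1 : φ = φ0 + (φ - φ0) := by abel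
    have h2 : (φ - φ0) ⬝ᵥ (K *ᵥ φ0) = 0 := by
      rw [hφ0, hKφ, Matrix.dotProduct_mulVec, Matrix.vecMul_transpose, ← hφ0, Matrix.mulVec_sub,
        ← hx, hφ0, hφ, sub_self, zero_dotProduct]
    have h3 : qf K φ = qf K φ0 + 2 * ((φ - φ0) ⬝ᵥ (K *ᵥ φ0)) + qf K (φ - φ0) := by
      conv_lhs => rw [h1]
      rw [l01_qf_add hD.1]
    rw [h3, h2, mul_zero, add_zero, hφ0, hval]
    exact le_add_of_nonneg_right (l01_qf_nonneg hD _)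
  refine Dir.of_ctr hWs fun Φ hΦ x => ?_
  set φ := K⁻¹ *ᵥ (Tᵀ *ᵥ (W *ᵥ x)) with hφdef
  set u₀ := ext0 φ a₀ with hu₀
  have hΨ : Ctr fun t => Φ (t - u₀) - Φ (-u₀) := by
    refine ⟨by show Φ (0 - u₀) - Φ (-u₀) = 0; rw [zero_sub, sub_self], fun b c => ?_⟩
    show |Φ (b - u₀) - Φ (-u₀) - (Φ (c - u₀) - Φ (-u₀))| ≤ _
    rw [sub_sub_sub_cancel_right]
    have := hΦ.2 (b - u₀) (c - u₀)
    rwa [sub_sub_sub_cancel_right] at this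
  have hx : ∀ h, x h = ext0 φ (a h) - u₀ := by
    intro h
    have h1 := congrFun (hφ x) h
    rw [← hφdef, hTφ] at h1
    exact h1.symm
  have hT' : (T *ᵥ fun v => Φ (φ v - u₀) - Φ (-u₀)) = fun h => Φ (x h) := by
    funext h
    have e1 := l02_ext0 φ (Ψ := fun t => Φ (t - u₀) - Φ (-u₀)) hΨ.1 (a h)
    have e2 := l02_ext0 φ (Ψ := fun t => Φ (t - u₀) - Φ (-u₀)) hΨ.1 a₀
    rw [hTφ, e1, e2, ← hu₀, ← hx, sub_self, hΦ.1]
    ring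
  rw [← hT']
  refine (hle _).trans ?_
  rw [← hval x, ← hφdef]
  exact hD.qf_ctr hΨ φ

theorem trace_sub {ι : Type*} [Fintype ι] [DecidableEq ι] {K : Matrix ι ι ℝ}
    {P : Matrix κ κ ℝ} {T : Matrix κ ι ℝ} (hK : K.PosDef) (hP : P.PosSemidef)
    (hT : (T * Tᵀ).PosDef) :
    (T * (K + Tᵀ * P * T)⁻¹ * Tᵀ)⁻¹ - P = (T * K⁻¹ * Tᵀ)⁻¹ := by
  have h0 : (Tᵀ * P * T).PosSemidef := by
    have := hP.conjTranspose_mul_mul_same T
    rwa [Matrix.conjTranspose_eq_transpose_of_trivial] at this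
  have hM : (K + Tᵀ * P * T).PosDef := hK.add_posSemidef h0
  have huM : IsUnit (K + Tᵀ * P * T).det := (Matrix.isUnit_iff_isUnit_det _).mp hM.isUnit
  have huK : IsUnit K.det := (Matrix.isUnit_iff_isUnit_det _).mp hK.isUnit
  have huV : IsUnit (T * K⁻¹ * Tᵀ).det :=
    (Matrix.isUnit_iff_isUnit_det _).mp (l02_posDef hK.inv hT).isUnit
  have huW : IsUnit (T * (K + Tᵀ * P * T)⁻¹ * Tᵀ).det :=
    (Matrix.isUnit_iff_isUnit_det _).mp (l02_posDef hM.inv hT).isUnit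
  set M := K + Tᵀ * P * T with hMdef
  set V := T * K⁻¹ * Tᵀ with hV
  set W := T * M⁻¹ * Tᵀ with hW
  have h1 : M * (K⁻¹ * Tᵀ) = Tᵀ * (1 + P * V) := by
    rw [hMdef, Matrix.add_mul, ← Matrix.mul_assoc, Matrix.mul_nonsing_inv _ huK, Matrix.one_mul,
      Matrix.mul_add, Matrix.mul_one, hV]
    simp only [Matrix.mul_assoc]
  have h2 : V = W * (1 + P * V) := by
    calc V = T * (M⁻¹ * (M * (K⁻¹ * Tᵀ))) := by
          rw [← Matrix.mul_assoc M⁻¹, Matrix.nonsing_inv_mul _ huM, Matrix.one_mul, hV,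
            Matrix.mul_assoc]
      _ = W * (1 + P * V) := by
          rw [h1, hW]
          simp only [Matrix.mul_assoc]
  have h3 : W⁻¹ * V = 1 + P * V := by
    conv_lhs => rw [h2]
    rw [← Matrix.mul_assoc, Matrix.nonsing_inv_mul _ huW, Matrix.one_mul]
  have h4 : W⁻¹ = V⁻¹ + P := by
    calc W⁻¹ = W⁻¹ * V * V⁻¹ := by
          rw [Matrix.mul_assoc, Matrix.mul_nonsing_inv _ huV, Matrix.mul_one]
      _ = V⁻¹ + P := by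
          rw [h3, Matrix.add_mul, Matrix.one_mul, Matrix.mul_assoc, Matrix.mul_nonsing_inv _ huV,
            Matrix.mul_one]
  rw [h4, add_sub_cancel_right]

end LT
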