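import Pool.Agent.H29.LG.L02
import Pool.Agent.H29.LG.M04

/-!
# LG-L03: messages which are Dirichlet matrices

Same proof as `exists_msg` (file `M04.lean`), with the smaller closed set
`S = {Z | ∃ X, bdC e X = Z ∧ ∀ y, Dir (X y)}` in `exists_Sol_inv` (closed: `bdC e` is injective
linear between finite dimensional spaces, hence a closed embedding,
`LinearMap.isClosedEmbedding_of_injective`; or describe `S` by conditions on entries using
`bdC_closed`; `isClosed_dir`).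
`step_T`: `K = η • 1 + Qr T O p q - Tᵀ_y p_y T_y` is positive definite (`η • 1` plus psd) and Dirichlet
(`dir_one`, `Dir.smul`, `Dir.pull`, `Dir.sum`), `trace_sub` with `P = p_y`, then `Dir.trace`.
Then `Dir.par`.  The formulas for `Vf` are `m4_Vf₀`, `m4_Vf₁`, the outer step as in `m4_outer`.
-/

set_option linter.unusedSectionVars false

namespace LT

open scoped Matrix ComplexOrder

variable {β : Type*} [Fintype β] [DecidableEq β]
variable {κ : β → Type*} [∀ y, Fintype (κ y)] [∀ y, DecidableEq (κ y)]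
variable {𝒮 : Type*} [DecidableEq 𝒮] {V : Finset 𝒮} {s₀ : 𝒮}

/-- `T y` is a difference matrix for every `y` -/
def IsD (V : Finset 𝒮) (s₀ : 𝒮) (T : ∀ y, Matrix (κ y) ↥(V.erase s₀) ℤ) : Prop :=
  ∀ y, ∃ (a : κ y → 𝒮) (a₀ : 𝒮), rz (T y) = dmat V s₀ a a₀

theorem l03_zero {κ' : Type*} [Fintype κ'] [DecidableEq κ'] :
    Dir (0 : Matrix κ' κ' ℝ) := by
  have h := (dir_one (κ := κ')).smul (le_refl (0 : ℝ))
  rwa [zero_smul] at h

theorem l03_pull (T : ∀ y, Matrix (κ y) ↥(V.erase s₀) ℤ) (dT : IsD V s₀ T)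
    {p : ∀ y, Matrix (κ y) (κ y) ℝ} (hp : ∀ y, Dir (p y)) (y : β) :
    Dir ((rz (T y))ᵀ * p y * rz (T y)) := by
  obtain ⟨a, a₀, h⟩ := dT y
  rw [h]
  exact (hp y).pull V s₀ a a₀

theorem l03_Qr (T O : ∀ y, Matrix (κ y) ↥(V.erase s₀) ℤ) (dT : IsD V s₀ T) (dO : IsD V s₀ O)
    {p q : ∀ y, Matrix (κ y) (κ y) ℝ} (hp : ∀ y, Dir (p y)) (hq : ∀ y, Dir (q y)) :
    Dir (Qr T O p q) := by
  unfold Qr
  exact Dir.sum _ fun y _ => (l03_pull T dT hp y).add (l03_pull O dO hq y)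

theorem l03_H (T O : ∀ y, Matrix (κ y) ↥(V.erase s₀) ℤ) (dT : IsD V s₀ T) (dO : IsD V s₀ O)
    {η : ℝ} (hη : 0 < η)
    {p q : ∀ y, Matrix (κ y) (κ y) ℝ} (hp : ∀ y, Dir (p y)) (hq : ∀ y, Dir (q y)) :
    Dir (η • (1 : Matrix ↥(V.erase s₀) ↥(V.erase s₀) ℝ) + Qr T O p q) :=
  (dir_one.smul hη.le).add (l03_Qr T O dT dO hp hq)

theorem l03_update {p : ∀ y, Matrix (κ y) (κ y) ℝ} (hp : ∀ y, Dir (p y)) (y : β) :
    ∀ y', Dir (Function.update p y 0 y') := by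
  intro y'
  by_cases h : y' = y
  · subst h
    rw [Function.update_self]
    exact l03_zero
  · rw [Function.update_of_ne h]
    exact hp y'

theorem l03_splitT (T O : ∀ y, Matrix (κ y) ↥(V.erase s₀) ℤ)
    (p q : ∀ y, Matrix (κ y) (κ y) ℝ) (y : β) :
    Qr T O p q = Qr T O (Function.update p y 0) q + (rz (T y))ᵀ * p y * rz (T y) := by
  have h : ∀ y', (rz (T y'))ᵀ * p y' * rz (T y') + (rz (O y'))ᵀ * q y' * rz (O y') =
      ((rz (T y'))ᵀ * Function.update p y 0 y' * rz (T y') +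
        (rz (O y'))ᵀ * q y' * rz (O y')) +
        (if y' = y then (rz (T y))ᵀ * p y * rz (T y) else 0) := by
    intro y'
    by_cases h : y' = y
    · subst h
      rw [Function.update_self, if_pos rfl, Matrix.mul_zero, Matrix.zero_mul, zero_add,
        add_comm]
    · rw [Function.update_of_ne h, if_neg h, add_zero]
  unfold Qr
  rw [Finset.sum_congr rfl fun y' _ => h y', Finset.sum_add_distrib, Finset.sum_ite_eq',
    if_pos (Finset.mem_univ y)]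

theorem l03_splitO (T O : ∀ y, Matrix (κ y) ↥(V.erase s₀) ℤ)
    (p q : ∀ y, Matrix (κ y) (κ y) ℝ) (y : β) :
    Qr T O p q = Qr T O p (Function.update q y 0) + (rz (O y))ᵀ * q y * rz (O y) := by
  have h : ∀ y', (rz (T y'))ᵀ * p y' * rz (T y') + (rz (O y'))ᵀ * q y' * rz (O y') =
      ((rz (T y'))ᵀ * p y' * rz (T y') +
        (rz (O y'))ᵀ * Function.update q y 0 y' * rz (O y')) +
        (if y' = y then (rz (O y))ᵀ * q y * rz (O y) else 0) := by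
    intro y'
    by_cases h : y' = y
    · subst h
      rw [Function.update_self, if_pos rfl, Matrix.mul_zero, Matrix.zero_mul, add_zero]
    · rw [Function.update_of_ne h, if_neg h, add_zero]
  unfold Qr
  rw [Finset.sum_congr rfl fun y' _ => h y', Finset.sum_add_distrib, Finset.sum_ite_eq',
    if_pos (Finset.mem_univ y)]

/-- one step for a general block -/
theorem l03_step {κ' : Type*} [Fintype κ'] [DecidableEq κ']
    {K : Matrix ↥(V.erase s₀) ↥(V.erase s₀) ℝ} (hK : K.PosDef) (hD : Dir K)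
    {P : Matrix κ' κ' ℝ} (hP : Dir P) {S : Matrix κ' ↥(V.erase s₀) ℝ} {a : κ' → 𝒮} {a₀ : 𝒮}
    (hS : S = dmat V s₀ a a₀) (gS : (S * Sᵀ).PosDef) :
    Dir ((S * (K + Sᵀ * P * S)⁻¹ * Sᵀ)⁻¹ - P) := by
  rw [trace_sub hK hP.psd gS, hS]
  rw [hS] at gS
  exact Dir.trace hK hD a a₀ gS

theorem step_T (T O : ∀ y, Matrix (κ y) ↥(V.erase s₀) ℤ) (dT : IsD V s₀ T) (dO : IsD V s₀ O)
    (gT : ∀ y, (rz (T y) * (rz (T y))ᵀ).PosDef) {η : ℝ} (hη : 0 < η)
    {p q : ∀ y, Matrix (κ y) (κ y) ℝ} (hp : ∀ y, Dir (p y)) (hq : ∀ y, Dir (q y)) (y : β) :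
    Dir ((rz (T y) * (η • (1 : Matrix ↥(V.erase s₀) ↥(V.erase s₀) ℝ) + Qr T O p q)⁻¹ *
      (rz (T y))ᵀ)⁻¹ - p y) := by
  obtain ⟨a, a₀, h⟩ := dT y
  have hu := l03_update hp y
  have hK := m4_H_pd T O hη (fun y' => (hu y').psd) (fun y' => (hq y').psd)
  have hD := l03_H T O dT dO hη hu hq
  have h1 := l03_step hK hD (hp y) h (gT y)
  rw [add_assoc, ← l03_splitT T O p q y] at h1
  exact h1

theorem step_O (T O : ∀ y, Matrix (κ y) ↥(V.erase s₀) ℤ) (dT : IsD V s₀ T) (dO : IsD V s₀ O)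
    (gO : ∀ y, (rz (O y) * (rz (O y))ᵀ).PosDef) {η : ℝ} (hη : 0 < η)
    {p q : ∀ y, Matrix (κ y) (κ y) ℝ} (hp : ∀ y, Dir (p y)) (hq : ∀ y, Dir (q y)) (y : β) :
    Dir ((rz (O y) * (η • (1 : Matrix ↥(V.erase s₀) ↥(V.erase s₀) ℝ) + Qr T O p q)⁻¹ *
      (rz (O y))ᵀ)⁻¹ - q y) := by
  obtain ⟨a, a₀, h⟩ := dO y
  have hu := l03_update hq y
  have hK := m4_H_pd T O hη (fun y' => (hp y').psd) (fun y' => (hu y').psd)
  have hD := l03_H T O dT dO hη hp hu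
  have h1 := l03_step hK hD (hq y) h (gO y)
  rw [add_assoc, ← l03_splitO T O p q y] at h1
  exact h1

section

variable {ι : Type*} [Fintype ι] [DecidableEq ι]

/-- the closed set of block diagonal Dirichlet matrices -/
theorem l03_closed (e : (Σ y, κ y) ≃ ι) :
    IsClosed {Z : Matrix ι ι ℂ | ∃ X : ∀ y, Matrix (κ y) (κ y) ℝ, bdC e X = Z ∧
      ∀ y, Dir (X y)} := by
  have h : {Z : Matrix ι ι ℂ | ∃ X : ∀ y, Matrix (κ y) (κ y) ℝ, bdC e X = Z ∧
      ∀ y, Dir (X y)} = Set.range (bdC e) ∩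
      ⋂ y, (fun Z : Matrix ι ι ℂ => (Matrix.of fun i j : κ y =>
        (Z (e ⟨y, i⟩) (e ⟨y, j⟩)).re : Matrix (κ y) (κ y) ℝ)) ⁻¹' {X | Dir X} := by
    have key : ∀ (X : ∀ y, Matrix (κ y) (κ y) ℝ) (y : β),
        (Matrix.of fun i j : κ y => (bdC e X (e ⟨y, i⟩) (e ⟨y, j⟩)).re :
          Matrix (κ y) (κ y) ℝ) = X y := by
      intro X y
      ext i j
      simp [bdC, Matrix.blockDiagonal'_apply_eq]
    ext Z
    simp only [Set.mem_ofPred_eq, Set.mem_inter_iff, Set.mem_range, Set.mem_iInter,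
      Set.mem_preimage]
    constructor
    · rintro ⟨X, rfl, hX⟩
      refine ⟨⟨X, rfl⟩, fun y => ?_⟩
      rw [key X y]
      exact hX y
    · rintro ⟨⟨X, rfl⟩, hX⟩
      refine ⟨X, rfl, fun y => ?_⟩
      have h1 := hX y
      rw [key X y] at h1
      exact h1
  rw [h]
  refine (bdC_closed e).inter (isClosed_iInter fun y => IsClosed.preimage ?_ isClosed_dir)
  refine continuous_matrix fun i j => ?_
  exact Complex.continuous_re.comp (continuous_id.matrix_elem _ _)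

/-- the outer step stays in the closed set -/
theorem l03_outer (e : (Σ y, κ y) ≃ ι) {V : ∀ y, Matrix (κ y) (κ y) ℝ}
    (hV : ∀ y, (V y).PosDef) {r : ∀ y, Matrix (κ y) (κ y) ℝ}
    (h : ((bdC e V)⁻¹ - bdC e r).PosDef) (hd : ∀ y, Dir ((V y)⁻¹ - r y)) :
    ∃ X : ∀ y, Matrix (κ y) (κ y) ℝ,
      bdC e X = 1 - (1 + ((bdC e V)⁻¹ - bdC e r))⁻¹ ∧ ∀ y, Dir (X y) := by
  rw [bdC_inv e hV, ← bdC_sub e] at h ⊢
  have h1 := (bdC_pd e).1 h
  have h2 : ∀ y, (1 + ((V y)⁻¹ - r y)).PosDef := fun y =>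
    Matrix.PosDef.one.add_posSemidef (h1 y).posSemidef
  refine ⟨fun y => 1 - (1 + ((V y)⁻¹ - r y))⁻¹, ?_, fun y => (hd y).par⟩
  rw [bdC_sub e, ← bdC_inv e h2, bdC_add e, bdC_one e]

end

theorem exists_msg_dir (e : (Σ y, κ y) ≃ ↥(V.erase s₀))
    (T O : ∀ y, Matrix (κ y) ↥(V.erase s₀) ℤ) (dT : IsD V s₀ T) (dO : IsD V s₀ O)
    (gT : ∀ y, (rz (T y) * (rz (T y))ᵀ).PosDef) (gO : ∀ y, (rz (O y) * (rz (O y))ᵀ).PosDef)
    {η : ℝ} (hη : 0 < η) :
    ∃ M : Msg T O η, (∀ y, Dir (M.p y)) ∧ (∀ y, Dir (M.q y)) ∧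
      M.E0 ≤ LG (mapM m2phi ((penc T O).submatrix e.symm id)) η := by
  have h1 : (trN (F2 β)).f 1 = 1 := trN_one
  have hE₀ := m4_E₀ e O gO
  have hE₁ := m4_E₁ e T gT
  have hz : (0 : Matrix ↥(V.erase s₀) ↥(V.erase s₀) ℂ).PosSemidef := Matrix.PosSemidef.zero
  obtain ⟨Z, hZ₀, hZ₁⟩ := exists_Sol_inv (trN (F2 β)) (m2a0 e O) (m2a1 e T) h1 hη hE₀ hE₁
    {Z | ∃ X : ∀ y, Matrix (κ y) (κ y) ℝ, bdC e X = Z ∧ ∀ y, Dir (X y)}
    (l03_closed e) ⟨fun _ => 1, bdC_one e, fun _ => dir_one⟩ (by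
      rintro P Q hP hQ ⟨q, rfl, hqD⟩ ⟨p, rfl, hpD⟩
      have hq := (bdC_psd e).1 hP
      have hp := (bdC_psd e).1 hQ
      have hH := m4_H_pd T O hη hp hq
      have hV₁ : ∀ y, (rz (T y) * (η • (1 : Matrix ↥(V.erase s₀) ↥(V.erase s₀) ℝ) +
          Qr T O p q)⁻¹ * (rz (T y))ᵀ).PosDef := fun y => m4_conj_posDef hH.inv (gT y)
      have hV₀ : ∀ y, (rz (O y) * (η • (1 : Matrix ↥(V.erase s₀) ↥(V.erase s₀) ℝ) +
          Qr T O p q)⁻¹ * (rz (O y))ᵀ).PosDef := fun y => m4_conj_posDef hH.inv (gO y)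
      constructor
      · have h2 := Vf_mono₁ (τ := trN (F2 β)) (a₀ := m2a0 e O) (a₁ := m2a1 e T) (η := η) h1 hη
          hE₁ hz hz (p' := bdC e q) (q' := bdC e p) (by rw [sub_zero]; exact hP)
          (by rw [sub_zero]; exact hQ)
        have h3 := (Vf_posDef (a₀ := m2a0 e O) (a₁ := m2a1 e T) hE₁ hη hz hz).inv
        rw [sub_zero] at h2
        have h4 := h3.add_posSemidef h2
        rw [add_sub_cancel] at h4
        rw [m4_Vf₁ e T O hη hp hq] at h4 ⊢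
        exact l03_outer e hV₁ h4 (step_T T O dT dO gT hη hpD hqD)
      · have h2 := Vf_mono₀ (τ := trN (F2 β)) (a₀ := m2a0 e O) (a₁ := m2a1 e T) (η := η) h1 hη
          hE₀ hz hz (p' := bdC e q) (q' := bdC e p) (by rw [sub_zero]; exact hP)
          (by rw [sub_zero]; exact hQ)
        have h3 := (Vf_posDef (a₀ := m2a0 e O) (a₁ := m2a1 e T) hE₀ hη hz hz).inv
        rw [sub_zero] at h2
        have h4 := h3.add_posSemidef h2
        rw [add_sub_cancel] at h4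
        rw [m4_Vf₀ e T O hη hp hq] at h4 ⊢
        exact l03_outer e hV₀ h4 (step_O T O dT dO gO hη hpD hqD))
  obtain ⟨q, hq, hqD⟩ := hZ₀
  obtain ⟨p, hp, hpD⟩ := hZ₁
  have hqd : ∀ y, (q y).PosDef := by
    rw [← bdC_pd e, hq]
    exact Z.q05_l₀
  have hpd : ∀ y, (p y).PosDef := by
    rw [← bdC_pd e, hp]
    exact Z.q05_l₁
  have hqs : ∀ y, (q y).PosSemidef := fun y => (hqd y).posSemidef
  have hps : ∀ y, (p y).PosSemidef := fun y => (hpd y).posSemidef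
  have hH := m4_H_pd T O hη hps hqs
  have hHu : IsUnit (η • (1 : Matrix ↥(V.erase s₀) ↥(V.erase s₀) ℝ) + Qr T O p q).det :=
    (Matrix.isUnit_iff_isUnit_det _).1 hH.isUnit
  have hQm : Qm (m2a0 e O) (m2a1 e T) η Z.l₀ Z.l₁ =
      scal (N (F2 β)) ((η • (1 : Matrix ↥(V.erase s₀) ↥(V.erase s₀) ℝ) +
        Qr T O p q).map Complex.ofReal) := by
    rw [← hq, ← hp, m2_Qm]
  have hinv := m4_scal_inv (𝔄 := N (F2 β)) hH
  have hZR : Z.R = scal (N (F2 β))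
      (((η • (1 : Matrix ↥(V.erase s₀) ↥(V.erase s₀) ℝ) + Qr T O p q)⁻¹).map
        Complex.ofReal) := by
    have h2 := Z.RQ
    rw [hQm] at h2
    calc Z.R = Z.R * (scal (N (F2 β)) ((η • (1 : Matrix ↥(V.erase s₀) ↥(V.erase s₀) ℝ) +
          Qr T O p q).map Complex.ofReal) *
          scal (N (F2 β)) (((η • (1 : Matrix ↥(V.erase s₀) ↥(V.erase s₀) ℝ) +
            Qr T O p q)⁻¹).map Complex.ofReal)) := by
          rw [hinv.1, Matrix.mul_one]
      _ = _ := by rw [← Matrix.mul_assoc, h2, Matrix.one_mul]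
  have hV₀ : Z.V₀ = bdC e (fun y => rz (O y) *
      (η • (1 : Matrix ↥(V.erase s₀) ↥(V.erase s₀) ℝ) + Qr T O p q)⁻¹ * (rz (O y))ᵀ) := by
    unfold Sol.V₀
    rw [hZR, m2_E₀]
  have hV₁ : Z.V₁ = bdC e (fun y => rz (T y) *
      (η • (1 : Matrix ↥(V.erase s₀) ↥(V.erase s₀) ℝ) + Qr T O p q)⁻¹ * (rz (T y))ᵀ) := by
    unfold Sol.V₁
    rw [hZR, m2_E₁]
  have hsum : Z.l₀ + Z.l₁ = bdC e (fun y => p y + q y) := by
    rw [← hq, ← hp, bdC_add e, add_comm]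
  have hsumd : ∀ y, (p y + q y).PosDef := fun y => (hpd y).add (hqd y)
  have hsuminv : (Z.l₀ + Z.l₁)⁻¹ = bdC e (fun y => (p y + q y)⁻¹) := by
    rw [hsum, bdC_inv e hsumd]
  let M : Msg T O η :=
    { p := p
      q := q
      R := (η • (1 : Matrix ↥(V.erase s₀) ↥(V.erase s₀) ℝ) + Qr T O p q)⁻¹
      p_pos := hpd
      q_pos := hqd
      p_le := by
        rw [← bdC_psd e, bdC_sub e, bdC_one e, hp]
        exact (q05_one_sub_posDef Z.δ_pos Z.hi₁).posSemidef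
      q_le := by
        rw [← bdC_psd e, bdC_sub e, bdC_one e, hq]
        exact (q05_one_sub_posDef Z.δ_pos Z.hi₀).posSemidef
      R_pos := hH.inv
      RQ := Matrix.nonsing_inv_mul _ hHu
      hT := by
        rw [← bdC_psd e, bdC_sub e, ← hsuminv, ← hV₁]
        exact Z.q05_V₁
      hO := by
        rw [← bdC_psd e, bdC_sub e, ← hsuminv, ← hV₀]
        exact Z.q05_V₀ }
  obtain ⟨U, hU, hA₀, hA₁⟩ := m2_UF e T O
  have hgram := m2_gram e T O
  refine ⟨M, hpD, hqD, ?_⟩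
  unfold LG
  rw [hgram, ← hU, Z.LM_formula h1 hη U.u1 U.u2 (Z.D_eq_zero U h1 hη hA₀ hA₁), hQm,
    LM_scal _ (map_ofReal_pd hH), trN_mass, one_mul]
  have hdet : ((η • (1 : Matrix ↥(V.erase s₀) ↥(V.erase s₀) ℝ) +
      Qr T O p q).map Complex.ofReal).det.re =
      (η • (1 : Matrix ↥(V.erase s₀) ↥(V.erase s₀) ℝ) + Qr T O p q).det := by
    have h2 : ((η • (1 : Matrix ↥(V.erase s₀) ↥(V.erase s₀) ℝ) +
        Qr T O p q).map Complex.ofReal).det =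
        (((η • (1 : Matrix ↥(V.erase s₀) ↥(V.erase s₀) ℝ) + Qr T O p q).det : ℝ) : ℂ) :=
      (RingHom.map_det Complex.ofRealHom _).symm
    rw [h2, Complex.ofReal_re]
  rw [hdet]
  have hs : ‖Z.s.det‖ ≤ (Z.l₀ + Z.l₁).det.re := by
    refine norm_det_s_le Z.q05_l₀ Z.q05_l₁ ?_ ?_
    · exact (q05_one_sub_posDef Z.δ_pos Z.hi₀).posSemidef
    · exact (q05_one_sub_posDef Z.δ_pos Z.hi₁).posSemidef
  have hs0 : 0 < ‖Z.s.det‖ := by
    rw [norm_pos_iff]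
    exact ((Matrix.isUnit_iff_isUnit_det _).1 Z.isUnit_s).ne_zero
  have hl := Real.log_le_log hs0 hs
  rw [hsum, bdC_det e, Complex.ofReal_re, Real.log_prod] at hl
  · have hE0 : M.E0 = Real.log (η • (1 : Matrix ↥(V.erase s₀) ↥(V.erase s₀) ℝ) +
        Qr T O p q).det - ∑ y, Real.log (p y + q y).det := rfl
    rw [hE0]
    linarith
  · intro y _
    exact (hsumd y).det_pos.ne'

end LT
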