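import Mathlib

/-!
# LG-L05: Rado's theorem for pairs of vectors

Prove more generally, for a family of nonempty sets `A e : Finset Bool`, that
`∀ F, F.card ≤ finrank (span {u e b | e ∈ F, b ∈ A e})` gives an independent choice; induction on
the number of `e` with `A e = univ`.  If all are singletons the condition for `F = univ` says that
`card E` vectors span a space of dimension `≥ card E`, so they are independent
(`linearIndependent_iff_card_le_finrank_span` or similar).  Otherwise `A e₀ = {true, false}`; if
neither element can be removed there are `F₁, F₂ ∌ e₀` with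
`finrank (U_{F₁} + ⟨u e₀ true⟩) ≤ |F₁|` and `finrank (U_{F₂} + ⟨u e₀ false⟩) ≤ |F₂|`
(`U_F = span {u e b | e ∈ F, b ∈ A e}`).  By `Submodule.finrank_sup_add_finrank_inf_eq`
(the sum is `U_{F₁ ∪ F₂ ∪ {e₀}}`, the intersection contains `U_{F₁ ∩ F₂}`)
`(|F₁ ∪ F₂| + 1) + |F₁ ∩ F₂| ≤ |F₁| + |F₂|`, a contradiction.
-/

set_option linter.unusedSectionVars false

namespace LT

/-- the span of the vectors of `F` allowed by `A` -/
private def l05U {E W : Type*} [AddCommGroup W] [Module ℝ W] (u : E → Bool → W)
    (A : E → Finset Bool) (F : Finset E) : Submodule ℝ W :=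
  Submodule.span ℝ {w : W | ∃ e ∈ F, ∃ b ∈ A e, w = u e b}

private theorem l05_mem {E W : Type*} [AddCommGroup W] [Module ℝ W] {u : E → Bool → W}
    {A : E → Finset Bool} {F : Finset E} {e : E} {b : Bool} (he : e ∈ F) (hb : b ∈ A e) :
    u e b ∈ l05U u A F :=
  Submodule.subset_span ⟨e, he, b, hb, rfl⟩

private theorem l05_le {E W : Type*} [AddCommGroup W] [Module ℝ W] {u : E → Bool → W}
    {A : E → Finset Bool} {F : Finset E} {P : Submodule ℝ W}
    (h : ∀ e ∈ F, ∀ b ∈ A e, u e b ∈ P) : l05U u A F ≤ P := by
  unfold l05U
  rw [Submodule.span_le]
  rintro w ⟨e, he, b, hb, rfl⟩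
  exact h e he b hb

private theorem l05_gen {E W : Type*} [Fintype E] [DecidableEq E] [AddCommGroup W] [Module ℝ W]
    [FiniteDimensional ℝ W] (u : E → Bool → W) (k : ℕ) : ∀ A : E → Finset Bool,
    (∀ e, (A e).Nonempty) → (Finset.univ.filter (fun e => A e = Finset.univ)).card = k →
    (∀ F : Finset E, F.card ≤ Module.finrank ℝ (l05U u A F)) →
    ∃ σ : E → Bool, LinearIndependent ℝ (fun e => u e (σ e)) := by
  induction k with
  | zero =>
    intro A hA hk hF
    choose σ hσ using hA
    refine ⟨σ, ?_⟩
    rw [linearIndependent_iff_card_le_finrank_span]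
    have h1 := hF Finset.univ
    rw [Finset.card_univ] at h1
    refine h1.trans ?_
    unfold Set.finrank
    refine Submodule.finrank_mono (l05_le ?_)
    intro e _ b hb
    have h2 : b = σ e := by
      by_contra hne
      have h3 : A e = Finset.univ := by
        ext c
        simp only [Finset.mem_univ, iff_true]
        by_cases hc : c = b
        · rw [hc]
          exact hb
        · have : c = σ e := by
            cases c <;> cases b <;> cases hh : σ e <;> simp_all
          rw [this]
          exact hσ e
      have h4 : e ∈ Finset.univ.filter (fun e => A e = Finset.univ) := by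
        simp only [Finset.mem_filter, Finset.mem_univ, true_and]
        exact h3
      rw [Finset.card_eq_zero.mp hk] at h4
      exact absurd h4 (Finset.notMem_empty e)
    rw [h2]
    exact Submodule.subset_span ⟨e, rfl⟩
  | succ k ih =>
    intro A hA hk hF
    have hne : (Finset.univ.filter (fun e => A e = Finset.univ)).Nonempty := by
      rw [← Finset.card_pos, hk]
      omega
    obtain ⟨e₀, he₀⟩ := hne
    have hAe : A e₀ = Finset.univ := (Finset.mem_filter.mp he₀).2
    by_cases hex : ∃ b : Bool, ∀ F : Finset E, F.card ≤
        Module.finrank ℝ (l05U u (Function.update A e₀ {b}) F)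
    · obtain ⟨b, hb⟩ := hex
      refine ih (Function.update A e₀ {b}) ?_ ?_ hb
      · intro e
        by_cases he : e = e₀
        · rw [he, Function.update_self]
          exact Finset.singleton_nonempty b
        · rw [Function.update_of_ne he]
          exact hA e
      · have h1 : Finset.univ.filter (fun e => Function.update A e₀ {b} e = Finset.univ) =
            (Finset.univ.filter (fun e => A e = Finset.univ)).erase e₀ := by
          ext e
          simp only [Finset.mem_filter, Finset.mem_univ, true_and, Finset.mem_erase]
          by_cases he : e = e₀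
          · rw [he, Function.update_self]
            constructor
            · intro h2
              have h3 : (!b) ∈ (Finset.univ : Finset Bool) := Finset.mem_univ _
              rw [← h2, Finset.mem_singleton] at h3
              cases b <;> simp at h3
            · intro h2
              exact absurd rfl h2.1
          · rw [Function.update_of_ne he]
            exact ⟨fun h2 => ⟨he, h2⟩, fun h2 => h2.2⟩
        rw [h1, Finset.card_erase_of_mem he₀, hk]
        rfl
    · exfalso
      push Not at hex
      obtain ⟨F₁, h₁⟩ := hex true
      obtain ⟨F₂, h₂⟩ := hex false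
      have hmem : ∀ (b : Bool) (F : Finset E),
          Module.finrank ℝ (l05U u (Function.update A e₀ {b}) F) < F.card → e₀ ∈ F := by
        intro b F hlt
        by_contra hnot
        have h3 : l05U u A F ≤ l05U u (Function.update A e₀ {b}) F := by
          refine l05_le fun e he c hc => l05_mem he ?_
          rw [Function.update_of_ne (fun hh : e = e₀ => hnot (by rw [← hh]; exact he))]
          exact hc
        have h4 := Submodule.finrank_mono h3
        have h5 := hF F
        omega
      have m₁ := hmem true F₁ h₁
      have m₂ := hmem false F₂ h₂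
      have hsup : l05U u A (F₁ ∪ F₂) ≤
          l05U u (Function.update A e₀ {true}) F₁ ⊔ l05U u (Function.update A e₀ {false}) F₂ := by
        refine l05_le fun e he c hc => ?_
        by_cases hee : e = e₀
        · subst hee
          cases c
          · refine Submodule.mem_sup_right (l05_mem m₂ ?_)
            rw [Function.update_self]
            exact Finset.mem_singleton_self _
          · refine Submodule.mem_sup_left (l05_mem m₁ ?_)
            rw [Function.update_self]
            exact Finset.mem_singleton_self _
        · rcases Finset.mem_union.mp he with he | he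
          · refine Submodule.mem_sup_left (l05_mem he ?_)
            rw [Function.update_of_ne hee]
            exact hc
          · refine Submodule.mem_sup_right (l05_mem he ?_)
            rw [Function.update_of_ne hee]
            exact hc
      have hinf : l05U u A ((F₁ ∩ F₂).erase e₀) ≤
          l05U u (Function.update A e₀ {true}) F₁ ⊓ l05U u (Function.update A e₀ {false}) F₂ := by
        refine l05_le fun e he c hc => ?_
        have hee : e ≠ e₀ := Finset.ne_of_mem_erase he
        have he' := Finset.mem_inter.mp (Finset.mem_of_mem_erase he)
        refine ⟨l05_mem he'.1 ?_, l05_mem he'.2 ?_⟩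
        · rw [Function.update_of_ne hee]
          exact hc
        · rw [Function.update_of_ne hee]
          exact hc
      have h3 := Submodule.finrank_mono hsup
      have h4 := Submodule.finrank_mono hinf
      have h5 := hF (F₁ ∪ F₂)
      have h6 := hF ((F₁ ∩ F₂).erase e₀)
      have h7 := Submodule.finrank_sup_add_finrank_inf_eq
        (l05U u (Function.update A e₀ {true}) F₁) (l05U u (Function.update A e₀ {false}) F₂)
      have h8 := Finset.card_union_add_card_inter F₁ F₂
      have h9 : ((F₁ ∩ F₂).erase e₀).card = (F₁ ∩ F₂).card - 1 :=
        Finset.card_erase_of_mem (Finset.mem_inter.mpr ⟨m₁, m₂⟩)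
      have h10 : 0 < (F₁ ∩ F₂).card := Finset.card_pos.mpr ⟨e₀, Finset.mem_inter.mpr ⟨m₁, m₂⟩⟩
      omega

theorem rado {E W : Type*} [Fintype E] [DecidableEq E] [AddCommGroup W] [Module ℝ W]
    [FiniteDimensional ℝ W] (u : E → Bool → W)
    (h : ∀ F : Finset E, F.card ≤
      Module.finrank ℝ (Submodule.span ℝ {w : W | ∃ e ∈ F, ∃ b, w = u e b})) :
    ∃ σ : E → Bool, LinearIndependent ℝ (fun e => u e (σ e)) := by
  refine l05_gen u _ (fun _ => Finset.univ) (fun _ => ⟨true, Finset.mem_univ _⟩) rfl ?_
  intro F
  refine (h F).trans (Submodule.finrank_mono ?_)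
  rw [Submodule.span_le]
  rintro w ⟨e, he, b, rfl⟩
  exact l05_mem he (Finset.mem_univ b)

end LT
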